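import Mathlib

set_option maxSynthPendingDepth 3

open scoped ContDiff Topology
open Set Function Filter

namespace Pool.Agent.Helper17

section CF

variable {T : Type} [TopologicalSpace T] {E : Type} [NormedAddCommGroup E] [NormedSpace ℝ E]

/-- Families of maps of class `C^k` whose derivatives of order at most `k` are jointly
continuous. -/
def CFk (T : Type) [TopologicalSpace T] (E : Type) [NormedAddCommGroup E] [NormedSpace ℝ E] :
    ℕ → ∀ (E' : Type) [NormedAddCommGroup E'] [NormedSpace ℝ E'], (T → E → E') → Prop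
  | 0, _, _, _, F => Continuous (fun p : T × E => F p.1 p.2)
  | k + 1, E', _, _, F => Continuous (fun p : T × E => F p.1 p.2) ∧
      (∀ t, Differentiable ℝ (F t)) ∧ CFk T E k (E →L[ℝ] E') (fun t x => fderiv ℝ (F t) x)

/-- Families of smooth maps all of whose derivatives are jointly continuous. -/
def CF {E' : Type} [NormedAddCommGroup E'] [NormedSpace ℝ E'] (F : T → E → E') : Prop :=
  ∀ k, CFk T E k E' F

variable {E' : Type} [NormedAddCommGroup E'] [NormedSpace ℝ E']
  {E'' : Type} [NormedAddCommGroup E''] [NormedSpace ℝ E'']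

lemma CFk.continuous {k : ℕ} {F : T → E → E'} (h : CFk T E k E' F) :
    Continuous (fun p : T × E => F p.1 p.2) := by
  cases k with
  | zero => exact h
  | succ k => exact h.1

lemma CFk.pred {k : ℕ} : ∀ {E' : Type} [NormedAddCommGroup E'] [NormedSpace ℝ E']
    {F : T → E → E'}, CFk T E (k + 1) E' F → CFk T E k E' F := by
  induction k with
  | zero => intro E' _ _ F h; exact h.1
  | succ k ih =>
    intro E' _ _ F h
    exact ⟨h.1, h.2.1, ih h.2.2⟩

lemma CF.continuous {F : T → E → E'} (h : CF F) : Continuous (fun p : T × E => F p.1 p.2) := h 0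

lemma CF.differentiable {F : T → E → E'} (h : CF F) (t : T) : Differentiable ℝ (F t) :=
  (h 1).2.1 t

lemma CF.fderiv {F : T → E → E'} (h : CF F) : CF (fun t x => fderiv ℝ (F t) x) :=
  fun k => (h (k + 1)).2.2

lemma CF.of_fderiv {F : T → E → E'} (h0 : Continuous (fun p : T × E => F p.1 p.2))
    (h1 : ∀ t, Differentiable ℝ (F t)) (h2 : CF (fun t x => _root_.fderiv ℝ (F t) x)) : CF F := by
  intro k
  cases k with
  | zero => exact h0
  | succ k => exact ⟨h0, h1, h2 k⟩

lemma CFk.contDiff {k : ℕ} : ∀ {E' : Type} [NormedAddCommGroup E'] [NormedSpace ℝ E']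
    {F : T → E → E'}, CFk T E k E' F → ∀ t, ContDiff ℝ k (F t) := by
  induction k with
  | zero =>
    intro E' _ _ F h t
    rw [Nat.cast_zero, contDiff_zero]
    exact h.comp (Continuous.prodMk_right t)
  | succ k ih =>
    intro E' _ _ F h t
    rw [Nat.cast_succ, contDiff_succ_iff_fderiv]
    refine ⟨h.2.1 t, by simp, ih h.2.2 t⟩

lemma CF.contDiff {F : T → E → E'} (h : CF F) (t : T) : ContDiff ℝ ∞ (F t) :=
  contDiff_infty.2 fun k => (h k).contDiff t

/-- Composition with a fixed continuous linear map. -/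
lemma CFk.clm {k : ℕ} : ∀ {E' : Type} [NormedAddCommGroup E'] [NormedSpace ℝ E']
    {E'' : Type} [NormedAddCommGroup E''] [NormedSpace ℝ E''] (L : E' →L[ℝ] E'')
    {F : T → E → E'}, CFk T E k E' F → CFk T E k E'' (fun t x => L (F t x)) := by
  induction k with
  | zero => intro E' _ _ E'' _ _ L F h; exact L.continuous.comp h
  | succ k ih =>
    intro E' _ _ E'' _ _ L F h
    refine ⟨L.continuous.comp h.1, fun t => L.differentiable.comp (h.2.1 t), ?_⟩
    have h1 := ih (ContinuousLinearMap.compL ℝ E E' E'' L) h.2.2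
    convert h1 using 3 with t x
    exact (L.hasFDerivAt.comp x (h.2.1 t x).hasFDerivAt).fderiv

lemma CFk.prodMk {k : ℕ} : ∀ {E' : Type} [NormedAddCommGroup E'] [NormedSpace ℝ E']
    {E'' : Type} [NormedAddCommGroup E''] [NormedSpace ℝ E'']
    {F : T → E → E'} {G : T → E → E''}, CFk T E k E' F → CFk T E k E'' G →
    CFk T E k (E' × E'') (fun t x => (F t x, G t x)) := by
  induction k with
  | zero => intro E' _ _ E'' _ _ F G h h'; exact Continuous.prodMk h h'
  | succ k ih =>
    intro E' _ _ E'' _ _ F G h h'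
    refine ⟨Continuous.prodMk h.1 h'.1, fun t => (h.2.1 t).prodMk (h'.2.1 t), ?_⟩
    have h1 := CFk.clm (ContinuousLinearMap.prodₗᵢ (𝕜 := ℝ) ℝ :
      (E →L[ℝ] E') × (E →L[ℝ] E'') ≃ₗᵢ[ℝ] E →L[ℝ] E' × E'').toContinuousLinearEquiv.toContinuousLinearMap
      (ih h.2.2 h'.2.2)
    convert h1 using 3 with t x
    exact ((h.2.1 t x).hasFDerivAt.prodMk (h'.2.1 t x).hasFDerivAt).fderiv

/-- Composition with a fixed smooth map. -/
lemma CFk.comp_smooth {k : ℕ} : ∀ {E' : Type} [NormedAddCommGroup E'] [NormedSpace ℝ E']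
    {E'' : Type} [NormedAddCommGroup E''] [NormedSpace ℝ E''] {g : E' → E''}
    {F : T → E → E'}, (∀ t x, ContDiffAt ℝ ∞ g (F t x)) → CFk T E k E' F →
    CFk T E k E'' (fun t x => g (F t x)) := by
  induction k with
  | zero =>
    intro E' _ _ E'' _ _ g F hg h
    refine continuous_iff_continuousAt.2 fun p => ?_
    exact ContinuousAt.comp (f := fun p : T × E => F p.1 p.2) (hg p.1 p.2).continuousAt
      (CFk.continuous h).continuousAt
  | succ k ih =>
    intro E' _ _ E'' _ _ g F hg h
    have hgd : ∀ t x, DifferentiableAt ℝ g (F t x) := fun t x =>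
      (hg t x).differentiableAt (by simp)
    refine ⟨?_, fun t x => (hgd t x).comp x (h.2.1 t x), ?_⟩
    · refine continuous_iff_continuousAt.2 fun p => ?_
      exact ContinuousAt.comp (f := fun p : T × E => F p.1 p.2) (hg p.1 p.2).continuousAt
        (CFk.continuous h).continuousAt
    · have h1 : CFk T E k (E' →L[ℝ] E'') (fun t x => fderiv ℝ g (F t x)) :=
        ih (fun t x => (hg t x).fderiv_right (by simp)) h.pred
      have h2 := CFk.prodMk h1 h.2.2
      have h3 := ih (g := fun q : (E' →L[ℝ] E'') × (E →L[ℝ] E') => q.1.comp q.2)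
        (fun t x => (contDiff_fst.clm_comp contDiff_snd).contDiffAt) h2
      convert h3 using 3 with t x
      exact fderiv_comp x (hgd t x) (h.2.1 t x)

/-- Composition of families. -/
lemma CFk.comp {D : Type} [NormedAddCommGroup D] [NormedSpace ℝ D] {k : ℕ} :
    ∀ {E' : Type} [NormedAddCommGroup E'] [NormedSpace ℝ E']
    {F : T → D → E'} {G : T → E → D}, CFk T D k E' F → CFk T E k D G →
    CFk T E k E' (fun t x => F t (G t x)) := by
  induction k with
  | zero =>
    intro E' _ _ F G hF hG
    exact Continuous.comp (g := fun p : T × D => F p.1 p.2) hF (continuous_fst.prodMk hG)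
  | succ k ih =>
    intro E' _ _ F G hF hG
    refine ⟨Continuous.comp (g := fun p : T × D => F p.1 p.2) hF.1 (continuous_fst.prodMk hG.1),
      fun t => (hF.2.1 t).comp (hG.2.1 t), ?_⟩
    have h1 := ih hF.2.2 hG.pred
    have h2 := CFk.prodMk h1 hG.2.2
    have h3 := CFk.comp_smooth (g := fun q : (D →L[ℝ] E') × (E →L[ℝ] D) => q.1.comp q.2)
      (fun t x => (contDiff_fst.clm_comp contDiff_snd).contDiffAt) h2
    convert h3 using 3 with t x
    exact fderiv_comp x (hF.2.1 t _) (hG.2.1 t x)

/-- A fixed smooth map. -/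
lemma CFk.const {k : ℕ} : ∀ {E' : Type} [NormedAddCommGroup E'] [NormedSpace ℝ E']
    {f : E → E'}, ContDiff ℝ ∞ f → CFk T E k E' (fun _ x => f x) := by
  induction k with
  | zero => intro E' _ _ f hf; exact hf.continuous.comp continuous_snd
  | succ k ih =>
    intro E' _ _ f hf
    exact ⟨hf.continuous.comp continuous_snd, fun _ => hf.differentiable (by simp),
      ih (hf.fderiv_right (by simp))⟩

/-- A family of constant maps. -/
lemma CFk.param {k : ℕ} {c : T → E'} (hc : Continuous c) : CFk T E k E' (fun t _ => c t) := by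
  induction k with
  | zero => exact hc.comp continuous_fst
  | succ k ih =>
    refine ⟨hc.comp continuous_fst, fun t => differentiable_const _, ?_⟩
    have h1 : CFk T E k (E →L[ℝ] E') (fun _ _ => (0 : E →L[ℝ] E')) :=
      CFk.const (f := fun _ : E => (0 : E →L[ℝ] E')) contDiff_const
    convert h1 using 3 with t x
    exact (hasFDerivAt_const (c t) x).fderiv

/-- Change of the parameter space. -/
lemma CFk.base {T' : Type} [TopologicalSpace T'] {h : T' → T} (hh : Continuous h) {k : ℕ} :
    ∀ {E' : Type} [NormedAddCommGroup E'] [NormedSpace ℝ E']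
    {F : T → E → E'}, CFk T E k E' F → CFk T' E k E' (fun t x => F (h t) x) := by
  induction k with
  | zero =>
    intro E' _ _ F hF
    exact Continuous.comp (g := fun p : T × E => F p.1 p.2) hF
      ((hh.comp continuous_fst).prodMk continuous_snd)
  | succ k ih =>
    intro E' _ _ F hF
    exact ⟨Continuous.comp (g := fun p : T × E => F p.1 p.2) hF.1
      ((hh.comp continuous_fst).prodMk continuous_snd), fun t => hF.2.1 (h t), ih hF.2.2⟩

/-! The same for `CF`. -/

lemma CF.clm (L : E' →L[ℝ] E'') {F : T → E → E'} (h : CF F) : CF (fun t x => L (F t x)) :=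
  fun k => (h k).clm L

lemma CF.prodMk {F : T → E → E'} {G : T → E → E''} (hF : CF F) (hG : CF G) :
    CF (fun t x => (F t x, G t x)) := fun k => (hF k).prodMk (hG k)

lemma CF.comp_smooth {g : E' → E''} {F : T → E → E'} (hg : ∀ t x, ContDiffAt ℝ ∞ g (F t x))
    (hF : CF F) : CF (fun t x => g (F t x)) := fun k => (hF k).comp_smooth hg

lemma CF.comp {D : Type} [NormedAddCommGroup D] [NormedSpace ℝ D] {F : T → D → E'}
    {G : T → E → D} (hF : CF F) (hG : CF G) : CF (fun t x => F t (G t x)) :=
  fun k => (hF k).comp (hG k)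

lemma CF.const {f : E → E'} (hf : ContDiff ℝ ∞ f) : CF (fun (_ : T) x => f x) :=
  fun _ => CFk.const hf

lemma CF.param {c : T → E'} (hc : Continuous c) : CF (fun t (_ : E) => c t) :=
  fun _ => CFk.param hc

lemma CF.base {T' : Type} [TopologicalSpace T'] {h : T' → T} (hh : Continuous h)
    {F : T → E → E'} (hF : CF F) : CF (fun t x => F (h t) x) := fun k => (hF k).base hh

lemma CF.add {F G : T → E → E'} (hF : CF F) (hG : CF G) : CF (fun t x => F t x + G t x) :=
  (hF.prodMk hG).comp_smooth (g := fun q : E' × E' => q.1 + q.2)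
    (fun _ _ => (contDiff_fst.add contDiff_snd).contDiffAt)

lemma CF.sub {F G : T → E → E'} (hF : CF F) (hG : CF G) : CF (fun t x => F t x - G t x) :=
  (hF.prodMk hG).comp_smooth (g := fun q : E' × E' => q.1 - q.2)
    (fun _ _ => (contDiff_fst.sub contDiff_snd).contDiffAt)

lemma CF.smul {c : T → E → ℝ} {F : T → E → E'} (hc : CF c) (hF : CF F) :
    CF (fun t x => c t x • F t x) :=
  (hc.prodMk hF).comp_smooth (g := fun q : ℝ × E' => q.1 • q.2)
    (fun _ _ => (contDiff_fst.smul contDiff_snd).contDiffAt)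

lemma CF.clm_comp {D : Type} [NormedAddCommGroup D] [NormedSpace ℝ D]
    {A : T → E → (E' →L[ℝ] E'')} {B : T → E → (D →L[ℝ] E')}
    (hA : CF A) (hB : CF B) : CF (fun t x => (A t x).comp (B t x)) :=
  (hA.prodMk hB).comp_smooth (g := fun q : (E' →L[ℝ] E'') × (D →L[ℝ] E') => q.1.comp q.2)
    (fun _ _ => (contDiff_fst.clm_comp contDiff_snd).contDiffAt)

lemma CF.clm_apply {A : T → E → (E' →L[ℝ] E'')} {B : T → E → E'}
    (hA : CF A) (hB : CF B) : CF (fun t x => A t x (B t x)) :=
  (hA.prodMk hB).comp_smooth (g := fun q : (E' →L[ℝ] E'') × E' => q.1 q.2)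
    (fun _ _ => (contDiff_fst.clm_apply contDiff_snd).contDiffAt)

end CF

end Pool.Agent.Helper17
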