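import Mathlib
import Pool.Agent.Helper17.CFamily

set_option maxSynthPendingDepth 3

open scoped ContDiff Topology
open Set Function Filter MeasureTheory

namespace Pool.Agent.Helper17

section Int

variable {Z : Type} [MetricSpace Z] [MeasurableSpace Z] [BorelSpace Z]

/-- Continuity of parametric integrals over compact sets. -/
lemma continuous_setIntegral {P : Type*} [TopologicalSpace P] {E' : Type*} [NormedAddCommGroup E']
    [NormedSpace ℝ E'] {S : Set Z} (hS : IsCompact S)
    (μ : Measure Z) [IsFiniteMeasure μ] {f : P → Z → E'}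
    (hf : Continuous (fun p : P × Z => f p.1 p.2)) :
    Continuous (fun p => ∫ z in S, f p z ∂μ) := by
  rw [continuous_iff_continuousAt]
  intro p₀
  rw [ContinuousAt, Metric.tendsto_nhds]
  intro ε hε
  set C : ℝ := (μ.real S) + 1 with hC
  have hC0 : 0 < C := by positivity
  have hfz : ∀ p, Continuous (f p) := fun p => hf.comp (Continuous.prodMk_right p)
  have hint : ∀ p, IntegrableOn (f p) S μ := fun p => (hfz p).continuousOn.integrableOn_compact hS
  have key : ∀ᶠ p in 𝓝 p₀, ∀ z ∈ S, ‖f p z - f p₀ z‖ < ε / C := by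
    apply hS.eventually_forall_of_forall_eventually
    intro z _
    have h1 : Continuous (fun q : P × Z => ‖f q.1 q.2 - f p₀ q.2‖) :=
      (hf.sub ((hfz p₀).comp continuous_snd)).norm
    have h2 := h1.tendsto (p₀, z)
    simp only [sub_self, norm_zero] at h2
    exact h2.eventually (gt_mem_nhds (by positivity))
  filter_upwards [key] with p hp
  rw [dist_eq_norm, ← integral_sub (hint p) (hint p₀)]
  calc ‖∫ z in S, (f p z - f p₀ z) ∂μ‖ ≤ (ε / C) * μ.real S :=
        norm_setIntegral_le_of_norm_le_const (measure_lt_top μ S) fun z hz => (hp z hz).le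
    _ < ε := by
        rw [div_mul_eq_mul_div, div_lt_iff₀ hC0]
        apply mul_lt_mul_of_pos_left _ hε
        rw [hC]; linarith

variable {T : Type} [TopologicalSpace T] {E : Type} [NormedAddCommGroup E] [NormedSpace ℝ E]

/-- Differentiation under the integral sign. -/
lemma hasFDerivAt_setIntegral {E' : Type} [NormedAddCommGroup E'] [NormedSpace ℝ E']
    {S : Set Z} (hS : IsCompact S)
    (μ : Measure Z) [IsFiniteMeasure μ] {F : T × Z → E → E'}
    (hF : Continuous (fun p : (T × Z) × E => F p.1 p.2))
    (hd : ∀ t, Differentiable ℝ (F t))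
    (hF' : Continuous (fun p : (T × Z) × E => fderiv ℝ (F p.1) p.2)) (t : T) (x : E) :
    HasFDerivAt (fun x => ∫ z in S, F (t, z) x ∂μ) (∫ z in S, fderiv ℝ (F (t, z)) x ∂μ) x := by
  have hFz : ∀ y, Continuous (fun z => F (t, z) y) := fun y =>
    hF.comp ((Continuous.prodMk_right t).prodMk continuous_const)
  have hFz' : ∀ y, Continuous (fun z => fderiv ℝ (F (t, z)) y) := fun y =>
    hF'.comp ((Continuous.prodMk_right t).prodMk continuous_const)
  obtain ⟨C, hC⟩ := hS.exists_bound_of_continuousOn (hFz' x).continuousOn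
  have key : ∀ᶠ y in 𝓝 x, ∀ z ∈ S, ‖fderiv ℝ (F (t, z)) y‖ < C + 1 := by
    apply hS.eventually_forall_of_forall_eventually
    intro z hz
    have h1 : Continuous (fun q : E × Z => ‖fderiv ℝ (F (t, q.2)) q.1‖) :=
      (hF'.comp ((continuous_const.prodMk continuous_snd).prodMk continuous_fst)).norm
    have h2 := h1.tendsto (x, z)
    exact h2.eventually (gt_mem_nhds (by
      have := hC z hz
      simp only
      linarith))
  apply hasFDerivAt_integral_of_dominated_of_fderiv_le (bound := fun _ => C + 1) key
  · exact Eventually.of_forall fun y => ((hFz y).continuousOn.integrableOn_compact hS).1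
  · exact (hFz x).continuousOn.integrableOn_compact hS
  · exact ((hFz' x).continuousOn.integrableOn_compact hS).1
  · exact (ae_restrict_iff' hS.measurableSet).2
      (Eventually.of_forall fun z hz y hy => (hy z hz).le)
  · exact integrable_const _
  · exact Eventually.of_forall fun z y _ => (hd (t, z) y).hasFDerivAt

lemma CFk.setIntegral {S : Set Z} (hS : IsCompact S) (μ : Measure Z) [IsFiniteMeasure μ] {k : ℕ} :
    ∀ {E' : Type} [NormedAddCommGroup E'] [NormedSpace ℝ E'] {F : T × Z → E → E'},
    CFk (T × Z) E k E' F → CFk T E k E' (fun t x => ∫ z in S, F (t, z) x ∂μ) := by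
  induction k with
  | zero =>
    intro E' _ _ F hF
    exact continuous_setIntegral (P := T × E) hS μ (f := fun p z => F (p.1, z) p.2)
      (Continuous.comp (g := fun p : (T × Z) × E => F p.1 p.2) hF
        (((continuous_fst.comp continuous_fst).prodMk continuous_snd).prodMk
          (continuous_snd.comp continuous_fst)))
  | succ k ih =>
    intro E' _ _ F hF
    have h1 := fun t x => hasFDerivAt_setIntegral hS μ hF.1 hF.2.1 hF.2.2.continuous t x
    refine ⟨continuous_setIntegral (P := T × E) hS μ (f := fun p z => F (p.1, z) p.2)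
      (Continuous.comp (g := fun p : (T × Z) × E => F p.1 p.2) hF.1
        (((continuous_fst.comp continuous_fst).prodMk continuous_snd).prodMk
          (continuous_snd.comp continuous_fst))), fun t x => (h1 t x).differentiableAt, ?_⟩
    have h2 := ih hF.2.2
    convert h2 using 3 with t x
    exact (h1 t x).fderiv

lemma CF.setIntegral {S : Set Z} (hS : IsCompact S) (μ : Measure Z) [IsFiniteMeasure μ]
    {E' : Type} [NormedAddCommGroup E'] [NormedSpace ℝ E'] {F : T × Z → E → E'}
    (hF : CF F) : CF (fun t x => ∫ z in S, F (t, z) x ∂μ) := fun k => (hF k).setIntegral hS μ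

end Int

section Nemytskii

variable {T : Type} [TopologicalSpace T] [CompactSpace T]
  {E : Type} [NormedAddCommGroup E] [NormedSpace ℝ E]

/-- The superposition operator. -/
def superpos {E' : Type} [NormedAddCommGroup E'] [NormedSpace ℝ E'] (F : T → E → E')
    (hF : Continuous (fun p : T × E => F p.1 p.2)) (α : C(T, E)) : C(T, E') where
  toFun t := F t (α t)
  continuous_toFun := hF.comp (continuous_id.prodMk α.continuous)

/-- Pointwise application of linear maps. -/
noncomputable def pointwise (T : Type) [TopologicalSpace T] [CompactSpace T]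
    (E E' : Type) [NormedAddCommGroup E] [NormedSpace ℝ E]
    [NormedAddCommGroup E'] [NormedSpace ℝ E'] :
    C(T, E →L[ℝ] E') →L[ℝ] (C(T, E) →L[ℝ] C(T, E')) :=
  LinearMap.mkContinuous₂
    (LinearMap.mk₂ ℝ (fun (A : C(T, E →L[ℝ] E')) (β : C(T, E)) =>
      (⟨fun t => A t (β t), A.continuous.clm_apply β.continuous⟩ : C(T, E')))
      (fun A A' β => by ext t; simp) (fun c A β => by ext t; simp)
      (fun A β β' => by ext t; simp) (fun c A β => by ext t; simp)) 1
    (fun A β => by
      rw [one_mul]
      refine (ContinuousMap.norm_le _ (by positivity)).2 fun t => ?_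
      exact ((A t).le_opNorm _).trans
        (mul_le_mul (A.norm_coe_le_norm t) (β.norm_coe_le_norm t) (norm_nonneg _) (norm_nonneg _)))

lemma pointwise_apply {E' : Type} [NormedAddCommGroup E'] [NormedSpace ℝ E']
    (A : C(T, E →L[ℝ] E')) (β : C(T, E)) (t : T) : pointwise T E E' A β t = A t (β t) := rfl

lemma continuous_superpos {E' : Type} [NormedAddCommGroup E'] [NormedSpace ℝ E'] {F : T → E → E'}
    (hF : Continuous (fun p : T × E => F p.1 p.2)) : Continuous (superpos F hF) := by
  rw [continuous_iff_continuousAt]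
  intro α
  rw [ContinuousAt, Metric.tendsto_nhds]
  intro ε hε
  have key : ∀ᶠ h : E in 𝓝 0, ∀ t ∈ (univ : Set T), ‖F t (α t + h) - F t (α t)‖ < ε / 2 := by
    apply isCompact_univ.eventually_forall_of_forall_eventually
    intro t _
    have h1 : Continuous (fun q : E × T => ‖F q.2 (α q.2 + q.1) - F q.2 (α q.2)‖) :=
      ((hF.comp (continuous_snd.prodMk ((α.continuous.comp continuous_snd).add
        continuous_fst))).sub (hF.comp (continuous_snd.prodMk
          (α.continuous.comp continuous_snd)))).norm
    have h2 := h1.tendsto ((0 : E), t)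
    simp only [add_zero, sub_self, norm_zero] at h2
    exact h2.eventually (gt_mem_nhds (by positivity))
  obtain ⟨δ, hδ, hδ'⟩ := Metric.eventually_nhds_iff.1 key
  rw [Metric.eventually_nhds_iff]
  refine ⟨δ, hδ, fun β hβ => ?_⟩
  refine lt_of_le_of_lt ?_ (half_lt_self hε)
  rw [dist_eq_norm]
  refine (ContinuousMap.norm_le _ (by positivity)).2 fun t => ?_
  have h1 : dist (β t - α t) 0 < δ := by
    rw [dist_zero_right]
    refine lt_of_le_of_lt ?_ hβ
    rw [dist_eq_norm]
    exact (β - α).norm_coe_le_norm t
  have h2 := hδ' h1 t (mem_univ t)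
  rw [add_sub_cancel] at h2
  exact h2.le

lemma hasFDerivAt_superpos {E' : Type} [NormedAddCommGroup E'] [NormedSpace ℝ E']
    {F : T → E → E'} (hF : Continuous (fun p : T × E => F p.1 p.2))
    (hd : ∀ t, Differentiable ℝ (F t))
    (hF' : Continuous (fun p : T × E => fderiv ℝ (F p.1) p.2)) (α : C(T, E)) :
    HasFDerivAt (superpos F hF)
      (pointwise T E E' (superpos (fun t x => fderiv ℝ (F t) x) hF' α)) α := by
  rw [hasFDerivAt_iff_isLittleO_nhds_zero, Asymptotics.isLittleO_iff]
  intro ε hε
  have key : ∀ᶠ h : E in 𝓝 0, ∀ t ∈ (univ : Set T),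
      ‖fderiv ℝ (F t) (α t + h) - fderiv ℝ (F t) (α t)‖ < ε := by
    apply isCompact_univ.eventually_forall_of_forall_eventually
    intro t _
    have h1 : Continuous (fun q : E × T =>
        ‖fderiv ℝ (F q.2) (α q.2 + q.1) - fderiv ℝ (F q.2) (α q.2)‖) :=
      ((hF'.comp (continuous_snd.prodMk ((α.continuous.comp continuous_snd).add
        continuous_fst))).sub (hF'.comp (continuous_snd.prodMk
          (α.continuous.comp continuous_snd)))).norm
    have h2 := h1.tendsto ((0 : E), t)
    simp only [add_zero, sub_self, norm_zero] at h2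
    exact h2.eventually (gt_mem_nhds hε)
  obtain ⟨δ, hδ, hδ'⟩ := Metric.eventually_nhds_iff.1 key
  rw [Metric.eventually_nhds_iff]
  refine ⟨δ, hδ, fun β hβ => ?_⟩
  rw [dist_zero_right] at hβ
  refine (ContinuousMap.norm_le _ (by positivity)).2 fun t => ?_
  have hβt : ‖β t‖ ≤ ‖β‖ := β.norm_coe_le_norm t
  change ‖F t (α t + β t) - F t (α t) - fderiv ℝ (F t) (α t) (β t)‖ ≤ ε * ‖β‖
  have h1 := (convex_ball (α t) δ).norm_image_sub_le_of_norm_hasFDerivWithin_le
    (f := fun y => F t y - fderiv ℝ (F t) (α t) y)
    (f' := fun y => fderiv ℝ (F t) y - fderiv ℝ (F t) (α t)) (C := ε)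
    (fun y _ => (((hd t y).hasFDerivAt).sub
      (fderiv ℝ (F t) (α t)).hasFDerivAt).hasFDerivWithinAt)
    (fun y hy => by
      have h2 : dist (y - α t) 0 < δ := by
        rw [dist_zero_right, ← dist_eq_norm]; exact hy
      have h3 := hδ' h2 t (mem_univ t)
      rw [add_sub_cancel] at h3
      exact h3.le)
    (Metric.mem_ball_self hδ) (y := α t + β t) (by
      rw [Metric.mem_ball, dist_eq_norm, add_sub_cancel_left]
      exact lt_of_le_of_lt hβt hβ)
  have e1 : (F t (α t + β t) - fderiv ℝ (F t) (α t) (α t + β t)) -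
      (F t (α t) - fderiv ℝ (F t) (α t) (α t)) =
      F t (α t + β t) - F t (α t) - fderiv ℝ (F t) (α t) (β t) := by
    rw [map_add]; abel
  simp only [e1, add_sub_cancel_left] at h1
  exact h1.trans (mul_le_mul_of_nonneg_left hβt hε.le)

/-- The superposition operator of a smooth family is smooth. -/
lemma contDiff_superpos {k : ℕ} : ∀ {E' : Type} [NormedAddCommGroup E'] [NormedSpace ℝ E']
    {F : T → E → E'} (hF : CF F), ContDiff ℝ k (superpos F hF.continuous) := by
  induction k with
  | zero =>
    intro E' _ _ F hF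
    rw [Nat.cast_zero, contDiff_zero]
    exact continuous_superpos hF.continuous
  | succ k ih =>
    intro E' _ _ F hF
    have h1 := fun α => hasFDerivAt_superpos hF.continuous hF.differentiable hF.fderiv.continuous α
    rw [Nat.cast_succ, contDiff_succ_iff_fderiv]
    refine ⟨fun α => (h1 α).differentiableAt, by simp, ?_⟩
    have h2 : fderiv ℝ (superpos F hF.continuous) = fun α => pointwise T E E'
        (superpos (fun t x => fderiv ℝ (F t) x) hF.fderiv.continuous α) :=
      funext fun α => (h1 α).fderiv
    rw [h2]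
    exact (pointwise T E E').contDiff.comp (ih hF.fderiv)

/-- Evaluation of linear maps with values in a space of continuous functions. -/
noncomputable def evalL (T : Type) [TopologicalSpace T] [CompactSpace T]
    (E E' : Type) [NormedAddCommGroup E] [NormedSpace ℝ E] [FiniteDimensional ℝ E]
    [NormedAddCommGroup E'] [NormedSpace ℝ E'] :
    (E →L[ℝ] C(T, E')) →L[ℝ] C(T, E →L[ℝ] E') :=
  LinearMap.mkContinuous
    { toFun := fun L => ⟨fun t => (ContinuousMap.evalCLM ℝ t).comp L, by
        rw [continuous_clm_apply]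
        intro y
        exact (L y).continuous⟩
      map_add' := fun L L' => by ext t y; simp
      map_smul' := fun c L => by ext t y; simp } 1
    (fun L => by
      rw [one_mul]
      refine (ContinuousMap.norm_le _ (norm_nonneg _)).2 fun t => ?_
      refine ContinuousLinearMap.opNorm_le_bound _ (norm_nonneg _) fun y => ?_
      exact ((L y).norm_coe_le_norm t).trans (L.le_opNorm y))

lemma evalL_apply [FiniteDimensional ℝ E] {E' : Type} [NormedAddCommGroup E'] [NormedSpace ℝ E']
    (L : E →L[ℝ] C(T, E')) (t : T) (y : E) : evalL T E E' L t y = L y t := rfl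

/-- A smooth map into a space of continuous functions gives a family of smooth maps. -/
lemma CFk.of_contDiff [FiniteDimensional ℝ E] {k : ℕ} : ∀ {E' : Type} [NormedAddCommGroup E']
    [NormedSpace ℝ E'] {F : E → C(T, E')}, ContDiff ℝ k F →
    CFk T E k E' (fun t x => F x t) := by
  induction k with
  | zero =>
    intro E' _ _ F hF
    have h1 : Continuous F := hF.continuous
    exact (h1.comp continuous_snd).eval continuous_fst
  | succ k ih =>
    intro E' _ _ F hF
    have h1 : Continuous F := hF.continuous
    rw [Nat.cast_succ, contDiff_succ_iff_fderiv] at hF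
    have h2 : ∀ t x, HasFDerivAt (fun x => F x t)
        ((ContinuousMap.evalCLM ℝ t).comp (fderiv ℝ F x)) x := fun t x => by
      have h3 : HasFDerivAt (fun f : C(T, E') => f t) (ContinuousMap.evalCLM ℝ t) (F x) :=
        (ContinuousMap.evalCLM ℝ t : C(T, E') →L[ℝ] E').hasFDerivAt
      exact h3.comp x (hF.1 x).hasFDerivAt
    refine ⟨(h1.comp continuous_snd).eval continuous_fst,
      fun t x => (h2 t x).differentiableAt, ?_⟩
    have h3 := ih (F := fun x => evalL T E E' (fderiv ℝ F x))
      ((evalL T E E').contDiff.comp hF.2.2)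
    convert h3 using 3 with t x
    exact (h2 t x).fderiv

lemma CF.of_contDiff [FiniteDimensional ℝ E] {E' : Type} [NormedAddCommGroup E']
    [NormedSpace ℝ E'] {F : E → C(T, E')} (hF : ContDiff ℝ ∞ F) : CF (fun t x => F x t) :=
  fun k => CFk.of_contDiff (hF.of_le (by exact_mod_cast le_top))

end Nemytskii

end Pool.Agent.Helper17
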