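import Mathlib

open scoped ContDiff Distributions Topology
open Set Function TopologicalSpace Filter

namespace Pool.Agent.Helper17

section

variable {E : Type*} [NormedAddCommGroup E] [NormedSpace ℝ E] [FiniteDimensional ℝ E]

/-- The continuous linear equivalence given by an injective endomorphism. -/
noncomputable def cleOfInjective (A : E →L[ℝ] E) (hA : Injective A) : E ≃L[ℝ] E :=
  (LinearEquiv.ofBijective (A : E →ₗ[ℝ] E)
    ⟨hA, LinearMap.injective_iff_surjective.1 hA⟩).toContinuousLinearEquiv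

lemma coe_cleOfInjective (A : E →L[ℝ] E) (hA : Injective A) :
    (cleOfInjective A hA : E →L[ℝ] E) = A := by
  ext x; rfl

lemma hasStrictFDerivAt_cle {f : E → E} (hf : ContDiff ℝ ∞ f)
    (hinj : ∀ x, Injective (fderiv ℝ f x)) (x : E) :
    HasStrictFDerivAt f (cleOfInjective (fderiv ℝ f x) (hinj x) : E →L[ℝ] E) x := by
  rw [coe_cleOfInjective]
  exact hf.contDiffAt.hasStrictFDerivAt (by simp)

lemma isOpenMap_of_injective_fderiv {f : E → E} (hf : ContDiff ℝ ∞ f)
    (hinj : ∀ x, Injective (fderiv ℝ f x)) : IsOpenMap f :=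
  isOpenMap_of_hasStrictFDerivAt_equiv (f' := fun x => cleOfInjective (fderiv ℝ f x) (hinj x))
    (hasStrictFDerivAt_cle hf hinj)

lemma contDiff_symm_of_injective_fderiv (f : E ≃ E) (hf : ContDiff ℝ ∞ f)
    (hinj : ∀ x, Injective (fderiv ℝ f x)) : ContDiff ℝ ∞ f.symm := by
  have hopen : IsOpenMap f := isOpenMap_of_injective_fderiv hf hinj
  have h := Homeomorph.contDiff_symm (𝕜 := ℝ) (n := ∞)
    (f.toHomeomorphOfContinuousOpen hf.continuous hopen)
    (f₀' := fun x => cleOfInjective (fderiv ℝ f x) (hinj x))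
    (fun x => (hasStrictFDerivAt_cle hf hinj x).hasFDerivAt) hf
  exact h

lemma exists_open_injOn {f : E → E} (hf : ContDiff ℝ ∞ f)
    (hinj : ∀ x, Injective (fderiv ℝ f x)) (x : E) :
    ∃ U : Set E, IsOpen U ∧ x ∈ U ∧ InjOn f U := by
  have h := hasStrictFDerivAt_cle hf hinj x
  refine ⟨(h.toOpenPartialHomeomorph f).source, (h.toOpenPartialHomeomorph f).open_source,
    h.mem_toOpenPartialHomeomorph_source, ?_⟩
  exact (h.toOpenPartialHomeomorph f).injOn

/-- A smooth map with everywhere injective derivative which is the identity outside a compact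
set is bijective. -/
lemma bijective_of_injective_fderiv {f : E → E} (hf : ContDiff ℝ ∞ f)
    (hinj : ∀ x, Injective (fderiv ℝ f x)) {K : Set E} (hK : IsCompact K)
    (hfK : ∀ x ∉ K, f x = x) : Bijective f := by
  rcases subsingleton_or_nontrivial E with hE | hE
  · refine ⟨fun x y _ => Subsingleton.elim x y, fun y => ⟨y, Subsingleton.elim _ _⟩⟩
  have hcont : Continuous f := hf.continuous
  have hopen : IsOpenMap f := isOpenMap_of_injective_fderiv hf hinj
  -- `f` is proper
  have hprop : IsProperMap f := by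
    rw [isProperMap_iff_tendsto_cocompact]
    refine ⟨hcont, ?_⟩
    have h1 : (id : E → E) =ᶠ[cocompact E] f := by
      filter_upwards [hK.compl_mem_cocompact] with x hx
      exact (hfK x hx).symm
    exact Tendsto.congr' h1 tendsto_id
  have hclosed : IsClosedMap f := hprop.isClosedMap
  have hsurj : Surjective f := by
    have hcl : IsClopen (range f) := ⟨hclosed.isClosed_range, hopen.isOpen_range⟩
    rcases isClopen_iff.1 hcl with h | h
    · exact absurd h (range_nonempty f).ne_empty
    · exact range_eq_univ.1 h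
  refine ⟨?_, hsurj⟩
  -- the set of points with at most one preimage is clopen
  set S : Set E := {y | ∀ x x', f x = y → f x' = y → x = x'} with hS
  have hSopen : IsOpen S := by
    rw [isOpen_iff_mem_nhds]
    intro y hy
    obtain ⟨x, rfl⟩ := hsurj y
    obtain ⟨U, hU, hxU, hUinj⟩ := exists_open_injOn hf hinj x
    have hV : IsOpen (f '' Uᶜ)ᶜ := (hclosed _ hU.isClosed_compl).isOpen_compl
    have hyV : f x ∈ (f '' Uᶜ)ᶜ := by
      rintro ⟨x', hx', hfx'⟩
      exact hx' ((hy x' x hfx' rfl) ▸ hxU)
    refine mem_of_superset (hV.mem_nhds hyV) ?_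
    intro z hz a b ha hb
    have haU : a ∈ U := by
      by_contra h
      exact hz ⟨a, h, ha⟩
    have hbU : b ∈ U := by
      by_contra h
      exact hz ⟨b, h, hb⟩
    exact hUinj haU hbU (ha.trans hb.symm)
  have hSclosed : IsClosed S := by
    rw [← isOpen_compl_iff, isOpen_iff_mem_nhds]
    intro y hy
    simp only [hS, mem_compl_iff, mem_setOf_eq, not_forall] at hy
    obtain ⟨x, x', hx, hx', hne⟩ := hy
    obtain ⟨U, V, hU, hV, hxU, hxV, hdisj⟩ := t2_separation hne
    have h1 : f '' U ∈ 𝓝 y := (hopen U hU).mem_nhds ⟨x, hxU, hx⟩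
    have h2 : f '' V ∈ 𝓝 y := (hopen V hV).mem_nhds ⟨x', hxV, hx'⟩
    refine mem_of_superset (inter_mem h1 h2) ?_
    rintro z ⟨⟨a, haU, ha⟩, ⟨b, hbV, hb⟩⟩ hz
    have := hz a b ha hb
    exact (Set.disjoint_left.1 hdisj haU) (this ▸ hbV)
  have hSne : S.Nonempty := by
    have hKc : IsCompact (K ∪ f '' K) := hK.union (hK.image hcont)
    have : (K ∪ f '' K)ᶜ.Nonempty := by
      by_contra h
      rw [not_nonempty_iff_eq_empty, compl_empty_iff] at h
      haveI : NoncompactSpace E := NormedSpace.noncompactSpace ℝ E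
      exact noncompact_univ E (h ▸ hKc)
    obtain ⟨y, hy⟩ := this
    refine ⟨y, ?_⟩
    have key : ∀ x, f x = y → x = y := by
      intro x hx
      have hxK : x ∉ K := fun h => hy (Or.inr ⟨x, h, hx⟩)
      rw [← hx, hfK x hxK]
    intro a b ha hb
    rw [key a ha, key b hb]
  have hSuniv : S = univ := by
    rcases isClopen_iff.1 (⟨hSclosed, hSopen⟩ : IsClopen S) with h | h
    · exact absurd h hSne.ne_empty
    · exact h
  intro a b hab
  have : f b ∈ S := hSuniv ▸ mem_univ _
  exact this a b hab rfl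

end

section continuity

variable {T E F : Type*} [TopologicalSpace T] [NormedAddCommGroup E] [NormedSpace ℝ E]
  [NormedAddCommGroup F] [NormedSpace ℝ F]

open scoped BoundedContinuousFunction

lemma continuous_bcf_of_joint (G : T → E →ᵇ F) {K : Set E} (hK : IsCompact K)
    (h0 : ∀ t, ∀ x ∉ K, G t x = 0) (hc : Continuous (fun p : T × E => G p.1 p.2)) :
    Continuous G := by
  rw [continuous_iff_continuousAt]
  intro t₀
  rw [ContinuousAt, Metric.tendsto_nhds]
  intro ε hε
  have key : ∀ᶠ t in 𝓝 t₀, ∀ x ∈ K, dist (G t x) (G t₀ x) < ε / 2 := by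
    apply hK.eventually_forall_of_forall_eventually
    intro x hx
    have h1 : Continuous (fun p : T × E => dist (G p.1 p.2) (G t₀ p.2)) :=
      hc.dist ((G t₀).continuous.comp continuous_snd)
    have h2 : Tendsto (fun p : T × E => dist (G p.1 p.2) (G t₀ p.2)) (𝓝 (t₀, x))
        (𝓝 (dist (G t₀ x) (G t₀ x))) := h1.tendsto (t₀, x)
    rw [dist_self] at h2
    exact h2.eventually (gt_mem_nhds (half_pos hε))
  filter_upwards [key] with t ht
  have : dist (G t) (G t₀) ≤ ε / 2 := by
    rw [BoundedContinuousFunction.dist_le (half_pos hε).le]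
    intro x
    by_cases hx : x ∈ K
    · exact (ht x hx).le
    · rw [h0 t x hx, h0 t₀ x hx, dist_self]; exact (half_pos hε).le
  exact lt_of_le_of_lt this (half_lt_self hε)

lemma continuous_iteratedFDeriv_partial {F' : ℝ × E → F} (hF : ContDiff ℝ ∞ F') (i : ℕ) :
    Continuous (fun p : ℝ × E => iteratedFDeriv ℝ i (fun x => F' (p.1, x)) p.2) := by
  have h : ∀ p : ℝ × E, iteratedFDeriv ℝ i (fun x => F' (p.1, x)) p.2 =
      (iteratedFDeriv ℝ i F' p).compContinuousLinearMap
        (fun _ => ContinuousLinearMap.inr ℝ ℝ E) := by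
    rintro ⟨t, x⟩
    have h1 : (fun x => F' (t, x)) =
        (fun q : ℝ × E => F' ((t, 0) + q)) ∘ (ContinuousLinearMap.inr ℝ ℝ E) := by
      ext1 y; simp
    have hF2 : ContDiff ℝ ∞ (fun q : ℝ × E => F' ((t, 0) + q)) :=
      hF.comp (contDiff_const.add contDiff_id)
    rw [h1, ContinuousLinearMap.iteratedFDeriv_comp_right _ hF2 x (i := i)
      (by exact_mod_cast le_top), iteratedFDeriv_comp_add_left]
    simp
  simp_rw [h]
  have h2 : Continuous (iteratedFDeriv ℝ i F') :=
    hF.continuous_iteratedFDeriv (by exact_mod_cast le_top)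
  exact (ContinuousMultilinearMap.compContinuousLinearMapL
    (fun _ => ContinuousLinearMap.inr ℝ ℝ E)).continuous.comp h2

end continuity

end Pool.Agent.Helper17
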