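import Mathlib

open scoped ContDiff Distributions Topology
open Set Function TopologicalSpace

namespace Pool.Agent.Helper17

/-- The space `ℝ^{2n}`; the coordinate `x_i` is indexed by `Sum.inl i` and the coordinate
`y_i` by `Sum.inr i`. -/
abbrev Phase (n : ℕ) : Type := EuclideanSpace ℝ (Fin n ⊕ Fin n)

/-- The standard symplectic form `∑ dx_i ∧ dy_i` on `ℝ^{2n}` (a constant form). -/
noncomputable def omegaStd {n : ℕ} (u v : Phase n) : ℝ :=
  ∑ i : Fin n, (u (Sum.inl i) * v (Sum.inr i) - u (Sum.inr i) * v (Sum.inl i))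

/-- A bijection `φ` of `ℝ^{2n}` is a compactly supported symplectomorphism if `φ` and its inverse
are `C^∞`, `φ^* ω_st = ω_st`, and `φ` is the identity outside some compact set. -/
def IsSympCt {n : ℕ} (φ : Equiv.Perm (Phase n)) : Prop :=
  ContDiff ℝ ∞ φ ∧ ContDiff ℝ ∞ φ.symm ∧
    (∀ p u v : Phase n, omegaStd (fderiv ℝ φ p u) (fderiv ℝ φ p v) = omegaStd u v) ∧
    ∃ K : Set (Phase n), IsCompact K ∧ ∀ p ∉ K, φ p = p

lemma IsSympCt.mul {n : ℕ} {φ ψ : Equiv.Perm (Phase n)} (h1 : IsSympCt φ) (h2 : IsSympCt ψ) :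
    IsSympCt (φ * ψ) := by
  obtain ⟨hφ, hφs, hφo, K, hK, hφK⟩ := h1
  obtain ⟨hψ, hψs, hψo, L, hL, hψL⟩ := h2
  refine ⟨hφ.comp hψ, hψs.comp hφs, ?_, K ∪ L, hK.union hL, ?_⟩
  · intro p u v
    have h : fderiv ℝ (φ * ψ : Equiv.Perm (Phase n)) p =
        (fderiv ℝ φ (ψ p)).comp (fderiv ℝ ψ p) :=
      fderiv_comp p (hφ.differentiable (by simp) _) (hψ.differentiable (by simp) _)
    rw [h]
    simp only [ContinuousLinearMap.comp_apply]
    rw [hφo, hψo]
  · intro p hp
    have h1 : p ∉ K := fun h => hp (Or.inl h)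
    have h2 : p ∉ L := fun h => hp (Or.inr h)
    simp [hψL p h2, hφK p h1]

lemma IsSympCt.one {n : ℕ} : IsSympCt (1 : Equiv.Perm (Phase n)) := by
  refine ⟨contDiff_id, contDiff_id, ?_, ∅, isCompact_empty, ?_⟩
  · intro p u v
    have : fderiv ℝ (1 : Equiv.Perm (Phase n)) p = ContinuousLinearMap.id ℝ _ := fderiv_id
    rw [this]; simp
  · intro p _; rfl

lemma IsSympCt.inv {n : ℕ} {φ : Equiv.Perm (Phase n)} (h : IsSympCt φ) : IsSympCt φ⁻¹ := by
  obtain ⟨hφ, hφs, hφo, K, hK, hφK⟩ := h
  refine ⟨hφs, hφ, ?_, K, hK, ?_⟩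
  · intro p u v
    have h : (fderiv ℝ φ (φ.symm p)).comp (fderiv ℝ φ.symm p) = ContinuousLinearMap.id ℝ _ := by
      rw [← fderiv_comp p (hφ.differentiable (by simp) _) (hφs.differentiable (by simp) _)]
      have : (φ ∘ φ.symm : Phase n → Phase n) = id := by ext1 x; simp
      rw [this, fderiv_id]
    have hu : fderiv ℝ φ (φ.symm p) (fderiv ℝ φ.symm p u) = u := by
      simpa using congrArg (fun L => L u) h
    have hv : fderiv ℝ φ (φ.symm p) (fderiv ℝ φ.symm p v) = v := by
      simpa using congrArg (fun L => L v) h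
    change omegaStd (fderiv ℝ φ.symm p u) (fderiv ℝ φ.symm p v) = _
    rw [← hφo (φ.symm p), hu, hv]
  · intro p hp
    change φ.symm p = p
    rw [Equiv.symm_apply_eq]
    exact (hφK p hp).symm

/-- The group `Symp_ct(ℝ^{2n}, ω_st)` of compactly supported symplectomorphisms, as a subgroup of
the group of all permutations of `ℝ^{2n}`. -/
def SympCt (n : ℕ) : Subgroup (Equiv.Perm (Phase n)) where
  carrier := {φ | IsSympCt φ}
  mul_mem' := IsSympCt.mul
  one_mem' := IsSympCt.one
  inv_mem' := IsSympCt.inv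

/-- The elements of `Symp_ct(ℝ^{2n}, ω_st)` supported in the compact set `K`. -/
def SympSupp (n : ℕ) (K : Compacts (Phase n)) : Type :=
  {φ : SympCt n // ∀ p ∉ K, (φ : Equiv.Perm (Phase n)) p = p}

/-- The inclusion of the subgroup supported in `K`. -/
def SympSupp.incl {n : ℕ} (K : Compacts (Phase n)) : SympSupp n K → SympCt n := Subtype.val

lemma SympSupp.contDiff_disp {n : ℕ} {K : Compacts (Phase n)} (φ : SympSupp n K) :
    ContDiff ℝ ((⊤ : ℕ∞) : WithTop ℕ∞)
      (fun p : Phase n => (φ.1 : Equiv.Perm (Phase n)) p - p) :=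
  φ.1.2.1.sub contDiff_id

lemma SympSupp.disp_eq_zero {n : ℕ} {K : Compacts (Phase n)} (φ : SympSupp n K) :
    EqOn (fun p : Phase n => (φ.1 : Equiv.Perm (Phase n)) p - p) 0 (K : Set (Phase n))ᶜ :=
  fun p hp => by
    have := φ.2 p hp
    simp [this]

/-- The displacement `φ - id` of a symplectomorphism supported in `K`, as an element of the
Fréchet space of smooth maps `ℝ^{2n} → ℝ^{2n}` supported in `K`. -/
noncomputable def SympSupp.disp {n : ℕ} (K : Compacts (Phase n)) (φ : SympSupp n K) :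
    𝓓_{K}(Phase n, Phase n) where
  toFun p := (φ.1 : Equiv.Perm (Phase n)) p - p
  contDiff' := φ.contDiff_disp
  zero_on_compl' := φ.disp_eq_zero

/-- The `C^∞` topology on the subgroup supported in `K`: uniform convergence of the
displacement together with all its derivatives. -/
noncomputable instance (n : ℕ) (K : Compacts (Phase n)) : TopologicalSpace (SympSupp n K) :=
  TopologicalSpace.induced (SympSupp.disp K) inferInstance

/-- The direct limit topology on `Symp_ct(ℝ^{2n}, ω_st)`: the finest topology for which all the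
inclusions of the subgroups supported in compact sets are continuous. -/
noncomputable instance (n : ℕ) : TopologicalSpace (SympCt n) :=
  ⨆ K : Compacts (Phase n), TopologicalSpace.coinduced (SympSupp.incl K) inferInstance

end Pool.Agent.Helper17
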