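import Mathlib
import Pool.Agent.Helper17.SympBase
import Pool.Agent.Helper17.LocalDiffeo

open scoped ContDiff Distributions Topology
open Set Function TopologicalSpace Filter

namespace Pool.Agent.Helper17

/-! ### Linear algebra of the standard symplectic form -/

section omega

variable {n : ℕ}

lemma omegaStd_add_left (u u' v : Phase n) :
    omegaStd (u + u') v = omegaStd u v + omegaStd u' v := by
  simp only [omegaStd, PiLp.add_apply, ← Finset.sum_add_distrib]
  exact Finset.sum_congr rfl fun i _ => by ring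

lemma omegaStd_add_right (u v v' : Phase n) :
    omegaStd u (v + v') = omegaStd u v + omegaStd u v' := by
  simp only [omegaStd, PiLp.add_apply, ← Finset.sum_add_distrib]
  exact Finset.sum_congr rfl fun i _ => by ring

lemma omegaStd_smul_left (c : ℝ) (u v : Phase n) :
    omegaStd (c • u) v = c * omegaStd u v := by
  simp only [omegaStd, PiLp.smul_apply, smul_eq_mul, Finset.mul_sum]
  exact Finset.sum_congr rfl fun i _ => by ring

lemma omegaStd_smul_right (c : ℝ) (u v : Phase n) :
    omegaStd u (c • v) = c * omegaStd u v := by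
  simp only [omegaStd, PiLp.smul_apply, smul_eq_mul, Finset.mul_sum]
  exact Finset.sum_congr rfl fun i _ => by ring

lemma omegaStd_zero_left (v : Phase n) : omegaStd (0 : Phase n) v = 0 := by
  simp [omegaStd]

/-- Nondegeneracy of the standard symplectic form. -/
lemma eq_zero_of_omegaStd (u : Phase n) (h : ∀ v, omegaStd u v = 0) : u = 0 := by
  ext j
  rcases j with i | i
  · have := h (EuclideanSpace.single (Sum.inr i) (1 : ℝ))
    simpa [omegaStd, PiLp.single_apply, Finset.sum_ite_eq] using this
  · have := h (EuclideanSpace.single (Sum.inl i) (1 : ℝ))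
    simpa [omegaStd, PiLp.single_apply, Finset.sum_ite_eq] using this

end omega

/-! ### Smooth isotopies -/

variable {n : ℕ}

/-- Two compactly supported symplectomorphisms are smoothly isotopic through symplectomorphisms
supported in a fixed compact set. -/
def SmoothIsotopic (φ ψ : SympCt n) : Prop :=
  ∃ (K : Compacts (Phase n)) (γ : ℝ → SympCt n),
    (∀ t, ∀ p ∉ K, (γ t : Equiv.Perm (Phase n)) p = p) ∧
    ContDiff ℝ ∞ (fun q : ℝ × Phase n => (γ q.1 : Equiv.Perm (Phase n)) q.2) ∧
    γ 0 = φ ∧ γ 1 = ψ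

/-- A smooth isotopy with compact support is a path for the direct limit topology. -/
lemma SmoothIsotopic.joined {φ ψ : SympCt n} (h : SmoothIsotopic φ ψ) : Joined φ ψ := by
  obtain ⟨K, γ, hγK, hγ, h0, h1⟩ := h
  set γK : ℝ → SympSupp n K := fun t => ⟨γ t, hγK t⟩ with hγKdef
  have hcont : Continuous γK := by
    rw [continuous_induced_rng, ContDiffMapSupportedIn.continuous_iff_comp]
    intro i
    apply continuous_bcf_of_joint _ K.isCompact
    · intro t x hx
      simp only [comp_apply]
      rw [ContDiffMapSupportedIn.structureMapCLM_top_apply]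
      exact ContDiffMapSupportedIn.iteratedFDeriv_zero_on_compl _ hx
    · have h1 : ∀ q : ℝ × Phase n,
          ((ContDiffMapSupportedIn.structureMapCLM ℝ ⊤ i ∘ SympSupp.disp K ∘ γK) q.1) q.2 =
          iteratedFDeriv ℝ i (fun x => (γ q.1 : Equiv.Perm (Phase n)) x - x) q.2 := by
        intro q
        simp only [comp_apply]
        rw [ContDiffMapSupportedIn.structureMapCLM_top_apply]
        rfl
      simp_rw [h1]
      exact continuous_iteratedFDeriv_partial
        (F' := fun q : ℝ × Phase n => (γ q.1 : Equiv.Perm (Phase n)) q.2 - q.2)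
        (hγ.sub contDiff_snd) i
  have hincl : Continuous (SympSupp.incl K : SympSupp n K → SympCt n) :=
    continuous_iSup_rng (i := K) continuous_coinduced_rng
  have hγc : Continuous γ := hincl.comp hcont
  exact ⟨⟨⟨fun t => γ t, hγc.comp continuous_subtype_val⟩, by simpa using h0, by simpa using h1⟩⟩

lemma SmoothIsotopic.mul_right {φ ψ : SympCt n} (h : SmoothIsotopic φ ψ) (χ : SympCt n) :
    SmoothIsotopic (φ * χ) (ψ * χ) := by
  obtain ⟨K, γ, hγK, hγ, h0, h1⟩ := h
  obtain ⟨hχ, hχs, hχo, L, hL, hχL⟩ := χ.2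
  refine ⟨K ⊔ ⟨L, hL⟩, fun t => γ t * χ, ?_, ?_, by simp only [h0], by simp only [h1]⟩
  · intro t p hp
    have h1 : p ∉ K := fun h => hp (Or.inl h)
    have h2 : p ∉ L := fun h => hp (Or.inr h)
    change (γ t : Equiv.Perm (Phase n)) ((χ : Equiv.Perm (Phase n)) p) = p
    rw [hχL p h2, hγK t p h1]
  · exact hγ.comp (contDiff_fst.prodMk (hχ.comp contDiff_snd))

/-- The interpolation parameter, a smooth function `ℝ → [0, 1/2]` with value `0` at `0` and
value `1/2` at `1`. -/
noncomputable def theta (t : ℝ) : ℝ := Real.smoothTransition t / 2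

lemma contDiff_theta : ContDiff ℝ ∞ theta := by
  unfold theta
  exact (Real.smoothTransition.contDiff).div_const 2

lemma theta_nonneg (t : ℝ) : 0 ≤ theta t := by
  unfold theta
  have := Real.smoothTransition.nonneg t
  linarith

lemma theta_le (t : ℝ) : theta t ≤ 1 / 2 := by
  unfold theta
  have := Real.smoothTransition.le_one t
  linarith

lemma theta_zero : theta 0 = 0 := by
  unfold theta
  rw [Real.smoothTransition.zero_of_nonpos le_rfl]; simp

lemma theta_one : theta 1 = 1 / 2 := by
  unfold theta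
  rw [Real.smoothTransition.one_of_one_le le_rfl]

/-- **Isotopy criterion.** A compactly supported symplectomorphism `φ` of `ℝ^{2n}` such that no
derivative `Dφ(x)` has a real eigenvalue in `(-∞, -1]` is smoothly isotopic to the identity through
compactly supported symplectomorphisms. -/
theorem smoothIsotopic_one_of_no_neg_eigenvalue (φ : SympCt n)
    (H : ∀ (x v : Phase n) (μ : ℝ), 1 ≤ μ →
      fderiv ℝ (φ : Equiv.Perm (Phase n)) x v = -(μ • v) → v = 0) :
    SmoothIsotopic φ 1 := by
  obtain ⟨hφ, hφs, hφo, K, hK, hφK⟩ := φ.2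
  set f : Phase n → Phase n := fun x => (φ : Equiv.Perm (Phase n)) x with hf
  set g : Phase n → Phase n := fun x => f x - x with hg
  have hgs : ContDiff ℝ ∞ g := hφ.sub contDiff_id
  have hgK : ∀ x ∉ K, g x = 0 := fun x hx => by simp only [hg, hf, hφK x hx, sub_self]
  have hfd : ∀ x, HasFDerivAt f (fderiv ℝ f x) x := fun x =>
    (hφ.differentiable (by simp) x).hasFDerivAt
  have hgd : ∀ x, HasFDerivAt g (fderiv ℝ f x - ContinuousLinearMap.id ℝ (Phase n)) x := fun x =>
    (hfd x).sub (hasFDerivAt_id x)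
  -- the two families `id + c g`
  have hfam : ∀ (c : ℝ) (x : Phase n), HasFDerivAt (fun x => x + c • g x)
      (ContinuousLinearMap.id ℝ (Phase n) +
        c • (fderiv ℝ f x - ContinuousLinearMap.id ℝ (Phase n))) x := fun c x =>
    (hasFDerivAt_id x).add ((hgd x).const_smul c)
  have hfamv : ∀ (c : ℝ) (x v : Phase n), fderiv ℝ (fun x => x + c • g x) x v =
      (1 - c) • v + c • fderiv ℝ f x v := by
    intro c x v
    rw [(hfam c x).fderiv]
    simp only [add_apply, smul_apply,
      sub_apply, ContinuousLinearMap.id_apply]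
    module
  have hfamsm : ∀ c : ℝ, ContDiff ℝ ∞ (fun x => x + c • g x) := fun c =>
    contDiff_id.add (hgs.const_smul c)
  have hfamK : ∀ (c : ℝ), ∀ x ∉ K, x + c • g x = x := fun c x hx => by
    rw [hgK x hx, smul_zero, add_zero]
  -- injectivity of the derivative for `c ∈ [0, 1/2]`
  have hker : ∀ (c : ℝ), 0 ≤ c → c ≤ 1 / 2 → ∀ x v : Phase n,
      (1 - c) • v + c • fderiv ℝ f x v = 0 → v = 0 := by
    intro c hc0 hc1 x v h
    rcases hc0.eq_or_lt with h0 | h0
    · rw [← h0] at h; simpa using h
    · apply H x v ((1 - c) / c)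
      · rw [le_div_iff₀ h0]; linarith
      · have h1 : c • fderiv ℝ f x v = -((1 - c) • v) := by
          rw [eq_neg_iff_add_eq_zero, add_comm]; exact h
        have h2 : fderiv ℝ f x v = c⁻¹ • (c • fderiv ℝ f x v) := by
          rw [smul_smul, inv_mul_cancel₀ h0.ne', one_smul]
        rw [h2, h1, smul_neg, smul_smul, div_eq_inv_mul]
  have hinj : ∀ (c : ℝ), 0 ≤ c → c ≤ 1 / 2 → ∀ x : Phase n,
      Injective (fderiv ℝ (fun x => x + c • g x) x) := by
    intro c hc0 hc1 x
    rw [injective_iff_map_eq_zero]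
    intro v hv
    rw [hfamv] at hv
    exact hker c hc0 hc1 x v hv
  have hbij : ∀ (c : ℝ), 0 ≤ c → c ≤ 1 / 2 → Bijective (fun x => x + c • g x) :=
    fun c hc0 hc1 => bijective_of_injective_fderiv (hfamsm c) (hinj c hc0 hc1) hK (hfamK c)
  -- the joint map
  set Φ : ℝ × Phase n → ℝ × Phase n := fun q => (q.1, q.2 + theta q.1 • g q.2) with hΦ
  have hΦs : ContDiff ℝ ∞ Φ := contDiff_fst.prodMk
    (contDiff_snd.add ((contDiff_theta.comp contDiff_fst).smul (hgs.comp contDiff_snd)))
  have hΦbij : Bijective Φ := by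
    constructor
    · rintro ⟨t, x⟩ ⟨t', x'⟩ h
      simp only [hΦ, Prod.mk.injEq] at h
      obtain ⟨rfl, h⟩ := h
      rw [(hbij (theta t) (theta_nonneg t) (theta_le t)).1 h]
    · rintro ⟨t, z⟩
      obtain ⟨x, hx⟩ := (hbij (theta t) (theta_nonneg t) (theta_le t)).2 z
      exact ⟨(t, x), by simp only [hΦ]; rw [← hx]⟩
  have hΦinj : ∀ q, Injective (fderiv ℝ Φ q) := by
    rintro ⟨t, x⟩
    rw [injective_iff_map_eq_zero]
    rintro ⟨s, v⟩ h
    have hθd : HasFDerivAt (fun q : ℝ × Phase n => theta q.1)
        ((fderiv ℝ theta t).comp (ContinuousLinearMap.fst ℝ ℝ (Phase n))) (t, x) :=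
      HasFDerivAt.comp (t, x) (f := fun q : ℝ × Phase n => q.1) (g := theta)
        (contDiff_theta.differentiable (by simp) t).hasFDerivAt hasFDerivAt_fst
    have hgd' : HasFDerivAt (fun q : ℝ × Phase n => g q.2)
        ((fderiv ℝ f x - ContinuousLinearMap.id ℝ (Phase n)).comp
          (ContinuousLinearMap.snd ℝ ℝ (Phase n))) (t, x) :=
      HasFDerivAt.comp (t, x) (f := fun q : ℝ × Phase n => q.2) (g := g) (hgd x) hasFDerivAt_snd
    have h1 := (hasFDerivAt_fst (𝕜 := ℝ) (E := ℝ) (F := Phase n) (p := (t, x))).prodMk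
      ((hasFDerivAt_snd (𝕜 := ℝ) (E := ℝ) (F := Phase n) (p := (t, x))).add (hθd.smul hgd'))
    have h2 : HasFDerivAt Φ _ (t, x) := h1
    rw [h2.fderiv] at h
    simp only [ContinuousLinearMap.prod_apply, ContinuousLinearMap.coe_fst',
      add_apply, ContinuousLinearMap.coe_snd',
      smul_apply, ContinuousLinearMap.comp_apply,
      sub_apply, ContinuousLinearMap.id_apply,
      ContinuousLinearMap.smulRight_apply, Prod.mk_eq_zero] at h
    obtain ⟨hs, hv⟩ := h
    subst hs
    have hv0 : v = 0 := by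
      apply hker (theta t) (theta_nonneg t) (theta_le t) x v
      have : (1 - theta t) • v + theta t • fderiv ℝ f x v =
          v + theta t • (fderiv ℝ f x v - v) := by module
      rw [this]
      simpa using hv
    rw [hv0]; rfl
  set e : (ℝ × Phase n) ≃ (ℝ × Phase n) := Equiv.ofBijective Φ hΦbij with he
  have hes : ContDiff ℝ ∞ e.symm := contDiff_symm_of_injective_fderiv e hΦs hΦinj
  have heΦ : ∀ q, Φ (e.symm q) = q := fun q => e.apply_symm_apply q
  set X : ℝ × Phase n → Phase n := fun q => (e.symm q).2 with hX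
  have hXs : ContDiff ℝ ∞ X := contDiff_snd.comp hes
  have hX1 : ∀ q, (e.symm q).1 = q.1 := fun q => by
    have h : (Φ (e.symm q)).1 = q.1 := by rw [heΦ q]
    exact h
  have hXeq : ∀ t z, X (t, z) + theta t • g (X (t, z)) = z := by
    intro t z
    have := congrArg Prod.snd (heΦ (t, z))
    simp only [hΦ, hX1] at this
    exact this
  have hXK : ∀ t, ∀ z ∉ K, X (t, z) = z := by
    intro t z hz
    apply (hbij (theta t) (theta_nonneg t) (theta_le t)).1
    simp only
    rw [hXeq, hfamK _ z hz]
  -- the isotopy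
  set Γ : ℝ × Phase n → Phase n := fun q => X q + (1 - theta q.1) • g (X q) with hΓ
  have hΓs : ContDiff ℝ ∞ Γ := hXs.add
    ((contDiff_const.sub (contDiff_theta.comp contDiff_fst)).smul (hgs.comp hXs))
  have hΓK : ∀ t, ∀ z ∉ K, Γ (t, z) = z := by
    intro t z hz
    simp only [hΓ, hXK t z hz, hgK z hz, smul_zero, add_zero]
  have hΓts : ∀ t, ContDiff ℝ ∞ (fun z => Γ (t, z)) := fun t =>
    hΓs.comp (contDiff_const.prodMk contDiff_id)
  have hΓo : ∀ t z u v, omegaStd (fderiv ℝ (fun z => Γ (t, z)) z u)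
      (fderiv ℝ (fun z => Γ (t, z)) z v) = omegaStd u v := by
    intro t z u v
    have hXts : ContDiff ℝ ∞ (fun z => X (t, z)) := hXs.comp (contDiff_const.prodMk contDiff_id)
    have hXd : HasFDerivAt (fun z => X (t, z)) (fderiv ℝ (fun z => X (t, z)) z) z :=
      (hXts.differentiable (by simp) z).hasFDerivAt
    have hA : fderiv ℝ (fun z => X (t, z) + theta t • g (X (t, z))) z =
        (fderiv ℝ (fun x => x + theta t • g x) (X (t, z))).comp (fderiv ℝ (fun z => X (t, z)) z) :=
      HasFDerivAt.fderiv (HasFDerivAt.comp z (g := fun x => x + theta t • g x)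
        ((hfamsm (theta t)).differentiable (by simp) _).hasFDerivAt hXd)
    have hA' : fderiv ℝ (fun z => X (t, z) + theta t • g (X (t, z))) z =
        ContinuousLinearMap.id ℝ _ := by
      have : (fun z => X (t, z) + theta t • g (X (t, z))) = id := by
        ext1 z; exact hXeq t z
      rw [this, fderiv_id]
    have hB : fderiv ℝ (fun z => Γ (t, z)) z =
        (fderiv ℝ (fun x => x + (1 - theta t) • g x) (X (t, z))).comp
          (fderiv ℝ (fun z => X (t, z)) z) :=
      HasFDerivAt.fderiv (HasFDerivAt.comp z (g := fun x => x + (1 - theta t) • g x)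
        ((hfamsm (1 - theta t)).differentiable (by simp) _).hasFDerivAt hXd)
    set x := X (t, z) with hx
    set u' := fderiv ℝ (fun z => X (t, z)) z u with hu'
    set v' := fderiv ℝ (fun z => X (t, z)) z v with hv'
    have hAu : (1 - theta t) • u' + theta t • fderiv ℝ f x u' = u := by
      rw [← hfamv, hu', ← ContinuousLinearMap.comp_apply, ← hA, hA']; rfl
    have hAv : (1 - theta t) • v' + theta t • fderiv ℝ f x v' = v := by
      rw [← hfamv, hv', ← ContinuousLinearMap.comp_apply, ← hA, hA']; rfl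
    rw [hB, ContinuousLinearMap.comp_apply, ContinuousLinearMap.comp_apply, ← hu', ← hv',
      hfamv, hfamv]
    conv_rhs => rw [← hAu, ← hAv]
    simp only [omegaStd_add_left, omegaStd_add_right, omegaStd_smul_left, omegaStd_smul_right]
    have := hφo x u' v'
    rw [this]
    ring
  have hΓinj : ∀ t z, Injective (fderiv ℝ (fun z => Γ (t, z)) z) := by
    intro t z
    rw [injective_iff_map_eq_zero]
    intro u hu
    apply eq_zero_of_omegaStd
    intro v
    rw [← hΓo t z u v, hu, omegaStd_zero_left]
  have hΓbij : ∀ t, Bijective (fun z => Γ (t, z)) := fun t =>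
    bijective_of_injective_fderiv (hΓts t) (hΓinj t) hK (hΓK t)
  refine ⟨⟨K, hK⟩, fun t => ⟨Equiv.ofBijective (fun z => Γ (t, z)) (hΓbij t), hΓts t,
    contDiff_symm_of_injective_fderiv _ (hΓts t) (hΓinj t), hΓo t, K, hK, hΓK t⟩, ?_, ?_, ?_, ?_⟩
  · exact fun t p hp => hΓK t p hp
  · exact hΓs
  · apply Subtype.ext
    apply Equiv.ext
    intro z
    change Γ (0, z) = f z
    have h1 : X (0, z) = z := by
      have := hXeq 0 z
      rwa [theta_zero, zero_smul, add_zero] at this
    simp only [hΓ, h1, theta_zero, sub_zero, one_smul, hg]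
    abel
  · apply Subtype.ext
    apply Equiv.ext
    intro z
    change Γ (1, z) = z
    have h1 := hXeq 1 z
    rw [theta_one] at h1
    simp only [hΓ, theta_one]
    rw [show (1 : ℝ) - 1 / 2 = 1 / 2 by norm_num]
    exact h1

end Pool.Agent.Helper17
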