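import Mathlib
import Pool.Agent.Helper17.SympBase
import Pool.Agent.Helper17.LocalDiffeo
import Pool.Agent.Helper17.Isotopy

open scoped ContDiff Distributions Topology
open Set Function TopologicalSpace Filter

namespace Pool.Agent.Helper17

variable {n : ℕ}

lemma omegaStd_sub_left (u u' v : Phase n) :
    omegaStd (u - u') v = omegaStd u v - omegaStd u' v := by
  simp only [omegaStd, PiLp.sub_apply, ← Finset.sum_sub_distrib]
  exact Finset.sum_congr rfl fun i _ => by ring

lemma omegaStd_sub_right (u v v' : Phase n) :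
    omegaStd u (v - v') = omegaStd u v - omegaStd u v' := by
  simp only [omegaStd, PiLp.sub_apply, ← Finset.sum_sub_distrib]
  exact Finset.sum_congr rfl fun i _ => by ring

/-- The smooth interpolation parameter from `0` to `1`. -/
lemma contDiff_smoothTransition : ContDiff ℝ ∞ Real.smoothTransition :=
  Real.smoothTransition.contDiff

/-- **Isotopy criterion, general form.** Let `φ` be a compactly supported symplectomorphism and `M`
a linear symplectic map such that `M - B` is injective for every point `B` of each segment joining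
the identity to a derivative `Dφ(x)`. Then `φ` is smoothly isotopic to the identity through
compactly supported symplectomorphisms. -/
theorem smoothIsotopic_one_of_criterion (φ : SympCt n) (M : Phase n →L[ℝ] Phase n)
    (hM : ∀ u v : Phase n, omegaStd (M u) (M v) = omegaStd u v)
    (H : ∀ (x v : Phase n) (s : ℝ), 0 ≤ s → s ≤ 1 →
      M v = s • fderiv ℝ (φ : Equiv.Perm (Phase n)) x v + (1 - s) • v → v = 0) :
    SmoothIsotopic φ 1 := by
  obtain ⟨hφ, hφs, hφo, K, hK, hφK⟩ := φ.2
  set f : Phase n → Phase n := fun x => (φ : Equiv.Perm (Phase n)) x with hf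
  have hfd : ∀ x, HasFDerivAt f (fderiv ℝ f x) x := fun x =>
    (hφ.differentiable (by simp) x).hasFDerivAt
  -- the inverse of `M - 1`
  have hM1inj : Injective (M - ContinuousLinearMap.id ℝ (Phase n)) := by
    rw [injective_iff_map_eq_zero]
    intro v hv
    apply H 0 v 0 le_rfl zero_le_one
    rw [sub_apply, ContinuousLinearMap.id_apply, sub_eq_zero] at hv
    rw [hv]; simp
  set e1 := cleOfInjective (M - ContinuousLinearMap.id ℝ (Phase n)) hM1inj with he1
  set Nv : Phase n →L[ℝ] Phase n := (e1.symm : Phase n →L[ℝ] Phase n) with hNv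
  have hN1 : ∀ v, M (Nv v) = v + Nv v := by
    intro v
    have h1 : (M - ContinuousLinearMap.id ℝ (Phase n)) (Nv v) = v := by
      have : e1 (e1.symm v) = v := e1.apply_symm_apply v
      rw [← coe_cleOfInjective _ hM1inj]
      exact this
    rw [sub_apply, ContinuousLinearMap.id_apply, sub_eq_iff_eq_add] at h1
    exact h1
  -- the displacement in the chart
  set g : Phase n → Phase n := fun x => Nv (f x - x) with hg
  have hgs : ContDiff ℝ ∞ g := Nv.contDiff.comp (hφ.sub contDiff_id)
  have hgK : ∀ x ∉ K, g x = 0 := fun x hx => by simp only [hg, hf, hφK x hx, sub_self, map_zero]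
  have hgM : ∀ x, M (g x) = f x - x + g x := fun x => hN1 _
  have hgd : ∀ x, HasFDerivAt g
      (Nv.comp (fderiv ℝ f x - ContinuousLinearMap.id ℝ (Phase n))) x := fun x =>
    Nv.hasFDerivAt.comp x ((hfd x).sub (hasFDerivAt_id x))
  -- the two families
  have hfamA : ∀ (c : ℝ) (x : Phase n), HasFDerivAt (fun x => x - c • g x)
      (ContinuousLinearMap.id ℝ (Phase n) -
        c • (Nv.comp (fderiv ℝ f x - ContinuousLinearMap.id ℝ (Phase n)))) x := fun c x =>
    (hasFDerivAt_id x).sub ((hgd x).const_smul c)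
  have hfamAv : ∀ (c : ℝ) (x v : Phase n), fderiv ℝ (fun x => x - c • g x) x v =
      v - c • Nv (fderiv ℝ f x v - v) := by
    intro c x v
    rw [(hfamA c x).fderiv]; rfl
  have hfamB : ∀ (c : ℝ) (x : Phase n), HasFDerivAt (fun x => f x - c • M (g x))
      (fderiv ℝ f x -
        c • (M.comp (Nv.comp (fderiv ℝ f x - ContinuousLinearMap.id ℝ (Phase n))))) x := fun c x =>
    (hfd x).sub ((M.hasFDerivAt.comp x (hgd x)).const_smul c)
  have hfamBv : ∀ (c : ℝ) (x v : Phase n), fderiv ℝ (fun x => f x - c • M (g x)) x v =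
      fderiv ℝ f x v - c • M (Nv (fderiv ℝ f x v - v)) := by
    intro c x v
    rw [(hfamB c x).fderiv]; rfl
  have hfamsmA : ∀ c : ℝ, ContDiff ℝ ∞ (fun x => x - c • g x) := fun c =>
    contDiff_id.sub (hgs.const_smul c)
  have hfamsmB : ∀ c : ℝ, ContDiff ℝ ∞ (fun x => f x - c • M (g x)) := fun c =>
    hφ.sub ((M.contDiff.comp hgs).const_smul c)
  have hfamK : ∀ (c : ℝ), ∀ x ∉ K, x - c • g x = x := fun c x hx => by
    rw [hgK x hx, smul_zero, sub_zero]
  -- injectivity of the derivative for `c ∈ [0, 1]`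
  have hker : ∀ (c : ℝ), 0 ≤ c → c ≤ 1 → ∀ x v : Phase n,
      v - c • Nv (fderiv ℝ f x v - v) = 0 → v = 0 := by
    intro c hc0 hc1 x v h
    apply H x v c hc0 hc1
    have h1 : v = c • Nv (fderiv ℝ f x v - v) := sub_eq_zero.1 h
    have h2 : M v = c • (fderiv ℝ f x v - v) + v := by
      conv_lhs => rw [h1]
      rw [map_smul, hN1, smul_add, ← h1]
    rw [h2]; module
  have hinj : ∀ (c : ℝ), 0 ≤ c → c ≤ 1 → ∀ x : Phase n,
      Injective (fderiv ℝ (fun x => x - c • g x) x) := by
    intro c hc0 hc1 x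
    rw [injective_iff_map_eq_zero]
    intro v hv
    rw [hfamAv] at hv
    exact hker c hc0 hc1 x v hv
  have hbij : ∀ (c : ℝ), 0 ≤ c → c ≤ 1 → Bijective (fun x => x - c • g x) :=
    fun c hc0 hc1 => bijective_of_injective_fderiv (hfamsmA c) (hinj c hc0 hc1) hK (hfamK c)
  -- the joint map
  set σ : ℝ → ℝ := Real.smoothTransition with hσ
  have hσs : ContDiff ℝ ∞ σ := contDiff_smoothTransition
  have hσ0 : ∀ t, 0 ≤ σ t := Real.smoothTransition.nonneg
  have hσ1 : ∀ t, σ t ≤ 1 := Real.smoothTransition.le_one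
  set Φ : ℝ × Phase n → ℝ × Phase n := fun q => (q.1, q.2 - σ q.1 • g q.2) with hΦ
  have hΦs : ContDiff ℝ ∞ Φ := contDiff_fst.prodMk
    (contDiff_snd.sub ((hσs.comp contDiff_fst).smul (hgs.comp contDiff_snd)))
  have hΦbij : Bijective Φ := by
    constructor
    · rintro ⟨t, x⟩ ⟨t', x'⟩ h
      simp only [hΦ, Prod.mk.injEq] at h
      obtain ⟨rfl, h⟩ := h
      rw [(hbij (σ t) (hσ0 t) (hσ1 t)).1 h]
    · rintro ⟨t, z⟩
      obtain ⟨x, hx⟩ := (hbij (σ t) (hσ0 t) (hσ1 t)).2 z
      exact ⟨(t, x), by simp only [hΦ]; rw [← hx]⟩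
  have hΦinj : ∀ q, Injective (fderiv ℝ Φ q) := by
    rintro ⟨t, x⟩
    rw [injective_iff_map_eq_zero]
    rintro ⟨s, v⟩ h
    have hθd : HasFDerivAt (fun q : ℝ × Phase n => σ q.1)
        ((fderiv ℝ σ t).comp (ContinuousLinearMap.fst ℝ ℝ (Phase n))) (t, x) :=
      HasFDerivAt.comp (t, x) (f := fun q : ℝ × Phase n => q.1) (g := σ)
        (hσs.differentiable (by simp) t).hasFDerivAt hasFDerivAt_fst
    have hgd' : HasFDerivAt (fun q : ℝ × Phase n => g q.2)
        ((Nv.comp (fderiv ℝ f x - ContinuousLinearMap.id ℝ (Phase n))).comp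
          (ContinuousLinearMap.snd ℝ ℝ (Phase n))) (t, x) :=
      HasFDerivAt.comp (t, x) (f := fun q : ℝ × Phase n => q.2) (g := g) (hgd x) hasFDerivAt_snd
    have h1 := (hasFDerivAt_fst (𝕜 := ℝ) (E := ℝ) (F := Phase n) (p := (t, x))).prodMk
      ((hasFDerivAt_snd (𝕜 := ℝ) (E := ℝ) (F := Phase n) (p := (t, x))).sub (hθd.smul hgd'))
    have h2 : HasFDerivAt Φ _ (t, x) := h1
    rw [h2.fderiv] at h
    simp only [ContinuousLinearMap.prod_apply, ContinuousLinearMap.coe_fst',
      add_apply, ContinuousLinearMap.coe_snd',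
      smul_apply, ContinuousLinearMap.comp_apply,
      sub_apply, ContinuousLinearMap.id_apply,
      ContinuousLinearMap.smulRight_apply, Prod.mk_eq_zero] at h
    obtain ⟨hs, hv⟩ := h
    subst hs
    have hv0 : v = 0 := by
      apply hker (σ t) (hσ0 t) (hσ1 t) x v
      simpa using hv
    rw [hv0]; rfl
  set e : (ℝ × Phase n) ≃ (ℝ × Phase n) := Equiv.ofBijective Φ hΦbij with he
  have hes : ContDiff ℝ ∞ e.symm := contDiff_symm_of_injective_fderiv e hΦs hΦinj
  have heΦ : ∀ q, Φ (e.symm q) = q := fun q => e.apply_symm_apply q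
  set X : ℝ × Phase n → Phase n := fun q => (e.symm q).2 with hX
  have hXs : ContDiff ℝ ∞ X := contDiff_snd.comp hes
  have hX1 : ∀ q, (e.symm q).1 = q.1 := fun q => by
    have h : (Φ (e.symm q)).1 = q.1 := by rw [heΦ q]
    exact h
  have hXeq : ∀ t z, X (t, z) - σ t • g (X (t, z)) = z := by
    intro t z
    have := congrArg Prod.snd (heΦ (t, z))
    simp only [hΦ, hX1] at this
    exact this
  have hXK : ∀ t, ∀ z ∉ K, X (t, z) = z := by
    intro t z hz
    apply (hbij (σ t) (hσ0 t) (hσ1 t)).1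
    simp only
    rw [hXeq, hfamK _ z hz]
  -- the isotopy
  set Γ : ℝ × Phase n → Phase n := fun q => f (X q) - σ q.1 • M (g (X q)) with hΓ
  have hΓs : ContDiff ℝ ∞ Γ := (hφ.comp hXs).sub
    ((hσs.comp contDiff_fst).smul (M.contDiff.comp (hgs.comp hXs)))
  have hΓK : ∀ t, ∀ z ∉ K, Γ (t, z) = z := by
    intro t z hz
    simp only [hΓ, hXK t z hz, hgK z hz, map_zero, smul_zero, sub_zero]
    exact hφK z hz
  have hΓts : ∀ t, ContDiff ℝ ∞ (fun z => Γ (t, z)) := fun t =>
    hΓs.comp (contDiff_const.prodMk contDiff_id)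
  have hΓo : ∀ t z u v, omegaStd (fderiv ℝ (fun z => Γ (t, z)) z u)
      (fderiv ℝ (fun z => Γ (t, z)) z v) = omegaStd u v := by
    intro t z u v
    have hXts : ContDiff ℝ ∞ (fun z => X (t, z)) := hXs.comp (contDiff_const.prodMk contDiff_id)
    have hXd : HasFDerivAt (fun z => X (t, z)) (fderiv ℝ (fun z => X (t, z)) z) z :=
      (hXts.differentiable (by simp) z).hasFDerivAt
    have hA : fderiv ℝ (fun z => X (t, z) - σ t • g (X (t, z))) z =
        (fderiv ℝ (fun x => x - σ t • g x) (X (t, z))).comp (fderiv ℝ (fun z => X (t, z)) z) :=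
      HasFDerivAt.fderiv (HasFDerivAt.comp z (g := fun x => x - σ t • g x)
        ((hfamsmA (σ t)).differentiable (by simp) _).hasFDerivAt hXd)
    have hA' : fderiv ℝ (fun z => X (t, z) - σ t • g (X (t, z))) z =
        ContinuousLinearMap.id ℝ _ := by
      have : (fun z => X (t, z) - σ t • g (X (t, z))) = id := by
        ext1 z; exact hXeq t z
      rw [this, fderiv_id]
    have hB : fderiv ℝ (fun z => Γ (t, z)) z =
        (fderiv ℝ (fun x => f x - σ t • M (g x)) (X (t, z))).comp
          (fderiv ℝ (fun z => X (t, z)) z) :=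
      HasFDerivAt.fderiv (HasFDerivAt.comp z (g := fun x => f x - σ t • M (g x))
        ((hfamsmB (σ t)).differentiable (by simp) _).hasFDerivAt hXd)
    set x := X (t, z) with hx
    set u' := fderiv ℝ (fun z => X (t, z)) z u with hu'
    set v' := fderiv ℝ (fun z => X (t, z)) z v with hv'
    set p := Nv (fderiv ℝ f x u' - u') with hp
    set p' := Nv (fderiv ℝ f x v' - v') with hp'
    have hAu : u' - σ t • p = u := by
      rw [hp, ← hfamAv, hu', ← ContinuousLinearMap.comp_apply, ← hA, hA']; rfl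
    have hAv : v' - σ t • p' = v := by
      rw [hp', ← hfamAv, hv', ← ContinuousLinearMap.comp_apply, ← hA, hA']; rfl
    have hq : fderiv ℝ f x u' = M p + u' - p := by
      have := hN1 (fderiv ℝ f x u' - u')
      rw [hp, this]; abel
    have hq' : fderiv ℝ f x v' = M p' + v' - p' := by
      have := hN1 (fderiv ℝ f x v' - v')
      rw [hp', this]; abel
    rw [hB, ContinuousLinearMap.comp_apply, ContinuousLinearMap.comp_apply, ← hu', ← hv',
      hfamBv, hfamBv, ← hp, ← hp']
    have h1 := hφo x u' v'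
    have h2 := hM p p'
    change omegaStd (fderiv ℝ f x u') (fderiv ℝ f x v') = omegaStd u' v' at h1
    rw [hq, hq'] at h1 ⊢
    conv_rhs => rw [← hAu, ← hAv]
    simp only [omegaStd_add_left, omegaStd_add_right, omegaStd_smul_left, omegaStd_smul_right,
      omegaStd_sub_left, omegaStd_sub_right] at h1 ⊢
    linear_combination (1 - σ t) * h1 + ((1 - σ t) ^ 2 - (1 - σ t)) * h2
  have hΓinj : ∀ t z, Injective (fderiv ℝ (fun z => Γ (t, z)) z) := by
    intro t z
    rw [injective_iff_map_eq_zero]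
    intro u hu
    apply eq_zero_of_omegaStd
    intro v
    rw [← hΓo t z u v, hu, omegaStd_zero_left]
  have hΓbij : ∀ t, Bijective (fun z => Γ (t, z)) := fun t =>
    bijective_of_injective_fderiv (hΓts t) (hΓinj t) hK (hΓK t)
  refine ⟨⟨K, hK⟩, fun t => ⟨Equiv.ofBijective (fun z => Γ (t, z)) (hΓbij t), hΓts t,
    contDiff_symm_of_injective_fderiv _ (hΓts t) (hΓinj t), hΓo t, K, hK, hΓK t⟩, ?_, ?_, ?_, ?_⟩
  · exact fun t p hp => hΓK t p hp
  · exact hΓs
  · apply Subtype.ext
    apply Equiv.ext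
    intro z
    change Γ (0, z) = f z
    have h0 : σ 0 = 0 := Real.smoothTransition.zero_of_nonpos le_rfl
    have h1 : X (0, z) = z := by
      have := hXeq 0 z
      rwa [h0, zero_smul, sub_zero] at this
    simp only [hΓ, h1, h0, zero_smul, sub_zero]
  · apply Subtype.ext
    apply Equiv.ext
    intro z
    change Γ (1, z) = z
    have h0 : σ 1 = 1 := Real.smoothTransition.one_of_one_le le_rfl
    have h1 := hXeq 1 z
    rw [h0, one_smul] at h1
    simp only [hΓ, h0, one_smul]
    rw [hgM]
    rw [← h1]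
    rw [h1]
    have : f (X (1, z)) - (f (X (1, z)) - X (1, z) + g (X (1, z))) =
      X (1, z) - g (X (1, z)) := by abel
    rw [this, h1]

end Pool.Agent.Helper17
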