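import Mathlib
import Pool.Agent.Helper17.CFamily
import Pool.Agent.Helper17.CFInt

set_option maxSynthPendingDepth 3

open scoped ContDiff Topology NNReal
open Set Function Filter MeasureTheory

namespace Pool.Agent.Helper17

/-- The projection of the line to the unit interval. -/
noncomputable def pr (σ : ℝ) : Icc (0 : ℝ) 1 := projIcc 0 1 zero_le_one σ

lemma continuous_pr : Continuous pr := continuous_projIcc (h := zero_le_one)

lemma pr_of_mem {σ : ℝ} (h : σ ∈ Icc (0 : ℝ) 1) : (pr σ : ℝ) = σ := by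
  rw [pr, projIcc_of_mem _ h]

lemma pr_coe (s : Icc (0 : ℝ) 1) : pr s = s := projIcc_val _ s

section Volterra

variable {T : Type} [TopologicalSpace T] [CompactSpace T]
  {E : Type} [NormedAddCommGroup E] [NormedSpace ℝ E]

/-- Integration of a family over the unit interval gives a linear map on continuous functions. -/
lemma continuous_volterra (l : ℝ) (β : C(T × Icc (0 : ℝ) 1, E)) :
    Continuous (fun p : T × Icc (0 : ℝ) 1 => ∫ τ in Icc (0 : ℝ) 1,
      ((p.2 : ℝ) * Real.exp (-l * p.2 * (1 - τ))) • β (p.1, pr (p.2 * τ))) := by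
  have h1 : ∀ p : T × Icc (0 : ℝ) 1, ∫ τ in Icc (0 : ℝ) 1,
      ((p.2 : ℝ) * Real.exp (-l * p.2 * (1 - τ))) • β (p.1, pr (p.2 * τ)) =
      ∫ τ in Icc (0 : ℝ) 1, ((p.2 : ℝ) * Real.exp (-l * p.2 * (1 - τ))) • β (p.1, pr (p.2 * τ))
        ∂(volume.restrict (Icc (0 : ℝ) 1)) := by
    intro p
    rw [Measure.restrict_restrict measurableSet_Icc, inter_self]
  simp_rw [h1]
  apply continuous_setIntegral isCompact_Icc
  have c2 : Continuous (fun p : (T × Icc (0 : ℝ) 1) × ℝ => (p.1.2 : ℝ)) :=
    continuous_subtype_val.comp (continuous_snd.comp continuous_fst)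
  apply Continuous.smul
  · apply c2.mul
    apply Real.continuous_exp.comp
    exact ((continuous_const.mul c2).mul (continuous_const.sub continuous_snd))
  · apply β.continuous.comp
    exact (continuous_fst.comp continuous_fst).prodMk
      (continuous_pr.comp (c2.mul continuous_snd))

lemma integrable_volterra (l : ℝ) (β : C(T × Icc (0 : ℝ) 1, E)) (p : T × Icc (0 : ℝ) 1) :
    IntegrableOn (fun τ => ((p.2 : ℝ) * Real.exp (-l * p.2 * (1 - τ))) • β (p.1, pr (p.2 * τ)))
      (Icc (0 : ℝ) 1) := by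
  apply Continuous.integrableOn_Icc
  apply Continuous.smul
  · exact continuous_const.mul (Real.continuous_exp.comp
      (continuous_const.mul (continuous_const.sub continuous_id)))
  · exact β.continuous.comp (continuous_const.prodMk
      (continuous_pr.comp (continuous_const.mul continuous_id)))

lemma integral_weight_le {l s : ℝ} (hl : 0 < l) :
    ∫ τ in Icc (0 : ℝ) 1, s * Real.exp (-l * s * (1 - τ)) ≤ l⁻¹ := by
  rw [integral_Icc_eq_integral_Ioc, ← intervalIntegral.integral_of_le zero_le_one]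
  have h1 : ∀ τ ∈ uIcc (0 : ℝ) 1, HasDerivAt (fun τ => l⁻¹ * Real.exp (-l * s * (1 - τ)))
      (s * Real.exp (-l * s * (1 - τ))) τ := by
    intro τ _
    have h2 : HasDerivAt (fun τ : ℝ => -l * s * (1 - τ)) (-l * s * (-1)) τ :=
      ((hasDerivAt_id τ).const_sub 1).const_mul (-l * s)
    have h3 := (h2.exp).const_mul l⁻¹
    refine h3.congr_deriv ?_
    field_simp
  rw [intervalIntegral.integral_eq_sub_of_hasDerivAt h1]
  · have : 0 < l⁻¹ * Real.exp (-l * s * (1 - 0)) := by positivity
    simp only [sub_self, mul_zero, Real.exp_zero, mul_one]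
    linarith
  · apply Continuous.intervalIntegrable
    exact continuous_const.mul (Real.continuous_exp.comp
      (continuous_const.mul (continuous_const.sub continuous_id)))

/-- The weighted Volterra operator. -/
noncomputable def volterra (T : Type) [TopologicalSpace T] [CompactSpace T] (E : Type)
    [NormedAddCommGroup E] [NormedSpace ℝ E] (l : ℝ) (hl : 0 < l) :
    C(T × Icc (0 : ℝ) 1, E) →L[ℝ] C(T × Icc (0 : ℝ) 1, E) :=
  LinearMap.mkContinuous
    { toFun := fun β => ⟨fun p => ∫ τ in Icc (0 : ℝ) 1,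
        ((p.2 : ℝ) * Real.exp (-l * p.2 * (1 - τ))) • β (p.1, pr (p.2 * τ)),
        continuous_volterra l β⟩
      map_add' := fun β β' => by
        ext p
        simp only [ContinuousMap.coe_mk, ContinuousMap.add_apply, smul_add]
        exact integral_add (integrable_volterra l β p) (integrable_volterra l β' p)
      map_smul' := fun c β => by
        ext p
        simp only [ContinuousMap.coe_mk, ContinuousMap.smul_apply, RingHom.id_apply]
        rw [← integral_smul]
        congr 1
        ext τ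
        rw [smul_comm] } l⁻¹
    (fun β => by
      refine (ContinuousMap.norm_le _ (by positivity)).2 fun p => ?_
      have hp : 0 ≤ (p.2 : ℝ) := p.2.2.1
      calc ‖∫ τ in Icc (0 : ℝ) 1,
          ((p.2 : ℝ) * Real.exp (-l * p.2 * (1 - τ))) • β (p.1, pr (p.2 * τ))‖
          ≤ ∫ τ in Icc (0 : ℝ) 1, ((p.2 : ℝ) * Real.exp (-l * p.2 * (1 - τ))) * ‖β‖ := by
            apply norm_integral_le_of_norm_le
            · apply Continuous.integrableOn_Icc
              exact (continuous_const.mul (Real.continuous_exp.comp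
                (continuous_const.mul (continuous_const.sub continuous_id)))).mul continuous_const
            · refine Eventually.of_forall fun τ => ?_
              rw [norm_smul, Real.norm_of_nonneg (by positivity)]
              exact mul_le_mul_of_nonneg_left (β.norm_coe_le_norm _) (by positivity)
        _ = (∫ τ in Icc (0 : ℝ) 1, ((p.2 : ℝ) * Real.exp (-l * p.2 * (1 - τ)))) * ‖β‖ :=
            integral_mul_const _ _
        _ ≤ l⁻¹ * ‖β‖ := mul_le_mul_of_nonneg_right (integral_weight_le hl) (norm_nonneg _))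

lemma volterra_apply (l : ℝ) (hl : 0 < l) (β : C(T × Icc (0 : ℝ) 1, E))
    (p : T × Icc (0 : ℝ) 1) : volterra T E l hl β p = ∫ τ in Icc (0 : ℝ) 1,
      ((p.2 : ℝ) * Real.exp (-l * p.2 * (1 - τ))) • β (p.1, pr (p.2 * τ)) := rfl

lemma norm_volterra_le (l : ℝ) (hl : 0 < l) : ‖volterra T E l hl‖ ≤ l⁻¹ :=
  LinearMap.mkContinuous_norm_le _ (by positivity) _

end Volterra

section Perturb

/-- Small Lipschitz smooth perturbations of the identity have smooth inverses. -/
lemma exists_smooth_inverse {B : Type*} [NormedAddCommGroup B] [NormedSpace ℝ B] [CompleteSpace B]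
    {Q : B → B} (hQ : ContDiff ℝ ∞ Q) (hL : ∀ x y, ‖Q x - Q y‖ ≤ (1 / 2) * ‖x - y‖) :
    ∃ S : B → B, ContDiff ℝ ∞ S ∧ (∀ y, S y - Q (S y) = y) ∧ ∀ β, S (β - Q β) = β := by
  have hQd : ∀ α, ‖fderiv ℝ Q α‖ ≤ 1 / 2 := by
    intro α
    have : LipschitzWith (1 / 2 : ℝ≥0) Q := LipschitzWith.of_dist_le_mul fun x y => by
      rw [dist_eq_norm, dist_eq_norm]
      simpa using hL x y
    have h1 := norm_fderiv_le_of_lipschitz ℝ this (x₀ := α)
    simpa using h1
  have happ : ApproximatesLinearOn (fun β => β - Q β)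
      ((ContinuousLinearEquiv.refl ℝ B : B ≃L[ℝ] B) : B →L[ℝ] B) univ (1 / 2 : ℝ≥0) := by
    intro x _ y _
    have e1 : x - Q x - (y - Q y) - ((ContinuousLinearEquiv.refl ℝ B : B ≃L[ℝ] B) : B →L[ℝ] B)
        (x - y) = -(Q x - Q y) := by
      simp only [ContinuousLinearEquiv.coe_refl, ContinuousLinearMap.id_apply]
      abel
    rw [e1, norm_neg]
    simpa using hL x y
  have hc : Subsingleton B ∨ (1 / 2 : ℝ≥0) <
      ‖((ContinuousLinearEquiv.refl ℝ B : B ≃L[ℝ] B).symm : B →L[ℝ] B)‖₊⁻¹ := by
    rcases subsingleton_or_nontrivial B with h | h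
    · exact Or.inl h
    · right
      have h1 : ‖((ContinuousLinearEquiv.refl ℝ B : B ≃L[ℝ] B).symm : B →L[ℝ] B)‖₊ = 1 := by
        rw [← NNReal.coe_inj]
        simp only [coe_nnnorm]
        exact ContinuousLinearMap.norm_id
      rw [h1, inv_one]
      exact NNReal.half_lt_self one_ne_zero
  set e := happ.toHomeomorph _ hc with he
  have hee : ∀ β, e β = β - Q β := fun β => rfl
  have hunit : ∀ α, ∃ f' : B ≃L[ℝ] B, (f' : B →L[ℝ] B) = ContinuousLinearMap.id ℝ B -
      fderiv ℝ Q α := by
    intro α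
    have h1 : IsUnit (1 - fderiv ℝ Q α) :=
      isUnit_one_sub_of_norm_lt_one ((hQd α).trans_lt (by norm_num))
    obtain ⟨u, hu⟩ := h1
    exact ⟨ContinuousLinearEquiv.ofUnit u, hu⟩
  choose f' hf' using hunit
  refine ⟨e.symm, ?_, ?_, ?_⟩
  · apply e.contDiff_symm (f₀' := f')
    · intro α
      rw [hf']
      exact (hasFDerivAt_id α).sub (hQ.differentiable (by simp) α).hasFDerivAt
    · exact contDiff_id.sub hQ
  · intro y
    rw [← hee]
    exact e.apply_symm_apply y
  · intro β
    rw [← hee]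
    exact e.symm_apply_apply β

end Perturb

section Flow

variable {T : Type} [TopologicalSpace T] [CompactSpace T]
  {E : Type} [NormedAddCommGroup E] [NormedSpace ℝ E] [FiniteDimensional ℝ E]

/-- The flow of a smooth family of time dependent vector fields with bounded derivative. -/
theorem exists_flow (X : T × Icc (0 : ℝ) 1 → E → E) (hX : CF X) {ℓ : ℝ}
    (hℓ : ∀ p x, ‖fderiv ℝ (X p) x‖ ≤ ℓ) :
    ∃ ρ : T × Icc (0 : ℝ) 1 → E → E, CF ρ ∧
      (∀ (t : T) (s : Icc (0 : ℝ) 1) (x : E), ρ (t, s) x = x + ∫ τ in Icc (0 : ℝ) 1,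
        (s : ℝ) • X (t, pr (s * τ)) (ρ (t, pr (s * τ)) x)) ∧
      (∀ x, (∀ p, X p x = 0) → ∀ p, ρ p x = x) := by
  have : CompleteSpace E := FiniteDimensional.complete ℝ E
  set l : ℝ := 2 * (|ℓ| + 1) with hl
  have hl0 : 0 < l := by positivity
  have hcexp : ∀ a : ℝ, Continuous (fun p : T × Icc (0 : ℝ) 1 => Real.exp (a * p.2)) := fun a =>
    Real.continuous_exp.comp (continuous_const.mul (continuous_subtype_val.comp continuous_snd))
  -- the modified field
  set g : T × Icc (0 : ℝ) 1 → E → E := fun p y =>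
    Real.exp (-l * p.2) • X p (Real.exp (l * p.2) • y) with hg
  have hgCF : CF g := by
    have h1 : CF (fun (p : T × Icc (0 : ℝ) 1) (y : E) => Real.exp (l * p.2) • y) :=
      (CF.param (hcexp l)).smul (CF.const contDiff_id)
    exact (CF.param (hcexp (-l))).smul (hX.comp h1)
  have hXlip : ∀ p x y, ‖X p x - X p y‖ ≤ |ℓ| * ‖x - y‖ := fun p x y =>
    convex_univ.norm_image_sub_le_of_norm_fderiv_le (𝕜 := ℝ) (fun z _ => hX.differentiable p z)
      (fun z _ => (hℓ p z).trans (le_abs_self ℓ)) (mem_univ y) (mem_univ x)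
  have hglip : ∀ p x y, ‖g p x - g p y‖ ≤ |ℓ| * ‖x - y‖ := by
    intro p x y
    simp only [hg]
    rw [← smul_sub, norm_smul, Real.norm_of_nonneg (Real.exp_pos _).le]
    calc Real.exp (-l * p.2) * ‖X p (Real.exp (l * p.2) • x) - X p (Real.exp (l * p.2) • y)‖
        ≤ Real.exp (-l * p.2) * (|ℓ| * ‖Real.exp (l * p.2) • x - Real.exp (l * p.2) • y‖) := by
          gcongr; exact hXlip _ _ _
      _ = (Real.exp (-l * p.2) * Real.exp (l * p.2)) * (|ℓ| * ‖x - y‖) := by
          rw [← smul_sub, norm_smul, Real.norm_of_nonneg (Real.exp_pos _).le]; ring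
      _ = |ℓ| * ‖x - y‖ := by
          rw [← Real.exp_add]
          have : -l * (p.2 : ℝ) + l * p.2 = 0 := by ring
          rw [this, Real.exp_zero, one_mul]
  set N := superpos g hgCF.continuous with hN
  set Q : C(T × Icc (0 : ℝ) 1, E) → C(T × Icc (0 : ℝ) 1, E) := fun β =>
    volterra T E l hl0 (N β) with hQ
  have hQs : ContDiff ℝ ∞ Q := (volterra T E l hl0).contDiff.comp
    (contDiff_infty.2 fun k => contDiff_superpos hgCF)
  have hQL : ∀ x y, ‖Q x - Q y‖ ≤ (1 / 2) * ‖x - y‖ := by
    intro x y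
    simp only [hQ]
    rw [← map_sub]
    have h1 : ‖N x - N y‖ ≤ |ℓ| * ‖x - y‖ := by
      refine (ContinuousMap.norm_le _ (by positivity)).2 fun p => ?_
      exact (hglip p (x p) (y p)).trans
        (mul_le_mul_of_nonneg_left ((x - y).norm_coe_le_norm p) (abs_nonneg _))
    calc ‖volterra T E l hl0 (N x - N y)‖ ≤ ‖volterra T E l hl0‖ * ‖N x - N y‖ :=
          ContinuousLinearMap.le_opNorm _ _
      _ ≤ l⁻¹ * (|ℓ| * ‖x - y‖) := by
          gcongr
          exact norm_volterra_le l hl0
      _ = (l⁻¹ * |ℓ|) * ‖x - y‖ := by ring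
      _ ≤ (1 / 2) * ‖x - y‖ := by
          gcongr
          rw [inv_mul_le_iff₀ hl0, hl]
          have := abs_nonneg ℓ
          linarith
  obtain ⟨S, hS, hS1, hS2⟩ := exists_smooth_inverse hQs hQL
  -- the initial value
  set c : E →L[ℝ] C(T × Icc (0 : ℝ) 1, E) := LinearMap.mkContinuous
    { toFun := fun x => ⟨fun p => Real.exp (-l * p.2) • x, (hcexp (-l)).smul continuous_const⟩
      map_add' := fun x y => by ext p; simp
      map_smul' := fun a x => by ext p; simp [smul_comm a] } 1
    (fun x => by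
      rw [one_mul]
      refine (ContinuousMap.norm_le _ (norm_nonneg _)).2 fun p => ?_
      change ‖Real.exp (-l * p.2) • x‖ ≤ ‖x‖
      rw [norm_smul, Real.norm_of_nonneg (Real.exp_pos _).le]
      apply mul_le_of_le_one_left (norm_nonneg _)
      rw [Real.exp_le_one_iff]
      have := p.2.2.1
      nlinarith) with hc
  have hcapp : ∀ x p, c x p = Real.exp (-l * p.2) • x := fun x p => rfl
  set β : E → C(T × Icc (0 : ℝ) 1, E) := fun x => S (c x) with hβ
  have hβs : ContDiff ℝ ∞ β := hS.comp c.contDiff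
  refine ⟨fun p x => Real.exp (l * p.2) • β x p,
    (CF.param (hcexp l)).smul (CF.of_contDiff hβs), ?_, ?_⟩
  · intro t s x
    have h1 : β x (t, s) = c x (t, s) + Q (β x) (t, s) := by
      have := hS1 (c x)
      rw [sub_eq_iff_eq_add] at this
      exact congrArg (fun f : C(T × Icc (0 : ℝ) 1, E) => f (t, s)) this
    simp only
    rw [h1, smul_add, hcapp, smul_smul, ← Real.exp_add]
    have h2 : l * ((t, s) : T × Icc (0 : ℝ) 1).2 + -l * ((t, s) : T × Icc (0 : ℝ) 1).2 = 0 := by
      ring
    rw [h2, Real.exp_zero, one_smul]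
    congr 1
    simp only [hQ]
    rw [volterra_apply, ← integral_smul]
    apply setIntegral_congr_fun measurableSet_Icc
    intro τ hτ
    have hsτ : (s : ℝ) * τ ∈ Icc (0 : ℝ) 1 :=
      ⟨mul_nonneg s.2.1 hτ.1, mul_le_one₀ s.2.2 hτ.1 hτ.2⟩
    have h3 : N (β x) (t, pr (s * τ)) = Real.exp (-l * (s * τ)) •
        X (t, pr (s * τ)) (Real.exp (l * (s * τ)) • β x (t, pr (s * τ))) := by
      change g (t, pr (s * τ)) (β x (t, pr (s * τ))) = _
      simp only [hg, pr_of_mem hsτ]
    simp only [h3, pr_of_mem hsτ]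
    rw [smul_smul, smul_smul]
    congr 1
    have h4 : Real.exp (l * s) * (s * Real.exp (-l * s * (1 - τ)) * Real.exp (-l * (s * τ))) =
        s * (Real.exp (l * s) * Real.exp (-l * s * (1 - τ)) * Real.exp (-l * (s * τ))) := by ring
    have h5 : l * s + -l * s * (1 - τ) + -l * (s * τ) = 0 := by ring
    calc _ = s * (Real.exp (l * s) * Real.exp (-l * s * (1 - τ)) * Real.exp (-l * (s * τ))) := by
          rw [← h4]; ring
      _ = s := by
          rw [← Real.exp_add, ← Real.exp_add, h5, Real.exp_zero, mul_one]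
  · intro x hx p
    have h1 : Q (c x) = 0 := by
      have h2 : N (c x) = 0 := by
        ext q
        change g q (c x q) = 0
        simp only [hg, hcapp]
        rw [smul_smul, ← Real.exp_add]
        have : l * (q.2 : ℝ) + -l * q.2 = 0 := by ring
        rw [this, Real.exp_zero, one_smul, hx, smul_zero]
      simp only [hQ]
      rw [h2, map_zero]
    have h2 : β x = c x := by
      have := hS2 (c x)
      rwa [h1, sub_zero] at this
    simp only [h2, hcapp]
    rw [smul_smul, ← Real.exp_add]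
    have : l * (p.2 : ℝ) + -l * p.2 = 0 := by ring
    rw [this, Real.exp_zero, one_smul]

end Flow

end Pool.Agent.Helper17
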