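import Mathlib
import Pool.Agent.Helper17.CFamily
import Pool.Agent.Helper17.CFInt
import Pool.Agent.Helper17.Flow

set_option maxSynthPendingDepth 3

open scoped ContDiff Topology NNReal
open Set Function Filter MeasureTheory

namespace Pool.Agent.Helper17

lemma setIntegral_rescale {F : Type*} [NormedAddCommGroup F] [NormedSpace ℝ F] (f : ℝ → F)
    (s : ℝ) : ∫ τ in Icc (0 : ℝ) 1, s • f (s * τ) = ∫ σ in (0 : ℝ)..s, f σ := by
  rw [integral_Icc_eq_integral_Ioc, ← intervalIntegral.integral_of_le zero_le_one,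
    intervalIntegral.integral_smul, intervalIntegral.smul_integral_comp_mul_left, mul_zero, mul_one]

variable {T : Type} [TopologicalSpace T] [CompactSpace T]
  {E : Type} [NormedAddCommGroup E] [NormedSpace ℝ E] [FiniteDimensional ℝ E]

/-- The flow and its space derivative as solutions of differential equations. -/
theorem flow_ode {X ρ : T × Icc (0 : ℝ) 1 → E → E} (hX : CF X) (hρ : CF ρ)
    (h : ∀ (t : T) (s : Icc (0 : ℝ) 1) (x : E), ρ (t, s) x = x + ∫ τ in Icc (0 : ℝ) 1,
        (s : ℝ) • X (t, pr (s * τ)) (ρ (t, pr (s * τ)) x)) (t : T) (x : E) :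
    ∃ (r : ℝ → E) (A : ℝ → E →L[ℝ] E),
      (∀ s : Icc (0 : ℝ) 1, r s = ρ (t, s) x) ∧
      (∀ s : Icc (0 : ℝ) 1, A s = fderiv ℝ (ρ (t, s)) x) ∧
      (∀ s : Icc (0 : ℝ) 1, HasDerivAt r (X (t, s) (r s)) s) ∧
      (∀ s : Icc (0 : ℝ) 1, HasDerivAt A ((fderiv ℝ (X (t, s)) (r s)).comp (A s)) s) ∧
      r 0 = x ∧ A 0 = ContinuousLinearMap.id ℝ E := by
  have : CompleteSpace E := FiniteDimensional.complete ℝ E
  set f : ℝ → E := fun σ => X (t, pr σ) (ρ (t, pr σ) x) with hf
  set B : ℝ → E →L[ℝ] E := fun σ => (fderiv ℝ (X (t, pr σ)) (ρ (t, pr σ) x)).comp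
    (fderiv ℝ (ρ (t, pr σ)) x) with hB
  have hpr : Continuous (fun σ : ℝ => (t, pr σ)) := continuous_const.prodMk continuous_pr
  have hρc : Continuous (fun σ : ℝ => ρ (t, pr σ) x) :=
    hρ.continuous.comp (hpr.prodMk continuous_const)
  have hfc : Continuous f := hX.continuous.comp (hpr.prodMk hρc)
  have hBc : Continuous B :=
    (hX.fderiv.continuous.comp (hpr.prodMk hρc)).clm_comp
      (hρ.fderiv.continuous.comp (hpr.prodMk continuous_const))
  have hr : ∀ s : Icc (0 : ℝ) 1, x + ∫ σ in (0 : ℝ)..(s : ℝ), f σ = ρ (t, s) x := by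
    intro s
    rw [h t s x, ← setIntegral_rescale f s]
  have hA : ∀ s : Icc (0 : ℝ) 1, ContinuousLinearMap.id ℝ E + ∫ σ in (0 : ℝ)..(s : ℝ), B σ =
      fderiv ℝ (ρ (t, s)) x := by
    intro s
    -- differentiate the integral equation
    set F : (T × Icc (0 : ℝ) 1) × ℝ → E → E := fun q y =>
      (q.1.2 : ℝ) • X (q.1.1, pr (q.1.2 * q.2)) (ρ (q.1.1, pr (q.1.2 * q.2)) y) with hF
    have hbase : Continuous (fun q : (T × Icc (0 : ℝ) 1) × ℝ =>
        ((q.1.1, pr (q.1.2 * q.2)) : T × Icc (0 : ℝ) 1)) :=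
      (continuous_fst.comp continuous_fst).prodMk (continuous_pr.comp
        ((continuous_subtype_val.comp (continuous_snd.comp continuous_fst)).mul continuous_snd))
    have hFCF : CF F :=
      (CF.param (continuous_subtype_val.comp (continuous_snd.comp continuous_fst))).smul
        ((hX.base hbase).comp (hρ.base hbase))
    have h1 := hasFDerivAt_setIntegral (isCompact_Icc (a := (0 : ℝ)) (b := 1))
      (volume.restrict (Icc (0 : ℝ) 1)) hFCF.continuous hFCF.differentiable
      hFCF.fderiv.continuous (t, s) x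
    rw [Measure.restrict_restrict measurableSet_Icc, inter_self] at h1
    have h2 : HasFDerivAt (ρ (t, s)) (ContinuousLinearMap.id ℝ E +
        ∫ z in Icc (0 : ℝ) 1, fderiv ℝ (F ((t, s), z)) x) x := by
      have h3 : ρ (t, s) = fun y => y + ∫ z in Icc (0 : ℝ) 1, F ((t, s), z) y := by
        funext y
        exact h t s y
      rw [h3]
      exact (hasFDerivAt_id x).add h1
    rw [h2.fderiv]
    simp only [add_right_inj]
    rw [← setIntegral_rescale B s]
    apply setIntegral_congr_fun measurableSet_Icc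
    intro τ _
    simp only [hF, hB]
    have h4 : HasFDerivAt (fun y => (s : ℝ) • X (t, pr (s * τ)) (ρ (t, pr (s * τ)) y))
        ((s : ℝ) • (fderiv ℝ (X (t, pr (s * τ))) (ρ (t, pr (s * τ)) x)).comp
          (fderiv ℝ (ρ (t, pr (s * τ))) x)) x :=
      (((hX.differentiable _ _).hasFDerivAt).comp x
        (hρ.differentiable _ _).hasFDerivAt).const_smul (s : ℝ)
    exact h4.fderiv.symm
  refine ⟨fun s => x + ∫ σ in (0 : ℝ)..s, f σ,
    fun s => ContinuousLinearMap.id ℝ E + ∫ σ in (0 : ℝ)..s, B σ, hr, hA, ?_, ?_, ?_, ?_⟩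
  · intro s
    have h2 := (hfc.integral_hasStrictDerivAt 0 (s : ℝ)).hasDerivAt.const_add x
    have h3 : f s = X (t, s) (x + ∫ σ in (0 : ℝ)..(s : ℝ), f σ) := by
      rw [hr s]; simp only [hf, pr_coe]
    rw [h3] at h2
    exact h2
  · intro s
    have h2 := (hBc.integral_hasStrictDerivAt 0 (s : ℝ)).hasDerivAt.const_add
      (ContinuousLinearMap.id ℝ E)
    have h3 : B s = (fderiv ℝ (X (t, s)) (x + ∫ σ in (0 : ℝ)..(s : ℝ), f σ)).comp
        (ContinuousLinearMap.id ℝ E + ∫ σ in (0 : ℝ)..(s : ℝ), B σ) := by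
      rw [hr s, hA s]; simp only [hB, pr_coe]
    rw [h3] at h2
    exact h2
  · simp
  · simp

end Pool.Agent.Helper17
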