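import Mathlib
import Pool.Agent.Helper17.SympBase

open scoped ContDiff Distributions Topology
open Set Function TopologicalSpace Filter Topology

namespace Pool.Agent.Helper17

variable {n : ℕ}

lemma SympSupp.isInducing_disp (K : Compacts (Phase n)) :
    IsInducing (SympSupp.disp K : SympSupp n K → 𝓓_{K}(Phase n, Phase n)) := ⟨rfl⟩

lemma SympSupp.continuous_incl (K : Compacts (Phase n)) :
    Continuous (SympSupp.incl K : SympSupp n K → SympCt n) :=
  continuous_iSup_rng (i := K) continuous_coinduced_rng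

lemma SympSupp.incl_injective (K : Compacts (Phase n)) :
    Injective (SympSupp.incl K : SympSupp n K → SympCt n) := Subtype.val_injective

/-- The inclusion between the subgroups attached to `K ≤ L`. -/
def SympSupp.mono {K L : Compacts (Phase n)} (h : K ≤ L) (φ : SympSupp n K) : SympSupp n L :=
  ⟨φ.1, fun p hp => φ.2 p fun hK => hp (h hK)⟩

lemma SympSupp.incl_mono {K L : Compacts (Phase n)} (h : K ≤ L) (φ : SympSupp n K) :
    SympSupp.incl L (SympSupp.mono h φ) = SympSupp.incl K φ := rfl

lemma SympSupp.topology_eq (K : Compacts (Phase n)) :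
    (instTopologicalSpaceSympSupp n K : TopologicalSpace (SympSupp n K)) =
      ⨅ i : ℕ, TopologicalSpace.induced
        (fun φ : SympSupp n K => ContDiffMapSupportedIn.structureMapLM ℝ ⊤ i (SympSupp.disp K φ))
        inferInstance := by
  change TopologicalSpace.induced (SympSupp.disp K) (⨅ i : ℕ, TopologicalSpace.induced
    (ContDiffMapSupportedIn.structureMapLM ℝ ⊤ i) inferInstance) = _
  rw [induced_iInf]
  refine iInf_congr fun i => ?_
  rw [induced_compose]
  rfl

lemma SympSupp.isInducing_mono {K L : Compacts (Phase n)} (h : K ≤ L) :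
    IsInducing (SympSupp.mono h : SympSupp n K → SympSupp n L) := by
  constructor
  rw [SympSupp.topology_eq K, SympSupp.topology_eq L, induced_iInf]
  refine iInf_congr fun i => ?_
  rw [induced_compose]
  congr 1

lemma SympSupp.continuous_eval (K : Compacts (Phase n)) (p : Phase n) :
    Continuous (fun φ : SympSupp n K => (φ.1 : Equiv.Perm (Phase n)) p) := by
  have h1 : Continuous (fun φ : SympSupp n K => SympSupp.disp K φ p) :=
    (continuous_eval_const p).comp (SympSupp.isInducing_disp K).continuous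
  have h2 : (fun φ : SympSupp n K => (φ.1 : Equiv.Perm (Phase n)) p) =
      fun φ : SympSupp n K => SympSupp.disp K φ p + p := by
    ext1 φ
    change _ = ((φ.1 : Equiv.Perm (Phase n)) p - p) + p
    abel
  rw [h2]
  exact h1.add continuous_const

instance (K : Compacts (Phase n)) : T2Space (SympSupp n K) := by
  rw [t2Space_iff]
  intro φ ψ hne
  have : ∃ p, (φ.1 : Equiv.Perm (Phase n)) p ≠ (ψ.1 : Equiv.Perm (Phase n)) p := by
    by_contra h
    push Not at h
    exact hne (Subtype.ext (Subtype.ext (Equiv.ext h)))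
  obtain ⟨p, hp⟩ := this
  obtain ⟨U, V, hU, hV, h1, h2, h3⟩ := t2_separation hp
  exact ⟨_, _, hU.preimage (SympSupp.continuous_eval K p),
    hV.preimage (SympSupp.continuous_eval K p), h1, h2, h3.preimage _⟩

lemma SympSupp.isClosedEmbedding_mono {K L : Compacts (Phase n)} (h : K ≤ L) :
    IsClosedEmbedding (SympSupp.mono h : SympSupp n K → SympSupp n L) where
  toIsInducing := SympSupp.isInducing_mono h
  injective := fun φ ψ hφψ => Subtype.ext (by
    have : (SympSupp.mono h φ).1 = (SympSupp.mono h ψ).1 := by rw [hφψ]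
    exact this)
  isClosed_range := by
    have : range (SympSupp.mono h : SympSupp n K → SympSupp n L) =
        ⋂ p : {p : Phase n // p ∉ K}, {φ : SympSupp n L |
          (φ.1 : Equiv.Perm (Phase n)) p.1 = p.1} := by
      ext φ
      simp only [mem_range, mem_iInter, Subtype.forall]
      constructor
      · rintro ⟨ψ, rfl⟩ p hp
        exact ψ.2 p hp
      · intro hφ
        exact ⟨⟨φ.1, hφ⟩, rfl⟩
    rw [this]
    exact isClosed_iInter fun p => isClosed_eq (SympSupp.continuous_eval L p.1) continuous_const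

lemma isClosed_iff_forall (s : Set (SympCt n)) :
    IsClosed s ↔ ∀ K : Compacts (Phase n), IsClosed (SympSupp.incl K ⁻¹' s) := by
  rw [isClosed_iSup_iff]
  simp only [isClosed_coinduced]

lemma SympSupp.isClosedEmbedding_incl (K : Compacts (Phase n)) :
    IsClosedEmbedding (SympSupp.incl K : SympSupp n K → SympCt n) := by
  refine IsClosedEmbedding.of_continuous_injective_isClosedMap (SympSupp.continuous_incl K)
    (SympSupp.incl_injective K) ?_
  intro s hs
  rw [isClosed_iff_forall]
  intro L
  have h1 : SympSupp.incl L ⁻¹' (SympSupp.incl K '' s) =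
      SympSupp.mono (le_sup_right : L ≤ K ⊔ L) ⁻¹' (SympSupp.mono (le_sup_left : K ≤ K ⊔ L) '' s) := by
    ext φ
    constructor
    · rintro ⟨ψ, hψ, h⟩
      exact ⟨ψ, hψ, Subtype.ext h⟩
    · rintro ⟨ψ, hψ, h⟩
      exact ⟨ψ, hψ, congrArg Subtype.val h⟩
  rw [h1]
  exact ((SympSupp.isClosedEmbedding_mono _).isClosedMap s hs).preimage
    (SympSupp.isInducing_mono _).continuous

/-- The closed ball of radius `N`, as a compact set. -/
def ballC (n N : ℕ) : Compacts (Phase n) := ⟨Metric.closedBall 0 N, isCompact_closedBall 0 N⟩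

lemma ballC_mono {N M : ℕ} (h : N ≤ M) : ballC n N ≤ ballC n M :=
  Metric.closedBall_subset_closedBall (by exact_mod_cast h)

lemma exists_ballC_ge (K : Compacts (Phase n)) : ∃ N, K ≤ ballC n N := by
  obtain ⟨R, hR⟩ := K.isCompact.isBounded.subset_closedBall (0 : Phase n)
  obtain ⟨N, hN⟩ := exists_nat_ge R
  exact ⟨N, hR.trans (Metric.closedBall_subset_closedBall hN)⟩

lemma exists_supported_ballC (φ : SympCt n) :
    ∃ N, ∀ M, N ≤ M → ∀ p ∉ ballC n M, (φ : Equiv.Perm (Phase n)) p = p := by
  obtain ⟨-, -, -, K, hK, hφK⟩ := φ.2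
  obtain ⟨N, hN⟩ := exists_ballC_ge (⟨K, hK⟩ : Compacts (Phase n))
  exact ⟨N, fun M hM p hp => hφK p fun h => hp (ballC_mono hM (hN h))⟩

/-- A compact subset of `Symp_ct(ℝ^{2n})` consists of maps supported in a common ball. -/
lemma exists_ballC_of_isCompact {C : Set (SympCt n)} (hC : IsCompact C) :
    ∃ N, ∀ φ ∈ C, ∀ p ∉ ballC n N, (φ : Equiv.Perm (Phase n)) p = p := by
  by_contra hcon
  push Not at hcon
  choose φ hφC hφ using hcon
  obtain ⟨c, hcC, hc⟩ := hC.exists_mapClusterPt (f := atTop) (u := φ) (by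
    rw [le_principal_iff]
    exact Filter.mem_map.2 (Filter.Eventually.of_forall hφC))
  obtain ⟨M, hM⟩ := exists_supported_ballC c
  set S : Set (SympCt n) := range φ \ {c} with hS
  have hclosed : IsClosed S := by
    rw [isClosed_iff_forall]
    intro K
    obtain ⟨L, hL⟩ := exists_ballC_ge K
    have hfin : (SympSupp.incl K ⁻¹' S).Finite := by
      have : (SympSupp.incl K ⁻¹' S) ⊆ SympSupp.incl K ⁻¹' (φ '' {N | N < L}) := by
        rintro ψ ⟨⟨N, hN⟩, -⟩
        refine ⟨N, ?_, hN⟩
        by_contra hNL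
        obtain ⟨p, hp, hne⟩ := hφ N
        have h1 : L ≤ N := not_lt.1 hNL
        apply hne
        rw [hN]
        exact ψ.2 p fun h => hp (ballC_mono h1 (hL h))
      refine Finite.subset ?_ this
      exact ((finite_lt_nat L).image φ).preimage (SympSupp.incl_injective K).injOn
    exact hfin.isClosed
  have hnhds : Sᶜ ∈ 𝓝 c := hclosed.isOpen_compl.mem_nhds (by simp [hS])
  have hfreq := (mapClusterPt_iff_frequently.1 hc) Sᶜ hnhds
  obtain ⟨N, hN, hNS⟩ := (Filter.frequently_atTop.1 hfreq) M
  have hNc : φ N = c := by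
    by_contra h
    exact hNS ⟨⟨N, rfl⟩, h⟩
  obtain ⟨p, hp, hne⟩ := hφ N
  rw [hNc] at hne
  exact hne (hM N hN p hp)

/-- A continuous map from a compact space to `Symp_ct(ℝ^{2n})` factors continuously through the
subgroup supported in some ball. -/
lemma exists_lift_of_compact {T : Type*} [TopologicalSpace T] [CompactSpace T]
    (f : T → SympCt n) (hf : Continuous f) :
    ∃ N, ∃ g : T → SympSupp n (ballC n N), Continuous g ∧ ∀ t, (g t).1 = f t := by
  obtain ⟨N, hN⟩ := exists_ballC_of_isCompact (isCompact_range hf)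
  have hN' : ∀ t, ∀ p ∉ ballC n N, (f t : Equiv.Perm (Phase n)) p = p :=
    fun t => hN (f t) (mem_range_self t)
  refine ⟨N, fun t => ⟨f t, hN' t⟩, ?_, fun t => rfl⟩
  exact (SympSupp.isClosedEmbedding_incl (ballC n N)).isInducing.continuous_iff.2 hf

end Pool.Agent.Helper17
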