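import Mathlib
import Pool.Agent.Helper17.SympBase
import Pool.Agent.Helper17.LocalDiffeo
import Pool.Agent.Helper17.Isotopy
import Pool.Agent.Helper17.DirectLimit

open scoped ContDiff Distributions Topology
open Set Function TopologicalSpace Filter Topology

namespace Pool.Agent.Helper17

variable {n : ℕ}

lemma SympCt.contDiff (φ : SympCt n) : ContDiff ℝ ∞ (φ : Equiv.Perm (Phase n)) := φ.2.1

lemma SympCt.contDiff_symm (φ : SympCt n) : ContDiff ℝ ∞ (φ : Equiv.Perm (Phase n)).symm := φ.2.2.1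

lemma SympCt.differentiable (φ : SympCt n) : Differentiable ℝ (φ : Equiv.Perm (Phase n)) :=
  (SympCt.contDiff φ).differentiable (by simp)

lemma SympCt.fderiv_mul (φ ψ : SympCt n) (x : Phase n) :
    fderiv ℝ ((φ * ψ : SympCt n) : Equiv.Perm (Phase n)) x =
      (fderiv ℝ (φ : Equiv.Perm (Phase n)) ((ψ : Equiv.Perm (Phase n)) x)).comp
        (fderiv ℝ (ψ : Equiv.Perm (Phase n)) x) :=
  fderiv_comp x (SympCt.differentiable φ _) (SympCt.differentiable ψ _)

lemma SympCt.fderiv_one (x : Phase n) :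
    fderiv ℝ ((1 : SympCt n) : Equiv.Perm (Phase n)) x = ContinuousLinearMap.id ℝ _ := fderiv_id

lemma SympCt.inv_apply_self (φ : SympCt n) (x : Phase n) :
    ((φ⁻¹ : SympCt n) : Equiv.Perm (Phase n)) ((φ : Equiv.Perm (Phase n)) x) = x :=
  Equiv.symm_apply_apply (φ : Equiv.Perm (Phase n)) x

lemma SympCt.apply_inv_self (φ : SympCt n) (x : Phase n) :
    (φ : Equiv.Perm (Phase n)) (((φ⁻¹ : SympCt n) : Equiv.Perm (Phase n)) x) = x :=
  Equiv.apply_symm_apply (φ : Equiv.Perm (Phase n)) x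

lemma SympCt.fderiv_inv_fderiv (φ : SympCt n) (x v : Phase n) :
    fderiv ℝ ((φ⁻¹ : SympCt n) : Equiv.Perm (Phase n)) ((φ : Equiv.Perm (Phase n)) x)
      (fderiv ℝ (φ : Equiv.Perm (Phase n)) x v) = v := by
  have h := SympCt.fderiv_mul φ⁻¹ φ x
  rw [inv_mul_cancel, SympCt.fderiv_one] at h
  have := congrArg (fun L => L v) h
  simpa using this.symm

lemma SympCt.fderiv_fderiv_inv (φ : SympCt n) (y v : Phase n) :
    fderiv ℝ (φ : Equiv.Perm (Phase n)) (((φ⁻¹ : SympCt n) : Equiv.Perm (Phase n)) y)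
      (fderiv ℝ ((φ⁻¹ : SympCt n) : Equiv.Perm (Phase n)) y v) = v := by
  have h := SympCt.fderiv_mul φ φ⁻¹ y
  rw [mul_inv_cancel, SympCt.fderiv_one] at h
  have := congrArg (fun L => L v) h
  simpa using this.symm

/-- The derivative of an element supported in `K`, restricted to `K`. -/
noncomputable def derivOn (K : Compacts (Phase n)) (φ : SympSupp n K) :
    C(K, Phase n →L[ℝ] Phase n) where
  toFun p := fderiv ℝ (φ.1 : Equiv.Perm (Phase n)) p
  continuous_toFun := (φ.1.2.1.continuous_fderiv (by simp)).comp continuous_subtype_val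

/-- A `C¹`-small quotient. -/
lemma exists_radius_quotient (K : Compacts (Phase n)) (φ : SympSupp n K) {ε : ℝ} (hε : 0 < ε) :
    ∃ δ : ℝ, 0 < δ ∧ ∀ ψ : SympSupp n K, (∀ x ∈ K,
      ‖fderiv ℝ (ψ.1 : Equiv.Perm (Phase n)) x - fderiv ℝ (φ.1 : Equiv.Perm (Phase n)) x‖ < δ) →
      ∀ y, ‖fderiv ℝ ((ψ.1 * φ.1⁻¹ : SympCt n) : Equiv.Perm (Phase n)) y -
        ContinuousLinearMap.id ℝ _‖ < ε := by
  have hcont : Continuous (fun x => fderiv ℝ ((φ.1⁻¹ : SympCt n) : Equiv.Perm (Phase n))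
      ((φ.1 : Equiv.Perm (Phase n)) x)) :=
    ((SympCt.contDiff φ.1⁻¹).continuous_fderiv (by simp)).comp (SympCt.contDiff φ.1).continuous
  obtain ⟨C, hC⟩ := K.isCompact.exists_bound_of_continuousOn hcont.continuousOn
  set C' : ℝ := max C 1 with hC'
  have hC'0 : 0 < C' := lt_of_lt_of_le one_pos (le_max_right _ _)
  refine ⟨ε / 2 / C', by positivity, ?_⟩
  intro ψ hψ y
  set x : Phase n := ((φ.1⁻¹ : SympCt n) : Equiv.Perm (Phase n)) y with hx
  have hfx : (φ.1 : Equiv.Perm (Phase n)) x = y := SympCt.apply_inv_self φ.1 y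
  have key : ‖fderiv ℝ ((ψ.1 * φ.1⁻¹ : SympCt n) : Equiv.Perm (Phase n)) y -
      ContinuousLinearMap.id ℝ _‖ ≤ ε / 2 := by
    apply ContinuousLinearMap.opNorm_le_bound _ (half_pos hε).le
    intro v
    set w : Phase n := fderiv ℝ ((φ.1⁻¹ : SympCt n) : Equiv.Perm (Phase n)) y v with hw
    have h1 : fderiv ℝ ((ψ.1 * φ.1⁻¹ : SympCt n) : Equiv.Perm (Phase n)) y v =
        fderiv ℝ (ψ.1 : Equiv.Perm (Phase n)) x w := by
      rw [SympCt.fderiv_mul]; rfl
    have h2 : fderiv ℝ (φ.1 : Equiv.Perm (Phase n)) x w = v := SympCt.fderiv_fderiv_inv φ.1 y v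
    have h3 : (fderiv ℝ ((ψ.1 * φ.1⁻¹ : SympCt n) : Equiv.Perm (Phase n)) y -
        ContinuousLinearMap.id ℝ (Phase n)) v =
        (fderiv ℝ (ψ.1 : Equiv.Perm (Phase n)) x - fderiv ℝ (φ.1 : Equiv.Perm (Phase n)) x) w := by
      rw [sub_apply, sub_apply, h1, h2]; rfl
    rw [h3]
    by_cases hxK : x ∈ K
    · have h5 : ‖w‖ ≤ C' * ‖v‖ := by
        have h6 : w = fderiv ℝ ((φ.1⁻¹ : SympCt n) : Equiv.Perm (Phase n))
            ((φ.1 : Equiv.Perm (Phase n)) x) v := by rw [hfx]
        rw [h6]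
        exact (ContinuousLinearMap.le_opNorm _ _).trans
          (mul_le_mul_of_nonneg_right ((hC x hxK).trans (le_max_left _ _)) (norm_nonneg _))
      calc ‖(fderiv ℝ (ψ.1 : Equiv.Perm (Phase n)) x -
              fderiv ℝ (φ.1 : Equiv.Perm (Phase n)) x) w‖
          ≤ ‖fderiv ℝ (ψ.1 : Equiv.Perm (Phase n)) x -
              fderiv ℝ (φ.1 : Equiv.Perm (Phase n)) x‖ * ‖w‖ := ContinuousLinearMap.le_opNorm _ _
        _ ≤ (ε / 2 / C') * (C' * ‖v‖) := by
            gcongr
            exact (hψ x hxK).le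
        _ = ε / 2 * ‖v‖ := by field_simp
    · have hopen : (K : Set (Phase n))ᶜ ∈ 𝓝 x := K.isCompact.isClosed.isOpen_compl.mem_nhds hxK
      have h8 : (ψ.1 : Equiv.Perm (Phase n)) =ᶠ[𝓝 x] (φ.1 : Equiv.Perm (Phase n)) := by
        filter_upwards [hopen] with z hz
        rw [ψ.2 z hz, φ.2 z hz]
      rw [h8.fderiv_eq, sub_self, zero_apply, norm_zero]
      positivity
  exact lt_of_le_of_lt key (half_lt_self hε)

/-- The derivative depends continuously on a point of the subgroup supported in `K`. -/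
lemma continuous_derivOn (K : Compacts (Phase n)) :
    Continuous (derivOn K : SympSupp n K → C(K, Phase n →L[ℝ] Phase n)) := by
  -- the first structure map
  have h1 : Continuous (fun φ : SympSupp n K =>
      ContDiffMapSupportedIn.structureMapCLM ℝ ⊤ 1 (SympSupp.disp K φ)) :=
    (ContDiffMapSupportedIn.structureMapCLM ℝ ⊤ 1).continuous.comp
      (SympSupp.isInducing_disp K).continuous
  apply ContinuousMap.continuous_of_continuous_uncurry
  have h2 : ∀ (φ : SympSupp n K) (p : K), derivOn K φ p =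
      (continuousMultilinearCurryFin1 ℝ (Phase n) (Phase n)
        ((ContDiffMapSupportedIn.structureMapCLM ℝ ⊤ 1 (SympSupp.disp K φ)) p)) +
      ContinuousLinearMap.id ℝ _ := by
    intro φ p
    rw [ContDiffMapSupportedIn.structureMapCLM_top_apply]
    have h3 : fderiv ℝ (SympSupp.disp K φ) (p : Phase n) =
        fderiv ℝ (φ.1 : Equiv.Perm (Phase n)) p - ContinuousLinearMap.id ℝ _ := by
      have : (SympSupp.disp K φ : Phase n → Phase n) =
        fun p => (φ.1 : Equiv.Perm (Phase n)) p - p := rfl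
      rw [this]
      exact ((SympCt.differentiable φ.1 _).hasFDerivAt.sub (hasFDerivAt_id _)).fderiv
    ext v
    rw [add_apply, continuousMultilinearCurryFin1_apply, iteratedFDeriv_one_apply, h3]
    simp [derivOn]
  have h4 : uncurry (fun (φ : SympSupp n K) (p : K) => derivOn K φ p) = fun q : SympSupp n K × K =>
      (continuousMultilinearCurryFin1 ℝ (Phase n) (Phase n)
        ((ContDiffMapSupportedIn.structureMapCLM ℝ ⊤ 1 (SympSupp.disp K q.1)) q.2)) +
      ContinuousLinearMap.id ℝ _ := by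
    ext1 q; exact h2 q.1 q.2
  change Continuous (uncurry (fun (φ : SympSupp n K) (p : K) => derivOn K φ p))
  rw [h4]
  refine Continuous.add ?_ continuous_const
  refine (continuousMultilinearCurryFin1 ℝ (Phase n) (Phase n)).continuous.comp ?_
  exact Continuous.eval (h1.comp continuous_fst) (continuous_subtype_val.comp continuous_snd)

/-- `φ` has no negative real eigenvalue of any derivative. -/
def NoNegEigenvalue (φ : SympCt n) : Prop :=
  ∀ (x v : Phase n) (μ : ℝ), 0 < μ →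
    fderiv ℝ (φ : Equiv.Perm (Phase n)) x v = -(μ • v) → v = 0

lemma NoNegEigenvalue.smoothIsotopic {φ : SympCt n} (h : NoNegEigenvalue φ) :
    SmoothIsotopic φ 1 :=
  smoothIsotopic_one_of_no_neg_eigenvalue φ fun x v μ hμ hv =>
    h x v μ (lt_of_lt_of_le one_pos hμ) hv

end Pool.Agent.Helper17
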