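import Mathlib
import Pool.Agent.Helper17.SympBase
import Pool.Agent.Helper17.LocalDiffeo
import Pool.Agent.Helper17.Isotopy
import Pool.Agent.Helper17.Near
import Pool.Agent.Helper17.Criterion

open scoped ContDiff Distributions Topology
open Set Function TopologicalSpace Filter

namespace Pool.Agent.Helper17

variable {n : ℕ}

/-! ### The complex structure -/

/-- The standard complex structure, as a linear map. -/
noncomputable def Jl (n : ℕ) : Phase n →ₗ[ℝ] Phase n where
  toFun u := WithLp.toLp 2 (Sum.elim (fun i => -u (Sum.inr i)) (fun i => u (Sum.inl i)))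
  map_add' u v := by
    ext j; rcases j with i | i
    · simp; ring
    · simp
  map_smul' c u := by
    ext j; rcases j with i | i <;> simp

lemma omegaStd_eq_inner (u v : Phase n) : omegaStd u v = inner ℝ (Jl n u) v := by
  rw [PiLp.inner_apply, Fintype.sum_sum_type, omegaStd, ← Finset.sum_add_distrib]
  refine Finset.sum_congr rfl fun i _ => ?_
  simp [Jl]
  ring

lemma norm_Jl (u : Phase n) : ‖Jl n u‖ = ‖u‖ := by
  rw [← sq_eq_sq₀ (norm_nonneg _) (norm_nonneg _), EuclideanSpace.norm_sq_eq,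
    EuclideanSpace.norm_sq_eq, Fintype.sum_sum_type, Fintype.sum_sum_type]
  simp [Jl]
  ring

lemma Jl_Jl (u : Phase n) : Jl n (Jl n u) = -u := by
  ext j; rcases j with i | i <;> simp [Jl]

lemma abs_omegaStd_le (u v : Phase n) : |omegaStd u v| ≤ ‖u‖ * ‖v‖ := by
  rw [omegaStd_eq_inner, ← norm_Jl u]
  exact abs_real_inner_le_norm _ _

lemma omegaStd_Jl (w : Phase n) : omegaStd w (Jl n w) = ‖w‖ ^ 2 := by
  rw [omegaStd_eq_inner, real_inner_self_eq_norm_sq, norm_Jl]

lemma omegaStd_swap (u v : Phase n) : omegaStd u v = -omegaStd v u := by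
  simp only [omegaStd, ← Finset.sum_neg_distrib]
  exact Finset.sum_congr rfl fun i _ => by ring

lemma omegaStd_self (u : Phase n) : omegaStd u u = 0 := by
  have := omegaStd_swap u u
  linarith

/-- The complex structure as a continuous linear map. -/
noncomputable def Jc (n : ℕ) : Phase n →L[ℝ] Phase n := LinearMap.toContinuousLinearMap (Jl n)

lemma Jc_apply (u : Phase n) : Jc n u = Jl n u := rfl

/-- The symplectic form as a continuous bilinear map. -/
noncomputable def omegaB (n : ℕ) : Phase n →L[ℝ] Phase n →L[ℝ] ℝ :=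
  LinearMap.mkContinuous₂ (LinearMap.mk₂ ℝ omegaStd omegaStd_add_left omegaStd_smul_left
    omegaStd_add_right omegaStd_smul_right) 1 (fun u v => by
      rw [one_mul]; exact abs_omegaStd_le u v)

@[simp] lemma omegaB_apply (u v : Phase n) : omegaB n u v = omegaStd u v := rfl

/-! ### The generating function -/

/-- The midpoint one form of a map `χ`. -/
noncomputable def midForm (χ : Phase n → Phase n) (z : Phase n) : Phase n →L[ℝ] ℝ :=
  omegaB n (χ z - z) + (1 / 2 : ℝ) • (omegaB n (χ z - z)).comp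
    (fderiv ℝ χ z - ContinuousLinearMap.id ℝ (Phase n))

lemma midForm_apply (χ : Phase n → Phase n) (z v : Phase n) :
    midForm χ z v = omegaStd (χ z - z) v + (1 / 2) * omegaStd (χ z - z) (fderiv ℝ χ z v - v) :=
  rfl

lemma contDiff_midForm {χ : Phase n → Phase n} (h : ContDiff ℝ ∞ χ) :
    ContDiff ℝ ∞ (midForm χ) := by
  have h1 : ContDiff ℝ ∞ (fun z => omegaB n (χ z - z)) :=
    (omegaB n).contDiff.comp (h.sub contDiff_id)
  have h2 : ContDiff ℝ ∞ (fderiv ℝ χ) := h.fderiv_right (by simp)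
  exact h1.add ((h1.clm_comp (h2.sub contDiff_const)).const_smul _)

lemma fderiv_midForm {χ : Phase n → Phase n} (h : ContDiff ℝ ∞ χ) (z a b : Phase n) :
    fderiv ℝ (midForm χ) z a b =
      omegaStd (fderiv ℝ χ z a - a) b +
      (1 / 2) * (omegaStd (fderiv ℝ χ z a - a) (fderiv ℝ χ z b - b) +
        omegaStd (χ z - z) (fderiv ℝ (fderiv ℝ χ) z a b)) := by
  have hd : HasFDerivAt (midForm χ) (fderiv ℝ (midForm χ) z) z :=
    ((contDiff_midForm h).differentiable (by simp) z).hasFDerivAt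
  have h1 : HasFDerivAt (fun y => midForm χ y b) ((fderiv ℝ (midForm χ) z).flip b) z := by
    have := hd.clm_apply (hasFDerivAt_const b z)
    simpa using this
  have hχ : HasFDerivAt χ (fderiv ℝ χ z) z := (h.differentiable (by simp) z).hasFDerivAt
  have hu : HasFDerivAt (fun y => χ y - y) (fderiv ℝ χ z - ContinuousLinearMap.id ℝ (Phase n)) z :=
    hχ.sub (hasFDerivAt_id z)
  have hω : HasFDerivAt (fun y => omegaB n (χ y - y))
      ((omegaB n).comp (fderiv ℝ χ z - ContinuousLinearMap.id ℝ (Phase n))) z :=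
    (omegaB n).hasFDerivAt.comp z hu
  have h2 : ContDiff ℝ ∞ (fderiv ℝ χ) := h.fderiv_right (by simp)
  have hD : HasFDerivAt (fderiv ℝ χ) (fderiv ℝ (fderiv ℝ χ) z) z :=
    (h2.differentiable (by simp) z).hasFDerivAt
  have hDb : HasFDerivAt (fun y => fderiv ℝ χ y b - b) ((fderiv ℝ (fderiv ℝ χ) z).flip b) z := by
    have := (hD.clm_apply (hasFDerivAt_const b z)).sub_const b
    simpa using this
  have h3 : HasFDerivAt (fun y => omegaB n (χ y - y) b + (1 / 2 : ℝ) *
      (omegaB n (χ y - y)) (fderiv ℝ χ y b - b)) _ z :=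
    (hω.clm_apply (hasFDerivAt_const b z)).add ((hω.clm_apply hDb).const_mul (1 / 2 : ℝ))
  have h4 : (fun y => midForm χ y b) = fun y => omegaB n (χ y - y) b + (1 / 2 : ℝ) *
      (omegaB n (χ y - y)) (fderiv ℝ χ y b - b) := by
    funext y
    rfl
  rw [h4] at h1
  have h5 := congrArg (fun L : Phase n →L[ℝ] ℝ => L a) (h1.unique h3)
  simp only [ContinuousLinearMap.flip_apply] at h5
  rw [h5]
  simp only [add_apply, ContinuousLinearMap.comp_apply, zero_apply, map_zero, zero_add,
    ContinuousLinearMap.flip_apply, smul_apply, omegaB_apply, smul_eq_mul, sub_apply,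
    ContinuousLinearMap.id_apply]
  ring

lemma midForm_symm {χ : Phase n → Phase n} (h : ContDiff ℝ ∞ χ)
    (hsp : ∀ z u v, omegaStd (fderiv ℝ χ z u) (fderiv ℝ χ z v) = omegaStd u v) (z a b : Phase n) :
    fderiv ℝ (midForm χ) z a b = fderiv ℝ (midForm χ) z b a := by
  have hsymm : fderiv ℝ (fderiv ℝ χ) z a b = fderiv ℝ (fderiv ℝ χ) z b a :=
    (h.contDiffAt (x := z)).isSymmSndFDerivAt
      (by rw [minSmoothness_of_isRCLikeNormedField]; exact WithTop.coe_le_coe.2 le_top) a b
  rw [fderiv_midForm h, fderiv_midForm h, hsymm]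
  have h1 := hsp z a b
  have h2 : omegaStd (fderiv ℝ χ z b - b) (fderiv ℝ χ z a - a) =
    -omegaStd (fderiv ℝ χ z a - a) (fderiv ℝ χ z b - b) := omegaStd_swap _ _
  have h3 : omegaStd (fderiv ℝ χ z b - b) a = -omegaStd a (fderiv ℝ χ z b - b) :=
    omegaStd_swap _ _
  rw [h2, h3]
  simp only [omegaStd_sub_left, omegaStd_sub_right]
  linear_combination h1

/-- The generating function of a symplectic map. -/
lemma exists_potential (χ : SympCt n) :
    ∃ s : Phase n → ℝ, ContDiff ℝ ∞ s ∧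
      ∀ z, HasFDerivAt s (midForm (χ : Equiv.Perm (Phase n)) z) z := by
  have hc := contDiff_midForm (SympCt.contDiff χ)
  obtain ⟨s, hs⟩ := convex_univ.exists_forall_hasFDerivAt_of_fderiv_symmetric
    isOpen_univ
    (hc.differentiable (by simp)).differentiableOn
    (fun a _ x y => midForm_symm (SympCt.contDiff χ) χ.2.2.2.1 a x y)
  refine ⟨s, ?_, fun z => hs z (mem_univ z)⟩
  have hf : fderiv ℝ s = midForm (χ : Equiv.Perm (Phase n)) :=
    funext fun z => (hs z (mem_univ z)).fderiv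
  rw [show (∞ : ℕ∞ω) = ∞ + 1 from rfl, contDiff_succ_iff_fderiv]
  refine ⟨fun z => (hs z (mem_univ z)).differentiableAt, by simp, ?_⟩
  rw [hf]
  exact hc

/-- The generating function of a map which is close to an affine map on a unit ball is close to
a quadratic polynomial there. -/
lemma potential_close {χ : Phase n → Phase n} (hχ : ContDiff ℝ ∞ χ) {s : Phase n → ℝ}
    (hs : ∀ z, HasFDerivAt s (midForm χ z) z) {w : Phase n} {δ κ Λ : ℝ}
    (hδκ : δ + κ ≤ 1) (hΛ : ∀ z, ‖fderiv ℝ χ z‖ ≤ Λ)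
    (hδ : ∀ z ∈ Metric.closedBall w 1, ‖χ z - z‖ ≤ δ)
    (c : Phase n) (M : Phase n →L[ℝ] Phase n)
    (hκ : ∀ a, ‖a‖ ≤ 1 → ‖χ (w + a) - (w + a) - (c + M a)‖ ≤ κ) {a : Phase n} (ha : ‖a‖ ≤ 1) :
    |s (w + a) - s w - (omegaStd c a + omegaStd c (M a) / 2 + omegaStd (M a) a / 2)| ≤
      (3 + Λ / 2) * κ := by
  have hκ0 : 0 ≤ κ := (norm_nonneg _).trans (hκ 0 (by simp))
  have hΛ0 : 0 ≤ Λ := (norm_nonneg _).trans (hΛ 0)
  -- bounds for the affine map
  have hL : ∀ b : Phase n, ‖b‖ ≤ 1 → ‖c + M b‖ ≤ δ + κ := by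
    intro b hb
    have h1 := hκ b hb
    have h2 := hδ (w + b) (by simpa [Metric.mem_closedBall, dist_eq_norm] using hb)
    calc ‖c + M b‖ = ‖(χ (w + b) - (w + b)) - (χ (w + b) - (w + b) - (c + M b))‖ := by
          congr 1; abel
      _ ≤ ‖χ (w + b) - (w + b)‖ + ‖χ (w + b) - (w + b) - (c + M b)‖ := norm_sub_le _ _
      _ ≤ δ + κ := add_le_add h2 h1
  have hMa : ‖M a‖ ≤ δ + κ := by
    have h1 := hL a ha
    have h2 := hL (-a) (by rwa [norm_neg])
    have h3 : M a = (1 / 2 : ℝ) • ((c + M a) - (c + M (-a))) := by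
      rw [map_neg]; module
    rw [h3, norm_smul, Real.norm_of_nonneg (by norm_num)]
    have := norm_sub_le (c + M a) (c + M (-a))
    linarith
  -- the auxiliary function
  set u : ℝ → Phase n := fun t => χ (w + t • a) - (w + t • a) with hu
  set L : ℝ → Phase n := fun t => c + M (t • a) with hLdef
  set u' : ℝ → Phase n := fun t => fderiv ℝ χ (w + t • a) a - a with hu'
  have hline : ∀ t : ℝ, HasDerivAt (fun t : ℝ => w + t • a) a t := by
    intro t
    have := ((hasDerivAt_id t).smul_const a).const_add w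
    simpa using this
  have hud : ∀ t, HasDerivAt u (u' t) t := by
    intro t
    have h1 : HasDerivAt (fun t : ℝ => χ (w + t • a)) (fderiv ℝ χ (w + t • a) a) t :=
      ((hχ.differentiable (by simp) (w + t • a)).hasFDerivAt).comp_hasDerivAt t (hline t)
    exact h1.sub (hline t)
  have hLd : ∀ t, HasDerivAt L (M a) t := by
    intro t
    have h1 : HasDerivAt (fun t : ℝ => t • a) a t := by
      have := (hasDerivAt_id t).smul_const a
      simpa using this
    exact (M.hasFDerivAt.comp_hasDerivAt t h1).const_add c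
  have hsd : ∀ t, HasDerivAt (fun t : ℝ => s (w + t • a))
      (omegaStd (u t) a + (1 / 2) * omegaStd (u t) (u' t)) t := by
    intro t
    have := (hs (w + t • a)).comp_hasDerivAt t (hline t)
    rw [midForm_apply] at this
    exact this
  have hωd : ∀ t, HasDerivAt (fun t : ℝ => omegaStd (L t) (u t))
      (omegaStd (M a) (u t) + omegaStd (L t) (u' t)) t := by
    intro t
    have h1 := ((omegaB n).hasFDerivAt.comp_hasDerivAt t (hLd t)).clm_apply (hud t)
    simpa [add_comm] using h1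
  set q : ℝ → ℝ := fun t => t * omegaStd c a + t * (omegaStd c (M a) / 2) +
    t ^ 2 * (omegaStd (M a) a / 2) with hq
  have hqd : ∀ t, HasDerivAt q (omegaStd c a + omegaStd c (M a) / 2 + t * omegaStd (M a) a) t := by
    intro t
    have h1 : HasDerivAt q _ t := (((hasDerivAt_id t).mul_const (omegaStd c a)).add
      ((hasDerivAt_id t).mul_const (omegaStd c (M a) / 2))).add
      (((hasDerivAt_id t).pow 2).mul_const (omegaStd (M a) a / 2))
    exact h1.congr_deriv (by simp; ring)
  set G : ℝ → ℝ := fun t => s (w + t • a) - omegaStd (L t) (u t) / 2 - q t with hG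
  set G' : ℝ → ℝ := fun t => omegaStd (u t) a + (1 / 2) * omegaStd (u t) (u' t) -
    (omegaStd (M a) (u t) + omegaStd (L t) (u' t)) / 2 -
    (omegaStd c a + omegaStd c (M a) / 2 + t * omegaStd (M a) a) with hG'
  have hGd : ∀ t, HasDerivAt G (G' t) t := fun t =>
    ((hsd t).sub ((hωd t).div_const 2)).sub (hqd t)
  have hbound : ∀ t ∈ Icc (0 : ℝ) 1, ‖G' t‖ ≤ (1 + (1 + Λ) / 2 + 1 / 2) * κ := by
    intro t ht
    have hta : ‖t • a‖ ≤ 1 := by
      rw [norm_smul, Real.norm_of_nonneg ht.1]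
      exact mul_le_one₀ ht.2 (norm_nonneg _) ha
    have hr : ‖u t - L t‖ ≤ κ := by
      simp only [hu, hLdef]
      exact hκ (t • a) hta
    have hu'n : ‖u' t‖ ≤ 1 + Λ := by
      calc ‖u' t‖ ≤ ‖fderiv ℝ χ (w + t • a) a‖ + ‖a‖ := norm_sub_le _ _
        _ ≤ Λ * ‖a‖ + ‖a‖ := by
            gcongr
            exact (ContinuousLinearMap.le_opNorm _ _).trans
              (mul_le_mul_of_nonneg_right (hΛ _) (norm_nonneg _))
        _ ≤ Λ * 1 + 1 := by gcongr
        _ = 1 + Λ := by ring
    have e1 : G' t = omegaStd (u t - L t) a + (1 / 2) * omegaStd (u t - L t) (u' t) -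
        (1 / 2) * omegaStd (M a) (u t - L t) := by
      have e2 : L t = c + t • M a := by simp [hLdef]
      have e3 : omegaStd (M a) (M a) = 0 := omegaStd_self _
      have e4 : omegaStd (M a) c = -omegaStd c (M a) := omegaStd_swap _ _
      simp only [hG', e2, omegaStd_sub_left, omegaStd_sub_right, omegaStd_add_left,
        omegaStd_add_right, omegaStd_smul_left, omegaStd_smul_right, e3, e4]
      ring
    rw [e1, Real.norm_eq_abs]
    have b1 : |omegaStd (u t - L t) a| ≤ κ * 1 :=
      (abs_omegaStd_le _ _).trans (mul_le_mul hr ha (norm_nonneg _) hκ0)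
    have b2 : |omegaStd (u t - L t) (u' t)| ≤ κ * (1 + Λ) :=
      (abs_omegaStd_le _ _).trans (mul_le_mul hr hu'n (norm_nonneg _) hκ0)
    have b3 : |omegaStd (M a) (u t - L t)| ≤ 1 * κ :=
      (abs_omegaStd_le _ _).trans (mul_le_mul (hMa.trans hδκ) hr (norm_nonneg _) zero_le_one)
    calc |omegaStd (u t - L t) a + (1 / 2) * omegaStd (u t - L t) (u' t) -
        (1 / 2) * omegaStd (M a) (u t - L t)|
        ≤ |omegaStd (u t - L t) a| + |(1 / 2) * omegaStd (u t - L t) (u' t)| +
          |(1 / 2) * omegaStd (M a) (u t - L t)| :=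
          (abs_sub _ _).trans (add_le_add (abs_add_le _ _) le_rfl)
      _ = |omegaStd (u t - L t) a| + (1 / 2) * |omegaStd (u t - L t) (u' t)| +
          (1 / 2) * |omegaStd (M a) (u t - L t)| := by
          rw [abs_mul, abs_mul, abs_of_nonneg (by norm_num : (0 : ℝ) ≤ 1 / 2)]
      _ ≤ κ * 1 + (1 / 2) * (κ * (1 + Λ)) + (1 / 2) * (1 * κ) := by gcongr
      _ = (1 + (1 + Λ) / 2 + 1 / 2) * κ := by ring
  have hmv := (convex_Icc (0 : ℝ) 1).norm_image_sub_le_of_norm_hasDerivWithin_le
    (f := G) (f' := G') (C := (1 + (1 + Λ) / 2 + 1 / 2) * κ)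
    (fun t _ => (hGd t).hasDerivWithinAt) hbound (left_mem_Icc.2 zero_le_one)
    (right_mem_Icc.2 zero_le_one)
  have e1 : G 1 - G 0 = s (w + a) - s w -
      (omegaStd c a + omegaStd c (M a) / 2 + omegaStd (M a) a / 2) -
      omegaStd (L 1) (u 1) / 2 + omegaStd (L 0) (u 0) / 2 := by
    simp only [hG, hq, one_smul, zero_smul, add_zero]
    ring
  have e2 : ∀ t ∈ Icc (0 : ℝ) 1, |omegaStd (L t) (u t)| ≤ 1 * κ := by
    intro t ht
    have hta : ‖t • a‖ ≤ 1 := by
      rw [norm_smul, Real.norm_of_nonneg ht.1]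
      exact mul_le_one₀ ht.2 (norm_nonneg _) ha
    have hr : ‖u t - L t‖ ≤ κ := by
      simp only [hu, hLdef]
      exact hκ (t • a) hta
    have : omegaStd (L t) (u t) = omegaStd (L t) (u t - L t) := by
      rw [omegaStd_sub_right (L t) (u t) (L t), omegaStd_self, sub_zero]
    rw [this]
    exact (abs_omegaStd_le _ _).trans (mul_le_mul ((hL _ hta).trans hδκ) hr (norm_nonneg _)
      zero_le_one)
  have b0 := e2 0 (left_mem_Icc.2 zero_le_one)
  have b1 := e2 1 (right_mem_Icc.2 zero_le_one)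
  rw [e1, Real.norm_eq_abs, Real.norm_eq_abs] at hmv
  simp only [sub_zero, abs_one, mul_one] at hmv
  rw [abs_le] at hmv b0 b1 ⊢
  constructor <;> linarith [hmv.1, hmv.2, b0.1, b0.2, b1.1, b1.2]

end Pool.Agent.Helper17
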