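import Mathlib
import Pool.Agent.Helper17.SympBase
import Pool.Agent.Helper17.Isotopy
import Pool.Agent.Helper17.Potential

set_option maxSynthPendingDepth 3

open scoped ContDiff Distributions Topology
open Set Function TopologicalSpace Filter

namespace Pool.Agent.Helper17

variable {n : ℕ}

/-- The inverse of the map `u ↦ ω(u, ·)`. -/
noncomputable def sharpL (n : ℕ) : (Phase n →L[ℝ] ℝ) →ₗ[ℝ] Phase n where
  toFun ℓ := -(Jl n ((InnerProductSpace.toDual ℝ (Phase n)).symm ℓ))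
  map_add' ℓ ℓ' := by rw [map_add, map_add, neg_add]
  map_smul' c ℓ := by
    rw [map_smulₛₗ]
    simp

/-- The inverse of the map `u ↦ ω(u, ·)`. -/
noncomputable def sharp (n : ℕ) : (Phase n →L[ℝ] ℝ) →L[ℝ] Phase n :=
  (sharpL n).mkContinuous 1 (fun ℓ => by
    change ‖-(Jl n ((InnerProductSpace.toDual ℝ (Phase n)).symm ℓ))‖ ≤ 1 * ‖ℓ‖
    rw [norm_neg, norm_Jl, one_mul, LinearIsometryEquiv.norm_map])

lemma norm_sharp_le (ℓ : Phase n →L[ℝ] ℝ) : ‖sharp n ℓ‖ ≤ ‖ℓ‖ := by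
  change ‖-(Jl n ((InnerProductSpace.toDual ℝ (Phase n)).symm ℓ))‖ ≤ ‖ℓ‖
  rw [norm_neg, norm_Jl, LinearIsometryEquiv.norm_map]

lemma omegaStd_sharp (ℓ : Phase n →L[ℝ] ℝ) (v : Phase n) : omegaStd (sharp n ℓ) v = ℓ v := by
  change omegaStd (-(Jl n ((InnerProductSpace.toDual ℝ (Phase n)).symm ℓ))) v = ℓ v
  rw [omegaStd_eq_inner, map_neg, Jl_Jl, neg_neg]
  exact InnerProductSpace.toDual_symm_apply

lemma sharp_omegaB (u : Phase n) : sharp n (omegaB n u) = u := by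
  rw [← sub_eq_zero]
  apply eq_zero_of_omegaStd
  intro v
  rw [omegaStd_sub_left, omegaStd_sharp]
  simp

end Pool.Agent.Helper17
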