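import Mathlib
import Pool.Agent.Helper17.SympBase
import Pool.Agent.Helper17.LocalDiffeo
import Pool.Agent.Helper17.Isotopy
import Pool.Agent.Helper17.Near
import Pool.Agent.Helper17.Criterion
import Pool.Agent.Helper17.Potential
import Pool.Agent.Helper17.Sharp
import Pool.Agent.Helper17.CFamily
import Pool.Agent.Helper17.CFInt
import Pool.Agent.Helper17.Flow
import Pool.Agent.Helper17.FlowODE

set_option maxSynthPendingDepth 3

open scoped ContDiff Topology
open Set Function Filter

namespace Pool.Agent.Helper17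

variable {n : ℕ}

/-- The forms `(1 - s) ω + s A^* ω` with `0 ≤ s ≤ 1` are all nondegenerate. -/
def Admissible (A : Phase n →L[ℝ] Phase n) : Prop :=
  ∀ s ∈ Icc (0 : ℝ) 1, ∀ v : Phase n,
    (∀ w : Phase n, (1 - s) * omegaStd v w + s * omegaStd (A v) (A w) = 0) → v = 0

/-- The operator representing the form `(1 - s) ω + s A^* ω`. -/
noncomputable def pullOp (q : ℝ × (Phase n →L[ℝ] Phase n)) : Phase n →L[ℝ] Phase n :=
  (1 - q.1) • ContinuousLinearMap.id ℝ (Phase n) + q.1 • (sharp n).comp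
    (((ContinuousLinearMap.compL ℝ (Phase n) (Phase n) ℝ).flip q.2).comp ((omegaB n).comp q.2))

lemma omegaStd_pullOp (s : ℝ) (A : Phase n →L[ℝ] Phase n) (v w : Phase n) :
    omegaStd (pullOp (s, A) v) w = (1 - s) * omegaStd v w + s * omegaStd (A v) (A w) := by
  have h1 : pullOp (s, A) v = (1 - s) • v + s • sharp n ((omegaB n (A v)).comp A) := rfl
  rw [h1, omegaStd_add_left, omegaStd_smul_left, omegaStd_smul_left, omegaStd_sharp]
  rfl

lemma contDiff_pullOp : ContDiff ℝ ∞ (pullOp (n := n)) := by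
  have h1 : ContDiff ℝ ∞ (fun q : ℝ × (Phase n →L[ℝ] Phase n) =>
      (ContinuousLinearMap.compL ℝ (Phase n) (Phase n) ℝ).flip q.2) :=
    (ContinuousLinearMap.compL ℝ (Phase n) (Phase n) ℝ).flip.contDiff.comp contDiff_snd
  have h2 : ContDiff ℝ ∞ (fun q : ℝ × (Phase n →L[ℝ] Phase n) => (omegaB n).comp q.2) :=
    contDiff_const.clm_comp contDiff_snd
  have h3 : ContDiff ℝ ∞ (fun q : ℝ × (Phase n →L[ℝ] Phase n) => (sharp n).comp
      (((ContinuousLinearMap.compL ℝ (Phase n) (Phase n) ℝ).flip q.2).comp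
        ((omegaB n).comp q.2))) := contDiff_const.clm_comp (h1.clm_comp h2)
  exact ((contDiff_const.sub contDiff_fst).smul contDiff_const).add (contDiff_fst.smul h3)

lemma Admissible.injective {A : Phase n →L[ℝ] Phase n} (hA : Admissible A) {s : ℝ}
    (hs : s ∈ Icc (0 : ℝ) 1) : Injective (pullOp (s, A)) := by
  rw [injective_iff_map_eq_zero]
  intro v hv
  apply hA s hs v
  intro w
  rw [← omegaStd_pullOp, hv, omegaStd_zero_left]

lemma CF_midForm {T : Type} [TopologicalSpace T] {Ψ : T → Phase n → Phase n} (hΨ : CF Ψ) :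
    CF (fun t x => midForm (Ψ t) x) := by
  have h1 : CF (fun t x => Ψ t x - x) := hΨ.sub (CF.const contDiff_id)
  have h2 : CF (fun t x => omegaB n (Ψ t x - x)) := h1.clm (omegaB n)
  have h3 : CF (fun t x => fderiv ℝ (Ψ t) x - ContinuousLinearMap.id ℝ (Phase n)) :=
    hΨ.fderiv.sub (CF.const contDiff_const)
  exact h2.add ((CF.const (contDiff_const (c := (1 / 2 : ℝ)))).smul (h2.clm_comp h3))

/-- Moser's vector field. -/
noncomputable def moserField {T : Type} (Ψ : T → Phase n → Phase n)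
    (p : T × Icc (0 : ℝ) 1) (x : Phase n) : Phase n :=
  -(ContinuousLinearMap.inverse (pullOp ((p.2 : ℝ), fderiv ℝ (Ψ p.1) x))
    (sharp n (midForm (Ψ p.1) x)))

section

variable {T : Type} [TopologicalSpace T] {Ψ : T → Phase n → Phase n}

lemma CF_moserField (hΨ : CF Ψ) (hadm : ∀ t x, Admissible (fderiv ℝ (Ψ t) x)) :
    CF (moserField Ψ) := by
  have h1 : CF (fun (p : T × Icc (0 : ℝ) 1) x => fderiv ℝ (Ψ p.1) x) :=
    hΨ.fderiv.base continuous_fst
  have h2 : CF (fun (p : T × Icc (0 : ℝ) 1) x => (((p.2 : ℝ), fderiv ℝ (Ψ p.1) x) :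
      ℝ × (Phase n →L[ℝ] Phase n))) :=
    (CF.param (continuous_subtype_val.comp continuous_snd)).prodMk h1
  have h3 : CF (fun (p : T × Icc (0 : ℝ) 1) x => pullOp ((p.2 : ℝ), fderiv ℝ (Ψ p.1) x)) :=
    h2.comp_smooth (fun _ _ => contDiff_pullOp.contDiffAt)
  have h4 : CF (fun (p : T × Icc (0 : ℝ) 1) x =>
      ContinuousLinearMap.inverse (pullOp ((p.2 : ℝ), fderiv ℝ (Ψ p.1) x))) := by
    apply h3.comp_smooth
    intro p x
    have h5 := coe_cleOfInjective _ ((hadm p.1 x).injective p.2.2)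
    rw [← h5]
    exact contDiffAt_map_inverse _
  have h5 : CF (fun (p : T × Icc (0 : ℝ) 1) x => sharp n (midForm (Ψ p.1) x)) :=
    ((CF_midForm hΨ).base continuous_fst).clm (sharp n)
  exact (h4.clm_apply h5).clm (-(ContinuousLinearMap.id ℝ (Phase n)))

lemma moserField_spec (hadm : ∀ t x, Admissible (fderiv ℝ (Ψ t) x)) (p : T × Icc (0 : ℝ) 1)
    (x w : Phase n) :
    (1 - (p.2 : ℝ)) * omegaStd (moserField Ψ p x) w +
      p.2 * omegaStd (fderiv ℝ (Ψ p.1) x (moserField Ψ p x)) (fderiv ℝ (Ψ p.1) x w) =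
      -midForm (Ψ p.1) x w := by
  rw [← omegaStd_pullOp]
  have h5 := coe_cleOfInjective _ ((hadm p.1 x).injective p.2.2)
  set e := cleOfInjective _ ((hadm p.1 x).injective p.2.2) with he
  have h6 : pullOp ((p.2 : ℝ), fderiv ℝ (Ψ p.1) x) (moserField Ψ p x) =
      -sharp n (midForm (Ψ p.1) x) := by
    rw [moserField, map_neg, ← h5, ContinuousLinearMap.inverse_equiv]
    simp
  rw [h6]
  have h7 : omegaStd (-sharp n (midForm (Ψ p.1) x)) w =
      -omegaStd (sharp n (midForm (Ψ p.1) x)) w := by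
    rw [← neg_one_smul ℝ, omegaStd_smul_left]; ring
  rw [h7, omegaStd_sharp]

lemma moserField_eq_zero {p : T × Icc (0 : ℝ) 1} {x : Phase n}
    (h : Ψ p.1 x = x) : moserField Ψ p x = 0 := by
  have h1 : midForm (Ψ p.1) x = 0 := by
    ext v
    rw [midForm_apply, h, sub_self, omegaStd_zero_left, omegaStd_zero_left]
    simp
  rw [moserField, h1, map_zero, map_zero, neg_zero]

end

/-- The conservation law in Moser's method. -/
lemma moser_conservation {Ψ : Phase n → Phase n} (hΨ : ContDiff ℝ ∞ Ψ)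
    {X : Icc (0 : ℝ) 1 → Phase n → Phase n} (hX : ∀ s, Differentiable ℝ (X s))
    (hspec : ∀ (s : Icc (0 : ℝ) 1) x w, (1 - (s : ℝ)) * omegaStd (X s x) w +
      s * omegaStd (fderiv ℝ Ψ x (X s x)) (fderiv ℝ Ψ x w) = -midForm Ψ x w)
    {r : ℝ → Phase n} {A : ℝ → Phase n →L[ℝ] Phase n}
    (hr : ∀ s : Icc (0 : ℝ) 1, HasDerivAt r (X s (r s)) s)
    (hA : ∀ s : Icc (0 : ℝ) 1, HasDerivAt A ((fderiv ℝ (X s) (r s)).comp (A s)) s)
    (hA0 : A 0 = ContinuousLinearMap.id ℝ (Phase n)) (v w : Phase n) (s : Icc (0 : ℝ) 1) :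
    (1 - (s : ℝ)) * omegaStd (A s v) (A s w) +
      s * omegaStd (fderiv ℝ Ψ (r s) (A s v)) (fderiv ℝ Ψ (r s) (A s w)) = omegaStd v w := by
  set D : Phase n → Phase n →L[ℝ] Phase n := fderiv ℝ Ψ with hD
  have hDs : ContDiff ℝ ∞ D := hΨ.fderiv_right (by simp)
  have hDd : ∀ x, HasFDerivAt D (fderiv ℝ D x) x := fun x =>
    (hDs.differentiable (by simp) x).hasFDerivAt
  -- the infinitesimal identity
  have hinf : ∀ (s : Icc (0 : ℝ) 1) (x a b : Phase n),
      (1 - (s : ℝ)) * omegaStd (fderiv ℝ (X s) x a) b +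
      s * (omegaStd (fderiv ℝ D x a (X s x) + D x (fderiv ℝ (X s) x a)) (D x b) +
        omegaStd (D x (X s x)) (fderiv ℝ D x a b)) = -fderiv ℝ (midForm Ψ) x a b := by
    intro s x a b
    have hXx : HasFDerivAt (X s) (fderiv ℝ (X s) x) x := (hX s x).hasFDerivAt
    have h1 : HasFDerivAt (fun y => D y (X s y))
        ((D x).comp (fderiv ℝ (X s) x) + (fderiv ℝ D x).flip (X s x)) x :=
      (hDd x).clm_apply hXx
    have h2 : HasFDerivAt (fun y => omegaB n (X s y)) ((omegaB n).comp (fderiv ℝ (X s) x)) x :=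
      (omegaB n).hasFDerivAt.comp x hXx
    have h3 : HasFDerivAt (fun y => omegaB n (D y (X s y))) ((omegaB n).comp
        ((D x).comp (fderiv ℝ (X s) x) + (fderiv ℝ D x).flip (X s x))) x :=
      (omegaB n).hasFDerivAt.comp x h1
    have h4 : HasFDerivAt (fun y => D y b) ((fderiv ℝ D x).flip b) x := by
      have := (hDd x).clm_apply (hasFDerivAt_const b x)
      simpa using this
    have h5 : HasFDerivAt (fun y => (1 - (s : ℝ)) * (omegaB n (X s y)) b +
        s * (omegaB n (D y (X s y))) (D y b)) _ x :=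
      ((h2.clm_apply (hasFDerivAt_const b x)).const_mul (1 - (s : ℝ))).add
        ((h3.clm_apply h4).const_mul (s : ℝ))
    have h6 : HasFDerivAt (fun y => -midForm Ψ y b) (-(fderiv ℝ (midForm Ψ) x).flip b) x := by
      have h7 : HasFDerivAt (midForm Ψ) (fderiv ℝ (midForm Ψ) x) x :=
        ((contDiff_midForm hΨ).differentiable (by simp) x).hasFDerivAt
      have h8 : HasFDerivAt (fun y => midForm Ψ y b) ((fderiv ℝ (midForm Ψ) x).flip b) x := by
        have := h7.clm_apply (hasFDerivAt_const b x)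
        simpa using this
      exact h8.neg
    have h7 : (fun y => (1 - (s : ℝ)) * (omegaB n (X s y)) b +
        s * (omegaB n (D y (X s y))) (D y b)) = fun y => -midForm Ψ y b :=
      funext fun y => hspec s y b
    rw [h7] at h5
    have h8 := congrArg (fun L : Phase n →L[ℝ] ℝ => L a) (h6.unique h5)
    simp only [neg_apply, ContinuousLinearMap.flip_apply] at h8
    rw [h8]
    simp only [add_apply, ContinuousLinearMap.comp_apply, zero_apply, map_zero, zero_add,
      ContinuousLinearMap.flip_apply, smul_apply, omegaB_apply, smul_eq_mul, map_add]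
    rw [omegaStd_add_left]
    ring
  have hsymm : ∀ x a b, fderiv ℝ D x a b = fderiv ℝ D x b a := fun x a b =>
    (hΨ.contDiffAt (x := x)).isSymmSndFDerivAt
      (by rw [minSmoothness_of_isRCLikeNormedField]; exact WithTop.coe_le_coe.2 le_top) a b
  -- the conserved quantity
  set a : ℝ → Phase n := fun s => A s v with ha
  set b : ℝ → Phase n := fun s => A s w with hb
  set h : ℝ → ℝ := fun s => (1 - s) * omegaStd (a s) (b s) +
    s * omegaStd (D (r s) (a s)) (D (r s) (b s)) with hh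
  have hder : ∀ s : Icc (0 : ℝ) 1, HasDerivAt h 0 s := by
    intro s
    set x := r s with hx
    set a' := fderiv ℝ (X s) x (a s) with ha'
    set b' := fderiv ℝ (X s) x (b s) with hb'
    have hav : HasDerivAt a a' s := by
      have := (hA s).clm_apply (hasDerivAt_const (s : ℝ) v)
      simpa using this
    have hbv : HasDerivAt b b' s := by
      have := (hA s).clm_apply (hasDerivAt_const (s : ℝ) w)
      simpa using this
    have hDr : HasDerivAt (fun s => D (r s)) (fderiv ℝ D x (X s x)) s :=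
      (hDd x).comp_hasDerivAt (s : ℝ) (hr s)
    have hp : HasDerivAt (fun s => D (r s) (a s)) (fderiv ℝ D x (X s x) (a s) + D x a') s :=
      hDr.clm_apply hav
    have hq : HasDerivAt (fun s => D (r s) (b s)) (fderiv ℝ D x (X s x) (b s) + D x b') s :=
      hDr.clm_apply hbv
    have h1 : HasDerivAt (fun s => omegaStd (a s) (b s)) (omegaStd a' (b s) + omegaStd (a s) b')
        s := by
      have := ((omegaB n).hasFDerivAt.comp_hasDerivAt (s : ℝ) hav).clm_apply hbv
      simpa [add_comm] using this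
    have h2 : HasDerivAt (fun s => omegaStd (D (r s) (a s)) (D (r s) (b s)))
        (omegaStd (fderiv ℝ D x (X s x) (a s) + D x a') (D x (b s)) +
          omegaStd (D x (a s)) (fderiv ℝ D x (X s x) (b s) + D x b')) s := by
      exact ((omegaB n).hasFDerivAt.comp_hasDerivAt (s : ℝ) hp).clm_apply hq
    have h3 : HasDerivAt h ((0 - 1) * omegaStd (a s) (b s) + (1 - (s : ℝ)) *
        (omegaStd a' (b s) + omegaStd (a s) b') + (1 * omegaStd (D x (a s)) (D x (b s)) +
        s * (omegaStd (fderiv ℝ D x (X s x) (a s) + D x a') (D x (b s)) +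
          omegaStd (D x (a s)) (fderiv ℝ D x (X s x) (b s) + D x b')))) s :=
      ((((hasDerivAt_const (s : ℝ) (1 : ℝ)).sub (hasDerivAt_id (s : ℝ))).mul h1).add
        ((hasDerivAt_id (s : ℝ)).mul h2))
    refine h3.congr_deriv ?_
    have i1 := hinf s x (a s) (b s)
    have i2 := hinf s x (b s) (a s)
    rw [fderiv_midForm hΨ] at i1 i2
    simp only [← hD] at i1 i2
    rw [← ha'] at i1
    rw [← hb'] at i2
    rw [hsymm x (b s) (a s)] at i2
    rw [hsymm x (b s) (X s x)] at i2
    rw [hsymm x (a s) (X s x)] at i1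
    simp only [omegaStd_add_left, omegaStd_add_right, omegaStd_sub_left, omegaStd_sub_right]
      at i1 i2 ⊢
    have s1 : omegaStd b' (a s) = -omegaStd (a s) b' := omegaStd_swap _ _
    have s2 : omegaStd (fderiv ℝ D x (X s x) (b s)) (D x (a s)) =
      -omegaStd (D x (a s)) (fderiv ℝ D x (X s x) (b s)) := omegaStd_swap _ _
    have s3 : omegaStd (D x b') (D x (a s)) = -omegaStd (D x (a s)) (D x b') := omegaStd_swap _ _
    have s4 : omegaStd (D x (b s)) (a s) = -omegaStd (a s) (D x (b s)) := omegaStd_swap _ _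
    have s5 : omegaStd (D x (b s)) (D x (a s)) = -omegaStd (D x (a s)) (D x (b s)) :=
      omegaStd_swap _ _
    have s6 : omegaStd (b s) (D x (a s)) = -omegaStd (D x (a s)) (b s) := omegaStd_swap _ _
    have s7 : omegaStd (b s) (a s) = -omegaStd (a s) (b s) := omegaStd_swap _ _
    rw [s1, s2, s3, s4, s5, s6, s7] at i2
    linear_combination i1 - i2
  have hconst := (convex_Icc (0 : ℝ) 1).norm_image_sub_le_of_norm_hasDerivWithin_le
    (f := h) (f' := fun _ => 0) (C := 0) (fun t ht => (hder ⟨t, ht⟩).hasDerivWithinAt)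
    (fun t _ => by simp) (left_mem_Icc.2 zero_le_one) s.2
  rw [zero_mul, norm_le_zero_iff, sub_eq_zero] at hconst
  have h0 : h 0 = omegaStd v w := by
    simp [hh, ha, hb, hA0]
  rw [h0] at hconst
  exact hconst

end Pool.Agent.Helper17
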