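import Mathlib
import Pool.Agent.Helper17.SympBase
import Pool.Agent.Helper17.LocalDiffeo
import Pool.Agent.Helper17.Isotopy
import Pool.Agent.Helper17.DirectLimit
import Pool.Agent.Helper17.Near
import Pool.Agent.Helper17.CFamily

set_option maxSynthPendingDepth 3

open scoped ContDiff Distributions Topology
open Set Function TopologicalSpace Filter Topology

namespace Pool.Agent.Helper17

section

variable {T : Type} [TopologicalSpace T] {E : Type} [NormedAddCommGroup E] [NormedSpace ℝ E]

lemma CF.continuous_iteratedFDeriv (i : ℕ) : ∀ {E' : Type} [NormedAddCommGroup E']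
    [NormedSpace ℝ E'] {F : T → E → E'}, CF F →
    Continuous (fun p : T × E => iteratedFDeriv ℝ i (F p.1) p.2) := by
  induction i with
  | zero =>
    intro E' _ _ F hF
    simp only [iteratedFDeriv_zero_eq_comp, comp_apply]
    exact (continuousMultilinearCurryFin0 ℝ E E').symm.continuous.comp hF.continuous
  | succ i ih =>
    intro E' _ _ F hF
    simp only [iteratedFDeriv_succ_eq_comp_right, comp_apply]
    exact (continuousMultilinearCurryRightEquiv' ℝ i E E').symm.continuous.comp (ih hF.fderiv)

lemma CFk.of_iteratedFDeriv {k : ℕ} : ∀ {E' : Type} [NormedAddCommGroup E']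
    [NormedSpace ℝ E'] {F : T → E → E'}, (∀ t, ContDiff ℝ ∞ (F t)) →
    (∀ i, Continuous (fun p : T × E => iteratedFDeriv ℝ i (F p.1) p.2)) → CFk T E k E' F := by
  have hcont : ∀ {E' : Type} [NormedAddCommGroup E'] [NormedSpace ℝ E'] {F : T → E → E'},
      (∀ i, Continuous (fun p : T × E => iteratedFDeriv ℝ i (F p.1) p.2)) →
      Continuous (fun p : T × E => F p.1 p.2) := by
    intro E' _ _ F h
    have h0 := h 0
    simp only [iteratedFDeriv_zero_eq_comp, comp_apply] at h0
    have h1 := (continuousMultilinearCurryFin0 ℝ E E').continuous.comp h0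
    simpa [comp_def] using h1
  induction k with
  | zero =>
    intro E' _ _ F hF h
    exact hcont h
  | succ k ih =>
    intro E' _ _ F hF h
    refine ⟨hcont h, fun t => (hF t).differentiable (by simp),
      ih (fun t => (hF t).fderiv_right (by simp)) fun i => ?_⟩
    have h1 := h (i + 1)
    simp only [iteratedFDeriv_succ_eq_comp_right, comp_apply] at h1
    have h2 := (continuousMultilinearCurryRightEquiv' ℝ i E E').continuous.comp h1
    simpa [comp_def] using h2

end

variable {n : ℕ}

/-- A smooth symplectic map which is the identity outside a compact set, as an element of the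
group. -/
noncomputable def mkSymp (f : Phase n → Phase n) (hf : ContDiff ℝ ∞ f)
    (hK : ∃ K : Set (Phase n), IsCompact K ∧ ∀ x ∉ K, f x = x)
    (hfo : ∀ z u v, omegaStd (fderiv ℝ f z u) (fderiv ℝ f z v) = omegaStd u v) : SympCt n :=
  have hinj : ∀ z, Injective (fderiv ℝ f z) := by
    intro z
    rw [injective_iff_map_eq_zero]
    intro u hu
    apply eq_zero_of_omegaStd
    intro v
    rw [← hfo z u v, hu, omegaStd_zero_left]
  have hbij : Bijective f := by
    obtain ⟨K, hK, hfK⟩ := hK
    exact bijective_of_injective_fderiv hf hinj hK hfK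
  ⟨Equiv.ofBijective f hbij, hf, contDiff_symm_of_injective_fderiv _ hf hinj, hfo, hK⟩

lemma mkSymp_apply (f : Phase n → Phase n) (hf : ContDiff ℝ ∞ f)
    (hK : ∃ K : Set (Phase n), IsCompact K ∧ ∀ x ∉ K, f x = x)
    (hfo : ∀ z u v, omegaStd (fderiv ℝ f z u) (fderiv ℝ f z v) = omegaStd u v) (x : Phase n) :
    (mkSymp f hf hK hfo : Equiv.Perm (Phase n)) x = f x := rfl

lemma SympCt.ext' {φ ψ : SympCt n} (h : ∀ x, (φ : Equiv.Perm (Phase n)) x =
    (ψ : Equiv.Perm (Phase n)) x) : φ = ψ :=
  Subtype.ext (Equiv.ext h)

/-- Smooth families with common compact support are continuous. -/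
lemma continuous_of_CF {T : Type} [TopologicalSpace T] {F : T → Phase n → Phase n} (hF : CF F)
    (K : Compacts (Phase n)) (hK : ∀ t, ∀ x ∉ K, F t x = x) {g : T → SympCt n}
    (hg : ∀ t x, (g t : Equiv.Perm (Phase n)) x = F t x) : Continuous g := by
  set gK : T → SympSupp n K := fun t => ⟨g t, fun p hp => by rw [hg, hK t p hp]⟩ with hgK
  have hcont : Continuous gK := by
    rw [continuous_induced_rng, ContDiffMapSupportedIn.continuous_iff_comp]
    intro i
    apply continuous_bcf_of_joint _ K.isCompact
    · intro t x hx
      simp only [comp_apply]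
      rw [ContDiffMapSupportedIn.structureMapCLM_top_apply]
      exact ContDiffMapSupportedIn.iteratedFDeriv_zero_on_compl _ hx
    · have h1 : ∀ q : T × Phase n,
          ((ContDiffMapSupportedIn.structureMapCLM ℝ ⊤ i ∘ SympSupp.disp K ∘ gK) q.1) q.2 =
          iteratedFDeriv ℝ i (fun x => F q.1 x - x) q.2 := by
        intro q
        simp only [comp_apply]
        rw [ContDiffMapSupportedIn.structureMapCLM_top_apply]
        have : (SympSupp.disp K (gK q.1) : Phase n → Phase n) = fun x => F q.1 x - x := by
          funext x
          change (g q.1 : Equiv.Perm (Phase n)) x - x = _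
          rw [hg]
        rw [this]
      simp_rw [h1]
      exact (hF.sub (CF.const contDiff_id)).continuous_iteratedFDeriv i
  exact (SympSupp.continuous_incl K).comp hcont

/-- A continuous map from a compact space is a smooth family with common compact support. -/
lemma CF_of_continuous {T : Type} [TopologicalSpace T] [CompactSpace T] {f : T → SympCt n}
    (hf : Continuous f) : CF (fun t x => (f t : Equiv.Perm (Phase n)) x) ∧
      ∃ K : Compacts (Phase n), ∀ t, ∀ x ∉ K, (f t : Equiv.Perm (Phase n)) x = x := by
  obtain ⟨N, g, hg, hgf⟩ := exists_lift_of_compact f hf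
  refine ⟨?_, ballC n N, fun t x hx => by rw [← hgf t]; exact (g t).2 x hx⟩
  have h1 : CF (fun t x => (f t : Equiv.Perm (Phase n)) x - x) := by
    intro k
    apply CFk.of_iteratedFDeriv
    · intro t
      exact (SympCt.contDiff (f t)).sub contDiff_id
    · intro i
      have h2 : Continuous (fun t => ContDiffMapSupportedIn.structureMapCLM ℝ ⊤ i
          (SympSupp.disp (ballC n N) (g t))) :=
        (ContDiffMapSupportedIn.structureMapCLM ℝ ⊤ i).continuous.comp
          ((SympSupp.isInducing_disp (ballC n N)).continuous.comp hg)
      have h3 : ∀ q : T × Phase n, iteratedFDeriv ℝ i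
          (fun x => (f q.1 : Equiv.Perm (Phase n)) x - x) q.2 =
          (ContDiffMapSupportedIn.structureMapCLM ℝ ⊤ i
          (SympSupp.disp (ballC n N) (g q.1))) q.2 := by
        intro q
        rw [ContDiffMapSupportedIn.structureMapCLM_top_apply]
        have : (SympSupp.disp (ballC n N) (g q.1) : Phase n → Phase n) =
            fun x => (f q.1 : Equiv.Perm (Phase n)) x - x := by
          funext x
          change ((g q.1).1 : Equiv.Perm (Phase n)) x - x = _
          rw [hgf]
        rw [this]
      simp_rw [h3]
      exact Continuous.eval (h2.comp continuous_fst) continuous_snd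
  have h2 := h1.add (CF.const (T := T) (contDiff_id (E := Phase n)))
  convert h2 using 3 with t x
  simp

end Pool.Agent.Helper17
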