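import Mathlib
import Pool.Agent.Helper17.SympBase
import Pool.Agent.Helper17.LocalDiffeo
import Pool.Agent.Helper17.Isotopy
import Pool.Agent.Helper17.Criterion

open scoped ContDiff Distributions Topology
open Set Function TopologicalSpace Filter

namespace Pool.Agent.Helper17

variable {n : ℕ}

/-- The symplectic map with a given small Hamiltonian displacement field in midpoint
coordinates. -/
lemma exists_cayley (U : Phase n → Phase n) (hU : ContDiff ℝ ∞ U) {K : Set (Phase n)}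
    (hK : IsCompact K) (hUK : ∀ x ∉ K, U x = 0)
    (hsp : ∀ w a b : Phase n, omegaStd (fderiv ℝ U w a) b + omegaStd a (fderiv ℝ U w b) = 0)
    {β τ : ℝ} (hβ : β ≤ 1) (hβU : ∀ w, ‖fderiv ℝ U w‖ ≤ β)
    (hτU : ∀ w w', ‖fderiv ℝ U w - fderiv ℝ U w'‖ ≤ τ * ‖w - w'‖) :
    ∃ χ : SympCt n,
      (∀ z, ∃ w, ‖w - z‖ = ‖U w‖ / 2 ∧ (χ : Equiv.Perm (Phase n)) z = z + U w) ∧
      (∀ z, ‖fderiv ℝ (χ : Equiv.Perm (Phase n)) z - ContinuousLinearMap.id ℝ (Phase n)‖ ≤ 2 * β) ∧
      (∀ z z', ‖fderiv ℝ (χ : Equiv.Perm (Phase n)) z - fderiv ℝ (χ : Equiv.Perm (Phase n)) z'‖ ≤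
        8 * τ * ‖z - z'‖) := by
  have hβ0 : 0 ≤ β := (norm_nonneg _).trans (hβU 0)
  set A : Phase n → Phase n := fun w => w - (1 / 2 : ℝ) • U w with hA
  set B : Phase n → Phase n := fun w => w + (1 / 2 : ℝ) • U w with hB
  have hAs : ContDiff ℝ ∞ A := contDiff_id.sub (hU.const_smul _)
  have hBs : ContDiff ℝ ∞ B := contDiff_id.add (hU.const_smul _)
  have hUd : ∀ w, HasFDerivAt U (fderiv ℝ U w) w := fun w =>
    (hU.differentiable (by simp) w).hasFDerivAt
  have hAv : ∀ w v, fderiv ℝ A w v = v - (1 / 2 : ℝ) • fderiv ℝ U w v := fun w v => by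
    have h : HasFDerivAt A (ContinuousLinearMap.id ℝ (Phase n) -
        (1 / 2 : ℝ) • fderiv ℝ U w) w := (hasFDerivAt_id w).sub ((hUd w).const_smul (1 / 2 : ℝ))
    rw [h.fderiv]; rfl
  have hBv : ∀ w v, fderiv ℝ B w v = v + (1 / 2 : ℝ) • fderiv ℝ U w v := fun w v => by
    have h : HasFDerivAt B (ContinuousLinearMap.id ℝ (Phase n) +
        (1 / 2 : ℝ) • fderiv ℝ U w) w := (hasFDerivAt_id w).add ((hUd w).const_smul (1 / 2 : ℝ))
    rw [h.fderiv]; rfl
  have hUv : ∀ w v, ‖fderiv ℝ U w v‖ ≤ β * ‖v‖ := fun w v =>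
    (ContinuousLinearMap.le_opNorm _ _).trans (mul_le_mul_of_nonneg_right (hβU w) (norm_nonneg _))
  -- lower bound for `DA`
  have hAlow : ∀ w v, ‖v‖ ≤ 2 * ‖fderiv ℝ A w v‖ := by
    intro w v
    have h1 : v = fderiv ℝ A w v + (1 / 2 : ℝ) • fderiv ℝ U w v := by rw [hAv]; abel
    have h2 : ‖v‖ ≤ ‖fderiv ℝ A w v‖ + (1 / 2) * ‖v‖ := by
      calc ‖v‖ = ‖fderiv ℝ A w v + (1 / 2 : ℝ) • fderiv ℝ U w v‖ := by rw [← h1]
        _ ≤ ‖fderiv ℝ A w v‖ + ‖(1 / 2 : ℝ) • fderiv ℝ U w v‖ := norm_add_le _ _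
        _ = ‖fderiv ℝ A w v‖ + (1 / 2) * ‖fderiv ℝ U w v‖ := by
            rw [norm_smul, Real.norm_of_nonneg (by norm_num)]
        _ ≤ ‖fderiv ℝ A w v‖ + (1 / 2) * ‖v‖ := by
            have := hUv w v
            have h3 : β * ‖v‖ ≤ 1 * ‖v‖ := mul_le_mul_of_nonneg_right hβ (norm_nonneg _)
            linarith
    linarith
  have hAinj : ∀ w, Injective (fderiv ℝ A w) := by
    intro w
    rw [injective_iff_map_eq_zero]
    intro v hv
    have := hAlow w v
    rw [hv, norm_zero, mul_zero] at this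
    exact norm_le_zero_iff.1 this
  have hAK : ∀ x ∉ K, A x = x := fun x hx => by simp [hA, hUK x hx]
  have hAbij : Bijective A := bijective_of_injective_fderiv hAs hAinj hK hAK
  set e : Phase n ≃ Phase n := Equiv.ofBijective A hAbij with he
  have hes : ContDiff ℝ ∞ e.symm := contDiff_symm_of_injective_fderiv e hAs hAinj
  have heA : ∀ z, A (e.symm z) = z := fun z => e.apply_symm_apply z
  set X : Phase n → Phase n := fun z => e.symm z with hX
  have hXA : ∀ z v, fderiv ℝ A (X z) (fderiv ℝ X z v) = v := by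
    intro z v
    have h : (fderiv ℝ A (X z)).comp (fderiv ℝ X z) = ContinuousLinearMap.id ℝ _ := by
      rw [← fderiv_comp z (hAs.differentiable (by simp) _) (hes.differentiable (by simp) _)]
      have : (A ∘ X : Phase n → Phase n) = id := by ext1 x; exact heA x
      rw [this, fderiv_id]
    have := congrArg (fun L => L v) h
    simpa using this
  have hXK : ∀ z ∉ K, X z = z := by
    intro z hz
    apply hAbij.1
    rw [heA, hAK z hz]
  set f : Phase n → Phase n := fun z => B (X z) with hf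
  have hfs : ContDiff ℝ ∞ f := hBs.comp hes
  have hfv : ∀ z v, fderiv ℝ f z v = fderiv ℝ B (X z) (fderiv ℝ X z v) := by
    intro z v
    have h : fderiv ℝ f z = (fderiv ℝ B (X z)).comp (fderiv ℝ X z) :=
      fderiv_comp z (hBs.differentiable (by simp) _) (hes.differentiable (by simp) _)
    rw [h]; rfl
  have hfK : ∀ z ∉ K, f z = z := by
    intro z hz
    simp only [hf, hXK z hz, hB, hUK z hz, smul_zero, add_zero]
  have hfo : ∀ z u v, omegaStd (fderiv ℝ f z u) (fderiv ℝ f z v) = omegaStd u v := by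
    intro z u v
    set a := fderiv ℝ X z u with ha
    set b := fderiv ℝ X z v with hb
    have hu : a - (1 / 2 : ℝ) • fderiv ℝ U (X z) a = u := by rw [← hAv]; exact hXA z u
    have hv : b - (1 / 2 : ℝ) • fderiv ℝ U (X z) b = v := by rw [← hAv]; exact hXA z v
    rw [hfv, hfv, hBv, hBv, ← ha, ← hb]
    conv_rhs => rw [← hu, ← hv]
    have h1 := hsp (X z) a b
    simp only [omegaStd_add_left, omegaStd_add_right, omegaStd_smul_left, omegaStd_smul_right,
      omegaStd_sub_left, omegaStd_sub_right]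
    linear_combination h1
  have hfinj : ∀ z, Injective (fderiv ℝ f z) := by
    intro z
    rw [injective_iff_map_eq_zero]
    intro u hu
    apply eq_zero_of_omegaStd
    intro v
    rw [← hfo z u v, hu, omegaStd_zero_left]
  have hfbij : Bijective f := bijective_of_injective_fderiv hfs hfinj hK hfK
  refine ⟨⟨Equiv.ofBijective f hfbij, hfs, contDiff_symm_of_injective_fderiv _ hfs hfinj, hfo,
    K, hK, hfK⟩, ?_, ?_, ?_⟩
  · intro z
    refine ⟨X z, ?_, ?_⟩
    · have h1 : X z - (1 / 2 : ℝ) • U (X z) = z := heA z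
      have h2 : X z - z = (1 / 2 : ℝ) • U (X z) := by
        rw [sub_eq_iff_eq_add] at h1 ⊢
        rw [add_comm]; exact h1
      rw [h2, norm_smul, Real.norm_of_nonneg (by norm_num)]; ring
    · change f z = z + U (X z)
      have h1 : X z - (1 / 2 : ℝ) • U (X z) = z := heA z
      change X z + (1 / 2 : ℝ) • U (X z) = z + U (X z)
      have h2 : X z = z + (1 / 2 : ℝ) • U (X z) := by
        rw [sub_eq_iff_eq_add] at h1; exact h1
      calc X z + (1 / 2 : ℝ) • U (X z) = (z + (1 / 2 : ℝ) • U (X z)) + (1 / 2 : ℝ) • U (X z) := by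
            rw [← h2]
        _ = z + U (X z) := by
            rw [add_assoc, ← add_smul]; norm_num
  · intro z
    change ‖fderiv ℝ f z - ContinuousLinearMap.id ℝ (Phase n)‖ ≤ 2 * β
    apply ContinuousLinearMap.opNorm_le_bound _ (by positivity)
    intro v
    set a := fderiv ℝ X z v with ha
    have hv : a - (1 / 2 : ℝ) • fderiv ℝ U (X z) a = v := by rw [← hAv]; exact hXA z v
    have h1 : (fderiv ℝ f z - ContinuousLinearMap.id ℝ (Phase n)) v = fderiv ℝ U (X z) a := by
      rw [sub_apply, hfv, hBv, ← ha, ContinuousLinearMap.id_apply]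
      conv_lhs => rw [← hv]
      rw [add_sub_sub_cancel, ← add_smul]; norm_num
    have h2 : ‖a‖ ≤ 2 * ‖v‖ := by
      have := hAlow (X z) a
      rwa [hXA z v] at this
    rw [h1]
    calc ‖fderiv ℝ U (X z) a‖ ≤ β * ‖a‖ := hUv _ _
      _ ≤ β * (2 * ‖v‖) := mul_le_mul_of_nonneg_left h2 hβ0
      _ = 2 * β * ‖v‖ := by ring
  · intro z z'
    change ‖fderiv ℝ f z - fderiv ℝ f z'‖ ≤ 8 * τ * ‖z - z'‖
    -- `X` is 2-Lipschitz
    have hXlip : ‖X z - X z'‖ ≤ 2 * ‖z - z'‖ := by
      have h1 : ∀ y, ‖fderiv ℝ X y‖ ≤ 2 := by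
        intro y
        apply ContinuousLinearMap.opNorm_le_bound _ (by norm_num)
        intro v
        have := hAlow (X y) (fderiv ℝ X y v)
        rwa [hXA y v] at this
      have h2 := Convex.norm_image_sub_le_of_norm_fderiv_le (𝕜 := ℝ) (f := X) (s := univ) (C := 2)
        (fun y _ => (hes.differentiable (by simp) y)) (fun y _ => h1 y) convex_univ
        (mem_univ z') (mem_univ z)
      exact h2
    have hτ : ‖fderiv ℝ U (X z) - fderiv ℝ U (X z')‖ ≤ τ * ‖X z - X z'‖ := hτU _ _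
    have hnn : 0 ≤ τ * ‖X z - X z'‖ := (norm_nonneg _).trans hτ
    rcases eq_or_ne z z' with rfl | hzz
    · simp
    have hτ0 : 0 ≤ τ := by
      by_contra hneg
      push Not at hneg
      have hXne : X z ≠ X z' := fun h => hzz (by rw [← heA z, ← heA z']; exact congrArg A h)
      have : 0 < ‖X z - X z'‖ := norm_pos_iff.2 (sub_ne_zero.2 hXne)
      nlinarith
    apply ContinuousLinearMap.opNorm_le_bound _ (by positivity)
    intro v
    set a := fderiv ℝ X z v with ha
    set a' := fderiv ℝ X z' v with ha'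
    have hv : a - (1 / 2 : ℝ) • fderiv ℝ U (X z) a = v := by rw [← hAv]; exact hXA z v
    have hv' : a' - (1 / 2 : ℝ) • fderiv ℝ U (X z') a' = v := by rw [← hAv]; exact hXA z' v
    have h2 : ‖a'‖ ≤ 2 * ‖v‖ := by
      have := hAlow (X z') a'
      rwa [hXA z' v] at this
    have h3 : (fderiv ℝ f z - fderiv ℝ f z') v = (2 : ℝ) • (a - a') := by
      rw [sub_apply, hfv, hfv, hBv, hBv, ← ha, ← ha']
      have e1 : (1 / 2 : ℝ) • fderiv ℝ U (X z) a = a - v := by
        rw [← hv]; abel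
      have e2 : (1 / 2 : ℝ) • fderiv ℝ U (X z') a' = a' - v := by
        rw [← hv']; abel
      rw [e1, e2, two_smul]; abel
    have h4 : a - a' = (1 / 2 : ℝ) • (fderiv ℝ U (X z) (a - a') +
        (fderiv ℝ U (X z) - fderiv ℝ U (X z')) a') := by
      have e1 : a = v + (1 / 2 : ℝ) • fderiv ℝ U (X z) a := by
        rw [← hv]; abel
      have e2 : a' = v + (1 / 2 : ℝ) • fderiv ℝ U (X z') a' := by
        rw [← hv']; abel
      rw [map_sub, sub_apply]
      have : (1 / 2 : ℝ) • ((fderiv ℝ U (X z)) a - (fderiv ℝ U (X z)) a' +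
          ((fderiv ℝ U (X z)) a' - (fderiv ℝ U (X z')) a')) =
          (1 / 2 : ℝ) • fderiv ℝ U (X z) a - (1 / 2 : ℝ) • fderiv ℝ U (X z') a' := by
        module
      rw [this]
      conv_lhs => rw [e1, e2]
      abel
    have h5 : ‖a - a'‖ ≤ (1 / 2) * ‖a - a'‖ + (1 / 2) * ((τ * ‖X z - X z'‖) * ‖a'‖) := by
      calc ‖a - a'‖ = ‖(1 / 2 : ℝ) • (fderiv ℝ U (X z) (a - a') +
            (fderiv ℝ U (X z) - fderiv ℝ U (X z')) a')‖ := by rw [← h4]
        _ = (1 / 2) * ‖fderiv ℝ U (X z) (a - a') +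
            (fderiv ℝ U (X z) - fderiv ℝ U (X z')) a'‖ := by
            rw [norm_smul, Real.norm_of_nonneg (by norm_num)]
        _ ≤ (1 / 2) * (‖fderiv ℝ U (X z) (a - a')‖ +
            ‖(fderiv ℝ U (X z) - fderiv ℝ U (X z')) a'‖) := by
            gcongr
            exact norm_add_le _ _
        _ ≤ (1 / 2) * (‖a - a'‖ + (τ * ‖X z - X z'‖) * ‖a'‖) := by
            have e1 : ‖fderiv ℝ U (X z) (a - a')‖ ≤ ‖a - a'‖ :=
              (hUv _ _).trans (mul_le_of_le_one_left (norm_nonneg _) hβ)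
            have e2 : ‖(fderiv ℝ U (X z) - fderiv ℝ U (X z')) a'‖ ≤
                (τ * ‖X z - X z'‖) * ‖a'‖ :=
              (ContinuousLinearMap.le_opNorm _ _).trans
                (mul_le_mul_of_nonneg_right hτ (norm_nonneg _))
            gcongr
        _ = _ := by ring
    rw [h3, norm_smul, Real.norm_of_nonneg (by norm_num : (0 : ℝ) ≤ 2)]
    have h6 : τ * ‖X z - X z'‖ * ‖a'‖ ≤ τ * (2 * ‖z - z'‖) * (2 * ‖v‖) := by
      gcongr
    calc 2 * ‖a - a'‖ ≤ 2 * (τ * (2 * ‖z - z'‖) * (2 * ‖v‖)) := by linarith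
      _ = 8 * τ * ‖z - z'‖ * ‖v‖ := by ring

end Pool.Agent.Helper17
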