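import Mathlib

set_option maxSynthPendingDepth 3

open scoped ContDiff Topology Convolution
open Set Function Filter MeasureTheory

namespace Pool.Agent.Helper17

section Conv

variable {E : Type*} [NormedAddCommGroup E] [InnerProductSpace ℝ E] [FiniteDimensional ℝ E]
  [MeasurableSpace E] [BorelSpace E]
  {F : Type*} [NormedAddCommGroup F] [NormedSpace ℝ F] [CompleteSpace F]

/-- Convolution of a vector valued kernel with a real function. -/
noncomputable def conv (f : E → F) (g : E → ℝ) (x : E) : F := ∫ t, g (x - t) • f t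

lemma conv_eq (f : E → F) (g : E → ℝ) :
    conv f g = f ⋆[(ContinuousLinearMap.lsmul ℝ ℝ : ℝ →L[ℝ] F →L[ℝ] F).flip, volume] g := by
  ext1 x
  rw [convolution_def]
  rfl

lemma hasFDerivAt_conv {f : E → F} (hf : ContDiff ℝ ∞ f) (hc : HasCompactSupport f) {g : E → ℝ}
    (hg : Continuous g) (x : E) : HasFDerivAt (conv f g) (conv (fderiv ℝ f) g x) x := by
  have h := hc.hasFDerivAt_convolution_left
    ((ContinuousLinearMap.lsmul ℝ ℝ : ℝ →L[ℝ] F →L[ℝ] F).flip) (hf.of_le (by simp))
    (hg.locallyIntegrable (μ := volume)) x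
  have e : (fderiv ℝ f ⋆[((ContinuousLinearMap.lsmul ℝ ℝ : ℝ →L[ℝ] F →L[ℝ] F).flip).precompL E,
      volume] g) x = conv (fderiv ℝ f) g x := by
    rw [convolution_def, conv]
    refine integral_congr_ae (Eventually.of_forall fun t => ?_)
    ext v
    rfl
  rw [conv_eq f g, ← e]
  exact h

lemma fderiv_conv {f : E → F} (hf : ContDiff ℝ ∞ f) (hc : HasCompactSupport f) {g : E → ℝ}
    (hg : Continuous g) : fderiv ℝ (conv f g) = conv (fderiv ℝ f) g :=
  funext fun x => (hasFDerivAt_conv hf hc hg x).fderiv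

lemma contDiff_conv {f : E → F} (hf : ContDiff ℝ ∞ f) (hc : HasCompactSupport f) {g : E → ℝ}
    (hg : Continuous g) : ContDiff ℝ ∞ (conv f g) := by
  rw [conv_eq]
  exact hc.contDiff_convolution_left _ hf (hg.locallyIntegrable (μ := volume))

lemma integrable_conv {f : E → F} (hf : Continuous f) (hc : HasCompactSupport f) {g : E → ℝ}
    (hg : Continuous g) (x : E) : Integrable (fun t => g (x - t) • f t) := by
  apply Continuous.integrable_of_hasCompactSupport
  · exact (hg.comp (continuous_const.sub continuous_id)).smul hf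
  · exact hc.smul_left

lemma conv_sub {f : E → F} (hf : Continuous f) (hc : HasCompactSupport f) {g₁ g₂ : E → ℝ}
    (hg₁ : Continuous g₁) (hg₂ : Continuous g₂) (x : E) :
    conv f g₁ x - conv f g₂ x = conv f (fun y => g₁ y - g₂ y) x := by
  rw [conv, conv, conv, ← integral_sub (integrable_conv hf hc hg₁ x) (integrable_conv hf hc hg₂ x)]
  congr 1
  ext1 t
  rw [sub_smul]

lemma norm_conv_le {f : E → F} (hf : Continuous f) (hc : tsupport f ⊆ Metric.closedBall 0 1)
    {g : E → ℝ} {x : E} {R : ℝ} (hR : ∀ a, ‖a‖ ≤ 1 → |g (x + a)| ≤ R) :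
    ‖conv f g x‖ ≤ (∫ t, ‖f t‖) * R := by
  have hcs : HasCompactSupport f :=
    HasCompactSupport.of_support_subset_isCompact (isCompact_closedBall (0 : E) 1)
      (subset_closure.trans hc)
  have hint : Integrable f := hf.integrable_of_hasCompactSupport hcs
  rw [conv, ← integral_mul_const]
  apply norm_integral_le_of_norm_le (hint.norm.mul_const R)
  filter_upwards with t
  rw [norm_smul, mul_comm]
  by_cases ht : t ∈ Metric.closedBall (0 : E) 1
  · apply mul_le_mul_of_nonneg_left _ (norm_nonneg _)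
    rw [Real.norm_eq_abs, sub_eq_add_neg]
    apply hR
    rw [norm_neg]
    simpa using ht
  · have : f t = 0 := by
      by_contra hne
      exact ht (hc (subset_closure hne))
    rw [this, norm_zero, zero_mul, zero_mul]

end Conv

section Mollify

variable (E : Type*) [NormedAddCommGroup E] [InnerProductSpace ℝ E] [FiniteDimensional ℝ E]
  [MeasurableSpace E] [BorelSpace E]

/-- A symmetric smooth kernel supported in the unit ball. -/
noncomputable def eta : E → ℝ :=
  (⟨1 / 2, 1, by norm_num, by norm_num⟩ : ContDiffBump (0 : E)).normed volume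

lemma contDiff_eta : ContDiff ℝ ∞ (eta E) := ContDiffBump.contDiff_normed _

lemma tsupport_eta : tsupport (eta E) = Metric.closedBall (0 : E) 1 :=
  ContDiffBump.tsupport_normed_eq _

lemma hasCompactSupport_eta : HasCompactSupport (eta E) := ContDiffBump.hasCompactSupport_normed _

lemma integral_eta : ∫ x, eta E x = 1 := ContDiffBump.integral_normed _

lemma eta_neg (x : E) : eta E (-x) = eta E x := ContDiffBump.normed_neg _ x

variable {E}

lemma integral_eta_linear (L : E →L[ℝ] ℝ) : ∫ t, L t * eta E t = 0 := by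
  have h := integral_neg_eq_self (fun t : E => L t * eta E t) volume
  simp only [map_neg, eta_neg, neg_mul] at h
  rw [integral_neg] at h
  linarith

lemma fderiv_quadratic (c₀ : ℝ) (ℓ : E →L[ℝ] ℝ) (b : E →L[ℝ] E →L[ℝ] ℝ)
    (hb : ∀ x y, b x y = b y x) (w y : E) :
    HasFDerivAt (fun y => c₀ + (ℓ (y - w) + b (y - w) (y - w))) (ℓ + (2 : ℝ) • b (y - w)) y := by
  have h0 : HasFDerivAt (fun y : E => y - w) (ContinuousLinearMap.id ℝ E) y :=
    (hasFDerivAt_id y).sub_const w
  have h1 : HasFDerivAt (fun y => ℓ (y - w)) (ℓ.comp (ContinuousLinearMap.id ℝ E)) y :=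
    ℓ.hasFDerivAt.comp y h0
  have h2 : HasFDerivAt (fun y => b (y - w)) (b.comp (ContinuousLinearMap.id ℝ E)) y :=
    b.hasFDerivAt.comp y h0
  have h3 := (h1.add (h2.clm_apply h0)).const_add c₀
  refine h3.congr_fderiv ?_
  ext v
  simp only [add_apply, ContinuousLinearMap.comp_apply, ContinuousLinearMap.id_apply,
    ContinuousLinearMap.flip_apply, smul_apply, smul_eq_mul]
  rw [hb v (y - w)]
  ring

lemma conv_eta_quadratic (c₀ : ℝ) (ℓ : E →L[ℝ] ℝ) (b : E →L[ℝ] E →L[ℝ] ℝ) (w : E) :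
    conv (eta E) (fun y => c₀ + (ℓ (y - w) + b (y - w) (y - w))) =
      fun y => (c₀ + ∫ t, b t t * eta E t) + (ℓ (y - w) + b (y - w) (y - w)) := by
  ext1 x
  rw [conv]
  have hcont : Continuous (eta E) := (contDiff_eta E).continuous
  have hcs := hasCompactSupport_eta E
  have hI : ∀ f : E → ℝ, Continuous f → Integrable (fun t => f t * eta E t) := fun f hf =>
    (hf.mul hcont).integrable_of_hasCompactSupport hcs.mul_left
  have e1 : (fun t => (c₀ + (ℓ (x - t - w) + b (x - t - w) (x - t - w))) • eta E t) =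
      fun t => ((c₀ + (ℓ (x - w) + b (x - w) (x - w))) * eta E t -
        (ℓ + b (x - w) + b.flip (x - w)) t * eta E t) + b t t * eta E t := by
    ext1 t
    have : x - t - w = (x - w) - t := by abel
    rw [this]
    simp only [map_sub, sub_apply, add_apply, ContinuousLinearMap.flip_apply, smul_eq_mul]
    ring
  have hbt : Continuous fun t => b t t := b.continuous.clm_apply continuous_id
  have i1 : Integrable (fun t => (c₀ + (ℓ (x - w) + b (x - w) (x - w))) * eta E t) :=
    hI _ continuous_const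
  have i2 : Integrable (fun t => (ℓ + b (x - w) + b.flip (x - w)) t * eta E t) :=
    hI _ (ℓ + b (x - w) + b.flip (x - w)).continuous
  have i3 : Integrable (fun t => b t t * eta E t) := hI _ hbt
  rw [e1]
  calc ∫ t, (((c₀ + (ℓ (x - w) + b (x - w) (x - w))) * eta E t -
        (ℓ + b (x - w) + b.flip (x - w)) t * eta E t) + b t t * eta E t)
      = (∫ t, ((c₀ + (ℓ (x - w) + b (x - w) (x - w))) * eta E t -
        (ℓ + b (x - w) + b.flip (x - w)) t * eta E t)) + ∫ t, b t t * eta E t :=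
        integral_add (i1.sub i2) i3
    _ = ((c₀ + (ℓ (x - w) + b (x - w) (x - w))) - 0) + ∫ t, b t t * eta E t := by
        rw [integral_sub i1 i2, integral_const_mul, integral_eta, integral_eta_linear, mul_one]
    _ = _ := by ring

variable (E) in
/-- The constants of the kernel. -/
noncomputable def cEta : ℝ :=
  (∫ t, ‖fderiv ℝ (eta E) t‖) + (∫ t, ‖fderiv ℝ (fderiv ℝ (eta E)) t‖) +
    ∫ t, ‖fderiv ℝ (fderiv ℝ (fderiv ℝ (eta E))) t‖

lemma cEta_nonneg : 0 ≤ cEta E := by
  have h1 : 0 ≤ ∫ t, ‖fderiv ℝ (eta E) t‖ := integral_nonneg fun _ => norm_nonneg _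
  have h2 : 0 ≤ ∫ t, ‖fderiv ℝ (fderiv ℝ (eta E)) t‖ := integral_nonneg fun _ => norm_nonneg _
  have h3 : 0 ≤ ∫ t, ‖fderiv ℝ (fderiv ℝ (fderiv ℝ (eta E))) t‖ :=
    integral_nonneg fun _ => norm_nonneg _
  unfold cEta
  positivity

/-- Mollification of a function which is close to a quadratic polynomial on a unit ball. -/
lemma mollify_close {s : E → ℝ} (hs : Continuous s) {w : E} (ℓ : E →L[ℝ] ℝ)
    (b : E →L[ℝ] E →L[ℝ] ℝ) (hb : ∀ x y, b x y = b y x) {R : ℝ}
    (hR : ∀ a, ‖a‖ ≤ 1 → |s (w + a) - s w - (ℓ a + b a a)| ≤ R) :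
    ‖fderiv ℝ (conv (eta E) s) w - ℓ‖ ≤ cEta E * R ∧
    ‖fderiv ℝ (fderiv ℝ (conv (eta E) s)) w - (2 : ℝ) • b‖ ≤ cEta E * R ∧
    ‖fderiv ℝ (fderiv ℝ (fderiv ℝ (conv (eta E) s))) w‖ ≤ cEta E * R := by
  have hR0 : 0 ≤ R := (abs_nonneg _).trans (hR 0 (by simp))
  set P : E → ℝ := fun y => s w + (ℓ (y - w) + b (y - w) (y - w)) with hP
  have hPc : Continuous P := by
    have h1 : Continuous fun y : E => y - w := continuous_id.sub continuous_const
    exact continuous_const.add ((ℓ.continuous.comp h1).add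
      ((b.continuous.comp h1).clm_apply h1))
  -- derivatives of the kernel
  have hη := contDiff_eta E
  have hη1 : ContDiff ℝ ∞ (fderiv ℝ (eta E)) := hη.fderiv_right (by simp)
  have hη2 : ContDiff ℝ ∞ (fderiv ℝ (fderiv ℝ (eta E))) := hη1.fderiv_right (by simp)
  have hη3 : ContDiff ℝ ∞ (fderiv ℝ (fderiv ℝ (fderiv ℝ (eta E)))) := hη2.fderiv_right (by simp)
  have hc := hasCompactSupport_eta E
  have hc1 := hc.fderiv (𝕜 := ℝ)
  have hc2 := hc1.fderiv (𝕜 := ℝ)
  have hc3 := hc2.fderiv (𝕜 := ℝ)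
  have ht : tsupport (eta E) ⊆ Metric.closedBall (0 : E) 1 := (tsupport_eta E).subset
  have ht1 : tsupport (fderiv ℝ (eta E)) ⊆ Metric.closedBall (0 : E) 1 :=
    (tsupport_fderiv_subset ℝ).trans ht
  have ht2 : tsupport (fderiv ℝ (fderiv ℝ (eta E))) ⊆ Metric.closedBall (0 : E) 1 :=
    (tsupport_fderiv_subset ℝ).trans ht1
  have ht3 : tsupport (fderiv ℝ (fderiv ℝ (fderiv ℝ (eta E)))) ⊆ Metric.closedBall (0 : E) 1 :=
    (tsupport_fderiv_subset ℝ).trans ht2
  -- derivatives of convolutions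
  have d1 : ∀ g : E → ℝ, Continuous g →
      fderiv ℝ (conv (eta E) g) = conv (fderiv ℝ (eta E)) g := fun g hg => fderiv_conv hη hc hg
  have d2 : ∀ g : E → ℝ, Continuous g → fderiv ℝ (fderiv ℝ (conv (eta E) g)) =
      conv (fderiv ℝ (fderiv ℝ (eta E))) g := fun g hg => by
    rw [d1 g hg, fderiv_conv hη1 hc1 hg]
  have d3 : ∀ g : E → ℝ, Continuous g → fderiv ℝ (fderiv ℝ (fderiv ℝ (conv (eta E) g))) =
      conv (fderiv ℝ (fderiv ℝ (fderiv ℝ (eta E)))) g := fun g hg => by
    rw [d2 g hg, fderiv_conv hη2 hc2 hg]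
  -- derivatives of the quadratic polynomial
  have p0 := conv_eta_quadratic (s w) ℓ b w
  have p1 : fderiv ℝ (conv (eta E) P) = fun y => ℓ + (2 : ℝ) • b (y - w) := by
    rw [hP, p0]
    exact funext fun y => (fderiv_quadratic _ ℓ b hb w y).fderiv
  have p2 : fderiv ℝ (fderiv ℝ (conv (eta E) P)) = fun _ => (2 : ℝ) • b := by
    rw [p1]
    funext y
    have h0 : HasFDerivAt (fun y : E => y - w) (ContinuousLinearMap.id ℝ E) y :=
      (hasFDerivAt_id y).sub_const w
    have h2 : HasFDerivAt (fun y => b (y - w)) (b.comp (ContinuousLinearMap.id ℝ E)) y :=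
      b.hasFDerivAt.comp y h0
    have h3 : HasFDerivAt (fun y => ℓ + (2 : ℝ) • b (y - w))
        ((2 : ℝ) • (b.comp (ContinuousLinearMap.id ℝ E))) y :=
      (h2.const_smul (2 : ℝ)).const_add ℓ
    rw [h3.fderiv]
    rfl
  have p3 : fderiv ℝ (fderiv ℝ (fderiv ℝ (conv (eta E) P))) = fun _ => 0 := by
    rw [p2]
    funext y
    exact (hasFDerivAt_const _ _).fderiv
  have q1 : conv (fderiv ℝ (eta E)) P w = ℓ := by
    rw [← d1 P hPc, p1]; simp
  have q2 : conv (fderiv ℝ (fderiv ℝ (eta E))) P w = (2 : ℝ) • b := by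
    rw [← d2 P hPc, p2]
  have q3 : conv (fderiv ℝ (fderiv ℝ (fderiv ℝ (eta E)))) P w = 0 := by
    rw [← d3 P hPc, p3]
  have hR' : ∀ a, ‖a‖ ≤ 1 → |(fun y => s y - P y) (w + a)| ≤ R := by
    intro a ha
    have := hR a ha
    simp only [hP, add_sub_cancel_left]
    convert this using 2
    ring
  have n1 : 0 ≤ ∫ t, ‖fderiv ℝ (eta E) t‖ := integral_nonneg fun _ => norm_nonneg _
  have n2 : 0 ≤ ∫ t, ‖fderiv ℝ (fderiv ℝ (eta E)) t‖ := integral_nonneg fun _ => norm_nonneg _
  have n3 : 0 ≤ ∫ t, ‖fderiv ℝ (fderiv ℝ (fderiv ℝ (eta E))) t‖ :=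
    integral_nonneg fun _ => norm_nonneg _
  refine ⟨?_, ?_, ?_⟩
  · rw [d1 s hs]
    nth_rewrite 1 [← q1]
    rw [conv_sub hη1.continuous hc1 hs hPc]
    refine (norm_conv_le hη1.continuous ht1 hR').trans ?_
    unfold cEta
    gcongr
    linarith
  · rw [d2 s hs]
    nth_rewrite 1 [← q2]
    rw [conv_sub hη2.continuous hc2 hs hPc]
    refine (norm_conv_le hη2.continuous ht2 hR').trans ?_
    unfold cEta
    gcongr
    linarith
  · rw [d3 s hs, ← sub_zero (conv _ _ _), ← q3, conv_sub hη3.continuous hc3 hs hPc]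
    refine (norm_conv_le hη3.continuous ht3 hR').trans ?_
    unfold cEta
    gcongr
    linarith

end Mollify

end Pool.Agent.Helper17
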