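import Mathlib
import Pool.Agent.Helper17.SympBase
import Pool.Agent.Helper17.Sharp
import Pool.Agent.Helper17.Isotopy
import Pool.Agent.Helper17.Near
import Pool.Agent.Helper17.Criterion
import Pool.Agent.Helper17.Cayley
import Pool.Agent.Helper17.Potential
import Pool.Agent.Helper17.Smoothing

set_option maxSynthPendingDepth 3

open scoped ContDiff Distributions Topology
open Set Function TopologicalSpace Filter

namespace Pool.Agent.Helper17

variable {n : ℕ}

lemma norm_omegaB_le (u : Phase n) : ‖omegaB n u‖ ≤ ‖u‖ :=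
  ContinuousLinearMap.opNorm_le_bound _ (norm_nonneg _) fun v => abs_omegaStd_le u v

/-- The linear part of the quadratic polynomial. -/
noncomputable def lin (c : Phase n) (M : Phase n →L[ℝ] Phase n) : Phase n →L[ℝ] ℝ :=
  omegaB n c + (1 / 2 : ℝ) • (omegaB n c).comp M

/-- The quadratic part of the quadratic polynomial. -/
noncomputable def quad (M : Phase n →L[ℝ] Phase n) : Phase n →L[ℝ] Phase n →L[ℝ] ℝ :=
  (1 / 4 : ℝ) • ((omegaB n).comp M + ((omegaB n).comp M).flip)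

lemma lin_apply (c : Phase n) (M : Phase n →L[ℝ] Phase n) (a : Phase n) :
    lin c M a = omegaStd c a + (1 / 2) * omegaStd c (M a) := rfl

lemma quad_apply (M : Phase n →L[ℝ] Phase n) (a b : Phase n) :
    quad M a b = (1 / 4) * (omegaStd (M a) b + omegaStd (M b) a) := rfl

lemma norm_two_quad_le (M : Phase n →L[ℝ] Phase n) : ‖(2 : ℝ) • quad M‖ ≤ ‖M‖ := by
  apply ContinuousLinearMap.opNorm_le_bound _ (norm_nonneg _)
  intro a
  apply ContinuousLinearMap.opNorm_le_bound _ (by positivity)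
  intro b
  have h1 : ((2 : ℝ) • quad M) a b = (1 / 2) * (omegaStd (M a) b + omegaStd (M b) a) := by
    rw [smul_apply, smul_apply, quad_apply, smul_eq_mul]
    ring
  rw [h1, Real.norm_eq_abs, abs_mul, abs_of_nonneg (by norm_num : (0 : ℝ) ≤ 1 / 2)]
  have b1 : |omegaStd (M a) b| ≤ ‖M‖ * ‖a‖ * ‖b‖ :=
    (abs_omegaStd_le _ _).trans (mul_le_mul_of_nonneg_right (M.le_opNorm a) (norm_nonneg _))
  have b2 : |omegaStd (M b) a| ≤ ‖M‖ * ‖b‖ * ‖a‖ :=
    (abs_omegaStd_le _ _).trans (mul_le_mul_of_nonneg_right (M.le_opNorm b) (norm_nonneg _))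
  have b3 := abs_add_le (omegaStd (M a) b) (omegaStd (M b) a)
  have b4 : ‖M‖ * ‖b‖ * ‖a‖ = ‖M‖ * ‖a‖ * ‖b‖ := by ring
  linarith

/-- Smoothing at unit scale of a symplectic map which is uniformly close to the identity. -/
theorem unit_smoothing (n : ℕ) (Λ : ℝ) (hΛ1 : 1 ≤ Λ) : ∃ C : ℝ, 1 ≤ C ∧
    ∀ (χ : SympCt n) (δ κ : ℝ), 0 ≤ κ → κ ≤ δ → C * δ ≤ 1 →
    (∀ z, ‖fderiv ℝ (χ : Equiv.Perm (Phase n)) z‖ ≤ Λ) →
    (∀ z, ‖(χ : Equiv.Perm (Phase n)) z - z‖ ≤ δ) →
    (∀ w, ∃ (c : Phase n) (M : Phase n →L[ℝ] Phase n), ∀ a : Phase n, ‖a‖ ≤ 1 →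
      ‖(χ : Equiv.Perm (Phase n)) (w + a) - (w + a) - (c + M a)‖ ≤ κ) →
    ∃ χ' : SympCt n,
      (∀ z, ‖(χ' : Equiv.Perm (Phase n)) z - (χ : Equiv.Perm (Phase n)) z‖ ≤ C * (κ + δ ^ 2)) ∧
      (∀ z z', ‖fderiv ℝ (χ' : Equiv.Perm (Phase n)) z - fderiv ℝ (χ' : Equiv.Perm (Phase n)) z'‖ ≤
        C * κ * ‖z - z'‖) ∧
      (∀ z, ‖fderiv ℝ (χ' : Equiv.Perm (Phase n)) z - ContinuousLinearMap.id ℝ (Phase n)‖ ≤
        C * δ) := by
  set K : ℝ := cEta (Phase n) * (3 + Λ / 2) with hK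
  have hK0 : 0 ≤ K := mul_nonneg cEta_nonneg (by linarith)
  refine ⟨8 * K + 6, by linarith, ?_⟩
  intro χ δ κ hκ0 hκδ hCδ hΛ hδ hflat
  have hδ0 : 0 ≤ δ := hκ0.trans hκδ
  have hδ1 : 6 * δ ≤ 1 := by nlinarith
  obtain ⟨s, hs, hsd⟩ := exists_potential χ
  have hsc : Continuous s := hs.continuous
  set S : Phase n → ℝ := conv (eta (Phase n)) s with hS
  have hSs : ContDiff ℝ ∞ S := contDiff_conv (contDiff_eta _) (hasCompactSupport_eta _) hsc
  have hS1 : ContDiff ℝ ∞ (fderiv ℝ S) := hSs.fderiv_right (by simp)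
  have hS2 : ContDiff ℝ ∞ (fderiv ℝ (fderiv ℝ S)) := hS1.fderiv_right (by simp)
  set U : Phase n → Phase n := fun w => sharp n (fderiv ℝ S w) with hU
  have hUs : ContDiff ℝ ∞ U := (sharp n).contDiff.comp hS1
  have hUd : ∀ w, fderiv ℝ U w = (sharp n).comp (fderiv ℝ (fderiv ℝ S) w) := fun w =>
    ((sharp n).hasFDerivAt.comp w (hS1.differentiable (by simp) w).hasFDerivAt).fderiv
  -- support
  obtain ⟨K₀, hK₀, hχK⟩ := χ.2.2.2.2
  set K₁ : Set (Phase n) := Metric.cthickening 1 K₀ with hK₁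
  have hK₁c : IsCompact K₁ := hK₀.cthickening
  have hUK : ∀ x ∉ K₁, U x = 0 := by
    intro w hw
    have hball : ∀ a : Phase n, ‖a‖ ≤ 1 → w + a ∉ K₀ := by
      intro a ha haK
      apply hw
      apply Metric.mem_cthickening_of_dist_le w (w + a) 1 K₀ haK
      rw [dist_eq_norm]
      simpa using ha
    have h1 : ∀ a : Phase n, ‖a‖ ≤ 1 →
        |s (w + a) - s w - ((0 : Phase n →L[ℝ] ℝ) a +
          (0 : Phase n →L[ℝ] Phase n →L[ℝ] ℝ) a a)| ≤ 0 := by
      intro a ha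
      have := potential_close (χ := (χ : Equiv.Perm (Phase n))) (SympCt.contDiff χ) hsd
        (w := w) (δ := 0) (κ := 0) (Λ := Λ) (by norm_num) hΛ
        (fun z hz => by
          have : z = w + (z - w) := by abel
          rw [this, hχK _ (hball (z - w) (by simpa [dist_eq_norm] using hz))]
          simp) 0 0
        (fun b hb => by rw [hχK _ (hball b hb)]; simp) ha
      simpa [omegaStd_zero_left] using this
    have h2 := (mollify_close hsc (w := w) 0 0 (fun _ _ => rfl) h1).1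
    rw [mul_zero, sub_zero] at h2
    have h3 : fderiv ℝ S w = 0 := norm_le_zero_iff.1 h2
    simp only [hU, h3, map_zero]
  -- flat case
  have key : ∀ w, ∃ (c : Phase n) (M : Phase n →L[ℝ] Phase n), ‖c‖ ≤ 2 * δ ∧ ‖M‖ ≤ 2 * δ ∧
      (∀ a : Phase n, ‖a‖ ≤ 1 →
        ‖(χ : Equiv.Perm (Phase n)) (w + a) - (w + a) - (c + M a)‖ ≤ κ) ∧
      ‖fderiv ℝ S w - lin c M‖ ≤ K * κ ∧
      ‖fderiv ℝ (fderiv ℝ S) w - (2 : ℝ) • quad M‖ ≤ K * κ ∧
      ‖fderiv ℝ (fderiv ℝ (fderiv ℝ S)) w‖ ≤ K * κ := by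
    intro w
    obtain ⟨c, M, hcM⟩ := hflat w
    have hL : ∀ b : Phase n, ‖b‖ ≤ 1 → ‖c + M b‖ ≤ δ + κ := by
      intro b hb
      have h1 := hcM b hb
      have h2 := hδ (w + b)
      calc ‖c + M b‖ = ‖((χ : Equiv.Perm (Phase n)) (w + b) - (w + b)) -
            ((χ : Equiv.Perm (Phase n)) (w + b) - (w + b) - (c + M b))‖ := by
            congr 1; abel
        _ ≤ ‖(χ : Equiv.Perm (Phase n)) (w + b) - (w + b)‖ +
            ‖(χ : Equiv.Perm (Phase n)) (w + b) - (w + b) - (c + M b)‖ := norm_sub_le _ _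
        _ ≤ δ + κ := add_le_add h2 h1
    have hc : ‖c‖ ≤ 2 * δ := by
      have := hL 0 (by simp)
      rw [map_zero, add_zero] at this
      linarith
    have hM : ‖M‖ ≤ 2 * δ := by
      apply ContinuousLinearMap.opNorm_le_of_unit_norm (by positivity)
      intro a ha
      have h1 := hL a ha.le
      have h2 := hL (-a) (by rw [norm_neg, ha])
      have h3 : M a = (1 / 2 : ℝ) • ((c + M a) - (c + M (-a))) := by
        rw [map_neg]; module
      rw [h3, norm_smul, Real.norm_of_nonneg (by norm_num)]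
      have := norm_sub_le (c + M a) (c + M (-a))
      linarith
    have hq : ∀ a : Phase n, ‖a‖ ≤ 1 →
        |s (w + a) - s w - (lin c M a + quad M a a)| ≤ (3 + Λ / 2) * κ := by
      intro a ha
      have := potential_close (χ := (χ : Equiv.Perm (Phase n))) (SympCt.contDiff χ) hsd
        (w := w) (δ := δ) (κ := κ) (Λ := Λ) (by linarith) hΛ
        (fun z _ => hδ z) c M hcM ha
      convert this using 2
      rw [lin_apply, quad_apply]
      ring
    have h3 := mollify_close hsc (w := w) (lin c M) (quad M)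
      (fun x y => by rw [quad_apply, quad_apply]; ring) hq
    rw [← mul_assoc, ← hK] at h3
    exact ⟨c, M, hc, hM, hcM, h3.1, h3.2.1, h3.2.2⟩
  have hsharp : ‖sharp n‖ ≤ 1 :=
    ContinuousLinearMap.opNorm_le_bound _ zero_le_one fun ℓ => by
      rw [one_mul]; exact norm_sharp_le ℓ
  obtain ⟨χ', h1, h2, h3⟩ := exists_cayley U hUs hK₁c hUK (β := (2 + K) * δ) (τ := K * κ)
    (by
      intro w a b
      rw [hUd]
      simp only [ContinuousLinearMap.comp_apply]
      rw [omegaStd_sharp, omegaStd_swap, omegaStd_sharp]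
      have : fderiv ℝ (fderiv ℝ S) w a b = fderiv ℝ (fderiv ℝ S) w b a :=
        (hSs.contDiffAt (x := w)).isSymmSndFDerivAt
          (by rw [minSmoothness_of_isRCLikeNormedField]; exact WithTop.coe_le_coe.2 le_top) a b
      rw [this]; ring)
    (by nlinarith)
    (by
      intro w
      obtain ⟨c, M, hc, hM, -, -, h5, -⟩ := key w
      rw [hUd]
      have e1 : ‖fderiv ℝ (fderiv ℝ S) w‖ ≤ (2 + K) * δ := by
        have := norm_add_le (fderiv ℝ (fderiv ℝ S) w - (2 : ℝ) • quad M) ((2 : ℝ) • quad M)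
        rw [sub_add_cancel] at this
        have h6 := norm_two_quad_le M
        have h7 : K * κ ≤ K * δ := mul_le_mul_of_nonneg_left hκδ hK0
        linarith
      calc ‖(sharp n).comp (fderiv ℝ (fderiv ℝ S) w)‖ ≤ ‖sharp n‖ * ‖fderiv ℝ (fderiv ℝ S) w‖ :=
            ContinuousLinearMap.opNorm_comp_le _ _
        _ ≤ 1 * ((2 + K) * δ) := by gcongr
        _ = (2 + K) * δ := one_mul _)
    (by
      intro w w'
      rw [hUd, hUd, ← ContinuousLinearMap.comp_sub]
      have hlip : ‖fderiv ℝ (fderiv ℝ S) w - fderiv ℝ (fderiv ℝ S) w'‖ ≤ K * κ * ‖w - w'‖ := by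
        apply convex_univ.norm_image_sub_le_of_norm_fderiv_le (𝕜 := ℝ)
          (fun y _ => hS2.differentiable (by simp) y) _ (mem_univ w') (mem_univ w)
        intro y _
        obtain ⟨c, M, -, -, -, -, -, h6⟩ := key y
        exact h6
      calc ‖(sharp n).comp (fderiv ℝ (fderiv ℝ S) w - fderiv ℝ (fderiv ℝ S) w')‖
          ≤ ‖sharp n‖ * ‖fderiv ℝ (fderiv ℝ S) w - fderiv ℝ (fderiv ℝ S) w'‖ :=
            ContinuousLinearMap.opNorm_comp_le _ _
        _ ≤ 1 * (K * κ * ‖w - w'‖) := by gcongr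
        _ = K * κ * ‖w - w'‖ := one_mul _)
  refine ⟨χ', ?_, ?_, ?_⟩
  · intro z
    obtain ⟨w, hwz, hχ'⟩ := h1 z
    obtain ⟨c, M, hc, hM, hcM, h4, -, -⟩ := key w
    have hKκ : K * κ ≤ K * δ := mul_le_mul_of_nonneg_left hκδ hK0
    have hKδ : K * δ ≤ 1 := by nlinarith
    -- size of the difference between `U w` and `c`
    have hcM' : ‖lin c M - omegaB n c‖ ≤ 2 * δ ^ 2 := by
      have e1 : lin c M - omegaB n c = (1 / 2 : ℝ) • (omegaB n c).comp M := by
        rw [lin, add_sub_cancel_left]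
      rw [e1, norm_smul, Real.norm_of_nonneg (by norm_num)]
      calc (1 / 2) * ‖(omegaB n c).comp M‖ ≤ (1 / 2) * (‖omegaB n c‖ * ‖M‖) := by
            gcongr; exact ContinuousLinearMap.opNorm_comp_le _ _
        _ ≤ (1 / 2) * ((2 * δ) * (2 * δ)) := by
            gcongr; exact (norm_omegaB_le c).trans hc
        _ = 2 * δ ^ 2 := by ring
    have hUc : ‖U w - c‖ ≤ K * κ + 2 * δ ^ 2 := by
      have e1 : U w - c = sharp n ((fderiv ℝ S w - lin c M) + (lin c M - omegaB n c)) := by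
        rw [sub_add_sub_cancel, map_sub, sharp_omegaB]
      rw [e1]
      refine (norm_sharp_le _).trans ((norm_add_le _ _).trans (add_le_add h4 hcM'))
    have hUw : ‖U w‖ ≤ (4 + K) * δ := by
      have := norm_add_le (U w - c) c
      rw [sub_add_cancel] at this
      nlinarith
    have hwz' : ‖z - w‖ ≤ (4 + K) * δ / 2 := by
      rw [norm_sub_rev, hwz]; linarith
    have hwz1 : ‖z - w‖ ≤ 1 := by nlinarith
    have h5 := hcM (z - w) hwz1
    rw [add_sub_cancel] at h5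
    have h6 : ‖M (z - w)‖ ≤ (4 + K) * δ ^ 2 := by
      calc ‖M (z - w)‖ ≤ ‖M‖ * ‖z - w‖ := M.le_opNorm _
        _ ≤ (2 * δ) * ((4 + K) * δ / 2) := by gcongr
        _ = (4 + K) * δ ^ 2 := by ring
    have e1 : (χ' : Equiv.Perm (Phase n)) z - (χ : Equiv.Perm (Phase n)) z =
        (U w - c) - ((χ : Equiv.Perm (Phase n)) z - z - (c + M (z - w))) - M (z - w) := by
      rw [hχ']; abel
    rw [e1]
    calc ‖(U w - c) - ((χ : Equiv.Perm (Phase n)) z - z - (c + M (z - w))) - M (z - w)‖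
        ≤ ‖U w - c‖ + ‖(χ : Equiv.Perm (Phase n)) z - z - (c + M (z - w))‖ + ‖M (z - w)‖ :=
          (norm_sub_le _ _).trans (add_le_add (norm_sub_le _ _) le_rfl)
      _ ≤ (K * κ + 2 * δ ^ 2) + κ + (4 + K) * δ ^ 2 := by gcongr
      _ ≤ (8 * K + 6) * (κ + δ ^ 2) := by
          have e2 := mul_nonneg hK0 hκ0
          have e3 := mul_nonneg hK0 (sq_nonneg δ)
          nlinarith
  · intro z z'
    refine (h3 z z').trans ?_
    apply mul_le_mul_of_nonneg_right _ (norm_nonneg _)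
    nlinarith
  · intro z
    refine (h2 z).trans ?_
    nlinarith

end Pool.Agent.Helper17
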