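import Mathlib
import Pool.Agent.Helper17.SympBase
import Pool.Agent.Helper17.LocalDiffeo
import Pool.Agent.Helper17.Isotopy
import Pool.Agent.Helper17.Near
import Pool.Agent.Helper17.Potential
import Pool.Agent.Helper17.CFamily
import Pool.Agent.Helper17.CFInt
import Pool.Agent.Helper17.Flow
import Pool.Agent.Helper17.FlowODE
import Pool.Agent.Helper17.Moser
import Pool.Agent.Helper17.SympFamily

set_option maxSynthPendingDepth 3

open scoped ContDiff Topology
open Set Function Filter TopologicalSpace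

namespace Pool.Agent.Helper17

variable {n : ℕ}

/-- Moser's method for families. -/
theorem moser_family {T : Type} [TopologicalSpace T] [CompactSpace T] {Ψ : T → Phase n → Phase n}
    (hΨ : CF Ψ) {K : Set (Phase n)} (hK : IsCompact K) (hΨK : ∀ t, ∀ x ∉ K, Ψ t x = x)
    (hadm : ∀ t x, Admissible (fderiv ℝ (Ψ t) x)) :
    ∃ ρ : T × Icc (0 : ℝ) 1 → Phase n → Phase n, CF ρ ∧
      (∀ (t : T) (s : Icc (0 : ℝ) 1) (x v w : Phase n),
        (1 - (s : ℝ)) * omegaStd (fderiv ℝ (ρ (t, s)) x v) (fderiv ℝ (ρ (t, s)) x w) +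
        s * omegaStd (fderiv ℝ (Ψ t) (ρ (t, s) x) (fderiv ℝ (ρ (t, s)) x v))
          (fderiv ℝ (Ψ t) (ρ (t, s) x) (fderiv ℝ (ρ (t, s)) x w)) = omegaStd v w) ∧
      (∀ x ∉ K, ∀ p, ρ p x = x) ∧
      (∀ t x, ρ (t, ⟨0, left_mem_Icc.2 zero_le_one⟩) x = x) ∧
      (∀ t, (∀ x, Ψ t x = x) → ∀ s x, ρ (t, s) x = x) := by
  set X := moserField Ψ with hX
  have hXCF : CF X := CF_moserField hΨ hadm
  have hX0 : ∀ x ∉ K, ∀ p, X p x = 0 := fun x hx p => moserField_eq_zero (hΨK p.1 x hx)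
  obtain ⟨C, hC⟩ : ∃ C, ∀ (p : T × Icc (0 : ℝ) 1) (x : Phase n), ‖fderiv ℝ (X p) x‖ ≤ C := by
    obtain ⟨C, hC⟩ := ((isCompact_univ (X := T × Icc (0 : ℝ) 1)).prod hK).exists_bound_of_continuousOn
      hXCF.fderiv.continuous.continuousOn
    refine ⟨max C 0, fun p x => ?_⟩
    by_cases hx : x ∈ K
    · exact (hC (p, x) ⟨mem_univ _, hx⟩).trans (le_max_left _ _)
    · have h1 : X p =ᶠ[𝓝 x] fun _ => 0 := by
        filter_upwards [hK.isClosed.isOpen_compl.mem_nhds hx] with y hy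
        exact hX0 y hy p
      rw [h1.fderiv_eq, (hasFDerivAt_const (0 : Phase n) x).fderiv, norm_zero]
      exact le_max_right _ _
  obtain ⟨ρ, hρ, heq, hfix⟩ := exists_flow X hXCF hC
  refine ⟨ρ, hρ, ?_, fun x hx p => hfix x (hX0 x hx) p, ?_, ?_⟩
  · intro t s x v w
    obtain ⟨r, A, hr, hA, hrd, hAd, hr0, hA0⟩ := flow_ode hXCF hρ heq t x
    have h1 := moser_conservation (hΨ.contDiff t) (X := fun s => X (t, s))
      (fun s => hXCF.differentiable (t, s))
      (fun s y w => moserField_spec hadm (t, s) y w) hrd hAd hA0 v w s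
    rw [hr, hA] at h1
    exact h1
  · intro t x
    rw [heq]
    simp
  · intro t ht s x
    rw [heq]
    have h1 : ∀ (s : Icc (0 : ℝ) 1) y, X (t, s) y = 0 := fun s y => moserField_eq_zero (ht y)
    simp [h1]

lemma fderiv_comp_family {T : Type} [TopologicalSpace T] {Ψ : T → Phase n → Phase n} (hΨ : CF Ψ)
    {ρ : T × Icc (0 : ℝ) 1 → Phase n → Phase n} (hρ : CF ρ) (t : T) (s : Icc (0 : ℝ) 1)
    (x : Phase n) : fderiv ℝ (fun x => Ψ t (ρ (t, s) x)) x =
      (fderiv ℝ (Ψ t) (ρ (t, s) x)).comp (fderiv ℝ (ρ (t, s)) x) :=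
  fderiv_comp x (hΨ.differentiable t _) (hρ.differentiable (t, s) x)

/-- A compact family of symplectic maps which can be deformed to the identity through smooth maps
with admissible derivatives is null-homotopic in the symplectomorphism group. -/
theorem nullhomotopic_of_deformation {T : Type} [TopologicalSpace T] [CompactSpace T]
    (f : C(T, SympCt n)) (Ψ : T × Icc (0 : ℝ) 1 → Phase n → Phase n) (hΨ : CF Ψ)
    {K : Set (Phase n)} (hK : IsCompact K) (hΨK : ∀ p, ∀ x ∉ K, Ψ p x = x)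
    (hadm : ∀ p x, Admissible (fderiv ℝ (Ψ p) x))
    (h0 : ∀ t x, Ψ (t, ⟨0, left_mem_Icc.2 zero_le_one⟩) x = (f t : Equiv.Perm (Phase n)) x)
    (h1 : ∀ t x, Ψ (t, ⟨1, right_mem_Icc.2 zero_le_one⟩) x = x) :
    f.Homotopic (ContinuousMap.const T 1) := by
  set z : Icc (0 : ℝ) 1 := ⟨0, left_mem_Icc.2 zero_le_one⟩ with hz
  set o : Icc (0 : ℝ) 1 := ⟨1, right_mem_Icc.2 zero_le_one⟩ with ho
  obtain ⟨ρ, hρ, hcons, hρK, hρ0, hρid⟩ := moser_family hΨ hK hΨK hadm
  have hHCF : CF (fun (q : (T × Icc (0 : ℝ) 1) × Icc (0 : ℝ) 1) x => Ψ q.1 (ρ q x)) :=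
    (hΨ.base continuous_fst).comp hρ
  have hHK : ∀ (q : (T × Icc (0 : ℝ) 1) × Icc (0 : ℝ) 1), ∀ x ∉ K, Ψ q.1 (ρ q x) = x := by
    intro q x hx
    rw [hρK x hx, hΨK q.1 x hx]
  -- the symplectic members
  have hs1 : ∀ (p : T × Icc (0 : ℝ) 1) (x u v : Phase n),
      omegaStd (fderiv ℝ (fun x => Ψ p (ρ (p, o) x)) x u)
        (fderiv ℝ (fun x => Ψ p (ρ (p, o) x)) x v) = omegaStd u v := by
    intro p x u v
    rw [fderiv_comp_family hΨ hρ p o x]
    have := hcons p o x u v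
    simp only [ho, sub_self, zero_mul, one_mul, zero_add] at this
    exact this
  have hfsymp : ∀ (t : T) (x u v : Phase n),
      omegaStd (fderiv ℝ (Ψ (t, z)) x u) (fderiv ℝ (Ψ (t, z)) x v) = omegaStd u v := by
    intro t x u v
    have e1 : Ψ (t, z) = (f t : Equiv.Perm (Phase n)) := funext fun y => h0 t y
    rw [e1]
    exact (f t).2.2.2.1 x u v
  have hs0 : ∀ (t : T) (s : Icc (0 : ℝ) 1) (x u v : Phase n),
      omegaStd (fderiv ℝ (fun x => Ψ (t, z) (ρ ((t, z), s) x)) x u)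
        (fderiv ℝ (fun x => Ψ (t, z) (ρ ((t, z), s) x)) x v) = omegaStd u v := by
    intro t s x u v
    rw [fderiv_comp_family hΨ hρ (t, z) s x]
    have h2 := hcons (t, z) s x u v
    rw [hfsymp] at h2
    simp only [ContinuousLinearMap.comp_apply]
    rw [hfsymp]
    linear_combination h2
  -- the middle map
  set g : T → SympCt n := fun t => mkSymp (fun x => Ψ (t, z) (ρ ((t, z), o) x))
    (hHCF.contDiff ((t, z), o)) ⟨K, hK, hHK ((t, z), o)⟩ (hs1 (t, z)) with hg
  have hbase1 : Continuous (fun q : unitInterval × T =>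
      (((q.2, z), q.1) : (T × Icc (0 : ℝ) 1) × Icc (0 : ℝ) 1)) :=
    (continuous_snd.prodMk continuous_const).prodMk continuous_fst
  have hbase2 : Continuous (fun q : unitInterval × T =>
      (((q.2, q.1), o) : (T × Icc (0 : ℝ) 1) × Icc (0 : ℝ) 1)) :=
    (continuous_snd.prodMk continuous_fst).prodMk continuous_const
  have hbase3 : Continuous (fun t : T =>
      (((t, z), o) : (T × Icc (0 : ℝ) 1) × Icc (0 : ℝ) 1)) :=
    (continuous_id.prodMk continuous_const).prodMk continuous_const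
  have hgc : Continuous g := continuous_of_CF (hHCF.base hbase3) ⟨K, hK⟩
    (fun t x hx => hHK _ x hx) (fun t x => rfl)
  set G1 : unitInterval × T → SympCt n := fun q => mkSymp (fun x => Ψ (q.2, z) (ρ ((q.2, z), q.1) x))
    (hHCF.contDiff ((q.2, z), q.1)) ⟨K, hK, hHK ((q.2, z), q.1)⟩ (hs0 q.2 q.1) with hG1
  have hG1c : Continuous G1 := continuous_of_CF (hHCF.base hbase1) ⟨K, hK⟩
    (fun t x hx => hHK _ x hx) (fun t x => rfl)
  set G2 : unitInterval × T → SympCt n := fun q => mkSymp (fun x => Ψ (q.2, q.1) (ρ ((q.2, q.1), o) x))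
    (hHCF.contDiff ((q.2, q.1), o)) ⟨K, hK, hHK ((q.2, q.1), o)⟩ (hs1 (q.2, q.1)) with hG2
  have hG2c : Continuous G2 := continuous_of_CF (hHCF.base hbase2) ⟨K, hK⟩
    (fun t x hx => hHK _ x hx) (fun t x => rfl)
  have hom1 : f.Homotopic ⟨g, hgc⟩ := ⟨{
    toFun := G1
    continuous_toFun := hG1c
    map_zero_left := fun t => by
      apply SympCt.ext'
      intro x
      change Ψ (t, z) (ρ ((t, z), (0 : unitInterval)) x) = _
      have : (0 : unitInterval) = z := rfl
      rw [this, hρ0, h0]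
    map_one_left := fun t => by
      apply SympCt.ext'
      intro x
      rfl }⟩
  have hom2 : (⟨g, hgc⟩ : C(T, SympCt n)).Homotopic (ContinuousMap.const T 1) := ⟨{
    toFun := G2
    continuous_toFun := hG2c
    map_zero_left := fun t => by
      apply SympCt.ext'
      intro x
      rfl
    map_one_left := fun t => by
      apply SympCt.ext'
      intro x
      change Ψ (t, o) (ρ ((t, o), o) x) = x
      rw [hρid (t, o) (fun y => h1 t y), h1] }⟩
  exact hom1.trans hom2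

end Pool.Agent.Helper17
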