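import Mathlib
import Pool.Agent.Helper17.SympBase
import Pool.Agent.Helper17.LocalDiffeo
import Pool.Agent.Helper17.Isotopy
import Pool.Agent.Helper17.Near
import Pool.Agent.Helper17.Potential
import Pool.Agent.Helper17.CFamily
import Pool.Agent.Helper17.CFInt
import Pool.Agent.Helper17.Moser
import Pool.Agent.Helper17.SympFamily
import Pool.Agent.Helper17.MoserFamily

set_option maxSynthPendingDepth 3

open scoped ContDiff Topology
open Set Function Filter TopologicalSpace MeasureTheory

namespace Pool.Agent.Helper17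

variable {n : ℕ}

/-- Maps whose pulled back form is close to the standard one are admissible. -/
lemma admissible_of_close {A : Phase n →L[ℝ] Phase n} {θ : ℝ} (hθ : θ < 1)
    (h : ∀ v : Phase n, ‖v‖ ^ 2 - θ * ‖v‖ ^ 2 ≤ omegaStd (A v) (A (Jl n v))) : Admissible A := by
  intro s hs v hv
  have h1 := hv (Jl n v)
  have h2 := h v
  rw [omegaStd_Jl] at h1
  have h3 : (1 - s) * ‖v‖ ^ 2 + s * (‖v‖ ^ 2 - θ * ‖v‖ ^ 2) ≤ 0 := by
    rw [← h1]
    have := mul_le_mul_of_nonneg_left h2 hs.1
    linarith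
  have h4 : (1 - s * θ) * ‖v‖ ^ 2 ≤ 0 := by linarith
  have h5 : 0 < 1 - s * θ := by
    have e1 := hs.1
    have e2 := hs.2
    rcases e2.eq_or_lt with e3 | e3
    · rw [e3]; linarith
    · nlinarith
  have h6 : ‖v‖ ^ 2 ≤ 0 := by
    by_contra hneg
    push Not at hneg
    have := mul_pos h5 hneg
    linarith
  have h7 : ‖v‖ = 0 := by
    have := sq_nonneg ‖v‖
    exact pow_eq_zero_iff two_ne_zero |>.1 (le_antisymm h6 this)
  exact norm_eq_zero.1 h7

lemma admissible_of_symplectic {A : Phase n →L[ℝ] Phase n}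
    (h : ∀ u v, omegaStd (A u) (A v) = omegaStd u v) : Admissible A :=
  admissible_of_close (θ := 0) zero_lt_one fun v => by
    rw [h, omegaStd_Jl]; simp

lemma admissible_of_near_one {A : Phase n →L[ℝ] Phase n}
    (h : ‖A - ContinuousLinearMap.id ℝ (Phase n)‖ ≤ 1 / 3) : Admissible A := by
  apply admissible_of_close (θ := 7 / 9) (by norm_num)
  intro v
  set N := A - ContinuousLinearMap.id ℝ (Phase n) with hN
  have hA : ∀ u, A u = u + N u := fun u => by simp [hN]
  have hNu : ∀ u, ‖N u‖ ≤ (1 / 3) * ‖u‖ := fun u =>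
    (N.le_opNorm u).trans (mul_le_mul_of_nonneg_right h (norm_nonneg _))
  rw [hA, hA, omegaStd_add_left, omegaStd_add_right, omegaStd_add_right, omegaStd_Jl]
  have b1 : |omegaStd v (N (Jl n v))| ≤ ‖v‖ * ((1 / 3) * ‖v‖) := by
    refine (abs_omegaStd_le _ _).trans (mul_le_mul_of_nonneg_left ?_ (norm_nonneg _))
    have := hNu (Jl n v)
    rwa [norm_Jl] at this
  have b2 : |omegaStd (N v) (Jl n v)| ≤ ((1 / 3) * ‖v‖) * ‖v‖ := by
    refine (abs_omegaStd_le _ _).trans ?_
    rw [norm_Jl]
    exact mul_le_mul_of_nonneg_right (hNu v) (norm_nonneg _)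
  have b3 : |omegaStd (N v) (N (Jl n v))| ≤ ((1 / 3) * ‖v‖) * ((1 / 3) * ‖v‖) := by
    refine (abs_omegaStd_le _ _).trans (mul_le_mul (hNu v) ?_ (norm_nonneg _) (by positivity))
    have := hNu (Jl n v)
    rwa [norm_Jl] at this
  rw [abs_le] at b1 b2 b3
  nlinarith [b1.1, b2.1, b3.1]

/-- An atomless finite measure with bounded support gives uniformly small mass to small balls. -/
lemma exists_small_balls {E : Type} [NormedAddCommGroup E] [NormedSpace ℝ E]
    [FiniteDimensional ℝ E] [MeasurableSpace E] [BorelSpace E] (μ : Measure E)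
    [IsFiniteMeasure μ] (hat : ∀ x, μ {x} = 0) {R₀ : ℝ} (hμ : μ (Metric.closedBall 0 R₀)ᶜ = 0) {ε : ℝ}
    (hε : 0 < ε) : ∃ δ : ℝ, 0 < δ ∧ ∀ x : E, μ.real (Metric.ball x δ) ≤ ε := by
  have h1 : ∀ y : E, ∃ U : Set E, y ∈ U ∧ IsOpen U ∧ μ U < ENNReal.ofReal ε := by
    intro y
    have h2 : μ {y} < ENNReal.ofReal ε := by
      rw [hat]
      exact ENNReal.ofReal_pos.2 hε
    obtain ⟨U, hU1, hU2, hU3⟩ := Set.exists_isOpen_lt_of_lt {y} _ h2
    exact ⟨U, hU1 rfl, hU2, hU3⟩
  choose U hyU hUo hUμ using h1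
  obtain ⟨δ, hδ, hδ'⟩ := lebesgue_number_lemma_of_metric
    (isCompact_closedBall (0 : E) (R₀ + 1)) (c := U) hUo
    (fun y _ => mem_iUnion.2 ⟨y, hyU y⟩)
  refine ⟨min δ 1, lt_min hδ one_pos, fun x => ?_⟩
  by_cases hx : x ∈ Metric.closedBall (0 : E) (R₀ + 1)
  · obtain ⟨i, hi⟩ := hδ' x hx
    have h2 : μ (Metric.ball x (min δ 1)) ≤ ENNReal.ofReal ε :=
      (measure_mono ((Metric.ball_subset_ball (min_le_left _ _)).trans hi)).trans (hUμ i).le
    exact ENNReal.toReal_le_of_le_ofReal hε.le h2
  · have h2 : μ (Metric.ball x (min δ 1)) = 0 := by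
      apply measure_mono_null _ hμ
      intro z hz hz'
      apply hx
      rw [mem_closedBall_zero_iff] at hz' ⊢
      have h3 : dist z x < 1 := lt_of_lt_of_le hz (min_le_right _ _)
      rw [dist_eq_norm] at h3
      have h4 := norm_sub_norm_le x z
      rw [norm_sub_rev] at h4
      linarith
    rw [Measure.real, h2]
    simpa using hε.le

/-- The average of the derivative with respect to `μ` at the place `x` and the scale `r`. -/
noncomputable def avgDeriv (μ : Measure (Phase n)) (φ : Phase n → Phase n) (x : Phase n) (r : ℝ) :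
    Phase n →L[ℝ] Phase n := ∫ z, fderiv ℝ φ (x + r • z) ∂μ

/-- Compact families of symplectic maps all of whose averaged derivatives are admissible are
null-homotopic. -/
theorem nullhomotopic_of_averages (μ : Measure (Phase n)) [IsProbabilityMeasure μ]
    (hat : ∀ x, μ {x} = 0) {R₀ : ℝ} (hμ : μ (Metric.closedBall 0 R₀)ᶜ = 0)
    {T : Type} [TopologicalSpace T] [CompactSpace T] (f : C(T, SympCt n))
    (hadm : ∀ t x r, 0 < r →
      Admissible (avgDeriv μ (f t : Equiv.Perm (Phase n)) x r)) :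
    f.Homotopic (ContinuousMap.const T 1) := by
  obtain ⟨hfCF, K₀, hK₀⟩ := CF_of_continuous f.continuous
  obtain ⟨N, hN⟩ := K₀.isCompact.isBounded.subset_closedBall (0 : Phase n)
  set u : T → Phase n → Phase n := fun t x => (f t : Equiv.Perm (Phase n)) x - x with hu
  have huCF : CF u := hfCF.sub (CF.const contDiff_id)
  have hu0 : ∀ t x, N < ‖x‖ → u t x = 0 := by
    intro t x hx
    have : x ∉ K₀ := fun h => by
      have := hN h
      rw [mem_closedBall_zero_iff] at this
      linarith
    simp [hu, hK₀ t x this]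
  have hDu0 : ∀ t x, N < ‖x‖ → fderiv ℝ (u t) x = 0 := by
    intro t x hx
    have h1 : u t =ᶠ[𝓝 x] fun _ => 0 := by
      filter_upwards [(isOpen_lt continuous_const continuous_norm).mem_nhds hx] with y hy
      exact hu0 t y hy
    rw [h1.fderiv_eq, (hasFDerivAt_const (0 : Phase n) x).fderiv]
  have hDu : ∀ t x, fderiv ℝ (u t) x = fderiv ℝ (f t : Equiv.Perm (Phase n)) x -
      ContinuousLinearMap.id ℝ (Phase n) := fun t x =>
    (((SympCt.differentiable (f t)) x).hasFDerivAt.sub (hasFDerivAt_id x)).fderiv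
  -- a bound for the derivatives
  obtain ⟨C, hC⟩ : ∃ C : ℝ, 0 < C ∧ ∀ t x, ‖fderiv ℝ (u t) x‖ ≤ C := by
    obtain ⟨C, hC⟩ := ((isCompact_univ (X := T)).prod
      (isCompact_closedBall (0 : Phase n) N)).exists_bound_of_continuousOn
      huCF.fderiv.continuous.continuousOn
    refine ⟨max C 1, lt_of_lt_of_le one_pos (le_max_right _ _), fun t x => ?_⟩
    by_cases hx : x ∈ Metric.closedBall (0 : Phase n) N
    · exact (hC (t, x) ⟨mem_univ _, hx⟩).trans (le_max_left _ _)
    · rw [hDu0 t x (by simpa using hx), norm_zero]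
      exact le_trans zero_le_one (le_max_right _ _)
  obtain ⟨hC0, hC⟩ := hC
  set S : Set (Phase n) := Metric.closedBall 0 R₀ with hS
  have hSc : IsCompact S := isCompact_closedBall _ _
  have hSae : μ.restrict S = μ := by
    rw [Measure.restrict_eq_self_of_ae_mem]
    rw [ae_iff]
    exact hμ
  -- the final scale
  obtain ⟨δ, hδ, hδ'⟩ := exists_small_balls μ hat hμ (ε := 1 / (3 * C)) (by positivity)
  obtain ⟨Rm, hRm⟩ : ∃ Rm : ℝ, Rm = (|N| + 1) / δ + 1 := ⟨_, rfl⟩
  have hRm0 : 0 < Rm := by rw [hRm]; positivity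
  have hRmN : |N| + 1 ≤ Rm * δ := by
    rw [hRm]
    have : (|N| + 1) / δ * δ = |N| + 1 := by field_simp
    nlinarith
  have hfar : ∀ t x, ‖∫ z in S, fderiv ℝ (u t) (x + Rm • z) ∂μ‖ ≤ 1 / 3 := by
    intro t x
    set y : Phase n := -(Rm⁻¹ • x) with hy
    have hzero : ∀ z ∉ Metric.ball y δ, fderiv ℝ (u t) (x + Rm • z) = 0 := by
      intro z hz
      apply hDu0
      have h1 : δ ≤ ‖z - y‖ := by
        rw [← dist_eq_norm]
        simpa using hz
      have h2 : x + Rm • z = Rm • (z - y) := by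
        rw [hy, sub_neg_eq_add, smul_add, smul_smul, mul_inv_cancel₀ hRm0.ne', one_smul, add_comm]
      rw [h2, norm_smul, Real.norm_of_nonneg hRm0.le]
      have h3 : Rm * δ ≤ Rm * ‖z - y‖ := mul_le_mul_of_nonneg_left h1 hRm0.le
      have h4 := le_abs_self N
      linarith
    rw [hSae]
    have h1 : ∫ z, fderiv ℝ (u t) (x + Rm • z) ∂μ =
        ∫ z in Metric.ball y δ, fderiv ℝ (u t) (x + Rm • z) ∂μ :=
      (setIntegral_eq_integral_of_forall_compl_eq_zero hzero).symm
    rw [h1]
    refine (norm_setIntegral_le_of_norm_le_const (measure_lt_top μ _) fun z _ => hC t _).trans ?_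
    calc C * μ.real (Metric.ball y δ) ≤ C * (1 / (3 * C)) :=
          mul_le_mul_of_nonneg_left (hδ' y) hC0.le
      _ = 1 / 3 := by field_simp
  -- the deformation
  set ra : Icc (0 : ℝ) 1 → ℝ := fun a => Rm * min (2 * (a : ℝ)) 1 with hra
  set ba : Icc (0 : ℝ) 1 → ℝ := fun a => 1 - max 0 (2 * (a : ℝ) - 1) with hba
  have hrac : Continuous ra := continuous_const.mul
    ((continuous_const.mul continuous_subtype_val).min continuous_const)
  have hbac : Continuous ba := continuous_const.sub
    (continuous_const.max ((continuous_const.mul continuous_subtype_val).sub continuous_const))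
  have hra0 : ∀ a, 0 ≤ ra a := fun a =>
    mul_nonneg hRm0.le (le_min (mul_nonneg zero_le_two a.2.1) zero_le_one)
  have hraR : ∀ a, ra a ≤ Rm := fun a => mul_le_of_le_one_right hRm0.le (min_le_right _ _)
  set F : (T × Icc (0 : ℝ) 1) × Phase n → Phase n → Phase n := fun q x =>
    u q.1.1 (x + ra q.1.2 • q.2) with hF
  have hFCF : CF F := by
    have h1 : CF (fun (q : (T × Icc (0 : ℝ) 1) × Phase n) (x : Phase n) => x + ra q.1.2 • q.2) :=
      (CF.const contDiff_id).add (CF.param
        ((hrac.comp (continuous_snd.comp continuous_fst)).smul continuous_snd))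
    exact (huCF.base (continuous_fst.comp continuous_fst)).comp h1
  set Ψ : T × Icc (0 : ℝ) 1 → Phase n → Phase n := fun p x =>
    x + ba p.2 • ∫ z in S, F (p, z) x ∂μ with hΨ
  have hΨCF : CF Ψ :=
    (CF.const contDiff_id).add ((CF.param (hbac.comp continuous_snd)).smul
      (hFCF.setIntegral hSc μ))
  have hFd : ∀ q x, fderiv ℝ (F q) x = fderiv ℝ (u q.1.1) (x + ra q.1.2 • q.2) := by
    intro q x
    simp only [hF]
    rw [fderiv_comp_add_right]
  have hΨd : ∀ p x, fderiv ℝ (Ψ p) x = ContinuousLinearMap.id ℝ (Phase n) +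
      ba p.2 • ∫ z in S, fderiv ℝ (u p.1) (x + ra p.2 • z) ∂μ := by
    intro p x
    have h1 := hasFDerivAt_setIntegral hSc μ hFCF.continuous hFCF.differentiable
      hFCF.fderiv.continuous p x
    have h2 := (hasFDerivAt_id x).add (h1.const_smul (ba p.2))
    have h3 : HasFDerivAt (Ψ p) _ x := h2
    rw [h3.fderiv]
    simp only [hFd]
  have hint : ∀ t x r, ∫ z in S, fderiv ℝ (u t) (x + r • z) ∂μ =
      avgDeriv μ (f t : Equiv.Perm (Phase n)) x r - ContinuousLinearMap.id ℝ (Phase n) := by
    intro t x r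
    rw [hSae, avgDeriv]
    simp only [hDu]
    have h1 : Continuous (fun z => fderiv ℝ (f t : Equiv.Perm (Phase n)) (x + r • z)) :=
      ((SympCt.contDiff (f t)).continuous_fderiv (by simp)).comp
        (continuous_const.add (continuous_const_smul r))
    have h2 : Integrable (fun z => fderiv ℝ (f t : Equiv.Perm (Phase n)) (x + r • z)) μ := by
      have := h1.continuousOn.integrableOn_compact (μ := μ) hSc
      rwa [IntegrableOn, hSae] at this
    rw [integral_sub h2 (integrable_const _)]
    simp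
  apply nullhomotopic_of_deformation f Ψ hΨCF
    (isCompact_closedBall (0 : Phase n) (|N| + Rm * |R₀|))
  · -- support
    intro p x hx
    have hx' : |N| + Rm * |R₀| < ‖x‖ := by simpa using hx
    have h1 : ∫ z in S, F (p, z) x ∂μ = 0 := by
      apply setIntegral_eq_zero_of_forall_eq_zero
      intro z hz
      apply hu0
      have h2 : ‖ra p.2 • z‖ ≤ Rm * |R₀| := by
        rw [norm_smul, Real.norm_of_nonneg (hra0 _)]
        have h3 : ‖z‖ ≤ |R₀| := (mem_closedBall_zero_iff.1 hz).trans (le_abs_self _)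
        exact mul_le_mul (hraR _) h3 (norm_nonneg _) hRm0.le
      have h3 : ‖x‖ ≤ ‖x + ra p.2 • z‖ + ‖ra p.2 • z‖ := by
        have := norm_sub_le (x + ra p.2 • z) (ra p.2 • z)
        rwa [add_sub_cancel_right] at this
      have h4 := le_abs_self N
      linarith
    simp only [hΨ, h1, smul_zero, add_zero]
  · -- admissibility
    intro p x
    rw [hΨd]
    rcases le_total (2 * (p.2 : ℝ)) 1 with h | h
    · have hb1 : ba p.2 = 1 := by
        simp only [hba]
        rw [max_eq_left (by linarith), sub_zero]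
      rw [hb1, one_smul, hint, add_sub_cancel]
      rcases (hra0 p.2).eq_or_lt with h0 | h0
      · rw [← h0]
        have : avgDeriv μ (f p.1 : Equiv.Perm (Phase n)) x 0 =
            fderiv ℝ (f p.1 : Equiv.Perm (Phase n)) x := by
          simp [avgDeriv]
        rw [this]
        exact admissible_of_symplectic fun a b => (f p.1).2.2.2.1 x a b
      · exact hadm p.1 x (ra p.2) h0
    · have hr1 : ra p.2 = Rm := by
        simp only [hra]
        rw [min_eq_right h, mul_one]
      apply admissible_of_near_one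
      rw [add_sub_cancel_left, hr1, norm_smul]
      have hb : ‖ba p.2‖ ≤ 1 := by
        have h1 : 0 ≤ 2 * (p.2 : ℝ) - 1 := by linarith
        have h2 := p.2.2.2
        rw [Real.norm_eq_abs, abs_le]
        simp only [hba, max_eq_right h1]
        constructor <;> linarith
      calc _ ≤ 1 * (1 / 3 : ℝ) := mul_le_mul hb (hfar _ _) (norm_nonneg _) zero_le_one
        _ = 1 / 3 := one_mul _
  · -- start
    intro t x
    have h1 : ra ⟨0, left_mem_Icc.2 zero_le_one⟩ = 0 := by simp [hra]
    have h2 : ba ⟨0, left_mem_Icc.2 zero_le_one⟩ = 1 := by simp [hba]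
    simp only [hΨ, hF, h1, h2, zero_smul, add_zero, one_smul]
    rw [hSae]
    simp [hu]
  · -- end
    intro t x
    have h2 : ba ⟨1, right_mem_Icc.2 zero_le_one⟩ = 0 := by
      simp only [hba]
      norm_num
    simp only [hΨ, h2, zero_smul, add_zero]

end Pool.Agent.Helper17
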