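import Mathlib
import Pool.Agent.Helper17.SympBase
import Pool.Agent.Helper17.LocalDiffeo
import Pool.Agent.Helper17.Isotopy
import Pool.Agent.Helper17.DirectLimit
import Pool.Agent.Helper17.Near
import Pool.Agent.Helper17.Criterion

open scoped ContDiff Distributions Topology
open Set Function TopologicalSpace Filter Topology

namespace Pool.Agent.Helper17

variable {n : ℕ}

lemma SmoothIsotopic.mul_left {φ ψ : SympCt n} (h : SmoothIsotopic φ ψ) (χ : SympCt n) :
    SmoothIsotopic (χ * φ) (χ * ψ) := by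
  obtain ⟨K, γ, hγK, hγ, h0, h1⟩ := h
  obtain ⟨hχ, hχs, hχo, L, hL, hχL⟩ := χ.2
  refine ⟨K ⊔ ⟨L, hL⟩, fun t => χ * γ t, ?_, ?_, by simp only [h0], by simp only [h1]⟩
  · intro t p hp
    have h1 : p ∉ K := fun h => hp (Or.inl h)
    have h2 : p ∉ L := fun h => hp (Or.inr h)
    change (χ : Equiv.Perm (Phase n)) ((γ t : Equiv.Perm (Phase n)) p) = p
    rw [hγK t p h1, hχL p h2]
  · exact hχ.comp hγ

/-- Conjugation of a compactly supported symplectomorphism by the translation by `c`. -/
lemma isSympCt_translate (c : Phase n) {φ : Equiv.Perm (Phase n)} (h : IsSympCt φ) :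
    IsSympCt (((Equiv.subRight c).trans φ).trans (Equiv.addRight c)) := by
  obtain ⟨hφ, hφs, hφo, K, hK, hφK⟩ := h
  refine ⟨?_, ?_, ?_, (fun x => x + c) '' K, hK.image (continuous_id.add continuous_const), ?_⟩
  · have : (((Equiv.subRight c).trans φ).trans (Equiv.addRight c) : Phase n → Phase n) =
        fun x => φ (x - c) + c := rfl
    rw [this]
    exact (hφ.comp (contDiff_id.sub contDiff_const)).add contDiff_const
  · have : ((((Equiv.subRight c).trans φ).trans (Equiv.addRight c)).symm : Phase n → Phase n) =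
        fun x => φ.symm (x - c) + c := by
      ext1 x
      simp [Equiv.subRight, Equiv.addRight, sub_eq_add_neg]
    rw [this]
    exact (hφs.comp (contDiff_id.sub contDiff_const)).add contDiff_const
  · intro p u v
    have h1 : fderiv ℝ (fun x => φ (x - c) + c) p = fderiv ℝ φ (p - c) := by
      rw [fderiv_add_const, fderiv_comp_sub]
    have : (((Equiv.subRight c).trans φ).trans (Equiv.addRight c) : Phase n → Phase n) =
        fun x => φ (x - c) + c := rfl
    rw [this, h1]
    exact hφo _ _ _
  · intro p hp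
    have : p - c ∉ K := fun h => hp ⟨p - c, h, by simp⟩
    change φ (p - c) + c = p
    rw [hφK _ this]; simp

/-- Conjugation of a compactly supported symplectomorphism by the translation by `c`. -/
def translate (c : Phase n) (φ : SympCt n) : SympCt n :=
  ⟨((Equiv.subRight c).trans (φ : Equiv.Perm (Phase n))).trans (Equiv.addRight c),
    isSympCt_translate c φ.2⟩

lemma translate_apply (c : Phase n) (φ : SympCt n) (x : Phase n) :
    (translate c φ : Equiv.Perm (Phase n)) x = (φ : Equiv.Perm (Phase n)) (x - c) + c := rfl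

lemma fderiv_translate (c : Phase n) (φ : SympCt n) (x : Phase n) :
    fderiv ℝ (translate c φ : Equiv.Perm (Phase n)) x =
      fderiv ℝ (φ : Equiv.Perm (Phase n)) (x - c) := by
  have : (translate c φ : Equiv.Perm (Phase n)) =
    (fun x => (φ : Equiv.Perm (Phase n)) (x - c) + c : Phase n → Phase n) := rfl
  rw [this, fderiv_add_const, fderiv_comp_sub]

lemma smoothIsotopic_translate (c : Phase n) (φ : SympCt n) :
    SmoothIsotopic φ (translate c φ) := by
  obtain ⟨N, hN⟩ := exists_supported_ballC φ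
  have hN' := hN N le_rfl
  refine ⟨⟨Metric.closedBall 0 (N + ‖c‖), isCompact_closedBall _ _⟩,
    fun t => translate (Real.smoothTransition t • c) φ, ?_, ?_, ?_, ?_⟩
  · intro t p hp
    rw [translate_apply]
    have h1 : ‖Real.smoothTransition t • c‖ ≤ ‖c‖ := by
      rw [norm_smul, Real.norm_of_nonneg (Real.smoothTransition.nonneg t)]
      exact mul_le_of_le_one_left (norm_nonneg _) (Real.smoothTransition.le_one t)
    have h2 : p - Real.smoothTransition t • c ∉ ballC n N := by
      intro h
      apply hp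
      have h3 : ‖p - Real.smoothTransition t • c‖ ≤ N := mem_closedBall_zero_iff.1 h
      have h4 : ‖p‖ ≤ N + ‖c‖ := by
        calc ‖p‖ = ‖(p - Real.smoothTransition t • c) + Real.smoothTransition t • c‖ := by
              rw [sub_add_cancel]
          _ ≤ _ := norm_add_le _ _
          _ ≤ N + ‖c‖ := add_le_add h3 h1
      exact mem_closedBall_zero_iff.2 h4
    rw [hN' _ h2]; simp
  · have h1 : ContDiff ℝ ∞ (fun q : ℝ × Phase n => Real.smoothTransition q.1 • c) :=
      (contDiff_smoothTransition.comp contDiff_fst).smul contDiff_const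
    exact ((SympCt.contDiff φ).comp (contDiff_snd.sub h1)).add h1
  · apply Subtype.ext
    apply Equiv.ext
    intro x
    rw [translate_apply]
    simp [Real.smoothTransition.zero_of_nonpos le_rfl]
  · apply Subtype.ext
    apply Equiv.ext
    intro x
    rw [translate_apply]
    simp [Real.smoothTransition.one_of_one_le le_rfl, translate_apply]

/-- Two symplectomorphisms supported in disjoint closed sets. -/
lemma fderiv_mul_of_disjoint {φ ψ : SympCt n} {A B : Set (Phase n)} (hA : IsClosed A)
    (hB : IsClosed B) (hAB : Disjoint A B) (hφ : ∀ x ∉ A, (φ : Equiv.Perm (Phase n)) x = x)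
    (hψ : ∀ x ∉ B, (ψ : Equiv.Perm (Phase n)) x = x) (x : Phase n) :
    fderiv ℝ ((φ * ψ : SympCt n) : Equiv.Perm (Phase n)) x =
        fderiv ℝ (φ : Equiv.Perm (Phase n)) x ∨
      fderiv ℝ ((φ * ψ : SympCt n) : Equiv.Perm (Phase n)) x =
        fderiv ℝ (ψ : Equiv.Perm (Phase n)) x := by
  rw [SympCt.fderiv_mul]
  by_cases hx : x ∈ B
  · right
    have hψx : (ψ : Equiv.Perm (Phase n)) x ∈ B := by
      by_contra h
      have h1 := hψ _ h
      have h2 : (ψ : Equiv.Perm (Phase n)) x = x :=
        (ψ : Equiv.Perm (Phase n)).injective h1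
      rw [h2] at h
      exact h hx
    have h1 : (φ : Equiv.Perm (Phase n)) =ᶠ[𝓝 ((ψ : Equiv.Perm (Phase n)) x)]
        (id : Phase n → Phase n) := by
      have : Aᶜ ∈ 𝓝 ((ψ : Equiv.Perm (Phase n)) x) :=
        hA.isOpen_compl.mem_nhds fun h => Set.disjoint_left.1 hAB h hψx
      filter_upwards [this] with z hz
      exact hφ z hz
    rw [h1.fderiv_eq, fderiv_id, ContinuousLinearMap.id_comp]
  · left
    have h1 : (ψ : Equiv.Perm (Phase n)) =ᶠ[𝓝 x] (id : Phase n → Phase n) := by
      filter_upwards [hB.isOpen_compl.mem_nhds hx] with z hz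
      exact hψ z hz
    rw [h1.fderiv_eq, fderiv_id, ContinuousLinearMap.comp_id, hψ x hx]

lemma mul_comm_of_disjoint {φ ψ : SympCt n} {A B : Set (Phase n)}
    (hAB : Disjoint A B) (hφ : ∀ x ∉ A, (φ : Equiv.Perm (Phase n)) x = x)
    (hψ : ∀ x ∉ B, (ψ : Equiv.Perm (Phase n)) x = x) : φ * ψ = ψ * φ := by
  have hA' : ∀ x ∈ A, (φ : Equiv.Perm (Phase n)) x ∈ A := by
    intro x hx
    by_contra h
    have h1 := hφ _ h
    have h2 : (φ : Equiv.Perm (Phase n)) x = x := (φ : Equiv.Perm (Phase n)).injective h1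
    rw [h2] at h
    exact h hx
  have hB' : ∀ x ∈ B, (ψ : Equiv.Perm (Phase n)) x ∈ B := by
    intro x hx
    by_contra h
    have h1 := hψ _ h
    have h2 : (ψ : Equiv.Perm (Phase n)) x = x := (ψ : Equiv.Perm (Phase n)).injective h1
    rw [h2] at h
    exact h hx
  apply Subtype.ext
  apply Equiv.ext
  intro x
  change (φ : Equiv.Perm (Phase n)) ((ψ : Equiv.Perm (Phase n)) x) =
    (ψ : Equiv.Perm (Phase n)) ((φ : Equiv.Perm (Phase n)) x)
  by_cases hxA : x ∈ A
  · have hxB : x ∉ B := Set.disjoint_left.1 hAB hxA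
    rw [hψ x hxB, hψ _ (Set.disjoint_left.1 hAB (hA' x hxA))]
  · by_cases hxB : x ∈ B
    · rw [hφ x hxA, hφ _ (Set.disjoint_right.1 hAB (hB' x hxB))]
    · rw [hφ x hxA, hψ x hxB, hφ x hxA]

/-- Given two symplectomorphisms, the second can be translated off the support of the first. -/
lemma exists_translate_disjoint (hn : 0 < n) (φ ψ : SympCt n) :
    ∃ (c : Phase n) (A B : Set (Phase n)), IsClosed A ∧ IsClosed B ∧ Disjoint A B ∧
      (∀ x ∉ A, (φ : Equiv.Perm (Phase n)) x = x) ∧
      (∀ x ∉ B, (translate c ψ : Equiv.Perm (Phase n)) x = x) := by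
  obtain ⟨N, hN⟩ := exists_supported_ballC φ
  obtain ⟨M, hM⟩ := exists_supported_ballC ψ
  set R := max N M with hR
  have hN' := hN R (le_max_left _ _)
  have hM' := hM R (le_max_right _ _)
  set c : Phase n := EuclideanSpace.single (Sum.inl ⟨0, hn⟩) (2 * (R : ℝ) + 1) with hc
  have hcn : ‖c‖ = 2 * (R : ℝ) + 1 := by
    rw [hc, PiLp.norm_single, Real.norm_of_nonneg (by positivity)]
  refine ⟨c, Metric.closedBall 0 R, Metric.closedBall c R, Metric.isClosed_closedBall,
    Metric.isClosed_closedBall, ?_, hN', ?_⟩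
  · rw [Set.disjoint_left]
    intro x h1 h2
    have h3 : ‖x‖ ≤ R := mem_closedBall_zero_iff.1 h1
    have h4 : ‖x - c‖ ≤ R := by
      rw [← dist_eq_norm]; exact Metric.mem_closedBall.1 h2
    have h5 : ‖c‖ ≤ ‖x‖ + ‖x - c‖ := by
      calc ‖c‖ = ‖x - (x - c)‖ := by congr 1; abel
        _ ≤ _ := norm_sub_le _ _
    rw [hcn] at h5
    linarith
  · intro x hx
    rw [translate_apply]
    have : x - c ∉ ballC n R := by
      intro h
      apply hx
      have h3 : ‖x - c‖ ≤ R := mem_closedBall_zero_iff.1 h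
      rw [Metric.mem_closedBall, dist_eq_norm]
      exact h3
    rw [hM' _ this]; simp

end Pool.Agent.Helper17
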