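import Mathlib
import Pool.Agent.Helper17.SympBase
import Pool.Agent.Helper17.Isotopy
import Pool.Agent.Helper17.DirectLimit
import Pool.Agent.Helper17.Near
import Pool.Agent.Helper17.Translate

open scoped ContDiff Distributions Topology
open Set Function TopologicalSpace Filter Topology

namespace Pool.Agent.Helper17

variable {n : ℕ}

theorem joined_iff_mem_closure {ε : ℝ} (hε : 0 < ε) (S : Set (SympCt n))
    (hS1 : ∀ χ : SympCt n, (∀ x : Phase n, ‖fderiv ℝ (χ : Equiv.Perm (Phase n)) x -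
      ContinuousLinearMap.id ℝ (Phase n)‖ < ε) → χ ∈ S)
    (hiso : ∀ χ ∈ S, SmoothIsotopic χ 1) (φ ψ : SympCt n) :
    Joined φ ψ ↔ ψ * φ⁻¹ ∈ Subgroup.closure S := by
  constructor
  · rintro ⟨γ⟩
    obtain ⟨N, g, hg, hgγ⟩ := exists_lift_of_compact γ γ.continuous
    -- near every time the quotient lies in `S`
    have hnear : ∀ t₀ : unitInterval, ∀ᶠ t in 𝓝 t₀, γ t * (γ t₀)⁻¹ ∈ S := by
      intro t₀
      obtain ⟨δ, hδ, hδS⟩ := exists_radius_quotient (ballC n N) (g t₀) hε
      have hc : Continuous (fun t => derivOn (ballC n N) (g t)) :=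
        (continuous_derivOn (ballC n N)).comp hg
      have hev : ∀ᶠ t in 𝓝 t₀, dist (derivOn (ballC n N) (g t)) (derivOn (ballC n N) (g t₀)) < δ :=
        (Metric.tendsto_nhds.1 (hc.tendsto t₀)) δ hδ
      filter_upwards [hev] with t ht
      rw [← hgγ t, ← hgγ t₀]
      apply hS1
      apply hδS (g t)
      intro x hx
      rw [ContinuousMap.dist_lt_iff hδ] at ht
      have := ht ⟨x, hx⟩
      rw [dist_eq_norm] at this
      exact this
    set A : Set unitInterval := {t | γ t * φ⁻¹ ∈ Subgroup.closure S} with hA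
    have hopen : IsOpen A := by
      rw [isOpen_iff_mem_nhds]
      intro t₀ ht₀
      filter_upwards [hnear t₀] with t ht
      change γ t * φ⁻¹ ∈ Subgroup.closure S
      have : γ t * φ⁻¹ = (γ t * (γ t₀)⁻¹) * (γ t₀ * φ⁻¹) := by group
      rw [this]
      exact mul_mem (Subgroup.subset_closure ht) ht₀
    have hclosed : IsClosed A := by
      rw [← isOpen_compl_iff, isOpen_iff_mem_nhds]
      intro t₀ ht₀
      filter_upwards [hnear t₀] with t ht htA
      apply ht₀
      change γ t₀ * φ⁻¹ ∈ Subgroup.closure S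
      have : γ t₀ * φ⁻¹ = (γ t * (γ t₀)⁻¹)⁻¹ * (γ t * φ⁻¹) := by group
      rw [this]
      exact mul_mem (inv_mem (Subgroup.subset_closure ht)) htA
    have hne : A.Nonempty := ⟨0, by
      change γ 0 * φ⁻¹ ∈ Subgroup.closure S
      rw [γ.source, mul_inv_cancel]
      exact one_mem _⟩
    have huniv : A = univ := IsClopen.eq_univ ⟨hclosed, hopen⟩ hne
    have h1 : (1 : unitInterval) ∈ A := huniv ▸ mem_univ _
    change γ 1 * φ⁻¹ ∈ Subgroup.closure S at h1
    rw [γ.target] at h1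
    exact h1
  · intro hφψ
    have key : ∀ x ∈ Subgroup.closure S, Joined φ (x * φ) := by
      intro x hx
      refine Subgroup.closure_induction_left (p := fun x _ => Joined φ (x * φ)) ?_ ?_ ?_ hx
      · rw [one_mul]
      · intro x hx y _ hy
        have h : SmoothIsotopic x 1 := hiso x hx
        have h1 := (h.mul_right (y * φ)).joined
        rw [one_mul, ← mul_assoc] at h1
        exact hy.trans h1.symm
      · intro x hx y _ hy
        have h : SmoothIsotopic x 1 := hiso x hx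
        have h1 := (h.mul_right (x⁻¹ * y * φ)).joined
        rw [one_mul, mul_assoc x⁻¹, mul_inv_cancel_left, ← mul_assoc x⁻¹] at h1
        exact hy.trans h1
    have := key _ hφψ
    rwa [inv_mul_cancel_right] at this

/-- The symplectomorphisms with `‖Dφ(x) - 1‖ < 2` everywhere. -/
def smallSet (n : ℕ) : Set (SympCt n) :=
  {χ | ∀ x : Phase n, ‖fderiv ℝ (χ : Equiv.Perm (Phase n)) x -
      ContinuousLinearMap.id ℝ (Phase n)‖ < 2}

lemma smoothIsotopic_of_lt_two (χ : SympCt n) (h : ∀ x : Phase n,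
    ‖fderiv ℝ (χ : Equiv.Perm (Phase n)) x - ContinuousLinearMap.id ℝ (Phase n)‖ < 2) :
    SmoothIsotopic χ 1 := by
  apply smoothIsotopic_one_of_no_neg_eigenvalue
  intro x v μ hμ hv
  by_contra hv0
  have hvpos : 0 < ‖v‖ := norm_pos_iff.2 hv0
  have h1 : (fderiv ℝ (χ : Equiv.Perm (Phase n)) x - ContinuousLinearMap.id ℝ (Phase n)) v =
      -((1 + μ) • v) := by
    rw [sub_apply, hv, ContinuousLinearMap.id_apply]; module
  have h2 : (1 + μ) * ‖v‖ ≤ ‖fderiv ℝ (χ : Equiv.Perm (Phase n)) x -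
      ContinuousLinearMap.id ℝ (Phase n)‖ * ‖v‖ := by
    calc (1 + μ) * ‖v‖ = ‖(fderiv ℝ (χ : Equiv.Perm (Phase n)) x -
          ContinuousLinearMap.id ℝ (Phase n)) v‖ := by
            rw [h1, norm_neg, norm_smul, Real.norm_of_nonneg (by linarith)]
      _ ≤ _ := ContinuousLinearMap.le_opNorm _ _
  have h3 : ‖fderiv ℝ (χ : Equiv.Perm (Phase n)) x -
      ContinuousLinearMap.id ℝ (Phase n)‖ * ‖v‖ < 2 * ‖v‖ :=
    mul_lt_mul_of_pos_right (h x) hvpos
  nlinarith

lemma joined_iff_mem_smallSet (φ ψ : SympCt n) :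
    Joined φ ψ ↔ ψ * φ⁻¹ ∈ Subgroup.closure (smallSet n) :=
  joined_iff_mem_closure two_pos (smallSet n) (fun _ h => h)
    (fun χ hχ => smoothIsotopic_of_lt_two χ hχ) φ ψ

lemma Joined.mul_right' {φ ψ : SympCt n} (h : Joined φ ψ) (χ : SympCt n) :
    Joined (φ * χ) (ψ * χ) := by
  rw [joined_iff_mem_smallSet] at h ⊢
  have : ψ * χ * (φ * χ)⁻¹ = ψ * φ⁻¹ := by group
  rwa [this]

lemma joined_conj_of_mem_closure {x : SympCt n} (hx : x ∈ Subgroup.closure (smallSet n))
    (χ : SympCt n) : χ * x * χ⁻¹ ∈ Subgroup.closure (smallSet n) := by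
  induction hx using Subgroup.closure_induction with
  | mem x hx =>
    have h := ((smoothIsotopic_of_lt_two x hx).mul_left χ).mul_right χ⁻¹
    have h1 := h.joined
    rw [mul_one, mul_inv_cancel] at h1
    have h2 := (joined_iff_mem_smallSet _ _).1 h1.symm
    rwa [inv_one, mul_one] at h2
  | one => rw [mul_one, mul_inv_cancel]; exact one_mem _
  | mul x y _ _ hx hy =>
    have : χ * (x * y) * χ⁻¹ = (χ * x * χ⁻¹) * (χ * y * χ⁻¹) := by group
    rw [this]; exact mul_mem hx hy
  | inv x _ hx =>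
    have : χ * x⁻¹ * χ⁻¹ = (χ * x * χ⁻¹)⁻¹ := by group
    rw [this]; exact inv_mem hx

lemma Joined.mul_left' {φ ψ : SympCt n} (h : Joined φ ψ) (χ : SympCt n) :
    Joined (χ * φ) (χ * ψ) := by
  rw [joined_iff_mem_smallSet] at h ⊢
  have : χ * ψ * (χ * φ)⁻¹ = χ * (ψ * φ⁻¹) * χ⁻¹ := by group
  rw [this]
  exact joined_conj_of_mem_closure h χ

lemma Joined.inv' {φ ψ : SympCt n} (h : Joined φ ψ) : Joined φ⁻¹ ψ⁻¹ := by
  have h1 := Joined.mul_right' (Joined.mul_left' h φ⁻¹) ψ⁻¹
  rw [inv_mul_cancel, one_mul, mul_inv_cancel_right] at h1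
  exact h1.symm

end Pool.Agent.Helper17
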