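import Mathlib
import Pool.Agent.Helper17.SympBase
import Pool.Agent.Helper17.LocalDiffeo
import Pool.Agent.Helper17.Isotopy
import Pool.Agent.Helper17.Near
import Pool.Agent.Helper17.Potential
import Pool.Agent.Helper17.CFamily
import Pool.Agent.Helper17.CFInt
import Pool.Agent.Helper17.Moser
import Pool.Agent.Helper17.SympFamily
import Pool.Agent.Helper17.MoserFamily
import Pool.Agent.Helper17.Averaging
import Pool.Agent.Helper17.Component

set_option maxSynthPendingDepth 3

open scoped ContDiff Topology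
open Set Function Filter TopologicalSpace

namespace Pool.Agent.Helper17

variable {n : ℕ}

/-- Smooth, compactly supported, admissible maps. -/
structure Adm (Ψ : Phase n → Phase n) : Prop where
  smooth : ContDiff ℝ ∞ Ψ
  supp : ∃ K : Set (Phase n), IsCompact K ∧ ∀ x ∉ K, Ψ x = x
  adm : ∀ x, Admissible (fderiv ℝ Ψ x)

/-- Two maps joined by a path of admissible maps. -/
def AdmPath (Ψ₀ Ψ₁ : Phase n → Phase n) : Prop :=
  ∃ F : Icc (0 : ℝ) 1 → Phase n → Phase n, CF F ∧
    (∃ K : Set (Phase n), IsCompact K ∧ ∀ t, ∀ x ∉ K, F t x = x) ∧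
    (∀ t x, Admissible (fderiv ℝ (F t) x)) ∧
    F ⟨0, left_mem_Icc.2 zero_le_one⟩ = Ψ₀ ∧ F ⟨1, right_mem_Icc.2 zero_le_one⟩ = Ψ₁

lemma SympCt.admissible (g : SympCt n) (x : Phase n) :
    Admissible (fderiv ℝ (g : Equiv.Perm (Phase n)) x) :=
  admissible_of_symplectic fun u v => g.2.2.2.1 x u v

lemma SympCt.adm (g : SympCt n) : Adm (g : Equiv.Perm (Phase n)) :=
  ⟨SympCt.contDiff g, g.2.2.2.2, SympCt.admissible g⟩

lemma Adm.admPath_refl {Ψ : Phase n → Phase n} (h : Adm Ψ) : AdmPath Ψ Ψ := by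
  obtain ⟨K, hK, hΨK⟩ := h.supp
  exact ⟨fun _ => Ψ, CF.const h.smooth, ⟨K, hK, fun _ => hΨK⟩, fun _ => h.adm, rfl, rfl⟩

lemma AdmPath.symm {Ψ₀ Ψ₁ : Phase n → Phase n} (h : AdmPath Ψ₀ Ψ₁) : AdmPath Ψ₁ Ψ₀ := by
  obtain ⟨F, hF, ⟨K, hK, hFK⟩, hadm, h0, h1⟩ := h
  refine ⟨fun t => F (unitInterval.symm t), hF.base unitInterval.continuous_symm,
    ⟨K, hK, fun t => hFK _⟩, fun t => hadm _, ?_, ?_⟩
  · rw [← h1]
    change F (unitInterval.symm 0) = _
    rw [unitInterval.symm_zero]
    rfl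
  · rw [← h0]
    change F (unitInterval.symm 1) = _
    rw [unitInterval.symm_one]
    rfl

/-- The first half of the concatenation. -/
noncomputable def half1 (t : Icc (0 : ℝ) 1) : Icc (0 : ℝ) 1 := projIcc 0 1 zero_le_one (2 * t)

/-- The second half of the concatenation. -/
noncomputable def half2 (t : Icc (0 : ℝ) 1) : Icc (0 : ℝ) 1 := projIcc 0 1 zero_le_one (2 * t - 1)

lemma continuous_half1 : Continuous half1 :=
  continuous_projIcc.comp (continuous_const.mul continuous_subtype_val)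

lemma continuous_half2 : Continuous half2 :=
  continuous_projIcc.comp ((continuous_const.mul continuous_subtype_val).sub continuous_const)

lemma AdmPath.trans {Ψ₀ Ψ₁ Ψ₂ : Phase n → Phase n} (h : AdmPath Ψ₀ Ψ₁) (h' : AdmPath Ψ₁ Ψ₂) :
    AdmPath Ψ₀ Ψ₂ := by
  obtain ⟨F, hF, ⟨K, hK, hFK⟩, hadm, h0, h1⟩ := h
  obtain ⟨G, hG, ⟨L, hL, hGL⟩, hadm', h0', h1'⟩ := h'
  set H : Icc (0 : ℝ) 1 → Phase n → Phase n := fun t =>
    if (t : ℝ) ≤ 1 / 2 then F (half1 t) else G (half2 t) with hH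
  have hmid : ∀ t : Icc (0 : ℝ) 1, (t : ℝ) = 1 / 2 → F (half1 t) = G (half2 t) := by
    intro t ht
    have e1 : half1 t = ⟨1, right_mem_Icc.2 zero_le_one⟩ := by
      rw [half1, ht]
      norm_num
    have e2 : half2 t = ⟨0, left_mem_Icc.2 zero_le_one⟩ := by
      rw [half2, ht]
      norm_num
    rw [e1, e2, h1, h0']
  refine ⟨H, ?_, ⟨K ∪ L, hK.union hL, ?_⟩, ?_, ?_, ?_⟩
  · intro k
    apply CFk.of_iteratedFDeriv
    · intro t
      simp only [hH]
      split_ifs
      · exact hF.contDiff _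
      · exact hG.contDiff _
    · intro i
      have e : (fun p : Icc (0 : ℝ) 1 × Phase n => iteratedFDeriv ℝ i (H p.1) p.2) =
          fun p => if (p.1 : ℝ) ≤ 1 / 2 then iteratedFDeriv ℝ i (F (half1 p.1)) p.2 else
            iteratedFDeriv ℝ i (G (half2 p.1)) p.2 := by
        ext1 p
        simp only [hH]
        split_ifs <;> rfl
      rw [e]
      apply Continuous.if_le
      · exact CF.continuous_iteratedFDeriv i (hF.base continuous_half1)
      · exact CF.continuous_iteratedFDeriv i (hG.base continuous_half2)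
      · exact continuous_subtype_val.comp continuous_fst
      · exact continuous_const
      · intro p hp
        rw [hmid p.1 hp]
  · intro t x hx
    simp only [hH]
    split_ifs
    · exact hFK _ x fun h => hx (Or.inl h)
    · exact hGL _ x fun h => hx (Or.inr h)
  · intro t x
    simp only [hH]
    split_ifs
    · exact hadm _ x
    · exact hadm' _ x
  · simp only [hH]
    rw [if_pos (by norm_num), ← h0]
    congr 1
    rw [half1]
    norm_num
  · simp only [hH]
    rw [if_neg (by norm_num), ← h1']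
    congr 1
    rw [half2]
    norm_num

lemma admPath_of_joined {g g' : SympCt n} (h : Joined g g') :
    AdmPath (g : Equiv.Perm (Phase n)) (g' : Equiv.Perm (Phase n)) := by
  obtain ⟨γ⟩ := h
  obtain ⟨h1, K, h2⟩ := CF_of_continuous γ.continuous
  refine ⟨fun t x => (γ t : Equiv.Perm (Phase n)) x, h1, ⟨K, K.isCompact, h2⟩,
    fun t x => SympCt.admissible (γ t) x, ?_, ?_⟩
  · ext1 x
    change (γ 0 : Equiv.Perm (Phase n)) x = _
    rw [γ.source]
  · ext1 x
    change (γ 1 : Equiv.Perm (Phase n)) x = _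
    rw [γ.target]

/-- Along Moser's isotopy of a map, the maps stay admissible. -/
lemma admissible_moser {A R : Phase n →L[ℝ] Phase n} {s : ℝ} (hs : s ∈ Icc (0 : ℝ) 1)
    (hA : Admissible A)
    (hcons : ∀ v w, (1 - s) * omegaStd (R v) (R w) + s * omegaStd (A (R v)) (A (R w)) =
      omegaStd v w) : Admissible (A.comp R) := by
  intro σ hσ v hv
  have hRinj : Injective R := by
    rw [injective_iff_map_eq_zero]
    intro u hu
    apply eq_zero_of_omegaStd
    intro w
    rw [← hcons u w, hu, map_zero, omegaStd_zero_left, omegaStd_zero_left]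
    simp
  have hRsurj : Surjective R := LinearMap.surjective_of_injective (f := (R : Phase n →ₗ[ℝ] Phase n)) hRinj
  have h1 : R v = 0 := by
    apply hA (s * (1 - σ) + σ) ⟨?_, ?_⟩ (R v)
    · intro w'
      obtain ⟨w, rfl⟩ := hRsurj w'
      have h2 := hv w
      rw [← hcons v w] at h2
      simp only [ContinuousLinearMap.comp_apply] at h2
      linear_combination h2
    · have := hs.1; have := hσ.1; have := hσ.2
      have h3 : 0 ≤ s * (1 - σ) := mul_nonneg hs.1 (by linarith)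
      linarith
    · have h3 : s * (1 - σ) ≤ 1 * (1 - σ) := mul_le_mul_of_nonneg_right hs.2 (by linarith [hσ.2])
      linarith
  exact hRinj (by rw [h1, map_zero])

/-- Admissible maps stay admissible after composition with a symplectic map. -/
lemma Admissible.comp_symplectic {A B : Phase n →L[ℝ] Phase n} (hA : Admissible A)
    (hB : ∀ u v, omegaStd (B u) (B v) = omegaStd u v) : Admissible (A.comp B) := by
  intro σ hσ v hv
  have hBinj : Injective B := by
    rw [injective_iff_map_eq_zero]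
    intro u hu
    apply eq_zero_of_omegaStd
    intro w
    rw [← hB u w, hu, omegaStd_zero_left]
  have hBsurj : Surjective B := LinearMap.surjective_of_injective (f := (B : Phase n →ₗ[ℝ] Phase n)) hBinj
  have h1 : B v = 0 := by
    apply hA σ hσ (B v)
    intro w'
    obtain ⟨w, rfl⟩ := hBsurj w'
    rw [hB]
    exact hv w
  exact hBinj (by rw [h1, map_zero])

/-- Moser's isotopy for a single map. -/
lemma Adm.exists_moser {Ψ : Phase n → Phase n} (h : Adm Ψ) {K : Set (Phase n)} (hK : IsCompact K)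
    (hΨK : ∀ x ∉ K, Ψ x = x) :
    ∃ ρ : Icc (0 : ℝ) 1 → Phase n → Phase n, CF ρ ∧
      (∀ (s : Icc (0 : ℝ) 1) (x v w : Phase n),
        (1 - (s : ℝ)) * omegaStd (fderiv ℝ (ρ s) x v) (fderiv ℝ (ρ s) x w) +
        s * omegaStd (fderiv ℝ Ψ (ρ s x) (fderiv ℝ (ρ s) x v))
          (fderiv ℝ Ψ (ρ s x) (fderiv ℝ (ρ s) x w)) = omegaStd v w) ∧
      (∀ x ∉ K, ∀ s, ρ s x = x) ∧ (∀ x, ρ ⟨0, left_mem_Icc.2 zero_le_one⟩ x = x) := by
  obtain ⟨ρ, hρ, hcons, hρK, hρ0, -⟩ := moser_family (T := Unit) (Ψ := fun _ => Ψ)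
    (CF.const h.smooth) hK (fun _ => hΨK) (fun _ => h.adm)
  exact ⟨fun s => ρ ((), s), hρ.base (continuous_const.prodMk continuous_id),
    fun s x v w => hcons () s x v w, fun x hx s => hρK x hx ((), s), fun x => hρ0 () x⟩

/-- Every admissible map is joined to a symplectic one. -/
lemma Adm.exists_symp {Ψ : Phase n → Phase n} (h : Adm Ψ) :
    ∃ g : SympCt n, AdmPath Ψ (g : Equiv.Perm (Phase n)) := by
  obtain ⟨K, hK, hΨK⟩ := h.supp
  obtain ⟨ρ, hρ, hcons, hρK, hρ0⟩ := h.exists_moser hK hΨK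
  set o : Icc (0 : ℝ) 1 := ⟨1, right_mem_Icc.2 zero_le_one⟩ with ho
  have hCF : CF (fun (s : Icc (0 : ℝ) 1) x => Ψ (ρ s x)) := (CF.const h.smooth).comp hρ
  have hd : ∀ (s : Icc (0 : ℝ) 1) x, fderiv ℝ (fun x => Ψ (ρ s x)) x =
      (fderiv ℝ Ψ (ρ s x)).comp (fderiv ℝ (ρ s) x) := fun s x =>
    fderiv_comp x (h.smooth.differentiable (by simp) _) (hρ.differentiable s x)
  have hK' : ∀ (s : Icc (0 : ℝ) 1), ∀ x ∉ K, Ψ (ρ s x) = x := fun s x hx => by
    rw [hρK x hx, hΨK x hx]
  have hsymp : ∀ x u v, omegaStd (fderiv ℝ (fun x => Ψ (ρ o x)) x u)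
      (fderiv ℝ (fun x => Ψ (ρ o x)) x v) = omegaStd u v := by
    intro x u v
    rw [hd o x]
    have := hcons o x u v
    simp only [ho, sub_self, zero_mul, one_mul, zero_add] at this
    exact this
  refine ⟨mkSymp (fun x => Ψ (ρ o x)) (hCF.contDiff o) ⟨K, hK, hK' o⟩ hsymp,
    fun s x => Ψ (ρ s x), hCF, ⟨K, hK, hK'⟩, fun s x => ?_, ?_, ?_⟩
  · rw [hd]
    exact admissible_moser s.2 (h.adm _) (fun v w => hcons s x v w)
  · ext1 x
    simp only [hρ0]
  · ext1 x
    rfl

/-- A symplectic map composed with its Moser isotopy. -/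
lemma joined_of_moser {g : SympCt n} {ρ : Icc (0 : ℝ) 1 → Phase n → Phase n} (hρ : CF ρ)
    {K : Set (Phase n)} (hK : IsCompact K)
    (hgK : ∀ s, ∀ x ∉ K, (g : Equiv.Perm (Phase n)) (ρ s x) = x)
    (hcons : ∀ (s : Icc (0 : ℝ) 1) (x v w : Phase n),
        (1 - (s : ℝ)) * omegaStd (fderiv ℝ (ρ s) x v) (fderiv ℝ (ρ s) x w) +
        s * omegaStd (fderiv ℝ (g : Equiv.Perm (Phase n)) (ρ s x) (fderiv ℝ (ρ s) x v))
          (fderiv ℝ (g : Equiv.Perm (Phase n)) (ρ s x) (fderiv ℝ (ρ s) x w)) = omegaStd v w)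
    (hρ0 : ∀ x, ρ ⟨0, left_mem_Icc.2 zero_le_one⟩ x = x) (g' : SympCt n)
    (hg' : ∀ x, (g' : Equiv.Perm (Phase n)) x =
      (g : Equiv.Perm (Phase n)) (ρ ⟨1, right_mem_Icc.2 zero_le_one⟩ x)) : Joined g g' := by
  have hCF : CF (fun (s : Icc (0 : ℝ) 1) x => (g : Equiv.Perm (Phase n)) (ρ s x)) :=
    (CF.const (SympCt.contDiff g)).comp hρ
  have hsymp : ∀ (s : Icc (0 : ℝ) 1) x u v,
      omegaStd (fderiv ℝ (fun x => (g : Equiv.Perm (Phase n)) (ρ s x)) x u)
      (fderiv ℝ (fun x => (g : Equiv.Perm (Phase n)) (ρ s x)) x v) = omegaStd u v := by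
    intro s x u v
    have hd : fderiv ℝ (fun x => (g : Equiv.Perm (Phase n)) (ρ s x)) x =
      (fderiv ℝ (g : Equiv.Perm (Phase n)) (ρ s x)).comp (fderiv ℝ (ρ s) x) :=
      fderiv_comp x (SympCt.differentiable g _) (hρ.differentiable s x)
    rw [hd]
    have h2 := hcons s x u v
    rw [g.2.2.2.1] at h2
    simp only [ContinuousLinearMap.comp_apply]
    rw [g.2.2.2.1]
    linear_combination h2
  set γ : unitInterval → SympCt n := fun s => mkSymp (fun x => (g : Equiv.Perm (Phase n)) (ρ s x))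
    (hCF.contDiff s) ⟨K, hK, hgK s⟩ (hsymp s) with hγ
  have hγc : Continuous γ := continuous_of_CF hCF ⟨K, hK⟩ (fun t x hx => hgK t x hx)
    (fun t x => rfl)
  refine ⟨⟨⟨γ, hγc⟩, ?_, ?_⟩⟩
  · apply SympCt.ext'
    intro x
    change (g : Equiv.Perm (Phase n)) (ρ (0 : unitInterval) x) = _
    have : (0 : unitInterval) = ⟨0, left_mem_Icc.2 zero_le_one⟩ := rfl
    rw [this, hρ0]
  · apply SympCt.ext'
    intro x
    rw [hg']
    rfl

/-- Symplectic maps joined by an admissible path lie in the same path component. -/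
theorem joined_of_admPath {g g' : SympCt n}
    (h : AdmPath (g : Equiv.Perm (Phase n)) (g' : Equiv.Perm (Phase n))) : Joined g g' := by
  obtain ⟨F, hF, ⟨K, hK, hFK⟩, hadm, h0, h1⟩ := h
  set z : Icc (0 : ℝ) 1 := ⟨0, left_mem_Icc.2 zero_le_one⟩ with hz
  set o : Icc (0 : ℝ) 1 := ⟨1, right_mem_Icc.2 zero_le_one⟩ with ho
  obtain ⟨ρ, hρ, hcons, hρK, hρ0, hρid⟩ := moser_family hF hK hFK hadm
  have hCF : CF (fun (t : Icc (0 : ℝ) 1) x => F t (ρ (t, o) x)) :=
    hF.comp (hρ.base (continuous_id.prodMk continuous_const))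
  have hK' : ∀ (t : Icc (0 : ℝ) 1), ∀ x ∉ K, F t (ρ (t, o) x) = x := fun t x hx => by
    rw [hρK x hx, hFK t x hx]
  have hsymp : ∀ (t : Icc (0 : ℝ) 1) x u v,
      omegaStd (fderiv ℝ (fun x => F t (ρ (t, o) x)) x u)
      (fderiv ℝ (fun x => F t (ρ (t, o) x)) x v) = omegaStd u v := by
    intro t x u v
    rw [fderiv_comp_family hF hρ t o x]
    have := hcons t o x u v
    simp only [ho, sub_self, zero_mul, one_mul, zero_add] at this
    exact this
  set γ : unitInterval → SympCt n := fun t => mkSymp (fun x => F t (ρ (t, o) x))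
    (hCF.contDiff t) ⟨K, hK, hK' t⟩ (hsymp t) with hγ
  have hγc : Continuous γ := continuous_of_CF hCF ⟨K, hK⟩ (fun t x hx => hK' t x hx)
    (fun t x => rfl)
  have hmid : Joined (γ 0) (γ 1) := ⟨⟨⟨γ, hγc⟩, rfl, rfl⟩⟩
  have hleft : Joined g (γ 0) := by
    apply joined_of_moser (ρ := fun s => ρ (z, s)) (hρ.base (continuous_const.prodMk continuous_id))
      hK
    · intro s x hx
      rw [hρK x hx, ← h0, hFK _ x hx]
    · intro s x v w
      rw [← h0]
      exact hcons z s x v w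
    · intro x
      exact hρ0 z x
    · intro x
      rw [← h0]
      rfl
  have hright : Joined g' (γ 1) := by
    apply joined_of_moser (ρ := fun s => ρ (o, s)) (hρ.base (continuous_const.prodMk continuous_id))
      hK
    · intro s x hx
      rw [hρK x hx, ← h1, hFK _ x hx]
    · intro s x v w
      rw [← h1]
      exact hcons o s x v w
    · intro x
      exact hρ0 o x
    · intro x
      rw [← h1]
      rfl
  exact (hleft.trans hmid).trans hright.symm

end Pool.Agent.Helper17
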