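import Mathlib
import Pool.Agent.Helper17.SympBase
import Pool.Agent.Helper17.Isotopy
import Pool.Agent.Helper17.Near
import Pool.Agent.Helper17.Criterion
import Pool.Agent.Helper17.Potential
import Pool.Agent.Helper17.Smoothing

set_option maxSynthPendingDepth 3

open scoped ContDiff Topology
open Set Function Filter TopologicalSpace MeasureTheory

namespace Pool.Agent.Helper17

variable {n : ℕ}

section kernel

variable (E : Type*) [NormedAddCommGroup E] [InnerProductSpace ℝ E] [FiniteDimensional ℝ E]
  [MeasurableSpace E] [BorelSpace E]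

lemma eta_nonneg (x : E) : 0 ≤ eta E x := ContDiffBump.nonneg_normed _ x

lemma eta_eq_zero {x : E} (hx : 1 < ‖x‖) : eta E x = 0 := by
  by_contra h
  have h1 : x ∈ tsupport (eta E) := subset_closure h
  rw [tsupport_eta, mem_closedBall_zero_iff] at h1
  linarith

lemma fderiv_eta_eq_zero {x : E} (hx : 1 < ‖x‖) : fderiv ℝ (eta E) x = 0 := by
  by_contra h
  have h1 : x ∈ tsupport (fderiv ℝ (eta E)) := subset_closure h
  have h2 := tsupport_fderiv_subset ℝ h1
  rw [tsupport_eta, mem_closedBall_zero_iff] at h2
  linarith

/-- The `L¹` norm of the derivative of the kernel. -/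
noncomputable def c1Eta : ℝ := ∫ t, ‖fderiv ℝ (eta E) t‖

lemma c1Eta_nonneg : 0 ≤ c1Eta E := integral_nonneg fun _ => norm_nonneg _

variable {E}

lemma integrable_eta_smul {F : Type*} [NormedAddCommGroup F] [NormedSpace ℝ F] {g : E → F}
    (hg : Continuous g) : Integrable (fun z => eta E z • g z) := by
  apply Continuous.integrable_of_hasCompactSupport
  · exact (contDiff_eta E).continuous.smul hg
  · exact (hasCompactSupport_eta E).smul_right

lemma integrable_fderiv_eta_smul {F : Type*} [NormedAddCommGroup F] [NormedSpace ℝ F] {g : E → F}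
    (hg : Continuous g) (v : E) : Integrable (fun z => (fderiv ℝ (eta E) z v) • g z) := by
  apply Continuous.integrable_of_hasCompactSupport
  · exact (((contDiff_eta E).continuous_fderiv (by simp)).clm_apply continuous_const).smul hg
  · apply HasCompactSupport.smul_right
    exact ((hasCompactSupport_eta E).fderiv (𝕜 := ℝ)).comp_left
      (g := fun L : E →L[ℝ] ℝ => L v) rfl

/-- Weighted averages of functions bounded on the unit ball. -/
lemma norm_integral_eta_smul_le {F : Type*} [NormedAddCommGroup F] [NormedSpace ℝ F] {g : E → F}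
    {C : ℝ} (hg : ∀ z, ‖z‖ ≤ 1 → ‖g z‖ ≤ C) : ‖∫ z, eta E z • g z‖ ≤ C := by
  have hint : Integrable (eta E) := by
    apply Continuous.integrable_of_hasCompactSupport (contDiff_eta E).continuous
    exact hasCompactSupport_eta E
  calc ‖∫ z, eta E z • g z‖ ≤ ∫ z, eta E z * C := by
        apply norm_integral_le_of_norm_le (hint.mul_const C)
        refine Eventually.of_forall fun z => ?_
        rw [norm_smul, Real.norm_of_nonneg (eta_nonneg E z)]
        rcases le_or_gt ‖z‖ 1 with h | h
        · exact mul_le_mul_of_nonneg_left (hg z h) (eta_nonneg E z)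
        · rw [eta_eq_zero E h, zero_mul, zero_mul]
    _ = C := by rw [integral_mul_const, integral_eta, one_mul]

lemma norm_integral_fderiv_eta_smul_le {F : Type*} [NormedAddCommGroup F] [NormedSpace ℝ F]
    {g : E → F} {C : ℝ} (hg : ∀ z, ‖z‖ ≤ 1 → ‖g z‖ ≤ C) (v : E) :
    ‖∫ z, (fderiv ℝ (eta E) z v) • g z‖ ≤ c1Eta E * C * ‖v‖ := by
  have hint : Integrable (fun z => ‖fderiv ℝ (eta E) z‖) := by
    apply Integrable.norm
    apply Continuous.integrable_of_hasCompactSupport
      ((contDiff_eta E).continuous_fderiv (by simp))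
    exact (hasCompactSupport_eta E).fderiv (𝕜 := ℝ)
  calc ‖∫ z, (fderiv ℝ (eta E) z v) • g z‖ ≤ ∫ z, ‖fderiv ℝ (eta E) z‖ * (‖v‖ * C) := by
        apply norm_integral_le_of_norm_le (hint.mul_const _)
        refine Eventually.of_forall fun z => ?_
        rcases le_or_gt ‖z‖ 1 with h | h
        · rw [norm_smul]
          calc ‖fderiv ℝ (eta E) z v‖ * ‖g z‖ ≤ (‖fderiv ℝ (eta E) z‖ * ‖v‖) * C :=
                mul_le_mul (ContinuousLinearMap.le_opNorm _ _) (hg z h) (norm_nonneg _)
                  (by positivity)
            _ = _ := by ring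
        · rw [fderiv_eta_eq_zero E h]; simp
    _ = c1Eta E * C * ‖v‖ := by rw [integral_mul_const, c1Eta]; ring

end kernel

/-- The average of the derivative with respect to the kernel. -/
noncomputable def kAvg (φ : Phase n → Phase n) (x : Phase n) (r : ℝ) : Phase n →L[ℝ] Phase n :=
  ∫ z, eta (Phase n) z • fderiv ℝ φ (x + r • z)

/-- For a nearly symplectic map which is close to an affine map on a ball, the averaged derivative
is close to the linear part and nearly symplectic. -/
lemma kAvg_close {φ : Phase n → Phase n} (hφ : ContDiff ℝ ∞ φ) {x : Phase n} {r L ε θ : ℝ}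
    (hr : 0 < r) (hL : ∀ y, ‖fderiv ℝ φ y‖ ≤ L)
    (hθ : ∀ y v w, |omegaStd (fderiv ℝ φ y v) (fderiv ℝ φ y w) - omegaStd v w| ≤ θ * ‖v‖ * ‖w‖)
    {c : Phase n} {M : Phase n →L[ℝ] Phase n} (hM : ‖M‖ ≤ 2 * L)
    (hflat : ∀ y, ‖y - x‖ ≤ r → ‖φ y - (c + M y)‖ ≤ ε * r) :
    ‖kAvg φ x r - M‖ ≤ c1Eta (Phase n) * ε ∧
    ∀ v w, |omegaStd (kAvg φ x r v) (kAvg φ x r w) - omegaStd v w| ≤
      (θ + (c1Eta (Phase n) * ε) ^ 2 + 3 * L * (c1Eta (Phase n) * ε)) * ‖v‖ * ‖w‖ := by
  have hr0 : r ≠ 0 := hr.ne'
  have hL0 : 0 ≤ L := (norm_nonneg _).trans (hL 0)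
  have hε0 : 0 ≤ ε := by
    have := (norm_nonneg _).trans (hflat x (by simpa using hr.le))
    by_contra hneg
    push Not at hneg
    nlinarith
  set c₁ := c1Eta (Phase n) with hc₁
  have hc₁0 : 0 ≤ c₁ := c1Eta_nonneg _
  have hη := contDiff_eta (Phase n)
  set D : Phase n → Phase n →L[ℝ] Phase n := fun z => fderiv ℝ φ (x + r • z) with hD
  have hDφ : ContDiff ℝ ∞ (fderiv ℝ φ) := hφ.fderiv_right (by simp)
  have hlin : ContDiff ℝ ∞ (fun z : Phase n => x + r • z) :=
    contDiff_const.add (contDiff_const_smul r)
  have hDs : ContDiff ℝ ∞ D := hDφ.comp hlin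
  set e : Phase n → Phase n := fun z => r⁻¹ • (φ (x + r • z) - (c + M (x + r • z))) with he
  have hes : ContDiff ℝ ∞ e :=
    ((hφ.comp hlin).sub (contDiff_const.add (M.contDiff.comp hlin))).const_smul r⁻¹
  have hlind : ∀ z, HasFDerivAt (fun z : Phase n => x + r • z)
      (r • ContinuousLinearMap.id ℝ (Phase n)) z := fun z =>
    ((hasFDerivAt_id z).const_smul r).const_add x
  have hed : ∀ z, HasFDerivAt e (D z - M) z := by
    intro z
    have h1 : HasFDerivAt (fun z : Phase n => φ (x + r • z)) _ z :=
      ((hφ.differentiable (by simp) (x + r • z)).hasFDerivAt).comp z (hlind z)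
    have h2 : HasFDerivAt (fun z : Phase n => c + M (x + r • z)) _ z :=
      (M.hasFDerivAt.comp z (hlind z)).const_add c
    have h3 : HasFDerivAt e _ z := (h1.sub h2).const_smul r⁻¹
    refine h3.congr_fderiv ?_
    ext1 v
    simp [hD, smul_sub, smul_smul, hr0]
  have hefd : ∀ z, fderiv ℝ e z = D z - M := fun z => (hed z).fderiv
  have heb : ∀ z, ‖z‖ ≤ 1 → ‖e z‖ ≤ ε := by
    intro z hz
    have h1 := hflat (x + r • z) (by
      rw [add_sub_cancel_left, norm_smul, Real.norm_of_nonneg hr.le]
      exact mul_le_of_le_one_right hr.le hz)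
    simp only [he]
    rw [norm_smul, Real.norm_of_nonneg (inv_pos.2 hr).le, inv_mul_le_iff₀ hr, mul_comm]
    exact h1
  -- the average of `D e`
  set A := kAvg φ x r with hA
  have hAM : ∀ v, A v - M v = -∫ z, (fderiv ℝ (eta (Phase n)) z v) • e z := by
    intro v
    have h1 := integral_smul_fderiv_eq_neg_fderiv_smul_of_integrable (μ := volume)
      (f := eta (Phase n)) (g := e) (v := v)
      (integrable_fderiv_eta_smul hes.continuous v)
      (integrable_eta_smul ((hes.continuous_fderiv (by simp)).clm_apply continuous_const))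
      (integrable_eta_smul hes.continuous)
      (fun z _ => hη.differentiable (by simp) z) (fun z _ => hes.differentiable (by simp) z)
    rw [← h1]
    have h2 : ∀ z, eta (Phase n) z • (fderiv ℝ e z v) =
        (eta (Phase n) z • D z) v - (eta (Phase n) z • M) v := by
      intro z
      rw [hefd, sub_apply, smul_apply, smul_apply, smul_sub]
    simp only [h2]
    have i1 : Integrable (fun z => eta (Phase n) z • D z) := integrable_eta_smul hDs.continuous
    have i2 : Integrable (fun z => eta (Phase n) z • M) := integrable_eta_smul continuous_const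
    rw [integral_sub (i1.apply_continuousLinearMap v) (i2.apply_continuousLinearMap v),
      ← ContinuousLinearMap.integral_apply i1, ← ContinuousLinearMap.integral_apply i2,
      integral_smul_const, integral_eta, one_smul]
    rfl
  have hAMn : ∀ v, ‖A v - M v‖ ≤ c₁ * ε * ‖v‖ := by
    intro v
    rw [hAM, norm_neg]
    exact norm_integral_fderiv_eta_smul_le heb v
  refine ⟨ContinuousLinearMap.opNorm_le_bound _ (by positivity) hAMn, ?_⟩
  intro v w
  -- pointwise decomposition
  have hsplit : ∀ z, omegaStd (D z v) (D z w) = omegaStd (M v) (M w) +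
      omegaStd (M v) (D z w - M w) + omegaStd (D z v - M v) (M w) +
      omegaStd (D z v - M v) (D z w - M w) := by
    intro z
    simp only [omegaStd_sub_left, omegaStd_sub_right]
    ring
  -- the quadratic term
  set q : Phase n → Phase n → ℝ := fun w z => omegaStd (e z) (D z w - M w) with hq
  have hDw : ∀ w, ContDiff ℝ ∞ (fun z => D z w - M w) := fun w =>
    (hDs.clm_apply contDiff_const).sub contDiff_const
  have hqs : ∀ w, ContDiff ℝ ∞ (q w) := fun w =>
    ((omegaB n).contDiff.comp hes).clm_apply (hDw w)
  have hDd : ∀ z, HasFDerivAt D (fderiv ℝ D z) z := fun z =>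
    (hDs.differentiable (by simp) z).hasFDerivAt
  have hqd : ∀ w z v, fderiv ℝ (q w) z v = omegaStd (D z v - M v) (D z w - M w) +
      omegaStd (e z) (fderiv ℝ D z v w) := by
    intro w z v
    have h1 : HasFDerivAt (fun z => D z w - M w) ((fderiv ℝ D z).flip w) z := by
      have := ((hDd z).clm_apply (hasFDerivAt_const w z)).sub_const (M w)
      simpa using this
    have h2 : HasFDerivAt (fun z => omegaB n (e z)) ((omegaB n).comp (D z - M)) z :=
      (omegaB n).hasFDerivAt.comp z (hed z)
    have h3 : HasFDerivAt (q w) _ z := h2.clm_apply h1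
    rw [h3.fderiv]
    simp only [add_apply, ContinuousLinearMap.comp_apply, ContinuousLinearMap.flip_apply,
      omegaB_apply, sub_apply]
    ring
  have hsymm : ∀ z v w, fderiv ℝ D z v w = fderiv ℝ D z w v := by
    intro z v w
    have h1 : fderiv ℝ e = fun z => D z - M := funext hefd
    have h2 : fderiv ℝ (fderiv ℝ e) z = fderiv ℝ D z := by
      rw [h1]
      exact ((hDd z).sub_const M).fderiv
    have h3 : fderiv ℝ (fderiv ℝ e) z v w = fderiv ℝ (fderiv ℝ e) z w v :=
      (hes.contDiffAt (x := z)).isSymmSndFDerivAt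
        (by rw [minSmoothness_of_isRCLikeNormedField]; exact WithTop.coe_le_coe.2 le_top) v w
    rwa [h2] at h3
  have hquad : ∀ z, omegaStd (D z v - M v) (D z w - M w) =
      (1 / 2) * (fderiv ℝ (q w) z v - fderiv ℝ (q v) z w) := by
    intro z
    rw [hqd, hqd, hsymm z w v]
    have : omegaStd (D z w - M w) (D z v - M v) = -omegaStd (D z v - M v) (D z w - M w) :=
      omegaStd_swap _ _
    rw [this]; ring
  have hIBP : ∀ w v, ∫ z, eta (Phase n) z * fderiv ℝ (q w) z v =
      -∫ z, fderiv ℝ (eta (Phase n)) z v * q w z := by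
    intro w v
    exact integral_mul_fderiv_eq_neg_fderiv_mul_of_integrable (μ := volume)
      (f := eta (Phase n)) (g := q w) (v := v)
      (integrable_fderiv_eta_smul (hqs w).continuous v)
      (integrable_eta_smul (((hqs w).continuous_fderiv (by simp)).clm_apply continuous_const))
      (integrable_eta_smul (hqs w).continuous)
      (fun z _ => hη.differentiable (by simp) z) (fun z _ => (hqs w).differentiable (by simp) z)
  have hqb : ∀ w z, ‖z‖ ≤ 1 → ‖q w z‖ ≤ ε * (3 * L * ‖w‖) := by
    intro w z hz
    have h1 : ‖D z w - M w‖ ≤ 3 * L * ‖w‖ := by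
      have h2 : ‖D z - M‖ ≤ 3 * L := (norm_sub_le _ _).trans (by
        have := hL (x + r • z)
        simp only [hD]
        linarith)
      exact ((D z - M).le_opNorm w).trans (mul_le_mul_of_nonneg_right h2 (norm_nonneg _))
    exact (abs_omegaStd_le _ _).trans (mul_le_mul (heb z hz) h1 (norm_nonneg _) hε0)
  have hIb : ∀ w v, |∫ z, eta (Phase n) z * fderiv ℝ (q w) z v| ≤
      c₁ * (ε * (3 * L * ‖w‖)) * ‖v‖ := by
    intro w v
    rw [hIBP, abs_neg]
    have := norm_integral_fderiv_eta_smul_le (E := Phase n) (hqb w) v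
    simpa [smul_eq_mul] using this
  -- integrals of the pieces
  have hcv : ∀ u : Phase n, Continuous (fun z => D z u) := fun u =>
    hDs.continuous.clm_apply continuous_const
  have hωc : ∀ {f g : Phase n → Phase n}, Continuous f → Continuous g →
      Continuous (fun z => omegaStd (f z) (g z)) := fun hf hg =>
    ((omegaB n).continuous.comp hf).clm_apply hg
  have hIlin1 : ∫ z, eta (Phase n) z * omegaStd (M v) (D z w - M w) =
      omegaStd (M v) (A w - M w) := by
    have i1 : Integrable (fun z => eta (Phase n) z • D z) := integrable_eta_smul hDs.continuous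
    have h1 : ∀ z, eta (Phase n) z * omegaStd (M v) (D z w - M w) =
        omegaB n (M v) ((eta (Phase n) z • D z) w) - omegaStd (M v) (M w) * eta (Phase n) z := by
      intro z
      rw [smul_apply, map_smul, omegaB_apply, omegaStd_sub_right, smul_eq_mul]
      ring
    simp only [h1]
    rw [integral_sub ((omegaB n (M v)).integrable_comp (i1.apply_continuousLinearMap w))
      ((show Integrable (eta (Phase n)) by
        simpa using (integrable_eta_smul (E := Phase n) (F := ℝ)
          (g := fun _ => (1 : ℝ)) continuous_const)).const_mul _),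
      ContinuousLinearMap.integral_comp_comm _ (i1.apply_continuousLinearMap w),
      ← ContinuousLinearMap.integral_apply i1, integral_const_mul, integral_eta, mul_one,
      omegaStd_sub_right]
    rfl
  have hIlin2 : ∫ z, eta (Phase n) z * omegaStd (D z v - M v) (M w) =
      omegaStd (A v - M v) (M w) := by
    have i1 : Integrable (fun z => eta (Phase n) z • D z) := integrable_eta_smul hDs.continuous
    have h1 : ∀ z, eta (Phase n) z * omegaStd (D z v - M v) (M w) =
        (omegaB n).flip (M w) ((eta (Phase n) z • D z) v) -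
          omegaStd (M v) (M w) * eta (Phase n) z := by
      intro z
      rw [smul_apply, map_smul, ContinuousLinearMap.flip_apply, omegaB_apply, omegaStd_sub_left,
        smul_eq_mul]
      ring
    simp only [h1]
    rw [integral_sub (((omegaB n).flip (M w)).integrable_comp (i1.apply_continuousLinearMap v))
      ((show Integrable (eta (Phase n)) by
        simpa using (integrable_eta_smul (E := Phase n) (F := ℝ)
          (g := fun _ => (1 : ℝ)) continuous_const)).const_mul _),
      ContinuousLinearMap.integral_comp_comm _ (i1.apply_continuousLinearMap v),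
      ← ContinuousLinearMap.integral_apply i1, integral_const_mul, integral_eta, mul_one,
      omegaStd_sub_left]
    rfl
  set I := ∫ z, eta (Phase n) z * omegaStd (D z v - M v) (D z w - M w) with hI
  have hIbound : |I| ≤ 3 * L * (c₁ * ε) * ‖v‖ * ‖w‖ := by
    have h1 : I = (1 / 2) * (∫ z, eta (Phase n) z * fderiv ℝ (q w) z v) -
        (1 / 2) * ∫ z, eta (Phase n) z * fderiv ℝ (q v) z w := by
      rw [hI, ← mul_sub, ← integral_sub, ← integral_const_mul]
      · congr 1
        ext1 z
        rw [hquad]; ring
      · exact integrable_eta_smul (((hqs w).continuous_fderiv (by simp)).clm_apply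
          continuous_const)
      · exact integrable_eta_smul (((hqs v).continuous_fderiv (by simp)).clm_apply
          continuous_const)
    have h2 := hIb w v
    have h3 := hIb v w
    rw [h1]
    rw [abs_le] at h2 h3 ⊢
    constructor <;> nlinarith [h2.1, h2.2, h3.1, h3.2]
  -- total
  have htot : ∫ z, eta (Phase n) z * omegaStd (D z v) (D z w) = omegaStd (M v) (M w) +
      omegaStd (M v) (A w - M w) + omegaStd (A v - M v) (M w) + I := by
    have h1 : ∀ z, eta (Phase n) z * omegaStd (D z v) (D z w) =
        ((omegaStd (M v) (M w) * eta (Phase n) z +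
        eta (Phase n) z * omegaStd (M v) (D z w - M w)) +
        eta (Phase n) z * omegaStd (D z v - M v) (M w)) +
        eta (Phase n) z * omegaStd (D z v - M v) (D z w - M w) := by
      intro z
      rw [hsplit z]; ring
    simp only [h1]
    have j0 : Integrable (fun z => omegaStd (M v) (M w) * eta (Phase n) z) :=
      (show Integrable (eta (Phase n)) by
        simpa using (integrable_eta_smul (E := Phase n) (F := ℝ)
          (g := fun _ => (1 : ℝ)) continuous_const)).const_mul _
    have j1 : Integrable (fun z => eta (Phase n) z * omegaStd (M v) (D z w - M w)) :=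
      integrable_eta_smul (hωc continuous_const ((hcv w).sub continuous_const))
    have j2 : Integrable (fun z => eta (Phase n) z * omegaStd (D z v - M v) (M w)) :=
      integrable_eta_smul (hωc ((hcv v).sub continuous_const) continuous_const)
    have j3 : Integrable (fun z => eta (Phase n) z * omegaStd (D z v - M v) (D z w - M w)) :=
      integrable_eta_smul (hωc ((hcv v).sub continuous_const) ((hcv w).sub continuous_const))
    have e3 := integral_add ((j0.add j1).add j2) j3
    have e2 := integral_add (j0.add j1) j2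
    have e1 := integral_add j0 j1
    simp only [Pi.add_apply] at e1 e2 e3
    rw [e3, e2, e1, hIlin1, hIlin2, integral_const_mul, integral_eta, mul_one]
  have hclose : |(∫ z, eta (Phase n) z * omegaStd (D z v) (D z w)) - omegaStd v w| ≤
      θ * ‖v‖ * ‖w‖ := by
    have j0 : Integrable (fun z => omegaStd v w * eta (Phase n) z) :=
      (show Integrable (eta (Phase n)) by
        simpa using (integrable_eta_smul (E := Phase n) (F := ℝ)
          (g := fun _ => (1 : ℝ)) continuous_const)).const_mul _
    have j1 : Integrable (fun z => eta (Phase n) z * omegaStd (D z v) (D z w)) :=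
      integrable_eta_smul (hωc (hcv v) (hcv w))
    have h1 : (∫ z, eta (Phase n) z * omegaStd (D z v) (D z w)) - omegaStd v w =
        ∫ z, eta (Phase n) z • (omegaStd (D z v) (D z w) - omegaStd v w) := by
      have h2 : omegaStd v w = ∫ z, omegaStd v w * eta (Phase n) z := by
        rw [integral_const_mul, integral_eta, mul_one]
      nth_rewrite 1 [h2]
      rw [← integral_sub j1 j0]
      congr 1
      ext1 z
      rw [smul_eq_mul]; ring
    rw [h1]
    exact norm_integral_eta_smul_le (E := Phase n) (F := ℝ) (fun z _ => hθ _ v w)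
  have hfin : omegaStd (A v) (A w) - omegaStd v w = ((∫ z, eta (Phase n) z *
      omegaStd (D z v) (D z w)) - omegaStd v w) + omegaStd (A v - M v) (A w - M w) - I := by
    rw [htot]
    simp only [omegaStd_sub_left, omegaStd_sub_right]
    ring
  rw [hfin]
  have b1 : |omegaStd (A v - M v) (A w - M w)| ≤ (c₁ * ε * ‖v‖) * (c₁ * ε * ‖w‖) :=
    (abs_omegaStd_le _ _).trans (mul_le_mul (hAMn v) (hAMn w) (norm_nonneg _) (by positivity))
  have b2 : |((∫ z, eta (Phase n) z * omegaStd (D z v) (D z w)) - omegaStd v w) +
      omegaStd (A v - M v) (A w - M w) - I| ≤ θ * ‖v‖ * ‖w‖ +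
      (c₁ * ε * ‖v‖) * (c₁ * ε * ‖w‖) + 3 * L * (c₁ * ε) * ‖v‖ * ‖w‖ :=
    (abs_sub _ _).trans (add_le_add ((abs_add_le _ _).trans (add_le_add hclose b1)) hIbound)
  calc _ ≤ _ := b2
    _ = _ := by ring

end Pool.Agent.Helper17
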