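import Mathlib
import Pool.Agent.Helper17.SympBase
import Pool.Agent.Helper17.Isotopy
import Pool.Agent.Helper17.DirectLimit
import Pool.Agent.Helper17.Near
import Pool.Agent.Helper17.Criterion
import Pool.Agent.Helper17.Component
import Pool.Agent.Helper17.Potential
import Pool.Agent.Helper17.UnitSmoothing

open scoped ContDiff Distributions Topology
open Set Function TopologicalSpace Filter

namespace Pool.Agent.Helper17

variable {n : ℕ}

/-- Conjugation of a permutation by the dilation by `r`. -/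
noncomputable def dilPerm (r : ℝ) (hr : r ≠ 0) (φ : Equiv.Perm (Phase n)) : Equiv.Perm (Phase n) where
  toFun x := r • φ (r⁻¹ • x)
  invFun x := r • φ.symm (r⁻¹ • x)
  left_inv x := by simp [smul_smul, hr]
  right_inv x := by simp [smul_smul, hr]

lemma fderiv_dil (r : ℝ) (hr : r ≠ 0) {φ : Phase n → Phase n} (h : Differentiable ℝ φ)
    (x : Phase n) : fderiv ℝ (fun x => r • φ (r⁻¹ • x)) x = fderiv ℝ φ (r⁻¹ • x) := by
  have h1 : HasFDerivAt (fun x : Phase n => r⁻¹ • x) (r⁻¹ • ContinuousLinearMap.id ℝ (Phase n)) x :=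
    (hasFDerivAt_id x).const_smul r⁻¹
  have h2 : HasFDerivAt (fun x : Phase n => φ (r⁻¹ • x)) _ x :=
    (h (r⁻¹ • x)).hasFDerivAt.comp x h1
  have h3 : HasFDerivAt (fun x : Phase n => r • φ (r⁻¹ • x)) _ x := h2.const_smul r
  rw [h3.fderiv]
  ext1 v
  simp [smul_smul, hr]

lemma isSympCt_dil (r : ℝ) (hr : r ≠ 0) {φ : Equiv.Perm (Phase n)} (h : IsSympCt φ) :
    IsSympCt (dilPerm r hr φ) := by
  obtain ⟨hφ, hφs, hφo, K, hK, hφK⟩ := h
  refine ⟨?_, ?_, ?_, (fun x => r • x) '' K, hK.image (continuous_const_smul r), ?_⟩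
  · exact (hφ.comp (contDiff_const_smul r⁻¹)).const_smul r
  · exact (hφs.comp (contDiff_const_smul r⁻¹)).const_smul r
  · intro p u v
    change omegaStd (fderiv ℝ (fun x => r • φ (r⁻¹ • x)) p u)
      (fderiv ℝ (fun x => r • φ (r⁻¹ • x)) p v) = omegaStd u v
    rw [fderiv_dil r hr (hφ.differentiable (by simp))]
    exact hφo _ _ _
  · intro p hp
    have : r⁻¹ • p ∉ K := fun h => hp ⟨r⁻¹ • p, h, by simp [smul_smul, hr]⟩
    change r • φ (r⁻¹ • p) = p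
    rw [hφK _ this]; simp [smul_smul, hr]

/-- Conjugation of a compactly supported symplectomorphism by the dilation by `r`. -/
noncomputable def dilate (r : ℝ) (hr : r ≠ 0) (φ : SympCt n) : SympCt n :=
  ⟨dilPerm r hr (φ : Equiv.Perm (Phase n)), isSympCt_dil r hr φ.2⟩

lemma dilate_apply (r : ℝ) (hr : r ≠ 0) (φ : SympCt n) (x : Phase n) :
    (dilate r hr φ : Equiv.Perm (Phase n)) x = r • (φ : Equiv.Perm (Phase n)) (r⁻¹ • x) := rfl

lemma fderiv_dilate (r : ℝ) (hr : r ≠ 0) (φ : SympCt n) (x : Phase n) :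
    fderiv ℝ (dilate r hr φ : Equiv.Perm (Phase n)) x =
      fderiv ℝ (φ : Equiv.Perm (Phase n)) (r⁻¹ • x) :=
  fderiv_dil r hr (SympCt.differentiable φ) x

/-- Smoothing at scale `r` of a symplectic map. -/
theorem scale_smoothing (n : ℕ) (Λ : ℝ) (hΛ1 : 1 ≤ Λ) : ∃ C : ℝ, 1 ≤ C ∧
    ∀ (r : ℝ), 0 < r → ∀ (χ : SympCt n) (δ κ : ℝ), 0 ≤ κ → κ ≤ δ → C * δ ≤ 1 →
    (∀ z, ‖fderiv ℝ (χ : Equiv.Perm (Phase n)) z‖ ≤ Λ) →
    (∀ z, ‖(χ : Equiv.Perm (Phase n)) z - z‖ ≤ δ * r) →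
    (∀ w, ∃ (c : Phase n) (M : Phase n →L[ℝ] Phase n), ∀ a : Phase n, ‖a‖ ≤ r →
      ‖(χ : Equiv.Perm (Phase n)) (w + a) - (w + a) - (c + M a)‖ ≤ κ * r) →
    ∃ χ' : SympCt n,
      (∀ z, ‖(χ' : Equiv.Perm (Phase n)) z - (χ : Equiv.Perm (Phase n)) z‖ ≤
        C * (κ + δ ^ 2) * r) ∧
      (∀ z z', ‖fderiv ℝ (χ' : Equiv.Perm (Phase n)) z - fderiv ℝ (χ' : Equiv.Perm (Phase n)) z'‖ ≤
        C * κ / r * ‖z - z'‖) ∧
      (∀ z, ‖fderiv ℝ (χ' : Equiv.Perm (Phase n)) z - ContinuousLinearMap.id ℝ (Phase n)‖ ≤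
        C * δ) := by
  obtain ⟨C, hC1, hC⟩ := unit_smoothing n Λ hΛ1
  refine ⟨C, hC1, ?_⟩
  intro r hr χ δ κ hκ0 hκδ hCδ hΛ hδ hflat
  have hr0 : r ≠ 0 := hr.ne'
  have hri : 0 < r⁻¹ := inv_pos.2 hr
  obtain ⟨χ', h1, h2, h3⟩ := hC (dilate r⁻¹ (inv_ne_zero hr0) χ) δ κ hκ0 hκδ hCδ
    (fun z => by rw [fderiv_dilate]; exact hΛ _)
    (fun z => by
      rw [dilate_apply, inv_inv]
      have e1 : r⁻¹ • (χ : Equiv.Perm (Phase n)) (r • z) - z =
          r⁻¹ • ((χ : Equiv.Perm (Phase n)) (r • z) - r • z) := by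
        rw [smul_sub, smul_smul, inv_mul_cancel₀ hr0, one_smul]
      rw [e1, norm_smul, Real.norm_of_nonneg hri.le, inv_mul_le_iff₀ hr, mul_comm r δ]
      exact hδ _)
    (fun w => by
      obtain ⟨c, M, hcM⟩ := hflat (r • w)
      refine ⟨r⁻¹ • c, M, fun a ha => ?_⟩
      rw [dilate_apply, inv_inv]
      have h := hcM (r • a) (by
        rw [norm_smul, Real.norm_of_nonneg hr.le]
        exact mul_le_of_le_one_right hr.le ha)
      have e1 : r⁻¹ • (χ : Equiv.Perm (Phase n)) (r • (w + a)) - (w + a) - (r⁻¹ • c + M a) =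
          r⁻¹ • ((χ : Equiv.Perm (Phase n)) (r • w + r • a) - (r • w + r • a) -
            (c + M (r • a))) := by
        rw [M.map_smul, ← smul_add r w a, smul_sub, smul_sub, smul_add r⁻¹ c, smul_smul, smul_smul,
          inv_mul_cancel₀ hr0, one_smul, one_smul]
      rw [e1, norm_smul, Real.norm_of_nonneg hri.le, inv_mul_le_iff₀ hr, mul_comm r κ]
      exact h)
  refine ⟨dilate r hr0 χ', ?_, ?_, ?_⟩
  · intro z
    have h := h1 (r⁻¹ • z)
    rw [dilate_apply, inv_inv, smul_smul, mul_inv_cancel₀ hr0, one_smul] at h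
    rw [dilate_apply]
    have e1 : r • (χ' : Equiv.Perm (Phase n)) (r⁻¹ • z) - (χ : Equiv.Perm (Phase n)) z =
        r • ((χ' : Equiv.Perm (Phase n)) (r⁻¹ • z) - r⁻¹ • (χ : Equiv.Perm (Phase n)) z) := by
      rw [smul_sub, smul_smul, mul_inv_cancel₀ hr0, one_smul]
    rw [e1, norm_smul, Real.norm_of_nonneg hr.le, mul_comm]
    exact mul_le_mul_of_nonneg_right h hr.le
  · intro z z'
    rw [fderiv_dilate, fderiv_dilate]
    refine (h2 _ _).trans (le_of_eq ?_)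
    rw [← smul_sub, norm_smul, Real.norm_of_nonneg hri.le]
    ring
  · intro z
    rw [fderiv_dilate]
    exact h3 _

/-- Taylor estimate. -/
lemma taylor_le {f : Phase n → Phase n} (hf : Differentiable ℝ f) {H : ℝ}
    (hH : ∀ x y, ‖fderiv ℝ f x - fderiv ℝ f y‖ ≤ H * ‖x - y‖) (hH0 : 0 ≤ H) (x a : Phase n) :
    ‖f (x + a) - f x - fderiv ℝ f x a‖ ≤ H * ‖a‖ ^ 2 := by
  set g : Phase n → Phase n := fun y => f y - fderiv ℝ f x y with hg
  have hgd : ∀ y, HasFDerivAt g (fderiv ℝ f y - fderiv ℝ f x) y := fun y =>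
    (hf y).hasFDerivAt.sub (fderiv ℝ f x).hasFDerivAt
  have h1 := (convex_closedBall x ‖a‖).norm_image_sub_le_of_norm_hasFDerivWithin_le
    (f := g) (f' := fun y => fderiv ℝ f y - fderiv ℝ f x) (C := H * ‖a‖)
    (fun y _ => (hgd y).hasFDerivWithinAt)
    (fun y hy => (hH y x).trans (mul_le_mul_of_nonneg_left (by
      rw [← dist_eq_norm]; exact hy) hH0))
    (Metric.mem_closedBall_self (norm_nonneg a)) (y := x + a) (by simp)
  have e1 : g (x + a) - g x = f (x + a) - f x - fderiv ℝ f x a := by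
    simp only [hg, map_add]; abel
  rw [e1, add_sub_cancel_left] at h1
  calc _ ≤ _ := h1
    _ = _ := by ring

/-- The derivative of a symplectic map is bounded below in terms of its norm. -/
lemma norm_le_fderiv (ψ : SympCt n) {x : Phase n} {B : ℝ}
    (hB : ‖fderiv ℝ (ψ : Equiv.Perm (Phase n)) x‖ ≤ B) (v : Phase n) :
    ‖v‖ ≤ B * ‖fderiv ℝ (ψ : Equiv.Perm (Phase n)) x v‖ := by
  set A := fderiv ℝ (ψ : Equiv.Perm (Phase n)) x with hA
  have hB0 : 0 ≤ B := (norm_nonneg _).trans hB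
  have h1 : ‖v‖ ^ 2 ≤ (B * ‖A v‖) * ‖v‖ := by
    calc ‖v‖ ^ 2 = omegaStd v (Jl n v) := (omegaStd_Jl v).symm
      _ = omegaStd (A v) (A (Jl n v)) := (ψ.2.2.2.1 x v (Jl n v)).symm
      _ ≤ ‖A v‖ * ‖A (Jl n v)‖ := (le_abs_self _).trans (abs_omegaStd_le _ _)
      _ ≤ ‖A v‖ * (B * ‖v‖) := by
          gcongr
          calc ‖A (Jl n v)‖ ≤ ‖A‖ * ‖Jl n v‖ := A.le_opNorm _
            _ ≤ B * ‖v‖ := by rw [norm_Jl]; gcongr
      _ = (B * ‖A v‖) * ‖v‖ := by ring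
  rcases (norm_nonneg v).eq_or_lt with h0 | h0
  · rw [← h0]; positivity
  · rw [sq] at h1
    exact le_of_mul_le_mul_right h1 h0

lemma norm_fderiv_inv_le (ψ : SympCt n) {B : ℝ}
    (hB : ∀ x, ‖fderiv ℝ (ψ : Equiv.Perm (Phase n)) x‖ ≤ B) (y : Phase n) :
    ‖fderiv ℝ ((ψ⁻¹ : SympCt n) : Equiv.Perm (Phase n)) y‖ ≤ B := by
  have hB0 : 0 ≤ B := (norm_nonneg _).trans (hB 0)
  apply ContinuousLinearMap.opNorm_le_bound _ hB0
  intro u
  have h1 := norm_le_fderiv ψ (hB (((ψ⁻¹ : SympCt n) : Equiv.Perm (Phase n)) y))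
    (fderiv ℝ ((ψ⁻¹ : SympCt n) : Equiv.Perm (Phase n)) y u)
  rwa [SympCt.fderiv_fderiv_inv] at h1

lemma lipschitz_of_fderiv (ψ : SympCt n) {B : ℝ}
    (hB : ∀ x, ‖fderiv ℝ (ψ : Equiv.Perm (Phase n)) x‖ ≤ B) (x y : Phase n) :
    ‖(ψ : Equiv.Perm (Phase n)) x - (ψ : Equiv.Perm (Phase n)) y‖ ≤ B * ‖x - y‖ :=
  convex_univ.norm_image_sub_le_of_norm_fderiv_le (𝕜 := ℝ)
    (fun z _ => SympCt.differentiable ψ z) (fun z _ => hB z) (mem_univ y) (mem_univ x)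

end Pool.Agent.Helper17
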