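import Mathlib
import Pool.Agent.Helper17.SympBase
import Pool.Agent.Helper17.Isotopy
import Pool.Agent.Helper17.DirectLimit
import Pool.Agent.Helper17.Near
import Pool.Agent.Helper17.Criterion
import Pool.Agent.Helper17.Component
import Pool.Agent.Helper17.Potential
import Pool.Agent.Helper17.UnitSmoothing
import Pool.Agent.Helper17.Scale

open scoped ContDiff Distributions Topology
open Set Function TopologicalSpace Filter

namespace Pool.Agent.Helper17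

variable {n : ℕ}

/-- `φ` is within `ε * r` of an affine map on every closed ball of radius `r`. -/
def Flat (φ : Phase n → Phase n) (ε : ℝ) : Prop :=
  ∀ (x : Phase n) (r : ℝ), 0 < r → ∃ (c : Phase n) (M : Phase n →L[ℝ] Phase n),
    ∀ z, ‖z - x‖ ≤ r → ‖φ z - (c + M z)‖ ≤ ε * r

/-- The invariant of the induction: `ψ` is a good approximation of `φ` at the scale `r`. -/
structure Approx (φ ψ : SympCt n) (L e h r : ℝ) : Prop where
  near : ∀ x, ‖(φ : Equiv.Perm (Phase n)) x - (ψ : Equiv.Perm (Phase n)) x‖ ≤ e * r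
  lip : ∀ x y, ‖fderiv ℝ (ψ : Equiv.Perm (Phase n)) x - fderiv ℝ (ψ : Equiv.Perm (Phase n)) y‖ ≤
    h / r * ‖x - y‖
  bound : ∀ x, ‖fderiv ℝ (ψ : Equiv.Perm (Phase n)) x‖ ≤ 2 * L

lemma norm_fderiv_le_of_increment {T : Phase n →L[ℝ] Phase n} {r B : ℝ} (hr : 0 < r) (hB : 0 ≤ B) (h : ∀ a : Phase n, ‖a‖ = r → ‖T a‖ ≤ B * r) : ‖T‖ ≤ B := by
  apply ContinuousLinearMap.opNorm_le_of_unit_norm hB
  intro a ha
  have h1 := h (r • a) (by rw [norm_smul, ha, mul_one, Real.norm_of_nonneg hr.le])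
  rw [T.map_smul, norm_smul, Real.norm_of_nonneg hr.le, mul_comm] at h1
  exact le_of_mul_le_mul_right h1 hr

/-- The flatness of a quotient. -/
lemma quotient_flat {φ ψ : SympCt n} {L ε h r r' : ℝ} (hL1 : 1 ≤ L) (hε1 : ε ≤ 1)
    (hr : 0 < r) (hr' : 0 < r') (hh : 0 ≤ h)
    (hL : ∀ x, ‖fderiv ℝ (φ : Equiv.Perm (Phase n)) x‖ ≤ L)
    (hflat : Flat (φ : Equiv.Perm (Phase n)) ε)
    (hlip : ∀ x y, ‖fderiv ℝ (ψ : Equiv.Perm (Phase n)) x -
      fderiv ℝ (ψ : Equiv.Perm (Phase n)) y‖ ≤ h / r * ‖x - y‖)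
    (hbound : ∀ x, ‖fderiv ℝ (ψ : Equiv.Perm (Phase n)) x‖ ≤ 2 * L) (w : Phase n) :
    ∃ (c : Phase n) (M : Phase n →L[ℝ] Phase n), ∀ a : Phase n, ‖a‖ ≤ r' →
      ‖((φ * ψ⁻¹ : SympCt n) : Equiv.Perm (Phase n)) (w + a) - (w + a) - (c + M a)‖ ≤
        (2 * L * ε + 16 * L ^ 4 * h * (r' / r)) * r' := by
  have hL0 : 0 < L := by linarith
  set ψi : Equiv.Perm (Phase n) := ((ψ⁻¹ : SympCt n) : Equiv.Perm (Phase n)) with hψi
  set x : Phase n := ψi w with hx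
  set ρ : ℝ := 2 * L * r' with hρ
  have hρ0 : 0 < ρ := by positivity
  obtain ⟨c, M, hcM⟩ := hflat x ρ hρ0
  have hM : ‖M‖ ≤ 2 * L := by
    apply norm_fderiv_le_of_increment hρ0 (by positivity)
    intro a ha
    have h1 := hcM (x + a) (by rw [add_sub_cancel_left, ha])
    have h2 := hcM (x - a) (by rw [sub_sub_cancel_left, norm_neg, ha])
    have h3 := lipschitz_of_fderiv φ hL (x + a) (x - a)
    have h4 : x + a - (x - a) = (2 : ℝ) • a := by module
    rw [h4, norm_smul, Real.norm_of_nonneg (by norm_num : (0 : ℝ) ≤ 2), ha] at h3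
    have h5 : M a = (1 / 2 : ℝ) • (((φ : Equiv.Perm (Phase n)) (x + a) -
        (φ : Equiv.Perm (Phase n)) (x - a)) -
        ((φ : Equiv.Perm (Phase n)) (x + a) - (c + M (x + a))) +
        ((φ : Equiv.Perm (Phase n)) (x - a) - (c + M (x - a)))) := by
      rw [M.map_add, M.map_sub]; module
    rw [h5, norm_smul, Real.norm_of_nonneg (by norm_num)]
    have h6 : ‖((φ : Equiv.Perm (Phase n)) (x + a) - (φ : Equiv.Perm (Phase n)) (x - a)) -
        ((φ : Equiv.Perm (Phase n)) (x + a) - (c + M (x + a))) +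
        ((φ : Equiv.Perm (Phase n)) (x - a) - (c + M (x - a)))‖ ≤
        L * (2 * ρ) + ε * ρ + ε * ρ :=
      (norm_add_le _ _).trans (add_le_add ((norm_sub_le _ _).trans (add_le_add h3 h1)) h2)
    have h7 : ε * ρ ≤ L * ρ := mul_le_mul_of_nonneg_right (hε1.trans hL1) hρ0.le
    linarith
  set B : Phase n →L[ℝ] Phase n := fderiv ℝ ψi w with hB
  refine ⟨c + M x - w, M.comp B - ContinuousLinearMap.id ℝ (Phase n), fun a ha => ?_⟩
  set y : Phase n := ψi (w + a) with hy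
  have hyx : ‖y - x‖ ≤ 2 * L * ‖a‖ := by
    have h1 := lipschitz_of_fderiv ψ⁻¹ (norm_fderiv_inv_le ψ hbound) (w + a) w
    rwa [add_sub_cancel_left] at h1
  have hyx' : ‖y - x‖ ≤ ρ := hyx.trans (by rw [hρ]; gcongr)
  have h1 := hcM y hyx'
  -- the approximation of the inverse
  have h2 := taylor_le (SympCt.differentiable ψ) hlip (by positivity) x (y - x)
  rw [add_sub_cancel] at h2
  have e1 : (ψ : Equiv.Perm (Phase n)) y = w + a := SympCt.apply_inv_self ψ _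
  have e2 : (ψ : Equiv.Perm (Phase n)) x = w := SympCt.apply_inv_self ψ _
  rw [e1, e2, add_sub_cancel_left] at h2
  have h3 : ‖y - x - B a‖ ≤ 2 * L * (h / r * ρ ^ 2) := by
    have h4 := norm_le_fderiv ψ (hbound x) (y - x - B a)
    have e3 : fderiv ℝ (ψ : Equiv.Perm (Phase n)) x (y - x - B a) =
        -(a - fderiv ℝ (ψ : Equiv.Perm (Phase n)) x (y - x)) := by
      rw [ContinuousLinearMap.map_sub]
      have e4 : fderiv ℝ (ψ : Equiv.Perm (Phase n)) x (B a) = a :=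
        SympCt.fderiv_fderiv_inv ψ w a
      rw [e4]; abel
    rw [e3, norm_neg] at h4
    have h5 : h / r * ‖y - x‖ ^ 2 ≤ h / r * ρ ^ 2 := by gcongr
    exact h4.trans (mul_le_mul_of_nonneg_left (h2.trans h5) (by positivity))
  have h4 : ‖M (y - x - B a)‖ ≤ 2 * L * (2 * L * (h / r * ρ ^ 2)) :=
    (M.le_opNorm _).trans (mul_le_mul hM h3 (norm_nonneg _) (by positivity))
  have e3 : ((φ * ψ⁻¹ : SympCt n) : Equiv.Perm (Phase n)) (w + a) - (w + a) -
      ((c + M x - w) + (M.comp B - ContinuousLinearMap.id ℝ (Phase n)) a) =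
      ((φ : Equiv.Perm (Phase n)) y - (c + M y)) + M (y - x - B a) := by
    have e4 : ((φ * ψ⁻¹ : SympCt n) : Equiv.Perm (Phase n)) (w + a) =
      (φ : Equiv.Perm (Phase n)) y := rfl
    rw [e4, sub_apply, ContinuousLinearMap.comp_apply, ContinuousLinearMap.id_apply, M.map_sub,
      M.map_sub]
    abel
  rw [e3]
  calc ‖((φ : Equiv.Perm (Phase n)) y - (c + M y)) + M (y - x - B a)‖
      ≤ ε * ρ + 2 * L * (2 * L * (h / r * ρ ^ 2)) := (norm_add_le _ _).trans (add_le_add h1 h4)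
    _ = (2 * L * ε + 16 * L ^ 4 * h * (r' / r)) * r' := by
        rw [hρ]; field_simp; ring

/-- One step of the induction. -/
lemma approx_step {L C Λ h e ε δ κ : ℝ} (hL1 : 1 ≤ L) (hC1 : 1 ≤ C) (hΛ0 : 0 < Λ) (hh : 0 ≤ h)
    (he : 0 ≤ e) (hε1 : ε ≤ 1) (hκ0 : 0 ≤ κ) (hκδ : κ ≤ δ) (hCδ : C * δ ≤ 1)
    (hδ : δ = e * Λ) (hκ : 2 * L * ε + 16 * L ^ 4 * h / Λ ≤ κ) (c1 : C * (κ + δ ^ 2) ≤ e)
    (c2 : 4 * L ^ 2 * C * κ + 2 * h / Λ ≤ h) (c3 : 2 * e + h ≤ L)
    (hC : ∀ (r : ℝ), 0 < r → ∀ (χ : SympCt n) (δ κ : ℝ), 0 ≤ κ → κ ≤ δ → C * δ ≤ 1 →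
      (∀ z, ‖fderiv ℝ (χ : Equiv.Perm (Phase n)) z‖ ≤ 2 * L ^ 2) →
      (∀ z, ‖(χ : Equiv.Perm (Phase n)) z - z‖ ≤ δ * r) →
      (∀ w, ∃ (c : Phase n) (M : Phase n →L[ℝ] Phase n), ∀ a : Phase n, ‖a‖ ≤ r →
        ‖(χ : Equiv.Perm (Phase n)) (w + a) - (w + a) - (c + M a)‖ ≤ κ * r) →
      ∃ χ' : SympCt n,
        (∀ z, ‖(χ' : Equiv.Perm (Phase n)) z - (χ : Equiv.Perm (Phase n)) z‖ ≤
          C * (κ + δ ^ 2) * r) ∧
        (∀ z z', ‖fderiv ℝ (χ' : Equiv.Perm (Phase n)) z -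
          fderiv ℝ (χ' : Equiv.Perm (Phase n)) z'‖ ≤ C * κ / r * ‖z - z'‖) ∧
        (∀ z, ‖fderiv ℝ (χ' : Equiv.Perm (Phase n)) z - ContinuousLinearMap.id ℝ (Phase n)‖ ≤
          C * δ))
    {φ ψ : SympCt n} (hL : ∀ x, ‖fderiv ℝ (φ : Equiv.Perm (Phase n)) x‖ ≤ L)
    (hflat : Flat (φ : Equiv.Perm (Phase n)) ε) {r : ℝ} (hr : 0 < r)
    (happ : Approx φ ψ L e h r) :
    ∃ ψ' : SympCt n, Joined ψ ψ' ∧ Approx φ ψ' L e h (r / Λ) := by
  have hL0 : 0 < L := by linarith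
  have hC0 : 0 < C := by linarith
  set r' : ℝ := r / Λ with hr'
  have hr'0 : 0 < r' := div_pos hr hΛ0
  have hrr : r = Λ * r' := by rw [hr']; field_simp
  have hδ0 : 0 ≤ δ := hκ0.trans hκδ
  obtain ⟨χ', h1, h2, h3⟩ := hC r' hr'0 (φ * ψ⁻¹) δ κ hκ0 hκδ hCδ
    (fun z => by
      rw [SympCt.fderiv_mul]
      calc _ ≤ ‖fderiv ℝ (φ : Equiv.Perm (Phase n))
              (((ψ⁻¹ : SympCt n) : Equiv.Perm (Phase n)) z)‖ *
            ‖fderiv ℝ ((ψ⁻¹ : SympCt n) : Equiv.Perm (Phase n)) z‖ :=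
            ContinuousLinearMap.opNorm_comp_le _ _
        _ ≤ L * (2 * L) := mul_le_mul (hL _) (norm_fderiv_inv_le ψ happ.bound z)
            (norm_nonneg _) hL0.le
        _ = 2 * L ^ 2 := by ring)
    (fun z => by
      have := happ.near (((ψ⁻¹ : SympCt n) : Equiv.Perm (Phase n)) z)
      rw [SympCt.apply_inv_self] at this
      refine this.trans (le_of_eq ?_)
      rw [hδ, hrr]; ring)
    (fun w => by
      obtain ⟨c, M, hcM⟩ := quotient_flat hL1 hε1 hr hr'0 hh hL hflat happ.lip happ.bound w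
      refine ⟨c, M, fun a ha => (hcM a ha).trans ?_⟩
      apply mul_le_mul_of_nonneg_right _ hr'0.le
      refine le_trans (le_of_eq ?_) hκ
      rw [hr']; field_simp)
  have hχ' : ∀ z, ‖fderiv ℝ (χ' : Equiv.Perm (Phase n)) z‖ ≤ 2 := by
    intro z
    have e1 := norm_add_le (fderiv ℝ (χ' : Equiv.Perm (Phase n)) z -
      ContinuousLinearMap.id ℝ (Phase n)) (ContinuousLinearMap.id ℝ (Phase n))
    rw [sub_add_cancel] at e1
    have e2 : ‖ContinuousLinearMap.id ℝ (Phase n)‖ ≤ 1 := ContinuousLinearMap.norm_id_le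
    linarith [h3 z]
  have hnear : ∀ x, ‖(φ : Equiv.Perm (Phase n)) x - ((χ' * ψ : SympCt n) :
      Equiv.Perm (Phase n)) x‖ ≤ e * r' := by
    intro x
    have e1 := h1 ((ψ : Equiv.Perm (Phase n)) x)
    have e2 : ((φ * ψ⁻¹ : SympCt n) : Equiv.Perm (Phase n)) ((ψ : Equiv.Perm (Phase n)) x) =
        (φ : Equiv.Perm (Phase n)) x :=
      congrArg (φ : Equiv.Perm (Phase n)) (SympCt.inv_apply_self ψ x)
    rw [e2] at e1
    rw [norm_sub_rev]
    exact e1.trans (mul_le_mul_of_nonneg_right c1 hr'0.le)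
  have hlip : ∀ x y, ‖fderiv ℝ ((χ' * ψ : SympCt n) : Equiv.Perm (Phase n)) x -
      fderiv ℝ ((χ' * ψ : SympCt n) : Equiv.Perm (Phase n)) y‖ ≤ h / r' * ‖x - y‖ := by
    intro x y
    rw [SympCt.fderiv_mul, SympCt.fderiv_mul]
    set P := fderiv ℝ (χ' : Equiv.Perm (Phase n)) ((ψ : Equiv.Perm (Phase n)) x) with hP
    set Q := fderiv ℝ (χ' : Equiv.Perm (Phase n)) ((ψ : Equiv.Perm (Phase n)) y) with hQ
    set A := fderiv ℝ (ψ : Equiv.Perm (Phase n)) x with hA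
    set A' := fderiv ℝ (ψ : Equiv.Perm (Phase n)) y with hA'
    have e1 : P.comp A - Q.comp A' = (P - Q).comp A + Q.comp (A - A') := by
      ext1 v; simp
    have e2 : ‖(P - Q).comp A‖ ≤ (C * κ / r' * (2 * L * ‖x - y‖)) * (2 * L) := by
      refine (ContinuousLinearMap.opNorm_comp_le _ _).trans
        (mul_le_mul ?_ (happ.bound x) (norm_nonneg _) (by positivity))
      exact (h2 _ _).trans (mul_le_mul_of_nonneg_left
        (lipschitz_of_fderiv ψ happ.bound x y) (by positivity))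
    have e3 : ‖Q.comp (A - A')‖ ≤ 2 * (h / r * ‖x - y‖) :=
      (ContinuousLinearMap.opNorm_comp_le _ _).trans
        (mul_le_mul (hχ' _) (happ.lip x y) (norm_nonneg _) (by positivity))
    rw [e1]
    calc _ ≤ (C * κ / r' * (2 * L * ‖x - y‖)) * (2 * L) + 2 * (h / r * ‖x - y‖) :=
          (norm_add_le _ _).trans (add_le_add e2 e3)
      _ = (4 * L ^ 2 * C * κ + 2 * h / Λ) / r' * ‖x - y‖ := by
          rw [hrr]; field_simp; ring
      _ ≤ h / r' * ‖x - y‖ := by gcongr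
  refine ⟨χ' * ψ, ?_, hnear, hlip, ?_⟩
  · have e1 : SmoothIsotopic χ' 1 := smoothIsotopic_of_lt_two χ' fun x =>
      ((h3 x).trans hCδ).trans_lt one_lt_two
    have e2 := (e1.mul_right ψ).joined
    rw [one_mul] at e2
    exact e2.symm
  · intro x
    apply norm_fderiv_le_of_increment hr'0 (by positivity)
    intro a ha
    set T := fderiv ℝ ((χ' * ψ : SympCt n) : Equiv.Perm (Phase n)) x with hT
    have e1 := taylor_le (SympCt.differentiable (χ' * ψ)) hlip (by positivity) x a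
    have e2 := hnear (x + a)
    have e3 := hnear x
    have e4 := lipschitz_of_fderiv φ hL (x + a) x
    rw [add_sub_cancel_left, ha] at e4
    rw [ha] at e1
    have e5 : T a = ((φ : Equiv.Perm (Phase n)) (x + a) - (φ : Equiv.Perm (Phase n)) x) -
        ((φ : Equiv.Perm (Phase n)) (x + a) -
          ((χ' * ψ : SympCt n) : Equiv.Perm (Phase n)) (x + a)) +
        ((φ : Equiv.Perm (Phase n)) x - ((χ' * ψ : SympCt n) : Equiv.Perm (Phase n)) x) -
        (((χ' * ψ : SympCt n) : Equiv.Perm (Phase n)) (x + a) -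
          ((χ' * ψ : SympCt n) : Equiv.Perm (Phase n)) x - T a) := by abel
    rw [e5]
    refine (norm_sub_le _ _).trans ((add_le_add ((norm_add_le _ _).trans (add_le_add
      ((norm_sub_le _ _).trans (add_le_add e4 e2)) e3)) e1).trans ?_)
    have e6 : h / r' * r' ^ 2 = h * r' := by field_simp
    rw [e6]
    nlinarith

/-- The constants. -/
lemma exists_constants {L C : ℝ} (hL1 : 1 ≤ L) (hC1 : 1 ≤ C) :
    ∃ Λ h e ε δ κ : ℝ, 1 < Λ ∧ 0 < h ∧ 0 < e ∧ 0 < ε ∧ ε ≤ 1 ∧ 0 ≤ κ ∧ κ ≤ δ ∧ C * δ ≤ 1 ∧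
      δ = e * Λ ∧ 2 * L * ε + 16 * L ^ 4 * h / Λ ≤ κ ∧ C * (κ + δ ^ 2) ≤ e ∧
      4 * L ^ 2 * C * κ + 2 * h / Λ ≤ h ∧ 2 * e + h ≤ L ∧ (2 * e + h) * (2 * L) ≤ 1 := by
  have hL0 : 0 < L := by linarith
  have hC0 : 0 < C := by linarith
  obtain ⟨Λ, hΛ⟩ : ∃ Λ, Λ = 264 * C * L ^ 6 := ⟨_, rfl⟩
  have hL6 : 1 ≤ L ^ 6 := one_le_pow₀ hL1
  have hΛL : 264 * L ^ 6 ≤ Λ := by
    rw [hΛ]
    nlinarith
  have hΛ264 : 264 ≤ Λ := by linarith
  have hΛ0 : 0 < Λ := by linarith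
  obtain ⟨ε, hε⟩ : ∃ ε, ε = (12 * C ^ 2 * L * Λ ^ 2)⁻¹ := ⟨_, rfl⟩
  have hε0 : 0 < ε := by rw [hε]; positivity
  have hε1 : 12 * C ^ 2 * L * Λ ^ 2 * ε = 1 := by rw [hε]; field_simp
  have hC2 : 1 ≤ C ^ 2 := one_le_pow₀ hC1
  have hCL : 1 ≤ C * L := one_le_mul_of_one_le_of_one_le hC1 hL1
  have hCL2 : 1 ≤ C ^ 2 * L := one_le_mul_of_one_le_of_one_le hC2 hL1
  have hΛ2 : Λ ≤ Λ ^ 2 := by nlinarith
  have k1 : 6 * C ^ 2 * L * Λ * ε * (2 * Λ) = 1 := by rw [← hε1]; ring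
  have k2 : 0 < 6 * C ^ 2 * L * Λ * ε := by positivity
  have k3 : 6 * C ^ 2 * L * Λ * ε ≤ 1 := by nlinarith
  have k4 : (2 * (6 * C * L * ε) + 16 * C * L ^ 3 * ε) * (2 * L) ≤ 1 := by
    have a1 : (2 * (6 * C * L * ε) + 16 * C * L ^ 3 * ε) * (2 * L) =
        (24 * L ^ 2 + 32 * L ^ 4) * (C * ε) := by ring
    have a2 : (24 * L ^ 2 + 32 * L ^ 4) ≤ 12 * C * L * Λ ^ 2 := by
      have b1 : L ^ 2 ≤ L ^ 6 := pow_le_pow_right₀ hL1 (by norm_num)
      have b2 : L ^ 4 ≤ L ^ 6 := pow_le_pow_right₀ hL1 (by norm_num)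
      have b3 : Λ ^ 2 ≤ C * L * Λ ^ 2 := le_mul_of_one_le_left (by positivity) hCL
      have b4 : 12 * C * L * Λ ^ 2 = 12 * (C * L * Λ ^ 2) := by ring
      rw [b4]
      linarith
    rw [a1]
    calc (24 * L ^ 2 + 32 * L ^ 4) * (C * ε) ≤ (12 * C * L * Λ ^ 2) * (C * ε) :=
          mul_le_mul_of_nonneg_right a2 (by positivity)
      _ = 1 := by rw [← hε1]; ring
  have k5 : 0 < 2 * (6 * C * L * ε) + 16 * C * L ^ 3 * ε := by positivity
  have k6 : ε ≤ 1 := by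
    have a1 : 1 ≤ 12 * C ^ 2 * L * Λ ^ 2 := by
      have b1 : 12 * C ^ 2 * L * Λ ^ 2 = 12 * ((C ^ 2 * L) * Λ ^ 2) := by ring
      have b2 : Λ ^ 2 ≤ (C ^ 2 * L) * Λ ^ 2 := le_mul_of_one_le_left (by positivity) hCL2
      rw [b1]
      linarith
    rw [hε]
    exact inv_le_one_of_one_le₀ a1
  refine ⟨Λ, 16 * C * L ^ 3 * ε, 6 * C * L * ε, ε, 6 * C * L * ε * Λ, 3 * L * ε,
    by linarith, by positivity, by positivity, hε0, k6, by positivity, ?_, ?_, rfl, ?_, ?_, ?_, ?_,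
    k4⟩
  · have a1 : 6 * C * L * ε * Λ = (3 * L * ε) * (2 * C * Λ) := by ring
    rw [a1]
    apply le_mul_of_one_le_right (by positivity)
    nlinarith
  · calc C * (6 * C * L * ε * Λ) = 6 * C ^ 2 * L * Λ * ε := by ring
      _ ≤ 1 := k3
  · have a1 : 16 * L ^ 4 * (16 * C * L ^ 3 * ε) / Λ = (32 / 33) * (L * ε) := by
      rw [hΛ]; field_simp; norm_num
    rw [a1]
    have a2 : 0 < L * ε := by positivity
    linarith
  · apply le_of_eq
    calc C * (3 * L * ε + (6 * C * L * ε * Λ) ^ 2)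
        = 3 * C * L * ε + 3 * C * L * ε * (12 * C ^ 2 * L * Λ ^ 2 * ε) := by ring
      _ = 6 * C * L * ε := by rw [hε1]; ring
  · have a1 : 2 * (16 * C * L ^ 3 * ε) / Λ ≤ 2 * (16 * C * L ^ 3 * ε) / 8 :=
      div_le_div_of_nonneg_left (by positivity) (by norm_num) (by linarith)
    have a2 : 0 < C * L ^ 3 * ε := by positivity
    have a3 : 4 * L ^ 2 * C * (3 * L * ε) = 12 * (C * L ^ 3 * ε) := by ring
    rw [a3]
    linarith
  · nlinarith

set_option maxSynthPendingDepth 3 in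
/-- The derivative of a compactly supported symplectomorphism is Lipschitz. -/
lemma exists_lipschitz_fderiv (φ : SympCt n) : ∃ H : ℝ, 0 ≤ H ∧ ∀ x y,
    ‖fderiv ℝ (φ : Equiv.Perm (Phase n)) x - fderiv ℝ (φ : Equiv.Perm (Phase n)) y‖ ≤
      H * ‖x - y‖ := by
  obtain ⟨K, hK, hφK⟩ := φ.2.2.2.2
  have h1 : ContDiff ℝ ∞ (fderiv ℝ (φ : Equiv.Perm (Phase n))) :=
    (SympCt.contDiff φ).fderiv_right (by simp)
  have h2 : Continuous (fderiv ℝ (fderiv ℝ (φ : Equiv.Perm (Phase n)))) :=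
    h1.continuous_fderiv (by simp)
  obtain ⟨C, hC⟩ := hK.exists_bound_of_continuousOn h2.continuousOn
  refine ⟨max C 0, le_max_right _ _, fun x y => ?_⟩
  apply convex_univ.norm_image_sub_le_of_norm_fderiv_le (𝕜 := ℝ)
    (fun z _ => h1.differentiable (by simp) z) _ (mem_univ y) (mem_univ x)
  intro z _
  by_cases hz : z ∈ K
  · exact (hC z hz).trans (le_max_left _ _)
  · have h3 : fderiv ℝ (φ : Equiv.Perm (Phase n)) =ᶠ[𝓝 z]
        fun _ => ContinuousLinearMap.id ℝ (Phase n) := by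
      filter_upwards [hK.isClosed.isOpen_compl.mem_nhds hz] with z' hz'
      have h4 : (φ : Equiv.Perm (Phase n)) =ᶠ[𝓝 z'] (id : Phase n → Phase n) := by
        filter_upwards [hK.isClosed.isOpen_compl.mem_nhds hz'] with z'' hz''
        exact hφK z'' hz''
      rw [h4.fderiv_eq, fderiv_id]
    rw [h3.fderiv_eq, (hasFDerivAt_const (ContinuousLinearMap.id ℝ (Phase n)) z).fderiv, norm_zero]
    exact le_max_right _ _

/-- A compactly supported symplectomorphism has bounded displacement. -/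
lemma exists_disp_bound (φ : SympCt n) : ∃ D : ℝ, ∀ x,
    ‖(φ : Equiv.Perm (Phase n)) x - x‖ ≤ D := by
  obtain ⟨K, hK, hφK⟩ := φ.2.2.2.2
  have h2 : Continuous (fun x => (φ : Equiv.Perm (Phase n)) x - x) :=
    (SympCt.contDiff φ).continuous.sub continuous_id
  obtain ⟨C, hC⟩ := hK.exists_bound_of_continuousOn h2.continuousOn
  refine ⟨max C 0, fun x => ?_⟩
  by_cases hz : x ∈ K
  · exact (hC x hz).trans (le_max_left _ _)
  · rw [hφK x hz, sub_self, norm_zero]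
    exact le_max_right _ _

/-- Uniformly flat symplectic maps are isotopic to the identity. -/
theorem joined_one_of_flat (n : ℕ) (L : ℝ) : ∃ ε : ℝ, 0 < ε ∧ ∀ φ : SympCt n,
    (∀ x, ‖fderiv ℝ (φ : Equiv.Perm (Phase n)) x‖ ≤ L) →
    Flat (φ : Equiv.Perm (Phase n)) ε → Joined φ 1 := by
  obtain ⟨L', hL'⟩ : ∃ L', L' = max L 1 := ⟨_, rfl⟩
  have hL1 : 1 ≤ L' := hL' ▸ le_max_right _ _
  have hL0 : 0 < L' := by linarith
  obtain ⟨C, hC1, hC⟩ := scale_smoothing n (2 * L' ^ 2) (by nlinarith)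
  obtain ⟨Λ, h, e, ε, δ, κ, hΛ, hh, he, hε, hε1, hκ0, hκδ, hCδ, hδ, hκ, c1, c2, c3, c4⟩ :=
    exists_constants hL1 hC1
  refine ⟨ε, hε, fun φ hφL hflat => ?_⟩
  have hφ : ∀ x, ‖fderiv ℝ (φ : Equiv.Perm (Phase n)) x‖ ≤ L' := fun x =>
    (hφL x).trans (hL' ▸ le_max_left _ _)
  obtain ⟨H, hH0, hH⟩ := exists_lipschitz_fderiv φ
  obtain ⟨D, hD⟩ := exists_disp_bound φ
  set R : ℝ := max (D / e) 1 with hR
  have hR0 : 0 < R := lt_of_lt_of_le one_pos (le_max_right _ _)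
  have hΛ0 : 0 < Λ := by linarith
  have hind : ∀ j : ℕ, ∃ ψ : SympCt n, Joined 1 ψ ∧ Approx φ ψ L' e h (R / Λ ^ j) := by
    intro j
    induction j with
    | zero =>
      refine ⟨1, Joined.refl _, ?_, ?_, ?_⟩
      · intro x
        refine (hD x).trans ?_
        rw [pow_zero, div_one]
        calc D = e * (D / e) := by field_simp
          _ ≤ e * R := mul_le_mul_of_nonneg_left (le_max_left _ _) he.le
      · intro x y
        rw [SympCt.fderiv_one, SympCt.fderiv_one, sub_self, norm_zero]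
        positivity
      · intro x
        rw [SympCt.fderiv_one]
        exact ContinuousLinearMap.norm_id_le.trans (by linarith)
    | succ j ih =>
      obtain ⟨ψ, h1, h2⟩ := ih
      obtain ⟨ψ', h3, h4⟩ := approx_step hL1 hC1 hΛ0 hh.le he.le hε1 hκ0 hκδ hCδ hδ hκ c1 c2 c3
        hC hφ hflat (div_pos hR0 (pow_pos hΛ0 j)) h2
      refine ⟨ψ', h1.trans h3, ?_⟩
      rw [pow_succ, ← div_div]
      exact h4
  obtain ⟨j, hj⟩ : ∃ j : ℕ, H * (R / Λ ^ j) * (2 * L') < 1 := by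
    have h1 : Tendsto (fun j : ℕ => H * (R / Λ ^ j) * (2 * L')) atTop (𝓝 (H * 0 * (2 * L'))) := by
      apply Tendsto.mul_const
      apply Tendsto.const_mul
      exact (tendsto_pow_atTop_atTop_of_one_lt hΛ).const_div_atTop R
    rw [mul_zero, zero_mul] at h1
    exact (h1.eventually (gt_mem_nhds one_pos)).exists
  obtain ⟨ψ, hψ, hnear, hlip, hbound⟩ := hind j
  set r : ℝ := R / Λ ^ j with hr
  have hr0 : 0 < r := div_pos hR0 (pow_pos hΛ0 j)
  have hdiff : ∀ x, ‖fderiv ℝ (φ : Equiv.Perm (Phase n)) x -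
      fderiv ℝ (ψ : Equiv.Perm (Phase n)) x‖ ≤ 2 * e + h + H * r := by
    intro x
    apply norm_fderiv_le_of_increment hr0 (by positivity)
    intro a ha
    have e1 := taylor_le (SympCt.differentiable φ) hH hH0 x a
    have e2 := taylor_le (SympCt.differentiable ψ) hlip (by positivity) x a
    have e3 := hnear (x + a)
    have e4 := hnear x
    rw [ha] at e1 e2
    set A := fderiv ℝ (φ : Equiv.Perm (Phase n)) x with hA
    set B := fderiv ℝ (ψ : Equiv.Perm (Phase n)) x with hB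
    have e5 : (A - B) a = (((ψ : Equiv.Perm (Phase n)) (x + a) -
          (ψ : Equiv.Perm (Phase n)) x - B a) -
        ((φ : Equiv.Perm (Phase n)) (x + a) - (φ : Equiv.Perm (Phase n)) x - A a)) +
        (((φ : Equiv.Perm (Phase n)) (x + a) - (ψ : Equiv.Perm (Phase n)) (x + a)) -
        ((φ : Equiv.Perm (Phase n)) x - (ψ : Equiv.Perm (Phase n)) x)) := by
      rw [sub_apply]; abel
    rw [e5]
    refine (norm_add_le _ _).trans ((add_le_add ((norm_sub_le _ _).trans (add_le_add e2 e1))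
      ((norm_sub_le _ _).trans (add_le_add e3 e4))).trans (le_of_eq ?_))
    have e6 : h / r * r ^ 2 = h * r := by field_simp
    rw [e6]; ring
  have hiso : SmoothIsotopic (φ * ψ⁻¹) 1 := by
    apply smoothIsotopic_of_lt_two
    intro y
    set x := ((ψ⁻¹ : SympCt n) : Equiv.Perm (Phase n)) y with hx
    have e1 : fderiv ℝ ((φ * ψ⁻¹ : SympCt n) : Equiv.Perm (Phase n)) y -
        ContinuousLinearMap.id ℝ (Phase n) =
        (fderiv ℝ (φ : Equiv.Perm (Phase n)) x - fderiv ℝ (ψ : Equiv.Perm (Phase n)) x).comp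
          (fderiv ℝ ((ψ⁻¹ : SympCt n) : Equiv.Perm (Phase n)) y) := by
      rw [SympCt.fderiv_mul]
      ext1 v
      rw [sub_apply, ContinuousLinearMap.comp_apply, ContinuousLinearMap.comp_apply, sub_apply,
        SympCt.fderiv_fderiv_inv, ContinuousLinearMap.id_apply]
    rw [e1]
    calc _ ≤ ‖fderiv ℝ (φ : Equiv.Perm (Phase n)) x - fderiv ℝ (ψ : Equiv.Perm (Phase n)) x‖ *
          ‖fderiv ℝ ((ψ⁻¹ : SympCt n) : Equiv.Perm (Phase n)) y‖ :=
          ContinuousLinearMap.opNorm_comp_le _ _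
      _ ≤ (2 * e + h + H * r) * (2 * L') := mul_le_mul (hdiff x)
          (norm_fderiv_inv_le ψ hbound y) (norm_nonneg _) (by positivity)
      _ = (2 * e + h) * (2 * L') + H * r * (2 * L') := by ring
      _ < 2 := by linarith
  have e2 := (hiso.mul_right ψ).joined
  rw [one_mul, inv_mul_cancel_right] at e2
  exact e2.trans hψ.symm

end Pool.Agent.Helper17
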