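import Mathlib
import Pool.Agent.Helper17.SympBase
import Pool.Agent.Helper17.Near
import Pool.Agent.Helper17.Potential
import Pool.Agent.Helper17.Scale
import Pool.Agent.Helper17.Flatness

open scoped ContDiff Distributions Topology RealInnerProductSpace
open Set Function TopologicalSpace Filter

namespace Pool.Agent.Helper17

variable {n : ℕ}

lemma inner_close {f : Phase n → Phase n} {θ : ℝ} (hθ : 0 ≤ θ) (hf0 : f 0 = 0)
    (hf : ∀ z z' : Phase n, ‖z‖ ≤ 1 → ‖z'‖ ≤ 1 → |‖f z - f z'‖ ^ 2 - ‖z - z'‖ ^ 2| ≤ θ)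
    {z z' : Phase n} (hz : ‖z‖ ≤ 1) (hz' : ‖z'‖ ≤ 1) :
    |⟪f z, f z'⟫ - ⟪z, z'⟫| ≤ 2 * θ := by
  have h1 := hf z z' hz hz'
  have h2 := hf z 0 hz (by simp)
  have h3 := hf z' 0 hz' (by simp)
  rw [hf0, sub_zero, sub_zero] at h2 h3
  have e1 := norm_sub_sq_real (f z) (f z')
  have e2 := norm_sub_sq_real z z'
  rw [abs_le] at h1 h2 h3 ⊢
  constructor <;> nlinarith [h1.1, h1.2, h2.1, h2.2, h3.1, h3.2]

/-- A near isometry fixing the origin is close to a linear map on the unit ball. -/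
lemma linear_close {f : Phase n → Phase n} {θ : ℝ} (hθ : 0 ≤ θ) (hf0 : f 0 = 0)
    (hf : ∀ z z' : Phase n, ‖z‖ ≤ 1 → ‖z'‖ ≤ 1 → |‖f z - f z'‖ ^ 2 - ‖z - z'‖ ^ 2| ≤ θ) :
    ∃ M : Phase n →L[ℝ] Phase n, ∀ z, ‖z‖ ≤ 1 →
      ‖f z - M z‖ ^ 2 ≤ 2 * (1 + (Fintype.card (Fin n ⊕ Fin n) : ℝ)) ^ 2 * θ := by
  set e : (Fin n ⊕ Fin n) → Phase n := fun i => EuclideanSpace.single i (1 : ℝ) with he
  have hen : ∀ i, ‖e i‖ = 1 := fun i => by simp [he]
  have hzi : ∀ (z : Phase n) i, ⟪z, e i⟫ = z i := fun z i => by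
    simp [he, EuclideanSpace.inner_single_right]
  have hzabs : ∀ (z : Phase n), ‖z‖ ≤ 1 → ∀ i, |z i| ≤ 1 := fun z hz i => by
    rw [← hzi z i]
    exact (abs_real_inner_le_norm _ _).trans (by rw [hen, mul_one]; exact hz)
  refine ⟨∑ i, (EuclideanSpace.proj i : Phase n →L[ℝ] ℝ).smulRight (f (e i)), fun z hz => ?_⟩
  set N : ℝ := (Fintype.card (Fin n ⊕ Fin n) : ℝ) with hN
  have hN0 : 0 ≤ N := by positivity
  have hM : (∑ i, (EuclideanSpace.proj i : Phase n →L[ℝ] ℝ).smulRight (f (e i))) z =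
      ∑ i, z i • f (e i) := by
    simp
  rw [hM]
  have hzz : ‖z‖ ^ 2 = ∑ i, z i * z i := by
    rw [EuclideanSpace.norm_sq_eq]
    exact Finset.sum_congr rfl fun i _ => by rw [Real.norm_eq_abs, sq_abs, sq]
  have hee : ∀ i j, ⟪e i, e j⟫ = if i = j then 1 else 0 := fun i j => by
    rw [hzi]
    simp [he, eq_comm]
  -- the three error terms
  have a1 : |‖f z‖ ^ 2 - ‖z‖ ^ 2| ≤ θ := by
    have := hf z 0 hz (by simp)
    rwa [hf0, sub_zero, sub_zero] at this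
  have a2 : |∑ i, z i * ⟪f z, f (e i)⟫ - ∑ i, z i * z i| ≤ N * (2 * θ) := by
    rw [← Finset.sum_sub_distrib]
    refine (Finset.abs_sum_le_sum_abs _ _).trans ?_
    have : ∀ i ∈ (Finset.univ : Finset (Fin n ⊕ Fin n)),
        |z i * ⟪f z, f (e i)⟫ - z i * z i| ≤ 2 * θ := by
      intro i _
      rw [← mul_sub, abs_mul]
      have h1 := inner_close hθ hf0 hf hz (hen i).le
      rw [hzi] at h1
      calc |z i| * |⟪f z, f (e i)⟫ - z i| ≤ 1 * (2 * θ) :=
            mul_le_mul (hzabs z hz i) h1 (abs_nonneg _) zero_le_one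
        _ = 2 * θ := one_mul _
    refine (Finset.sum_le_sum this).trans ?_
    rw [Finset.sum_const, Finset.card_univ, nsmul_eq_mul]
  have a3 : |∑ i, ∑ j, z i * (z j * ⟪f (e i), f (e j)⟫) - ∑ i, z i * z i| ≤
      N * (N * (2 * θ)) := by
    have e1 : ∑ i, z i * z i = ∑ i, ∑ j, z i * (z j * ⟪e i, e j⟫) := by
      refine Finset.sum_congr rfl fun i _ => ?_
      simp [hee]
    rw [e1, ← Finset.sum_sub_distrib]
    refine (Finset.abs_sum_le_sum_abs _ _).trans ?_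
    have : ∀ i ∈ (Finset.univ : Finset (Fin n ⊕ Fin n)),
        |∑ j, z i * (z j * ⟪f (e i), f (e j)⟫) - ∑ j, z i * (z j * ⟪e i, e j⟫)| ≤
          N * (2 * θ) := by
      intro i _
      rw [← Finset.sum_sub_distrib]
      refine (Finset.abs_sum_le_sum_abs _ _).trans ?_
      have : ∀ j ∈ (Finset.univ : Finset (Fin n ⊕ Fin n)),
          |z i * (z j * ⟪f (e i), f (e j)⟫) - z i * (z j * ⟪e i, e j⟫)| ≤ 2 * θ := by
        intro j _
        rw [← mul_sub, ← mul_sub, abs_mul, abs_mul]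
        have h1 := inner_close hθ hf0 hf (hen i).le (hen j).le
        calc |z i| * (|z j| * |⟪f (e i), f (e j)⟫ - ⟪e i, e j⟫|) ≤ 1 * (1 * (2 * θ)) := by
              apply mul_le_mul (hzabs z hz i) _ (by positivity) zero_le_one
              exact mul_le_mul (hzabs z hz j) h1 (abs_nonneg _) zero_le_one
          _ = 2 * θ := by ring
      refine (Finset.sum_le_sum this).trans ?_
      rw [Finset.sum_const, Finset.card_univ, nsmul_eq_mul]
    refine (Finset.sum_le_sum this).trans ?_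
    rw [Finset.sum_const, Finset.card_univ, nsmul_eq_mul]
  have e1 : ‖f z - ∑ i, z i • f (e i)‖ ^ 2 = ‖f z‖ ^ 2 - 2 * ∑ i, z i * ⟪f z, f (e i)⟫ +
      ∑ i, ∑ j, z i * (z j * ⟪f (e i), f (e j)⟫) := by
    have s1 : ⟪f z, ∑ i, z i • f (e i)⟫ = ∑ i, z i * ⟪f z, f (e i)⟫ := by
      rw [inner_sum]
      exact Finset.sum_congr rfl fun i _ => by rw [real_inner_smul_right]
    have s2 : ⟪∑ i, z i • f (e i), ∑ i, z i • f (e i)⟫ =
        ∑ i, ∑ j, z i * (z j * ⟪f (e i), f (e j)⟫) := by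
      rw [sum_inner]
      refine Finset.sum_congr rfl fun i _ => ?_
      rw [real_inner_smul_left, inner_sum, Finset.mul_sum]
      exact Finset.sum_congr rfl fun j _ => by rw [real_inner_smul_right]
    rw [norm_sub_sq_real, s1, ← real_inner_self_eq_norm_sq (∑ i, z i • f (e i)), s2]
  rw [e1]
  rw [hzz] at a1
  rw [abs_le] at a1 a2 a3
  nlinarith [a1.1, a1.2, a2.1, a2.2, a3.1, a3.2, mul_nonneg hN0 hθ]

/-- A symplectic map with small distortion is uniformly flat. -/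
lemma flat_of_near_isometry (n : ℕ) {ε : ℝ} (hε : 0 < ε) : ∃ δ : ℝ, 0 < δ ∧ δ ≤ 1 ∧
    ∀ φ : SympCt n, (∀ x, ‖fderiv ℝ (φ : Equiv.Perm (Phase n)) x‖ ≤ 1 + δ) →
      Flat (φ : Equiv.Perm (Phase n)) ε := by
  set N : ℝ := (Fintype.card (Fin n ⊕ Fin n) : ℝ) with hN
  have hN0 : 0 ≤ N := by positivity
  set δ : ℝ := min 1 (ε ^ 2 / (24 * (1 + N) ^ 2)) with hδ
  have hδ0 : 0 < δ := lt_min one_pos (by positivity)
  have hδ1 : δ ≤ 1 := min_le_left _ _
  have hδε : 24 * (1 + N) ^ 2 * δ ≤ ε ^ 2 := by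
    have h1 : δ ≤ ε ^ 2 / (24 * (1 + N) ^ 2) := min_le_right _ _
    rwa [le_div_iff₀' (by positivity)] at h1
  refine ⟨δ, hδ0, hδ1, fun φ hφ x r hr => ?_⟩
  have hr0 : r ≠ 0 := hr.ne'
  set f : Phase n → Phase n := fun z => r⁻¹ • ((φ : Equiv.Perm (Phase n)) (x + r • z) -
    (φ : Equiv.Perm (Phase n)) x) with hf
  have hf0 : f 0 = 0 := by simp [hf]
  have hdist : ∀ z z' : Phase n, ‖z‖ ≤ 1 → ‖z'‖ ≤ 1 →
      |‖f z - f z'‖ ^ 2 - ‖z - z'‖ ^ 2| ≤ 12 * δ := by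
    intro z z' hz hz'
    have e1 : f z - f z' = r⁻¹ • ((φ : Equiv.Perm (Phase n)) (x + r • z) -
        (φ : Equiv.Perm (Phase n)) (x + r • z')) := by
      simp only [hf, ← smul_sub]
      congr 1
      abel
    have h1 := lipschitz_of_fderiv φ hφ (x + r • z) (x + r • z')
    have h2 := lipschitz_of_fderiv φ⁻¹ (norm_fderiv_inv_le φ hφ)
      ((φ : Equiv.Perm (Phase n)) (x + r • z)) ((φ : Equiv.Perm (Phase n)) (x + r • z'))
    rw [SympCt.inv_apply_self, SympCt.inv_apply_self] at h2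
    have e2 : x + r • z - (x + r • z') = r • (z - z') := by rw [smul_sub]; abel
    rw [e2, norm_smul, Real.norm_of_nonneg hr.le] at h1 h2
    have e3 : ‖f z - f z'‖ = r⁻¹ * ‖(φ : Equiv.Perm (Phase n)) (x + r • z) -
        (φ : Equiv.Perm (Phase n)) (x + r • z')‖ := by
      rw [e1, norm_smul, Real.norm_of_nonneg (inv_pos.2 hr).le]
    set P := ‖(φ : Equiv.Perm (Phase n)) (x + r • z) -
        (φ : Equiv.Perm (Phase n)) (x + r • z')‖ with hP
    set t := ‖z - z'‖ with ht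
    set s := ‖f z - f z'‖ with hs
    have hPs : P = r * s := by rw [e3]; field_simp
    rw [hPs] at h1 h2
    have h3 : s ≤ (1 + δ) * t := by
      have : r * s ≤ r * ((1 + δ) * t) := by linarith
      exact le_of_mul_le_mul_left this hr
    have h4 : t ≤ (1 + δ) * s := by
      have : r * t ≤ r * ((1 + δ) * s) := by linarith
      exact le_of_mul_le_mul_left this hr
    have ht0 : 0 ≤ t := norm_nonneg _
    have hs0 : 0 ≤ s := norm_nonneg _
    have ht2 : t ≤ 2 := by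
      have := norm_sub_le z z'
      linarith
    have h5 : s ^ 2 ≤ (1 + δ) ^ 2 * t ^ 2 := by
      have := mul_self_le_mul_self hs0 h3
      nlinarith
    have h6 : t ^ 2 ≤ (1 + δ) ^ 2 * s ^ 2 := by
      have := mul_self_le_mul_self ht0 h4
      nlinarith
    have h7 : t ^ 2 ≤ 4 := by nlinarith
    have h8 : (1 + δ) ^ 2 - 1 ≤ 3 * δ := by nlinarith
    have h9 : 0 ≤ (1 + δ) ^ 2 - 1 := by nlinarith
    rw [abs_le]
    constructor
    · -- lower bound
      have h10 : t ^ 2 - s ^ 2 ≤ ((1 + δ) ^ 2 - 1) * t ^ 2 := by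
        rcases le_total (t ^ 2) (s ^ 2) with h | h
        · have : 0 ≤ ((1 + δ) ^ 2 - 1) * t ^ 2 := mul_nonneg h9 (sq_nonneg _)
          linarith
        · have : ((1 + δ) ^ 2 - 1) * s ^ 2 ≤ ((1 + δ) ^ 2 - 1) * t ^ 2 :=
            mul_le_mul_of_nonneg_left h h9
          linarith
      have h11 : ((1 + δ) ^ 2 - 1) * t ^ 2 ≤ (3 * δ) * 4 :=
        mul_le_mul h8 h7 (sq_nonneg _) (by positivity)
      linarith
    · have h11 : ((1 + δ) ^ 2 - 1) * t ^ 2 ≤ (3 * δ) * 4 :=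
        mul_le_mul h8 h7 (sq_nonneg _) (by positivity)
      linarith
  obtain ⟨M, hM⟩ := linear_close (θ := 12 * δ) (by positivity) hf0 hdist
  refine ⟨(φ : Equiv.Perm (Phase n)) x - M x, M, fun z hz => ?_⟩
  have h1 : ‖r⁻¹ • (z - x)‖ ≤ 1 := by
    rw [norm_smul, Real.norm_of_nonneg (inv_pos.2 hr).le, inv_mul_le_iff₀ hr, mul_one]
    exact hz
  have h2 := hM (r⁻¹ • (z - x)) h1
  have h3 : ‖f (r⁻¹ • (z - x)) - M (r⁻¹ • (z - x))‖ ^ 2 ≤ ε ^ 2 := by
    refine h2.trans ?_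
    calc 2 * (1 + N) ^ 2 * (12 * δ) = 24 * (1 + N) ^ 2 * δ := by ring
      _ ≤ ε ^ 2 := hδε
  have h4 : ‖f (r⁻¹ • (z - x)) - M (r⁻¹ • (z - x))‖ ≤ ε :=
    le_of_sq_le_sq h3 hε.le
  have e1 : (φ : Equiv.Perm (Phase n)) z - ((φ : Equiv.Perm (Phase n)) x - M x + M z) =
      r • (f (r⁻¹ • (z - x)) - M (r⁻¹ • (z - x))) := by
    simp only [hf]
    rw [M.map_smul, ← smul_sub, smul_smul, smul_smul, mul_inv_cancel₀ hr0, one_smul, one_smul,
      add_sub_cancel, M.map_sub]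
    abel
  rw [e1, norm_smul, Real.norm_of_nonneg hr.le, mul_comm]
  exact mul_le_mul_of_nonneg_right h4 hr.le

end Pool.Agent.Helper17
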