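import Mathlib
import Pool.Agent.Helper17.SympBase
import Pool.Agent.Helper17.Potential
import Pool.Agent.Helper17.Moser
import Pool.Agent.Helper17.Averaging

set_option maxSynthPendingDepth 3

open scoped ContDiff Topology
open Set Function Filter TopologicalSpace MeasureTheory

namespace Pool.Agent.Helper17

variable {n : ℕ}

lemma integrable_of_continuous_supp {E F : Type} [NormedAddCommGroup E] [NormedSpace ℝ E]
    [FiniteDimensional ℝ E] [MeasurableSpace E] [BorelSpace E] [NormedAddCommGroup F]
    (μ : Measure E) [IsFiniteMeasure μ] {R₀ : ℝ} (hμ : μ (Metric.closedBall 0 R₀)ᶜ = 0)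
    {g : E → F} (hg : Continuous g) : Integrable g μ := by
  have h1 : μ.restrict (Metric.closedBall (0 : E) R₀) = μ := by
    rw [Measure.restrict_eq_self_of_ae_mem]
    rw [ae_iff]
    exact hμ
  have h2 := hg.continuousOn.integrableOn_compact (μ := μ) (isCompact_closedBall (0 : E) R₀)
  rwa [IntegrableOn, h1] at h2

lemma admissible_of_pos {A : Phase n →L[ℝ] Phase n}
    (h : ∀ v : Phase n, v ≠ 0 → 0 < omegaStd (A v) (A (Jl n v))) : Admissible A := by
  intro s hs v hv
  by_contra hne
  have h1 := hv (Jl n v)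
  have h2 := h v hne
  rw [omegaStd_Jl] at h1
  have h3 : 0 < ‖v‖ ^ 2 := by positivity
  have e1 := hs.1
  have e2 := hs.2
  rcases e1.eq_or_lt with e3 | e3
  · rw [← e3] at h1
    linarith
  · have h4 := mul_pos e3 h2
    have h5 : 0 ≤ (1 - s) * ‖v‖ ^ 2 := mul_nonneg (by linarith) h3.le
    linarith

/-- If the mean square oscillation of the derivative is less than one then the averaged
derivative is admissible. -/
lemma admissible_of_variance (μ : Measure (Phase n)) [IsProbabilityMeasure μ]
    {R₀ : ℝ} (hμ : μ (Metric.closedBall 0 R₀)ᶜ = 0) (φ : SympCt n) (x : Phase n) (r : ℝ)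
    (h : ∀ v : Phase n, v ≠ 0 →
      ∫ z, ‖fderiv ℝ (φ : Equiv.Perm (Phase n)) (x + r • z) v -
        avgDeriv μ (φ : Equiv.Perm (Phase n)) x r v‖ ^ 2 ∂μ < ‖v‖ ^ 2) :
    Admissible (avgDeriv μ (φ : Equiv.Perm (Phase n)) x r) := by
  set A := avgDeriv μ (φ : Equiv.Perm (Phase n)) x r with hA
  set D : Phase n → Phase n →L[ℝ] Phase n := fun z =>
    fderiv ℝ (φ : Equiv.Perm (Phase n)) (x + r • z) with hD
  have hDc : Continuous D :=
    ((SympCt.contDiff φ).continuous_fderiv (by simp)).comp
      (continuous_const.add (continuous_const_smul r))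
  have hDi : Integrable D μ := integrable_of_continuous_supp μ hμ hDc
  have hAv : ∀ v, A v = ∫ z, D z v ∂μ := fun v => by
    rw [hA, avgDeriv]
    exact ContinuousLinearMap.integral_apply hDi v
  have hDvi : ∀ v, Integrable (fun z => D z v) μ := fun v =>
    integrable_of_continuous_supp μ hμ (hDc.clm_apply continuous_const)
  have hleft : ∀ v w, ∫ z, omegaStd (D z v) w ∂μ = omegaStd (A v) w := by
    intro v w
    have h1 : ∀ z, omegaStd (D z v) w = (omegaB n).flip w (D z v) := fun z => by
      simp [omegaB_apply]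
    simp only [h1]
    rw [ContinuousLinearMap.integral_comp_comm _ (hDvi v), ← hAv]
    simp [omegaB_apply]
  have hright : ∀ v w, ∫ z, omegaStd w (D z v) ∂μ = omegaStd w (A v) := by
    intro v w
    have h1 : ∀ z, omegaStd w (D z v) = (omegaB n) w (D z v) := fun z => by
      simp [omegaB_apply]
    simp only [h1]
    rw [ContinuousLinearMap.integral_comp_comm _ (hDvi v), ← hAv]
    simp [omegaB_apply]
  apply admissible_of_pos
  intro v hv
  have hJv : Jl n v ≠ 0 := by
    intro h0
    have := norm_Jl (n := n) v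
    rw [h0, norm_zero] at this
    exact hv (norm_eq_zero.1 this.symm)
  have hsymp : ∀ z, omegaStd (D z v) (D z (Jl n v)) = ‖v‖ ^ 2 := fun z => by
    rw [hD]
    simp only
    rw [φ.2.2.2.1, omegaStd_Jl]
  have hexp : ∀ z, omegaStd (D z v - A v) (D z (Jl n v) - A (Jl n v)) =
      ‖v‖ ^ 2 - omegaStd (D z v) (A (Jl n v)) - omegaStd (A v) (D z (Jl n v)) +
        omegaStd (A v) (A (Jl n v)) := by
    intro z
    rw [← hsymp z]
    simp only [omegaStd_sub_left, omegaStd_sub_right]
    ring
  have i1 : Integrable (fun z => omegaStd (D z v) (A (Jl n v))) μ := by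
    have h1 : ∀ z, omegaStd (D z v) (A (Jl n v)) = (omegaB n).flip (A (Jl n v)) (D z v) :=
      fun z => by simp [omegaB_apply]
    simp only [h1]
    exact ContinuousLinearMap.integrable_comp _ (hDvi v)
  have i2 : Integrable (fun z => omegaStd (A v) (D z (Jl n v))) μ := by
    have h1 : ∀ z, omegaStd (A v) (D z (Jl n v)) = (omegaB n) (A v) (D z (Jl n v)) :=
      fun z => by simp [omegaB_apply]
    simp only [h1]
    exact ContinuousLinearMap.integrable_comp _ (hDvi (Jl n v))
  have hint : ∫ z, omegaStd (D z v - A v) (D z (Jl n v) - A (Jl n v)) ∂μ =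
      ‖v‖ ^ 2 - omegaStd (A v) (A (Jl n v)) := by
    simp only [hexp]
    have j1 : Integrable (fun z => ‖v‖ ^ 2 - omegaStd (D z v) (A (Jl n v))) μ :=
      (integrable_const _).sub i1
    have j2 : Integrable (fun z => ‖v‖ ^ 2 - omegaStd (D z v) (A (Jl n v)) -
      omegaStd (A v) (D z (Jl n v))) μ := j1.sub i2
    rw [integral_add j2 (integrable_const _), integral_sub j1 i2,
      integral_sub (integrable_const _) i1, hleft, hright]
    simp
  have c1 : ∀ w, Continuous (fun z => ‖D z w - A w‖ ^ 2) := fun w =>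
    ((hDc.clm_apply continuous_const).sub continuous_const).norm.pow 2
  have hbound : ∫ z, omegaStd (D z v - A v) (D z (Jl n v) - A (Jl n v)) ∂μ ≤
      ∫ z, (1 / 2 * ‖D z v - A v‖ ^ 2 + 1 / 2 * ‖D z (Jl n v) - A (Jl n v)‖ ^ 2) ∂μ := by
    apply integral_mono
    · simp only [hexp]
      exact (((integrable_const _).sub i1).sub i2).add (integrable_const _)
    · exact ((integrable_of_continuous_supp μ hμ (c1 v)).const_mul _).add
        ((integrable_of_continuous_supp μ hμ (c1 (Jl n v))).const_mul _)
    · intro z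
      have h1 := abs_omegaStd_le (D z v - A v) (D z (Jl n v) - A (Jl n v))
      have h2 := le_abs_self (omegaStd (D z v - A v) (D z (Jl n v) - A (Jl n v)))
      have h3 := sq_nonneg (‖D z v - A v‖ - ‖D z (Jl n v) - A (Jl n v)‖)
      simp only
      nlinarith
  rw [hint, integral_add ((integrable_of_continuous_supp μ hμ (c1 v)).const_mul _)
    ((integrable_of_continuous_supp μ hμ (c1 (Jl n v))).const_mul _), integral_const_mul,
    integral_const_mul] at hbound
  have k1 := h v hv
  have k2 := h (Jl n v) hJv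
  rw [norm_Jl] at k2
  linarith

end Pool.Agent.Helper17
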