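import Mathlib
import Pool.Agent.Helper17.SympBase
import Pool.Agent.Helper17.Potential
import Pool.Agent.Helper17.Scale
import Pool.Agent.Helper17.Smoothing
import Pool.Agent.Helper17.Flatness
import Pool.Agent.Helper17.NearIsometry
import Pool.Agent.Helper17.Moser
import Pool.Agent.Helper17.Averaging
import Pool.Agent.Helper17.Variance
import Pool.Agent.Helper17.FlatAverage

set_option maxSynthPendingDepth 3

open scoped ContDiff Topology
open Set Function Filter TopologicalSpace MeasureTheory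

namespace Pool.Agent.Helper17

variable {n : ℕ}

/-- The smooth probability measure with density `eta`. -/
noncomputable def etaMeasure (n : ℕ) : Measure (Phase n) :=
  volume.withDensity (fun z => ENNReal.ofReal (eta (Phase n) z))

lemma measurable_etaDensity : Measurable (fun z => ENNReal.ofReal (eta (Phase n) z)) :=
  (contDiff_eta (Phase n)).continuous.measurable.ennreal_ofReal

lemma integral_etaMeasure {F : Type*} [NormedAddCommGroup F] [NormedSpace ℝ F] (g : Phase n → F) :
    ∫ z, g z ∂(etaMeasure n) = ∫ z, eta (Phase n) z • g z := by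
  rw [etaMeasure, integral_withDensity_eq_integral_toReal_smul measurable_etaDensity
    (Eventually.of_forall fun z => ENNReal.ofReal_lt_top)]
  congr 1
  ext1 z
  rw [ENNReal.toReal_ofReal (eta_nonneg _ _)]

instance : IsProbabilityMeasure (etaMeasure n) := by
  constructor
  rw [etaMeasure, withDensity_apply _ MeasurableSet.univ, Measure.restrict_univ,
    ← ofReal_integral_eq_lintegral_ofReal]
  · rw [integral_eta, ENNReal.ofReal_one]
  · exact Continuous.integrable_of_hasCompactSupport (contDiff_eta _).continuous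
      (hasCompactSupport_eta _)
  · exact Eventually.of_forall fun z => eta_nonneg _ _

lemma etaMeasure_singleton (hn : n ≠ 0) (x : Phase n) : etaMeasure n {x} = 0 := by
  have : Nonempty (Fin n) := ⟨⟨0, Nat.pos_of_ne_zero hn⟩⟩
  have h1 : (volume : Measure (Phase n)) {x} = 0 := by
    have : Nontrivial (Phase n) := inferInstance
    exact measure_singleton x
  exact withDensity_absolutelyContinuous _ _ h1

lemma etaMeasure_compl : etaMeasure n (Metric.closedBall 0 1)ᶜ = 0 := by
  rw [etaMeasure, withDensity_apply _ measurableSet_closedBall.compl,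
    lintegral_eq_zero_iff measurable_etaDensity]
  filter_upwards [ae_restrict_mem (measurableSet_closedBall (x := (0 : Phase n)).compl)] with z hz
  have : eta (Phase n) z = 0 := eta_eq_zero _ (by simpa using hz)
  simp [this]

lemma avgDeriv_etaMeasure (φ : Phase n → Phase n) (x : Phase n) (r : ℝ) :
    avgDeriv (etaMeasure n) φ x r = kAvg φ x r := integral_etaMeasure _

lemma nearly_admissible {A : Phase n →L[ℝ] Phase n} {θ : ℝ} (hθ : θ < 1)
    (h : ∀ v w, |omegaStd (A v) (A w) - omegaStd v w| ≤ θ * ‖v‖ * ‖w‖) : Admissible A := by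
  apply admissible_of_close hθ
  intro v
  have h1 := (abs_le.1 (h v (Jl n v))).1
  rw [omegaStd_Jl, norm_Jl] at h1
  nlinarith

lemma norm_le_of_flat {φ : Phase n → Phase n} {L ε r : ℝ} {x c : Phase n}
    {M : Phase n →L[ℝ] Phase n} (hr : 0 < r) (hL : 0 ≤ L) (hε : 0 ≤ ε)
    (hlip : ∀ y z, ‖φ y - φ z‖ ≤ L * ‖y - z‖)
    (hflat : ∀ z, ‖z - x‖ ≤ r → ‖φ z - (c + M z)‖ ≤ ε * r) : ‖M‖ ≤ L + 2 * ε := by
  apply norm_fderiv_le_of_increment hr (by positivity)
  intro a ha
  have h1 := hflat (x + a) (by rw [add_sub_cancel_left, ha])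
  have h2 := hflat x (by rw [sub_self, norm_zero]; exact hr.le)
  have h3 : M a = (φ (x + a) - φ x) - (φ (x + a) - (c + M (x + a))) + (φ x - (c + M x)) := by
    rw [map_add]; abel
  rw [h3]
  refine (norm_add_le _ _).trans ?_
  have h4 := norm_sub_le (φ (x + a) - φ x) (φ (x + a) - (c + M (x + a)))
  have h5 := hlip (x + a) x
  rw [add_sub_cancel_left, ha] at h5
  linarith

theorem nullhomotopic_of_flat (n : ℕ) (L : ℝ) : ∃ ε : ℝ, 0 < ε ∧ ∀ (T : Type) [TopologicalSpace T]
    [CompactSpace T] (f : C(T, SympCt n)),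
    (∀ t x, ‖fderiv ℝ (f t : Equiv.Perm (Phase n)) x‖ ≤ L) →
    (∀ t, Flat (f t : Equiv.Perm (Phase n)) ε) → f.Homotopic (ContinuousMap.const T 1) := by
  rcases eq_or_ne n 0 with hn | hn
  · subst hn
    refine ⟨1, one_pos, fun T _ _ f _ _ => ?_⟩
    have h1 : f = ContinuousMap.const T 1 := by
      ext1 t
      apply SympCt.ext'
      intro x
      exact Subsingleton.elim _ _
    rw [h1]
  obtain ⟨L', hL'⟩ : ∃ L', L' = max L 1 := ⟨_, rfl⟩
  have hL1 : 1 ≤ L' := hL' ▸ le_max_right _ _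
  set c := c1Eta (Phase n) with hc
  have hc0 : 0 ≤ c := c1Eta_nonneg _
  obtain ⟨ε, hεe⟩ : ∃ ε, ε = 1 / (2 * (c + 1) * (3 * L' + 1)) := ⟨_, rfl⟩
  have hε0 : 0 < ε := by rw [hεe]; positivity
  have hcε : (c + 1) * ε * (3 * L' + 1) = 1 / 2 := by
    rw [hεe]; field_simp
  have hε1 : ε ≤ 1 / 2 := by nlinarith [mul_nonneg hc0 hε0.le]
  refine ⟨ε, hε0, fun T _ _ f hf hflat => ?_⟩
  apply nullhomotopic_of_averages (etaMeasure n) (etaMeasure_singleton hn) etaMeasure_compl f
  intro t x r hr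
  rw [avgDeriv_etaMeasure]
  obtain ⟨c₀, M, hM⟩ := hflat t x r hr
  have hlip : ∀ y, ‖fderiv ℝ (f t : Equiv.Perm (Phase n)) y‖ ≤ L' := fun y =>
    (hf t y).trans (hL' ▸ le_max_left _ _)
  have hMn1 : ‖M‖ ≤ L' + 2 * ε :=
    norm_le_of_flat hr (by linarith) hε0.le (fun y z => lipschitz_of_fderiv (f t) hlip y z) hM
  have hMn : ‖M‖ ≤ 2 * L' := by linarith
  have hsymp : ∀ (y v w : Phase n),
      |omegaStd (fderiv ℝ (f t : Equiv.Perm (Phase n)) y v)
        (fderiv ℝ (f t : Equiv.Perm (Phase n)) y w) - omegaStd v w| ≤ 0 * ‖v‖ * ‖w‖ := by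
    intro y v w
    rw [(f t).2.2.2.1 y v w, sub_self, abs_zero, zero_mul, zero_mul]
  have h2 := (kAvg_close (SympCt.contDiff (f t)) hr hlip hsymp hMn hM).2
  apply nearly_admissible (θ := 0 + (c * ε) ^ 2 + 3 * L' * (c * ε)) _ h2
  have h4 : 0 ≤ c * ε := mul_nonneg hc0 hε0.le
  have h3 : c * ε ≤ 1 / 2 := by nlinarith
  have h5 : c * ε * (3 * L' + 1) ≤ 1 / 2 := by
    rw [← hcε]
    apply mul_le_mul_of_nonneg_right _ (by linarith)
    nlinarith
  nlinarith

theorem nullhomotopic_of_near_isometry (n : ℕ) : ∃ δ : ℝ, 0 < δ ∧ ∀ (T : Type)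
    [TopologicalSpace T] [CompactSpace T] (f : C(T, SympCt n)),
    (∀ t x, ‖fderiv ℝ (f t : Equiv.Perm (Phase n)) x‖ ≤ 1 + δ) →
    f.Homotopic (ContinuousMap.const T 1) := by
  obtain ⟨ε, hε, h⟩ := nullhomotopic_of_flat n 2
  obtain ⟨δ, hδ, hδ1, h'⟩ := flat_of_near_isometry n hε
  exact ⟨δ, hδ, fun T _ _ f hf => h T f (fun t x => (hf t x).trans (by linarith))
    (fun t => h' (f t) (hf t))⟩

end Pool.Agent.Helper17
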