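import Mathlib
import Pool.Agent.Helper17.SympBase
import Pool.Agent.Helper17.AdmPath
import Pool.Agent.Helper17.FlatFamilies

set_option maxSynthPendingDepth 3

open scoped ContDiff Topology
open Set Function Filter TopologicalSpace

namespace Pool.Agent.Helper17

variable {n : ℕ}

/-- The linear map `A` changes the symplectic form by at most `θ`. -/
def NearL (θ : ℝ) (A : Phase n →L[ℝ] Phase n) : Prop :=
  ∀ v w, |omegaStd (A v) (A w) - omegaStd v w| ≤ θ * ‖v‖ * ‖w‖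

lemma NearL.admissible {θ : ℝ} {A : Phase n →L[ℝ] Phase n} (h : NearL θ A) (hθ : θ < 1) :
    Admissible A := nearly_admissible hθ h

lemma NearL.mono {θ θ' : ℝ} {A : Phase n →L[ℝ] Phase n} (h : NearL θ A) (hθ : θ ≤ θ') :
    NearL θ' A := fun v w => (h v w).trans (by
      rw [mul_assoc, mul_assoc]
      exact mul_le_mul_of_nonneg_right hθ (by positivity))

lemma NearL.lower {θ : ℝ} {A : Phase n →L[ℝ] Phase n} (h : NearL θ A) (v : Phase n) :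
    (1 - θ) * ‖v‖ ^ 2 ≤ omegaStd (A v) (A (Jl n v)) := by
  have h1 := (abs_le.1 (h v (Jl n v))).1
  rw [omegaStd_Jl, norm_Jl] at h1
  nlinarith

lemma admissible_comp_moser {A C R : Phase n →L[ℝ] Phase n} {s θ : ℝ} (hs : s ∈ Icc (0 : ℝ) 1)
    (hθ0 : 0 ≤ θ) (hθ : θ < 1) (hA : NearL θ A) (hC : NearL θ C)
    (hcons : ∀ v w, (1 - s) * omegaStd (R v) (R w) + s * omegaStd (A (R v)) (A (R w)) =
      omegaStd v w) : Admissible (C.comp R) := by
  intro σ hσ v hv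
  have hRinj : Injective R := by
    rw [injective_iff_map_eq_zero]
    intro u hu
    apply eq_zero_of_omegaStd
    intro w
    rw [← hcons u w, hu, map_zero, omegaStd_zero_left, omegaStd_zero_left]
    simp
  have hRsurj : Surjective R :=
    LinearMap.surjective_of_injective (f := (R : Phase n →ₗ[ℝ] Phase n)) hRinj
  obtain ⟨w, hw⟩ := hRsurj (Jl n (R v))
  have h2 := hv w
  rw [← hcons v w] at h2
  simp only [ContinuousLinearMap.comp_apply] at h2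
  rw [hw, omegaStd_Jl] at h2
  have h3 := hA.lower (R v)
  have h4 := hC.lower (R v)
  obtain ⟨hs0, hs1⟩ := hs
  obtain ⟨hσ0, hσ1⟩ := hσ
  have h5 : (1 - θ) * ‖R v‖ ^ 2 ≤ ‖R v‖ ^ 2 := by nlinarith [sq_nonneg ‖R v‖]
  have h6 : (1 - θ) * ‖R v‖ ^ 2 ≤
      (1 - s) * ‖R v‖ ^ 2 + s * omegaStd (A (R v)) (A (Jl n (R v))) := by
    have e1 := mul_le_mul_of_nonneg_left h5 (by linarith : 0 ≤ 1 - s)
    have e2 := mul_le_mul_of_nonneg_left h3 hs0
    linarith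
  have h7 : (1 - θ) * ‖R v‖ ^ 2 ≤ 0 := by
    have e1 := mul_le_mul_of_nonneg_left h6 (by linarith : 0 ≤ 1 - σ)
    have e2 := mul_le_mul_of_nonneg_left h4 hσ0
    linarith
  have h8 : ‖R v‖ = 0 := by
    by_contra hne
    have : 0 < ‖R v‖ ^ 2 := by positivity
    have := mul_pos (by linarith : 0 < 1 - θ) this
    linarith
  exact hRinj (by rw [norm_eq_zero.1 h8, map_zero])

/-- The class of a composition. -/
theorem admPath_comp {Ψ₁ Ψ₂ : Phase n → Phase n} (h1 : Adm Ψ₁) (h2 : Adm Ψ₂) {θ : ℝ}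
    (hθ0 : 0 ≤ θ) (hθ : θ < 1) (n2 : ∀ x, NearL θ (fderiv ℝ Ψ₂ x))
    (n12 : ∀ x, NearL θ (fderiv ℝ (fun x => Ψ₁ (Ψ₂ x)) x)) {g₁ g₂ : SympCt n}
    (p1 : AdmPath Ψ₁ (g₁ : Equiv.Perm (Phase n))) (p2 : AdmPath Ψ₂ (g₂ : Equiv.Perm (Phase n))) :
    AdmPath (fun x => Ψ₁ (Ψ₂ x)) ((g₁ * g₂ : SympCt n) : Equiv.Perm (Phase n)) := by
  obtain ⟨K₁, hK₁, hΨ₁⟩ := h1.supp
  obtain ⟨K₂, hK₂, hΨ₂⟩ := h2.supp
  obtain ⟨ρ₁, hρ₁, hc₁, hρK₁, hρ0₁⟩ := h1.exists_moser hK₁ hΨ₁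
  obtain ⟨ρ₂, hρ₂, hc₂, hρK₂, hρ0₂⟩ := h2.exists_moser hK₂ hΨ₂
  set o : Icc (0 : ℝ) 1 := ⟨1, right_mem_Icc.2 zero_le_one⟩ with ho
  have hd : ∀ {Ψ : Phase n → Phase n} {ρ : Icc (0 : ℝ) 1 → Phase n → Phase n},
      ContDiff ℝ ∞ Ψ → CF ρ → ∀ s x, fderiv ℝ (fun x => Ψ (ρ s x)) x =
      (fderiv ℝ Ψ (ρ s x)).comp (fderiv ℝ (ρ s) x) := fun h hρ s x =>
    fderiv_comp x (h.differentiable (by simp) _) (hρ.differentiable s x)
  have hsymp : ∀ {Ψ : Phase n → Phase n} {ρ : Icc (0 : ℝ) 1 → Phase n → Phase n},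
      ContDiff ℝ ∞ Ψ → CF ρ → (∀ (s : Icc (0 : ℝ) 1) (x v w : Phase n),
        (1 - (s : ℝ)) * omegaStd (fderiv ℝ (ρ s) x v) (fderiv ℝ (ρ s) x w) +
        s * omegaStd (fderiv ℝ Ψ (ρ s x) (fderiv ℝ (ρ s) x v))
          (fderiv ℝ Ψ (ρ s x) (fderiv ℝ (ρ s) x w)) = omegaStd v w) →
      ∀ x u v, omegaStd (fderiv ℝ (fun x => Ψ (ρ o x)) x u)
      (fderiv ℝ (fun x => Ψ (ρ o x)) x v) = omegaStd u v := by
    intro Ψ ρ h hρ hc x u v
    rw [hd h hρ o x]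
    have := hc o x u v
    simp only [ho, sub_self, zero_mul, one_mul, zero_add] at this
    exact this
  have hCF₁ : CF (fun (s : Icc (0 : ℝ) 1) x => Ψ₁ (ρ₁ s x)) := (CF.const h1.smooth).comp hρ₁
  have hCF₂ : CF (fun (s : Icc (0 : ℝ) 1) x => Ψ₂ (ρ₂ s x)) := (CF.const h2.smooth).comp hρ₂
  have hK1' : ∀ (s : Icc (0 : ℝ) 1), ∀ x ∉ K₁, Ψ₁ (ρ₁ s x) = x := fun s x hx => by
    rw [hρK₁ x hx, hΨ₁ x hx]
  have hK2' : ∀ (s : Icc (0 : ℝ) 1), ∀ x ∉ K₂, Ψ₂ (ρ₂ s x) = x := fun s x hx => by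
    rw [hρK₂ x hx, hΨ₂ x hx]
  set g₁' : SympCt n := mkSymp (fun x => Ψ₁ (ρ₁ o x)) (hCF₁.contDiff o) ⟨K₁, hK₁, hK1' o⟩
    (hsymp h1.smooth hρ₁ hc₁) with hg₁'
  set g₂' : SympCt n := mkSymp (fun x => Ψ₂ (ρ₂ o x)) (hCF₂.contDiff o) ⟨K₂, hK₂, hK2' o⟩
    (hsymp h2.smooth hρ₂ hc₂) with hg₂'
  have e₁ : ∀ x, (g₁' : Equiv.Perm (Phase n)) x = Ψ₁ (ρ₁ o x) := fun x => rfl
  have e₂ : ∀ x, (g₂' : Equiv.Perm (Phase n)) x = Ψ₂ (ρ₂ o x) := fun x => rfl
  have p1' : AdmPath Ψ₁ (g₁' : Equiv.Perm (Phase n)) :=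
    ⟨fun s x => Ψ₁ (ρ₁ s x), hCF₁, ⟨K₁, hK₁, hK1'⟩, fun s x => by
      rw [hd h1.smooth hρ₁]
      exact admissible_moser s.2 (h1.adm _) (fun v w => hc₁ s x v w),
      by ext1 x; simp only [hρ0₁], by ext1 x; rfl⟩
  have p2' : AdmPath Ψ₂ (g₂' : Equiv.Perm (Phase n)) :=
    ⟨fun s x => Ψ₂ (ρ₂ s x), hCF₂, ⟨K₂, hK₂, hK2'⟩, fun s x => by
      rw [hd h2.smooth hρ₂]
      exact admissible_moser s.2 (h2.adm _) (fun v w => hc₂ s x v w),
      by ext1 x; simp only [hρ0₂], by ext1 x; rfl⟩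
  have j1 : Joined g₁' g₁ := joined_of_admPath (p1'.symm.trans p1)
  have j2 : Joined g₂' g₂ := joined_of_admPath (p2'.symm.trans p2)
  have j3 : Joined (g₁' * g₂') (g₁ * g₂) :=
    (Joined.mul_right' j1 g₂').trans (Joined.mul_left' j2 g₁)
  -- the first path
  have q1 : AdmPath (fun x => Ψ₁ (Ψ₂ x))
      (fun x => Ψ₁ ((g₂' : Equiv.Perm (Phase n)) x)) := by
    refine ⟨fun s x => Ψ₁ (Ψ₂ (ρ₂ s x)), (CF.const h1.smooth).comp hCF₂,
      ⟨K₁ ∪ K₂, hK₁.union hK₂, ?_⟩, ?_, ?_, ?_⟩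
    · intro s x hx
      beta_reduce
      rw [hK2' s x fun h => hx (Or.inr h), hΨ₁ x fun h => hx (Or.inl h)]
    · intro s x
      have : fderiv ℝ (fun x => Ψ₁ (Ψ₂ (ρ₂ s x))) x =
          (fderiv ℝ (fun x => Ψ₁ (Ψ₂ x)) (ρ₂ s x)).comp (fderiv ℝ (ρ₂ s) x) :=
        hd (Ψ := fun x => Ψ₁ (Ψ₂ x)) (h1.smooth.comp h2.smooth) hρ₂ s x
      rw [this]
      exact admissible_comp_moser s.2 hθ0 hθ (n2 _) (n12 _) (fun v w => hc₂ s x v w)
    · ext1 x
      simp only [hρ0₂]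
    · ext1 x
      rfl
  have q2 : AdmPath (fun x => Ψ₁ ((g₂' : Equiv.Perm (Phase n)) x))
      ((g₁' * g₂' : SympCt n) : Equiv.Perm (Phase n)) := by
    obtain ⟨K₃, hK₃, hK3'⟩ := g₂'.2.2.2.2
    refine ⟨fun s x => Ψ₁ (ρ₁ s ((g₂' : Equiv.Perm (Phase n)) x)),
      hCF₁.comp (CF.const (SympCt.contDiff g₂')), ⟨K₁ ∪ K₃, hK₁.union hK₃, ?_⟩, ?_, ?_, ?_⟩
    · intro s x hx
      beta_reduce
      rw [hK3' x fun h => hx (Or.inr h), hK1' s x fun h => hx (Or.inl h)]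
    · intro s x
      have : fderiv ℝ (fun x => Ψ₁ (ρ₁ s ((g₂' : Equiv.Perm (Phase n)) x))) x =
          (fderiv ℝ (fun x => Ψ₁ (ρ₁ s x)) ((g₂' : Equiv.Perm (Phase n)) x)).comp
            (fderiv ℝ (g₂' : Equiv.Perm (Phase n)) x) :=
        fderiv_comp x (hCF₁.differentiable s _) (SympCt.differentiable g₂' x)
      rw [this, hd h1.smooth hρ₁]
      exact (admissible_moser s.2 (h1.adm _) (fun v w => hc₁ s _ v w)).comp_symplectic
        (fun u v => g₂'.2.2.2.1 x u v)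
    · ext1 x
      simp only [hρ0₁]
    · ext1 x
      rfl
  exact (q1.trans q2).trans (admPath_of_joined j3)

/-- The segment between two maps with close derivatives. -/
lemma admPath_segment {Ψ₀ Ψ₁ : Phase n → Phase n} (h0 : ContDiff ℝ ∞ Ψ₀) (h1 : ContDiff ℝ ∞ Ψ₁)
    {K : Set (Phase n)} (hK : IsCompact K) (hK0 : ∀ x ∉ K, Ψ₀ x = x) (hK1 : ∀ x ∉ K, Ψ₁ x = x)
    (hadm : ∀ x, ∀ t ∈ Icc (0 : ℝ) 1,
      Admissible (fderiv ℝ Ψ₀ x + t • (fderiv ℝ Ψ₁ x - fderiv ℝ Ψ₀ x))) :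
    AdmPath Ψ₀ Ψ₁ := by
  refine ⟨fun t x => Ψ₀ x + (t : ℝ) • (Ψ₁ x - Ψ₀ x), ?_, ⟨K, hK, ?_⟩, ?_, ?_, ?_⟩
  · exact (CF.const h0).add ((CF.param continuous_subtype_val).smul ((CF.const h1).sub
      (CF.const h0)))
  · intro t x hx
    beta_reduce
    rw [hK0 x hx, hK1 x hx]
    simp
  · intro t x
    have e : fderiv ℝ (fun x => Ψ₀ x + (t : ℝ) • (Ψ₁ x - Ψ₀ x)) x =
        fderiv ℝ Ψ₀ x + (t : ℝ) • (fderiv ℝ Ψ₁ x - fderiv ℝ Ψ₀ x) :=
      (((h0.differentiable (by simp) x).hasFDerivAt).add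
        ((((h1.differentiable (by simp) x).hasFDerivAt).sub
          ((h0.differentiable (by simp) x).hasFDerivAt)).const_smul (t : ℝ))).fderiv
    rw [e]
    exact hadm x t t.2
  · ext1 x
    simp
  · ext1 x
    simp

/-- Translations and dilations do not change the class. -/
lemma admPath_rescale {Ψ : Phase n → Phase n} (h : Adm Ψ) (p : Phase n) {l : ℝ} (hl : 0 < l) :
    AdmPath Ψ (fun y => l⁻¹ • (Ψ (p + l • y) - p)) := by
  obtain ⟨K, hK, hΨK⟩ := h.supp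
  obtain ⟨R, hR⟩ := hK.isBounded.subset_closedBall (0 : Phase n)
  set lt : Icc (0 : ℝ) 1 → ℝ := fun t => (1 - t) + t * l with hlt
  have hlt0 : ∀ t, min 1 l ≤ lt t := fun t => by
    have h1 := min_le_left 1 l
    have h2 := min_le_right 1 l
    have h3 := t.2.1
    have h4 := t.2.2
    have e1 : (1 - (t : ℝ)) * min 1 l ≤ (1 - t) * 1 := mul_le_mul_of_nonneg_left h1 (by linarith)
    have e2 : (t : ℝ) * min 1 l ≤ t * l := mul_le_mul_of_nonneg_left h2 h3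
    simp only [hlt]
    linarith
  have hmin : 0 < min 1 l := lt_min one_pos hl
  have hltp : ∀ t, 0 < lt t := fun t => hmin.trans_le (hlt0 t)
  have hltc : Continuous lt := (continuous_const.sub continuous_subtype_val).add
    (continuous_subtype_val.mul continuous_const)
  have hinv : Continuous (fun t => (lt t)⁻¹) := hltc.inv₀ fun t => (hltp t).ne'
  have hpc : Continuous (fun t : Icc (0 : ℝ) 1 => (t : ℝ) • p) :=
    continuous_subtype_val.smul continuous_const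
  have hin : CF (fun (t : Icc (0 : ℝ) 1) (y : Phase n) => (t : ℝ) • p + lt t • y) :=
    (CF.param hpc).add ((CF.param hltc).smul (CF.const contDiff_id))
  refine ⟨fun t y => (lt t)⁻¹ • (Ψ ((t : ℝ) • p + lt t • y) - (t : ℝ) • p), ?_,
    ⟨Metric.closedBall 0 ((|R| + ‖p‖) / min 1 l), isCompact_closedBall _ _, ?_⟩, ?_, ?_, ?_⟩
  · exact (CF.param hinv).smul (((CF.const h.smooth).comp hin).sub (CF.param hpc))
  · intro t y hy
    have h1 : (|R| + ‖p‖) / min 1 l < ‖y‖ := by simpa using hy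
    have h2 : (t : ℝ) • p + lt t • y ∉ K := by
      intro hmem
      have h3 := hR hmem
      rw [mem_closedBall_zero_iff] at h3
      have h4 : ‖lt t • y‖ ≤ ‖(t : ℝ) • p + lt t • y‖ + ‖(t : ℝ) • p‖ := by
        have := norm_sub_le ((t : ℝ) • p + lt t • y) ((t : ℝ) • p)
        rwa [add_sub_cancel_left] at this
      have h5 : ‖(t : ℝ) • p‖ ≤ ‖p‖ := by
        rw [norm_smul, Real.norm_of_nonneg t.2.1]
        exact mul_le_of_le_one_left (norm_nonneg _) t.2.2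
      have h6 : min 1 l * ‖y‖ ≤ ‖lt t • y‖ := by
        rw [norm_smul, Real.norm_of_nonneg (hltp t).le]
        exact mul_le_mul_of_nonneg_right (hlt0 t) (norm_nonneg _)
      have h7 : |R| + ‖p‖ < min 1 l * ‖y‖ := by
        rw [div_lt_iff₀ hmin] at h1
        linarith
      have := le_abs_self R
      linarith
    beta_reduce
    rw [hΨK _ h2, add_sub_cancel_left, smul_smul, inv_mul_cancel₀ (hltp t).ne', one_smul]
  · intro t y
    have e : fderiv ℝ (fun y => (lt t)⁻¹ • (Ψ ((t : ℝ) • p + lt t • y) - (t : ℝ) • p)) y =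
        fderiv ℝ Ψ ((t : ℝ) • p + lt t • y) := by
      have h1 : HasFDerivAt (fun y : Phase n => (t : ℝ) • p + lt t • y)
          (lt t • ContinuousLinearMap.id ℝ (Phase n)) y :=
        ((hasFDerivAt_id y).const_smul (lt t)).const_add _
      have h2 := (h.smooth.differentiable (by simp) ((t : ℝ) • p + lt t • y)).hasFDerivAt.comp y h1
      have h3 := (h2.sub_const ((t : ℝ) • p)).const_smul (lt t)⁻¹
      refine HasFDerivAt.fderiv (h3.congr_fderiv ?_)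
      ext1 v
      simp only [smul_apply, ContinuousLinearMap.comp_apply,
        ContinuousLinearMap.id_apply, map_smul, smul_smul]
      rw [inv_mul_cancel₀ (hltp t).ne', one_smul]
    rw [e]
    exact h.adm _
  · ext1 y
    simp [hlt]
  · ext1 y
    simp [hlt]

end Pool.Agent.Helper17
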