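import Mathlib

open scoped ContDiff Topology ENNReal
open Set Function Filter MeasureTheory

namespace Pool.Agent.Helper17

variable {E : Type*} [NormedAddCommGroup E] [InnerProductSpace ℝ E] [FiniteDimensional ℝ E]
  [MeasurableSpace E] [BorelSpace E]
  {F : Type*} [NormedAddCommGroup F] [NormedSpace ℝ F] [CompleteSpace F]

/-- Change of variables for homotheties. -/
lemma lintegral_homothety_le {S : Set E} (hS : Convex ℝ S) (hSm : MeasurableSet S) {f : E → ℝ≥0∞}
    (hf : Measurable f) {y : E} (hy : y ∈ S) {t : ℝ} (ht : t ∈ Icc (1 / 2 : ℝ) 1) :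
    ∫⁻ z in S, f (y + t • (z - y)) ≤ 2 ^ (Module.finrank ℝ E) * ∫⁻ z in S, f z := by
  have ht0 : 0 < t := lt_of_lt_of_le (by norm_num) ht.1
  have h1 : ∫⁻ z in S, f (y + t • (z - y)) ≤ ∫⁻ z, S.indicator f (y + t • (z - y)) := by
    rw [← lintegral_indicator hSm]
    apply lintegral_mono
    intro z
    by_cases hz : z ∈ S
    · have h2 : y + t • (z - y) ∈ S := by
        have := hS.add_smul_sub_mem hy hz ⟨ht0.le, ht.2⟩
        exact this
      simp only [indicator_of_mem hz, indicator_of_mem h2, le_refl]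
    · simp only [indicator_of_notMem hz, zero_le]
  have hmeas : Measurable (fun w : E => S.indicator f ((y - t • y) + w)) :=
    (hf.indicator hSm).comp (measurable_const.add measurable_id)
  have h3 : ∫⁻ z, S.indicator f (y + t • (z - y)) =
      ENNReal.ofReal (abs (t ^ Module.finrank ℝ E)⁻¹) * ∫⁻ z in S, f z := by
    have e1 : ∀ z, S.indicator f (y + t • (z - y)) =
        (fun w : E => S.indicator f ((y - t • y) + w)) (t • z) := by
      intro z
      simp only
      congr 1
      rw [smul_sub]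
      abel
    simp only [e1]
    rw [← lintegral_map hmeas (measurable_const_smul t), Measure.map_addHaar_smul _ ht0.ne',
      lintegral_smul_measure, lintegral_add_left_eq_self (fun w => S.indicator f w),
      lintegral_indicator hSm, smul_eq_mul]
  refine h1.trans (h3.le.trans (mul_le_mul_left ?_ _))
  rw [abs_of_nonneg (by positivity), ← inv_pow]
  have h4 : (t⁻¹) ^ Module.finrank ℝ E ≤ 2 ^ Module.finrank ℝ E := by
    apply pow_le_pow_left₀ (by positivity)
    rw [inv_le_comm₀ ht0 (by norm_num)]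
    have := ht.1
    linarith
  calc ENNReal.ofReal ((t⁻¹) ^ Module.finrank ℝ E) ≤ ENNReal.ofReal (2 ^ Module.finrank ℝ E) :=
        ENNReal.ofReal_le_ofReal h4
    _ = 2 ^ Module.finrank ℝ E := by
        rw [ENNReal.ofReal_pow (by norm_num)]
        simp

/-- The fundamental theorem of calculus along segments. -/
lemma enorm_sub_le_lintegral {g : E → F} (hg : ContDiff ℝ 1 g) (y z : E) :
    ‖g z - g y‖ₑ ≤ ‖z - y‖ₑ * ∫⁻ t in Icc (0 : ℝ) 1, ‖fderiv ℝ g (y + t • (z - y))‖ₑ := by
  have hd : ∀ t : ℝ, HasDerivAt (fun t : ℝ => g (y + t • (z - y)))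
      (fderiv ℝ g (y + t • (z - y)) (z - y)) t := by
    intro t
    have h1 : HasDerivAt (fun t : ℝ => y + t • (z - y)) (z - y) t := by
      have := ((hasDerivAt_id t).smul_const (z - y)).const_add y
      simpa using this
    exact ((hg.differentiable (by simp) _).hasFDerivAt).comp_hasDerivAt t h1
  have hc0 : Continuous (fun t : ℝ => y + t • (z - y)) :=
    continuous_const.add (continuous_id.smul continuous_const)
  have hc1 : Continuous (fun t : ℝ => fderiv ℝ g (y + t • (z - y))) :=
    (hg.continuous_fderiv (by simp)).comp hc0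
  have hc : Continuous (fun t : ℝ => fderiv ℝ g (y + t • (z - y)) (z - y)) :=
    hc1.clm_apply continuous_const
  have h1 : g z - g y = ∫ t in (0 : ℝ)..1, fderiv ℝ g (y + t • (z - y)) (z - y) := by
    rw [intervalIntegral.integral_eq_sub_of_hasDerivAt (fun t _ => hd t)
      (hc.intervalIntegrable _ _)]
    simp
  rw [h1, intervalIntegral.integral_of_le zero_le_one, ← integral_Icc_eq_integral_Ioc]
  refine (enorm_integral_le_lintegral_enorm _).trans ?_
  rw [← lintegral_const_mul _ hc1.enorm.measurable]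
  apply lintegral_mono
  intro t
  simp only
  rw [mul_comm]
  exact ContinuousLinearMap.le_opENorm _ _

lemma lintegral_segments_le {g : E → F} (hg : ContDiff ℝ 1 g) {S : Set E} (hS : Convex ℝ S)
    (hSm : MeasurableSet S) :
    ∫⁻ z in S, ∫⁻ y in S, ∫⁻ t in Icc (0 : ℝ) 1, ‖fderiv ℝ g (y + t • (z - y))‖ₑ ≤
      volume S * (2 ^ (Module.finrank ℝ E) * ∫⁻ z in S, ‖fderiv ℝ g z‖ₑ) := by
  have hfc : Continuous (fderiv ℝ g) := hg.continuous_fderiv (by simp)
  have hfm : Measurable (fun z => ‖fderiv ℝ g z‖ₑ) := hfc.enorm.measurable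
  set X := ∫⁻ z in S, ‖fderiv ℝ g z‖ₑ with hX
  have hKc : Continuous (fun q : (E × ℝ) × E => ‖fderiv ℝ g (q.2 + q.1.2 • (q.1.1 - q.2))‖ₑ) := by
    apply Continuous.enorm
    apply hfc.comp
    fun_prop
  have hK1 : ∀ z : E, ∫⁻ y in S, ∫⁻ t in Icc (0 : ℝ) 1, ‖fderiv ℝ g (y + t • (z - y))‖ₑ =
      ∫⁻ t in Icc (0 : ℝ) 1, ∫⁻ y in S, ‖fderiv ℝ g (y + t • (z - y))‖ₑ := by
    intro z
    apply lintegral_lintegral_swap
    apply Measurable.aemeasurable
    have : Continuous (fun q : E × ℝ => ‖fderiv ℝ g (q.1 + q.2 • (z - q.1))‖ₑ) := by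
      apply Continuous.enorm
      apply hfc.comp
      fun_prop
    exact this.measurable
  have hK2 : ∫⁻ z in S, ∫⁻ t in Icc (0 : ℝ) 1, ∫⁻ y in S, ‖fderiv ℝ g (y + t • (z - y))‖ₑ =
      ∫⁻ t in Icc (0 : ℝ) 1, ∫⁻ z in S, ∫⁻ y in S, ‖fderiv ℝ g (y + t • (z - y))‖ₑ := by
    apply lintegral_lintegral_swap
    apply Measurable.aemeasurable
    exact hKc.measurable.lintegral_prod_right' (ν := volume.restrict S)
  simp only [hK1]
  rw [hK2]
  have hbound : ∀ t ∈ Icc (0 : ℝ) 1, ∫⁻ z in S, ∫⁻ y in S, ‖fderiv ℝ g (y + t • (z - y))‖ₑ ≤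
      volume S * (2 ^ (Module.finrank ℝ E) * X) := by
    intro t ht
    rcases le_total t (1 / 2) with h | h
    · have h1 : ∫⁻ z in S, ∫⁻ y in S, ‖fderiv ℝ g (y + t • (z - y))‖ₑ ≤
          ∫⁻ z in S, 2 ^ (Module.finrank ℝ E) * X := by
        apply setLIntegral_mono' hSm
        intro z hz
        have h2 := lintegral_homothety_le hS hSm hfm hz (t := 1 - t) ⟨by linarith, by linarith [ht.1]⟩
        have e : ∀ y, y + t • (z - y) = z + (1 - t) • (y - z) := fun y => by module
        simp only [e]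
        exact h2
      refine h1.trans (le_of_eq ?_)
      rw [lintegral_const, Measure.restrict_apply MeasurableSet.univ, univ_inter, mul_comm]
    · have hsw : ∫⁻ z in S, ∫⁻ y in S, ‖fderiv ℝ g (y + t • (z - y))‖ₑ =
          ∫⁻ y in S, ∫⁻ z in S, ‖fderiv ℝ g (y + t • (z - y))‖ₑ := by
        apply lintegral_lintegral_swap
        apply Measurable.aemeasurable
        have : Continuous (fun q : E × E => ‖fderiv ℝ g (q.2 + t • (q.1 - q.2))‖ₑ) := by
          apply Continuous.enorm
          apply hfc.comp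
          fun_prop
        exact this.measurable
      rw [hsw]
      have h1 : ∫⁻ y in S, ∫⁻ z in S, ‖fderiv ℝ g (y + t • (z - y))‖ₑ ≤
          ∫⁻ z in S, 2 ^ (Module.finrank ℝ E) * X := by
        apply setLIntegral_mono' hSm
        intro y hy
        exact lintegral_homothety_le hS hSm hfm hy ⟨h, ht.2⟩
      refine h1.trans (le_of_eq ?_)
      rw [lintegral_const, Measure.restrict_apply MeasurableSet.univ, univ_inter, mul_comm]
  refine (setLIntegral_mono' measurableSet_Icc hbound).trans (le_of_eq ?_)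
  rw [lintegral_const, Measure.restrict_apply MeasurableSet.univ, univ_inter, Real.volume_Icc]
  simp

/-- Poincare's inequality on balls, in a form with a point value. -/
lemma poincare_ball {g : E → F} (hg : ContDiff ℝ 1 g) (x : E) {r : ℝ} (hr : 0 < r) :
    ∃ z₀ ∈ Metric.closedBall x r, ∫⁻ y in Metric.closedBall x r, ‖g y - g z₀‖ₑ ≤
      ENNReal.ofReal (2 * r) * (2 ^ (Module.finrank ℝ E) *
        ∫⁻ y in Metric.closedBall x r, ‖fderiv ℝ g y‖ₑ) := by
  set B := Metric.closedBall x r with hB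
  have hBm : MeasurableSet B := measurableSet_closedBall
  have hBc : Convex ℝ B := convex_closedBall x r
  have hB0 : volume B ≠ 0 := (Metric.measure_closedBall_pos volume x hr).ne'
  have hB1 : volume B ≠ ⊤ := measure_closedBall_lt_top.ne
  set X := ∫⁻ y in B, ‖fderiv ℝ g y‖ₑ with hX
  have hmeas : Measurable (fun z => ∫⁻ y in B, ‖g y - g z‖ₑ) := by
    have h1 : Continuous (fun q : E × E => ‖g q.2 - g q.1‖ₑ) := by
      apply Continuous.enorm
      exact (hg.continuous.comp continuous_snd).sub (hg.continuous.comp continuous_fst)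
    exact h1.measurable.lintegral_prod_right' (ν := volume.restrict B)
  obtain ⟨z₀, hz₀, hle⟩ := exists_le_setLAverage hB0 hB1 hmeas.aemeasurable
  refine ⟨z₀, hz₀, hle.trans ?_⟩
  rw [setLAverage_eq, ENNReal.div_le_iff hB0 hB1]
  calc ∫⁻ z in B, ∫⁻ y in B, ‖g y - g z‖ₑ ≤
        ∫⁻ z in B, ∫⁻ y in B, ENNReal.ofReal (2 * r) *
          ∫⁻ t in Icc (0 : ℝ) 1, ‖fderiv ℝ g (y + t • (z - y))‖ₑ := by
        apply setLIntegral_mono' hBm
        intro z hz
        apply setLIntegral_mono' hBm
        intro y hy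
        have h1 := enorm_sub_le_lintegral hg y z
        rw [← enorm_neg, neg_sub] at h1
        refine h1.trans (mul_le_mul_left ?_ _)
        rw [← ofReal_norm]
        apply ENNReal.ofReal_le_ofReal
        have e1 : z - y = (z - x) - (y - x) := by abel
        rw [e1]
        refine (norm_sub_le _ _).trans ?_
        rw [hB, mem_closedBall_iff_norm] at hz hy
        linarith
    _ = ENNReal.ofReal (2 * r) * ∫⁻ z in B, ∫⁻ y in B,
          ∫⁻ t in Icc (0 : ℝ) 1, ‖fderiv ℝ g (y + t • (z - y))‖ₑ := by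
        rw [← lintegral_const_mul']
        · congr 1
          ext1 z
          rw [lintegral_const_mul' _ _ ENNReal.ofReal_ne_top]
        · exact ENNReal.ofReal_ne_top
    _ ≤ ENNReal.ofReal (2 * r) * (volume B * (2 ^ (Module.finrank ℝ E) * X)) :=
        mul_le_mul_right (lintegral_segments_le hg hBc hBm) _
    _ = _ := by ring

end Pool.Agent.Helper17
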