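import Mathlib
import Pool.Agent.Helper17.Poincare

open scoped ContDiff Topology ENNReal
open Set Function Filter MeasureTheory

namespace Pool.Agent.Helper17

variable {E : Type*} [NormedAddCommGroup E] [InnerProductSpace ℝ E] [FiniteDimensional ℝ E]
  [MeasurableSpace E] [BorelSpace E]
  {F : Type*} [NormedAddCommGroup F] [NormedSpace ℝ F] [CompleteSpace F]

lemma lintegral_segments_le_of_continuous {f : E → ℝ≥0∞} (hf : Continuous f) {S : Set E}
    (hS : Convex ℝ S) (hSm : MeasurableSet S) :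
    ∫⁻ z in S, ∫⁻ y in S, ∫⁻ t in Icc (0 : ℝ) 1, f (y + t • (z - y)) ≤
      volume S * (2 ^ (Module.finrank ℝ E) * ∫⁻ z in S, f z) := by
  have hfm : Measurable f := hf.measurable
  set X := ∫⁻ z in S, f z with hX
  have hKc : Continuous (fun q : (E × ℝ) × E => f (q.2 + q.1.2 • (q.1.1 - q.2))) := by
    apply hf.comp
    fun_prop
  have hK1 : ∀ z : E, ∫⁻ y in S, ∫⁻ t in Icc (0 : ℝ) 1, f (y + t • (z - y)) =
      ∫⁻ t in Icc (0 : ℝ) 1, ∫⁻ y in S, f (y + t • (z - y)) := by
    intro z
    apply lintegral_lintegral_swap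
    apply Measurable.aemeasurable
    have : Continuous (fun q : E × ℝ => f (q.1 + q.2 • (z - q.1))) := by
      apply hf.comp
      fun_prop
    exact this.measurable
  have hK2 : ∫⁻ z in S, ∫⁻ t in Icc (0 : ℝ) 1, ∫⁻ y in S, f (y + t • (z - y)) =
      ∫⁻ t in Icc (0 : ℝ) 1, ∫⁻ z in S, ∫⁻ y in S, f (y + t • (z - y)) := by
    apply lintegral_lintegral_swap
    apply Measurable.aemeasurable
    exact hKc.measurable.lintegral_prod_right' (ν := volume.restrict S)
  simp only [hK1]
  rw [hK2]
  have hbound : ∀ t ∈ Icc (0 : ℝ) 1, ∫⁻ z in S, ∫⁻ y in S, f (y + t • (z - y)) ≤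
      volume S * (2 ^ (Module.finrank ℝ E) * X) := by
    intro t ht
    rcases le_total t (1 / 2) with h | h
    · have h1 : ∫⁻ z in S, ∫⁻ y in S, f (y + t • (z - y)) ≤
          ∫⁻ z in S, 2 ^ (Module.finrank ℝ E) * X := by
        apply setLIntegral_mono' hSm
        intro z hz
        have h2 := lintegral_homothety_le hS hSm hfm hz (t := 1 - t) ⟨by linarith, by linarith [ht.1]⟩
        have e : ∀ y, y + t • (z - y) = z + (1 - t) • (y - z) := fun y => by module
        simp only [e]
        exact h2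
      refine h1.trans (le_of_eq ?_)
      rw [lintegral_const, Measure.restrict_apply MeasurableSet.univ, univ_inter, mul_comm]
    · have hsw : ∫⁻ z in S, ∫⁻ y in S, f (y + t • (z - y)) =
          ∫⁻ y in S, ∫⁻ z in S, f (y + t • (z - y)) := by
        apply lintegral_lintegral_swap
        apply Measurable.aemeasurable
        have : Continuous (fun q : E × E => f (q.2 + t • (q.1 - q.2))) := by
          apply hf.comp
          fun_prop
        exact this.measurable
      rw [hsw]
      have h1 : ∫⁻ y in S, ∫⁻ z in S, f (y + t • (z - y)) ≤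
          ∫⁻ z in S, 2 ^ (Module.finrank ℝ E) * X := by
        apply setLIntegral_mono' hSm
        intro y hy
        exact lintegral_homothety_le hS hSm hfm hy ⟨h, ht.2⟩
      refine h1.trans (le_of_eq ?_)
      rw [lintegral_const, Measure.restrict_apply MeasurableSet.univ, univ_inter, mul_comm]
  refine (setLIntegral_mono' measurableSet_Icc hbound).trans (le_of_eq ?_)
  rw [lintegral_const, Measure.restrict_apply MeasurableSet.univ, univ_inter, Real.volume_Icc]
  simp

omit [NormedSpace ℝ F] [CompleteSpace F] in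
lemma sq_lintegral_Icc_le {a : ℝ → F} (ha : Continuous a) :
    (∫⁻ t in Icc (0 : ℝ) 1, ‖a t‖ₑ) ^ 2 ≤ ∫⁻ t in Icc (0 : ℝ) 1, ‖a t‖ₑ ^ 2 := by
  have : IsProbabilityMeasure (volume.restrict (Icc (0 : ℝ) 1)) :=
    ⟨by rw [Measure.restrict_apply MeasurableSet.univ, univ_inter, Real.volume_Icc]; simp⟩
  have h1 : eLpNorm a 1 (volume.restrict (Icc (0 : ℝ) 1)) ≤
      eLpNorm a 2 (volume.restrict (Icc (0 : ℝ) 1)) :=
    eLpNorm_le_eLpNorm_of_exponent_le (by norm_num) ha.aestronglyMeasurable
  rw [eLpNorm_one_eq_lintegral_enorm] at h1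
  have h2 := pow_le_pow_left₀ (by positivity) h1 2
  refine h2.trans (le_of_eq ?_)
  have h3 := eLpNorm_nnreal_pow_eq_lintegral (f := a) (μ := volume.restrict (Icc (0 : ℝ) 1))
    (p := 2) (by norm_num)
  norm_num at h3
  exact h3

/-- Poincare's inequality in `L^2` on the unit ball, in a form with a point value. -/
lemma poincare_sq {g : E → F} (hg : ContDiff ℝ 1 g) :
    ∃ z₀ ∈ Metric.closedBall (0 : E) 1, ∫⁻ y in Metric.closedBall (0 : E) 1, ‖g y - g z₀‖ₑ ^ 2 ≤
      4 * (2 ^ (Module.finrank ℝ E) * ∫⁻ y in Metric.closedBall (0 : E) 1, ‖fderiv ℝ g y‖ₑ ^ 2) := by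
  set B := Metric.closedBall (0 : E) 1 with hB
  have hBm : MeasurableSet B := measurableSet_closedBall
  have hBc : Convex ℝ B := convex_closedBall 0 1
  have hB0 : volume B ≠ 0 := (Metric.measure_closedBall_pos volume 0 one_pos).ne'
  have hB1 : volume B ≠ ⊤ := measure_closedBall_lt_top.ne
  have hfc : Continuous (fderiv ℝ g) := hg.continuous_fderiv (by simp)
  set X := ∫⁻ y in B, ‖fderiv ℝ g y‖ₑ ^ 2 with hX
  have hmeas : Measurable (fun z => ∫⁻ y in B, ‖g y - g z‖ₑ ^ 2) := by
    have h1 : Continuous (fun q : E × E => ‖g q.2 - g q.1‖ₑ ^ 2) := by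
      apply (ENNReal.continuous_pow 2).comp
      apply Continuous.enorm
      exact (hg.continuous.comp continuous_snd).sub (hg.continuous.comp continuous_fst)
    exact h1.measurable.lintegral_prod_right' (ν := volume.restrict B)
  obtain ⟨z₀, hz₀, hle⟩ := exists_le_setLAverage hB0 hB1 hmeas.aemeasurable
  refine ⟨z₀, hz₀, hle.trans ?_⟩
  rw [setLAverage_eq, ENNReal.div_le_iff hB0 hB1]
  calc ∫⁻ z in B, ∫⁻ y in B, ‖g y - g z‖ₑ ^ 2 ≤
        ∫⁻ z in B, ∫⁻ y in B, 4 *
          ∫⁻ t in Icc (0 : ℝ) 1, ‖fderiv ℝ g (y + t • (z - y))‖ₑ ^ 2 := by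
        apply setLIntegral_mono' hBm
        intro z hz
        apply setLIntegral_mono' hBm
        intro y hy
        have h1 := enorm_sub_le_lintegral hg y z
        rw [← enorm_neg, neg_sub] at h1
        have h2 : ‖z - y‖ₑ ≤ 2 := by
          rw [← ofReal_norm]
          have e2 : (2 : ℝ≥0∞) = ENNReal.ofReal 2 := by simp
          rw [e2]
          apply ENNReal.ofReal_le_ofReal
          refine (norm_sub_le _ _).trans ?_
          rw [hB, mem_closedBall_zero_iff] at hz hy
          linarith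
        have hc : Continuous (fun t : ℝ => fderiv ℝ g (y + t • (z - y))) :=
          hfc.comp (continuous_const.add (continuous_id.smul continuous_const))
        calc ‖g y - g z‖ₑ ^ 2 ≤
              (2 * ∫⁻ t in Icc (0 : ℝ) 1, ‖fderiv ℝ g (y + t • (z - y))‖ₑ) ^ 2 := by
              gcongr
              exact h1.trans (mul_le_mul' h2 le_rfl)
          _ = 4 * (∫⁻ t in Icc (0 : ℝ) 1, ‖fderiv ℝ g (y + t • (z - y))‖ₑ) ^ 2 := by
              rw [mul_pow]; norm_num
          _ ≤ _ := mul_le_mul' le_rfl (sq_lintegral_Icc_le hc)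
    _ = 4 * ∫⁻ z in B, ∫⁻ y in B,
          ∫⁻ t in Icc (0 : ℝ) 1, ‖fderiv ℝ g (y + t • (z - y))‖ₑ ^ 2 := by
        rw [← lintegral_const_mul' _ _ (by norm_num)]
        congr 1
        ext1 z
        rw [lintegral_const_mul' _ _ (by norm_num)]
    _ ≤ 4 * (volume B * (2 ^ (Module.finrank ℝ E) * X)) :=
        mul_le_mul' le_rfl (lintegral_segments_le_of_continuous
          ((ENNReal.continuous_pow 2).comp hfc.enorm) hBc hBm)
    _ = _ := by ring

end Pool.Agent.Helper17
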