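import Mathlib
import Pool.Agent.Helper17.SympBase
import Pool.Agent.Helper17.FlatFamilies
import Pool.Agent.Helper17.FlatAverage

set_option maxSynthPendingDepth 3

open scoped ContDiff Topology
open Set Function Filter TopologicalSpace MeasureTheory

namespace Pool.Agent.Helper17

variable {n : ℕ}

/-- `φ` is within `ε r` of an affine map on the ball of centre `x` and radius `r`. -/
def Good (φ : Phase n → Phase n) (ε : ℝ) (x : Phase n) (r : ℝ) : Prop :=
  ∃ (c : Phase n) (M : Phase n →L[ℝ] Phase n),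
    ∀ z, ‖z - x‖ ≤ r → ‖φ z - (c + M z)‖ ≤ ε * r

lemma restrict_etaMeasure : (etaMeasure n).restrict (Metric.closedBall 0 1) = etaMeasure n := by
  rw [Measure.restrict_eq_self_of_ae_mem]
  rw [ae_iff]
  exact etaMeasure_compl

lemma integrable_etaMeasure {F : Type} [NormedAddCommGroup F] {g : Phase n → F}
    (hg : Continuous g) : Integrable g (etaMeasure n) :=
  integrable_of_continuous_supp (etaMeasure n) etaMeasure_compl hg

lemma norm_integral_etaMeasure_le {F : Type*} [NormedAddCommGroup F] [NormedSpace ℝ F]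
    {g : Phase n → F} {C : ℝ} (hg : ∀ z, ‖z‖ ≤ 1 → ‖g z‖ ≤ C) : ‖∫ z, g z ∂(etaMeasure n)‖ ≤ C := by
  rw [integral_etaMeasure]
  exact norm_integral_eta_smul_le hg

lemma integral_etaMeasure_id : ∫ z, z ∂(etaMeasure n) = 0 := by
  rw [integral_etaMeasure]
  have h := integral_neg_eq_self (fun t : Phase n => eta (Phase n) t • t) volume
  simp only [eta_neg, smul_neg] at h
  rw [integral_neg] at h
  have h2 : (2 : ℝ) • ∫ z, eta (Phase n) z • z = 0 := by
    rw [two_smul]
    nth_rewrite 1 [← h]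
    rw [neg_add_cancel]
  exact (smul_eq_zero.1 h2).resolve_left two_ne_zero

/-- Mollification of `φ` at the variable scale `ρ`. -/
noncomputable def vmol (φ : Phase n → Phase n) (ρ : Phase n → ℝ) (x : Phase n) : Phase n :=
  ∫ z in Metric.closedBall (0 : Phase n) 1, φ (x + ρ x • z) ∂(etaMeasure n)

lemma vmol_eq (φ : Phase n → Phase n) (ρ : Phase n → ℝ) (x : Phase n) :
    vmol φ ρ x = ∫ z, φ (x + ρ x • z) ∂(etaMeasure n) := by
  rw [vmol, restrict_etaMeasure]

lemma CF_vmol {T : Type} [TopologicalSpace T] {φ : Phase n → Phase n} (hφ : ContDiff ℝ ∞ φ)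
    {ρ : T → Phase n → ℝ} (hρ : CF ρ) : CF (fun t x => vmol φ (ρ t) x) := by
  have h1 : CF (fun (q : T × Phase n) (x : Phase n) => x + ρ q.1 x • q.2) :=
    (CF.const contDiff_id).add ((hρ.base continuous_fst).smul (CF.param continuous_snd))
  have h2 : CF (fun (q : T × Phase n) (x : Phase n) => φ (x + ρ q.1 x • q.2)) :=
    (CF.const hφ).comp h1
  exact h2.setIntegral (isCompact_closedBall (0 : Phase n) 1) (etaMeasure n)

lemma contDiff_vmol {φ : Phase n → Phase n} (hφ : ContDiff ℝ ∞ φ)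
    {ρ : Phase n → ℝ} (hρ : ContDiff ℝ ∞ ρ) : ContDiff ℝ ∞ (vmol φ ρ) :=
  (CF_vmol (T := Unit) hφ (ρ := fun _ => ρ) (CF.const hρ)).contDiff ()

lemma hasFDerivAt_vmol {φ : Phase n → Phase n} (hφ : ContDiff ℝ ∞ φ)
    {ρ : Phase n → ℝ} (hρ : ContDiff ℝ ∞ ρ) (x : Phase n) :
    HasFDerivAt (vmol φ ρ) (∫ z, (fderiv ℝ φ (x + ρ x • z)).comp
      (ContinuousLinearMap.id ℝ (Phase n) + (fderiv ℝ ρ x).smulRight z) ∂(etaMeasure n)) x := by
  have h1 : CF (fun (q : Unit × Phase n) (x : Phase n) => x + ρ x • q.2) :=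
    (CF.const contDiff_id).add ((CF.const hρ).smul (CF.param continuous_snd))
  have h2 : CF (fun (q : Unit × Phase n) (x : Phase n) => φ (x + ρ x • q.2)) :=
    (CF.const hφ).comp h1
  have h3 := hasFDerivAt_setIntegral (isCompact_closedBall (0 : Phase n) 1) (etaMeasure n)
    h2.continuous h2.differentiable h2.fderiv.continuous () x
  rw [restrict_etaMeasure] at h3
  have h4 : ∀ z, fderiv ℝ (fun x : Phase n => φ (x + ρ x • z)) x =
      (fderiv ℝ φ (x + ρ x • z)).comp
        (ContinuousLinearMap.id ℝ (Phase n) + (fderiv ℝ ρ x).smulRight z) := by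
    intro z
    have h5 : HasFDerivAt (fun x : Phase n => x + ρ x • z)
        (ContinuousLinearMap.id ℝ (Phase n) + (fderiv ℝ ρ x).smulRight z) x :=
      (hasFDerivAt_id x).add
        ((hρ.differentiable (by simp) x).hasFDerivAt.smul_const z)
    exact ((hφ.differentiable (by simp) _).hasFDerivAt.comp x h5).fderiv
  simp only [h4] at h3
  have h6 : (fun x => ∫ z in Metric.closedBall (0 : Phase n) 1, φ (x + ρ x • z) ∂(etaMeasure n)) =
    vmol φ ρ := rfl
  rw [restrict_etaMeasure] at h6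
  rw [← h6]
  exact h3

lemma kAvg_eq (φ : Phase n → Phase n) (x : Phase n) (r : ℝ) :
    kAvg φ x r = ∫ z, fderiv ℝ φ (x + r • z) ∂(etaMeasure n) := (integral_etaMeasure _).symm

lemma norm_kAvg_le {φ : Phase n → Phase n} {L : ℝ} (hL : ∀ y, ‖fderiv ℝ φ y‖ ≤ L) (x : Phase n)
    (r : ℝ) : ‖kAvg φ x r‖ ≤ L := by
  rw [kAvg_eq]
  exact norm_integral_etaMeasure_le fun z _ => hL _

lemma norm_fderiv_vmol_sub_le {φ : Phase n → Phase n} (hφ : ContDiff ℝ ∞ φ)
    {ρ : Phase n → ℝ} (hρ : ContDiff ℝ ∞ ρ) {L : ℝ} (hL : ∀ y, ‖fderiv ℝ φ y‖ ≤ L) (x : Phase n) :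
    ‖fderiv ℝ (vmol φ ρ) x - kAvg φ x (ρ x)‖ ≤ L * ‖fderiv ℝ ρ x‖ := by
  have hL0 : 0 ≤ L := (norm_nonneg _).trans (hL 0)
  have hc1 : Continuous (fun z => fderiv ℝ φ (x + ρ x • z)) :=
    (hφ.continuous_fderiv (by simp)).comp (continuous_const.add (continuous_const_smul _))
  have hc2 : Continuous (fun z : Phase n => (fderiv ℝ ρ x).smulRight z) :=
    (ContinuousLinearMap.smulRightL ℝ (Phase n) (Phase n) (fderiv ℝ ρ x)).continuous
  have hc3 : Continuous (fun z => (fderiv ℝ φ (x + ρ x • z)).comp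
      (ContinuousLinearMap.id ℝ (Phase n) + (fderiv ℝ ρ x).smulRight z)) :=
    hc1.clm_comp (continuous_const.add hc2)
  rw [(hasFDerivAt_vmol hφ hρ x).fderiv, kAvg_eq,
    ← integral_sub (integrable_etaMeasure hc3) (integrable_etaMeasure hc1)]
  apply norm_integral_etaMeasure_le
  intro z hz
  have h1 : (fderiv ℝ φ (x + ρ x • z)).comp
      (ContinuousLinearMap.id ℝ (Phase n) + (fderiv ℝ ρ x).smulRight z) -
      fderiv ℝ φ (x + ρ x • z) = (fderiv ℝ φ (x + ρ x • z)).comp ((fderiv ℝ ρ x).smulRight z) := by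
    ext1 v
    simp
  rw [h1]
  refine (ContinuousLinearMap.opNorm_comp_le _ _).trans ?_
  apply mul_le_mul (hL _) _ (norm_nonneg _) hL0
  rw [ContinuousLinearMap.norm_smulRight_apply]
  exact mul_le_of_le_one_right (norm_nonneg _) hz

lemma norm_fderiv_vmol_le {φ : Phase n → Phase n} (hφ : ContDiff ℝ ∞ φ)
    {ρ : Phase n → ℝ} (hρ : ContDiff ℝ ∞ ρ) {L e : ℝ} (hL : ∀ y, ‖fderiv ℝ φ y‖ ≤ L)
    {x : Phase n} (he : ‖fderiv ℝ ρ x‖ ≤ e) :
    ‖fderiv ℝ (vmol φ ρ) x‖ ≤ L + L * e := by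
  have hL0 : 0 ≤ L := (norm_nonneg _).trans (hL 0)
  have h1 := norm_fderiv_vmol_sub_le hφ hρ hL x
  have h2 := norm_kAvg_le hL x (ρ x)
  have h3 : ‖fderiv ℝ (vmol φ ρ) x‖ ≤ ‖fderiv ℝ (vmol φ ρ) x - kAvg φ x (ρ x)‖ +
      ‖kAvg φ x (ρ x)‖ := by
    have := norm_add_le (fderiv ℝ (vmol φ ρ) x - kAvg φ x (ρ x)) (kAvg φ x (ρ x))
    rwa [sub_add_cancel] at this
  have h4 := mul_le_mul_of_nonneg_left he hL0
  linarith

lemma vmol_eq_self {φ : Phase n → Phase n} {ρ : Phase n → ℝ} {x : Phase n}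
    (h : ∀ z, ‖z‖ ≤ 1 → φ (x + ρ x • z) = x + ρ x • z) : vmol φ ρ x = x := by
  rw [vmol]
  rw [setIntegral_congr_fun (g := fun z => x + ρ x • z) measurableSet_closedBall
    (fun z hz => h z (by simpa using hz)), restrict_etaMeasure,
    integral_add (integrable_const _) (integrable_etaMeasure (continuous_const_smul (ρ x))),
    integral_smul, integral_etaMeasure_id]
  simp

lemma vmol_eq_of_gt {φ : Phase n → Phase n} {ρ : Phase n → ℝ} {x : Phase n} {R B : ℝ}
    (hφ : ∀ y, R < ‖y‖ → φ y = y) (hB : |ρ x| ≤ B) (hx : R + B < ‖x‖) : vmol φ ρ x = x := by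
  apply vmol_eq_self
  intro z hz
  apply hφ
  have h1 : ‖x‖ ≤ ‖x + ρ x • z‖ + ‖ρ x • z‖ := by
    have := norm_sub_le (x + ρ x • z) (ρ x • z)
    rwa [add_sub_cancel_right] at this
  have h2 : ‖ρ x • z‖ ≤ B := by
    rw [norm_smul, Real.norm_eq_abs]
    calc |ρ x| * ‖z‖ ≤ B * 1 := mul_le_mul hB hz (norm_nonneg _) ((abs_nonneg _).trans hB)
      _ = B := mul_one _
  linarith

lemma vmol_zero {φ : Phase n → Phase n} {ρ : Phase n → ℝ} {x : Phase n} (h : ρ x = 0) :
    vmol φ ρ x = φ x := by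
  rw [vmol_eq, h]
  simp

/-- Mollification of an affine map. -/
lemma norm_vmol_sub_le {φ : Phase n → Phase n} (hφ : Continuous φ) {ρ : Phase n → ℝ}
    {x c : Phase n} {M : Phase n →L[ℝ] Phase n} {e : ℝ}
    (h : ∀ z, ‖z‖ ≤ 1 → ‖φ (x + ρ x • z) - (c + M (x + ρ x • z))‖ ≤ e) :
    ‖vmol φ ρ x - (c + M x)‖ ≤ e := by
  have hc1 : Continuous (fun z => φ (x + ρ x • z)) :=
    hφ.comp (continuous_const.add (continuous_const_smul _))
  have hc2 : Continuous (fun z => c + M (x + ρ x • z)) :=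
    continuous_const.add (M.continuous.comp (continuous_const.add (continuous_const_smul _)))
  have h1 : ∫ z, (c + M (x + ρ x • z)) ∂(etaMeasure n) = c + M x := by
    have e1 : ∀ z, c + M (x + ρ x • z) = (c + M x) + ρ x • M z := fun z => by
      rw [map_add, map_smul, add_assoc]
    simp only [e1]
    have i1 : Integrable (fun z => ρ x • M z) (etaMeasure n) :=
      (integrable_etaMeasure M.continuous).smul (ρ x)
    rw [integral_add (integrable_const _) i1, integral_smul]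
    have h2 : ∫ z, M z ∂(etaMeasure n) = 0 := by
      have h3 := ContinuousLinearMap.integral_comp_comm M
        (integrable_etaMeasure (n := n) (g := fun z => z) continuous_id)
      rw [integral_etaMeasure_id, map_zero] at h3
      exact h3
    rw [h2]
    simp
  rw [vmol_eq, ← h1, ← integral_sub (integrable_etaMeasure hc1) (integrable_etaMeasure hc2)]
  exact norm_integral_etaMeasure_le h

end Pool.Agent.Helper17
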