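import Mathlib
import Pool.Agent.Helper17.SympBase
import Pool.Agent.Helper17.VarScale
import Pool.Agent.Helper17.Poincare

set_option maxSynthPendingDepth 3

open scoped ContDiff Topology ENNReal
open Set Function Filter MeasureTheory

namespace Pool.Agent.Helper17

variable {n : ℕ}

/-- The volume of the unit ball. -/
noncomputable def ballVol (n : ℕ) : ℝ := volume.real (Metric.ball (0 : Phase n) 1)

lemma ballVol_pos (n : ℕ) : 0 < ballVol n := by
  unfold ballVol
  exact ENNReal.toReal_pos (Metric.measure_ball_pos volume _ one_pos).ne' measure_ball_lt_top.ne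

lemma finrank_phase (n : ℕ) : Module.finrank ℝ (Phase n) = 2 * n := by
  rw [finrank_euclideanSpace]
  simp
  ring

lemma volume_ball_phase (x : Phase n) {r : ℝ} (hr : 0 < r) :
    volume (Metric.ball x r) = ENNReal.ofReal (r ^ (2 * n) * ballVol n) := by
  rw [Measure.addHaar_ball_of_pos _ _ hr, finrank_phase, ENNReal.ofReal_mul (by positivity)]
  congr 1
  rw [ballVol, Measure.real, ENNReal.ofReal_toReal measure_ball_lt_top.ne]

lemma volume_closedBall_phase (x : Phase n) {r : ℝ} (hr : 0 ≤ r) :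
    volume (Metric.closedBall x r) = ENNReal.ofReal (r ^ (2 * n) * ballVol n) := by
  rw [Measure.addHaar_closedBall _ _ hr, finrank_phase, ENNReal.ofReal_mul (by positivity)]
  congr 1
  rw [ballVol, Measure.real, ENNReal.ofReal_toReal measure_ball_lt_top.ne]

/-- A ball on which a Lipschitz map is not flat carries a definite amount of second derivative. -/
lemma exists_bad_energy (hn : n ≠ 0) {L κ : ℝ} (hL1 : 1 ≤ L) (hκ0 : 0 < κ) (hκ1 : κ ≤ 1) :
    ∃ a : ℝ, 0 < a ∧ ∀ φ : Phase n → Phase n, ContDiff ℝ ∞ φ → (∀ x, ‖fderiv ℝ φ x‖ ≤ L) →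
      ∀ (x : Phase n) (r : ℝ), 0 < r → ¬Good φ κ x r →
        a * r ^ (2 * n - 1) ≤ ∫ y in Metric.closedBall x r, ‖fderiv ℝ (fderiv ℝ φ) y‖ := by
  have hL0 : 0 < L := by linarith
  set bv := ballVol n with hbv
  have hbv0 : 0 < bv := ballVol_pos n
  set m := 2 * n with hm
  have hm1 : 1 ≤ m := by omega
  refine ⟨κ * (κ / (8 * L)) ^ m * bv / (2 * 4 ^ (m + 1)), by positivity, ?_⟩
  intro φ hφ hL x r hr hbad
  have hDφ : ContDiff ℝ ∞ (fderiv ℝ φ) := hφ.fderiv_right (by simp)
  have hD2c : Continuous (fderiv ℝ (fderiv ℝ φ)) := hDφ.continuous_fderiv (by simp)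
  set B := Metric.closedBall x r with hB
  set I := ∫ y in B, ‖fderiv ℝ (fderiv ℝ φ) y‖ with hI
  have hI0 : 0 ≤ I := integral_nonneg fun _ => norm_nonneg _
  have hIe : ∫⁻ y in B, ‖fderiv ℝ (fderiv ℝ φ) y‖ₑ = ENNReal.ofReal I := by
    rw [hI, ofReal_integral_norm_eq_lintegral_enorm]
    exact hD2c.continuousOn.integrableOn_compact (isCompact_closedBall x r)
  obtain ⟨z₀, hz₀, h1⟩ := poincare_ball (hDφ.of_le (by simp)) x hr
  rw [hIe, finrank_phase, ← hm] at h1
  set M := fderiv ℝ φ z₀ with hM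
  set w : Phase n → Phase n := fun y => φ y - M y with hw
  have hws : ContDiff ℝ ∞ w := hφ.sub M.contDiff
  have hwd : ∀ y, fderiv ℝ w y = fderiv ℝ φ y - M := fun y =>
    ((hφ.differentiable (by simp) y).hasFDerivAt.sub M.hasFDerivAt).fderiv
  obtain ⟨z₁, hz₁, h2⟩ := poincare_ball (hws.of_le (by simp)) x hr
  simp only [hwd] at h2
  rw [finrank_phase, ← hm] at h2
  have h3 : ∫⁻ y in B, ‖w y - w z₁‖ₑ ≤
      ENNReal.ofReal ((2 * r) * (2 ^ m * ((2 * r) * (2 ^ m * I)))) := by
    refine h2.trans ?_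
    have e1 : (2 : ℝ≥0∞) ^ m = ENNReal.ofReal (2 ^ m) := by
      rw [ENNReal.ofReal_pow (by norm_num)]
      simp
    rw [e1] at h1 ⊢
    rw [← ENNReal.ofReal_mul (by positivity), ← ENNReal.ofReal_mul (by positivity)] at h1
    rw [ENNReal.ofReal_mul (show 0 ≤ 2 * r by positivity),
      ENNReal.ofReal_mul (show (0 : ℝ) ≤ 2 ^ m by positivity)]
    exact mul_le_mul_right (mul_le_mul_right h1 _) _
  -- the bad point
  have h4 : ∃ y, ‖y - x‖ ≤ r ∧ κ * r < ‖w y - w z₁‖ := by
    by_contra hcon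
    push Not at hcon
    apply hbad
    refine ⟨w z₁, M, fun z hz => ?_⟩
    have h5 := hcon z hz
    have h6 : φ z - (w z₁ + M z) = w z - w z₁ := by
      rw [hw]
      simp only
      abel
    rw [h6]
    exact h5
  obtain ⟨y, hy, hyw⟩ := h4
  have hMn : ‖M‖ ≤ L := hL z₀
  have hwlip : ∀ u v, ‖w u - w v‖ ≤ 2 * L * ‖u - v‖ := fun u v =>
    convex_univ.norm_image_sub_le_of_norm_fderiv_le (𝕜 := ℝ)
      (fun z _ => hws.differentiable (by simp) z)
      (fun z _ => by rw [hwd]; exact (norm_sub_le _ _).trans (by linarith [hL z]))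
      (mem_univ v) (mem_univ u)
  set s := κ / (8 * L) with hs
  have hs0 : 0 < s := by positivity
  have hs1 : s ≤ 1 := by
    rw [hs, div_le_one (by positivity)]
    linarith
  set y' := x + (1 - s) • (y - x) with hy'
  have hyy : ‖y' - x‖ ≤ (1 - s) * r := by
    rw [hy', add_sub_cancel_left, norm_smul, Real.norm_of_nonneg (by linarith)]
    exact mul_le_mul_of_nonneg_left hy (by linarith)
  have hyy2 : ‖y' - y‖ ≤ s * r := by
    have e1 : y' - y = (-s) • (y - x) := by
      rw [hy']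
      module
    rw [e1, norm_smul, norm_neg, Real.norm_of_nonneg hs0.le]
    exact mul_le_mul_of_nonneg_left hy hs0.le
  have hsub : Metric.ball y' (s * r) ⊆ B := by
    intro u hu
    rw [mem_ball_iff_norm] at hu
    rw [hB, mem_closedBall_iff_norm]
    have e1 : u - x = (u - y') + (y' - x) := by abel
    rw [e1]
    refine (norm_add_le _ _).trans ?_
    nlinarith
  have hlow : ∀ u ∈ Metric.ball y' (s * r), ENNReal.ofReal (κ * r / 2) ≤ ‖w u - w z₁‖ₑ := by
    intro u hu
    rw [mem_ball_iff_norm] at hu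
    rw [← ofReal_norm]
    apply ENNReal.ofReal_le_ofReal
    have e1 : ‖u - y‖ ≤ 2 * (s * r) := by
      have : u - y = (u - y') + (y' - y) := by abel
      rw [this]
      refine (norm_add_le _ _).trans ?_
      linarith
    have e2 := hwlip y u
    rw [norm_sub_rev y u] at e2
    have e3 : 2 * L * ‖u - y‖ ≤ κ * r / 2 := by
      have : 2 * L * ‖u - y‖ ≤ 2 * L * (2 * (s * r)) :=
        mul_le_mul_of_nonneg_left e1 (by positivity)
      refine this.trans (le_of_eq ?_)
      rw [hs]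
      field_simp
      ring
    have e4 : w y - w z₁ = (w y - w u) + (w u - w z₁) := by abel
    have e5 := norm_add_le (w y - w u) (w u - w z₁)
    rw [← e4] at e5
    linarith
  have h5 : ENNReal.ofReal (κ * r / 2 * ((s * r) ^ m * bv)) ≤ ∫⁻ y in B, ‖w y - w z₁‖ₑ := by
    calc ENNReal.ofReal (κ * r / 2 * ((s * r) ^ m * bv)) =
          ∫⁻ _ in Metric.ball y' (s * r), ENNReal.ofReal (κ * r / 2) := by
          rw [lintegral_const, Measure.restrict_apply MeasurableSet.univ, univ_inter,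
            volume_ball_phase _ (by positivity), ENNReal.ofReal_mul (by positivity)]
      _ ≤ ∫⁻ u in Metric.ball y' (s * r), ‖w u - w z₁‖ₑ :=
          setLIntegral_mono' measurableSet_ball hlow
      _ ≤ ∫⁻ y in B, ‖w y - w z₁‖ₑ := lintegral_mono_set hsub
  have h6 : κ * r / 2 * ((s * r) ^ m * bv) ≤ (2 * r) * (2 ^ m * ((2 * r) * (2 ^ m * I))) :=
    (ENNReal.ofReal_le_ofReal_iff (by positivity)).1 (h5.trans h3)
  have h7 : r ^ m = r ^ (m - 1) * r := by
    rw [← pow_succ]
    congr 1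
    omega
  have h8 : (κ * s ^ m * bv / (2 * 4 ^ (m + 1)) * r ^ (m - 1)) * (4 ^ (m + 1) * r ^ 2) ≤
      I * (4 ^ (m + 1) * r ^ 2) := by
    have e1 : (4 : ℝ) ^ (m + 1) = 4 * (2 ^ m * 2 ^ m) := by
      rw [pow_succ, ← mul_pow]
      norm_num
      ring
    have e2 : (κ * s ^ m * bv / (2 * 4 ^ (m + 1)) * r ^ (m - 1)) * (4 ^ (m + 1) * r ^ 2) =
        κ * r / 2 * ((s * r) ^ m * bv) := by
      rw [mul_pow, h7]
      field_simp
    rw [e2]
    refine h6.trans (le_of_eq ?_)
    rw [e1]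
    ring
  exact le_of_mul_le_mul_right h8 (by positivity)

end Pool.Agent.Helper17
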