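import Mathlib
import Pool.Agent.Helper17.SympBase
import Pool.Agent.Helper17.BadEnergy

set_option maxSynthPendingDepth 3

open scoped ContDiff Topology ENNReal
open Set Function Filter MeasureTheory

namespace Pool.Agent.Helper17

variable {n : ℕ}

/-- Hoelder's inequality for powers. -/
lemma setIntegral_pow_le {f : Phase n → ℝ} (hf0 : ∀ x, 0 ≤ f x) {m : ℕ} (hm : 1 ≤ m)
    {S : Set (Phase n)} (hS : volume S ≠ ⊤) (hfi : IntegrableOn f S)
    (hfmi : IntegrableOn (fun x => f x ^ m) S) :
    (∫ x in S, f x) ^ m ≤ (volume.real S) ^ (m - 1) * ∫ x in S, f x ^ m := by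
  have hm0 : m ≠ 0 := by omega
  have hI0 : 0 ≤ ∫ x in S, f x := integral_nonneg fun x => hf0 x
  have hJ0 : 0 ≤ ∫ x in S, f x ^ m := integral_nonneg fun x => pow_nonneg (hf0 x) m
  have hv0 : 0 ≤ volume.real S := measureReal_nonneg
  rcases hI0.eq_or_lt with h0 | h0
  · rw [← h0, zero_pow hm0]
    positivity
  · have hv : 0 < volume.real S := by
      rcases hv0.eq_or_lt with h1 | h1
      · exfalso
        have h2 : volume S = 0 := by
          rw [Measure.real, eq_comm, ENNReal.toReal_eq_zero_iff] at h1
          exact h1.resolve_right hS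
        have h3 : ∫ x in S, f x = 0 := setIntegral_measure_zero f h2
        linarith
      · exact h1
    set v := volume.real S with hvdef
    set t := (∫ x in S, f x) / v with ht
    have ht0 : 0 < t := by positivity
    have hIt : ∫ x in S, f x = t * v := by rw [ht]; field_simp
    have hpt : ∀ x, t ^ m + m * t ^ (m - 1) * (f x - t) ≤ f x ^ m := by
      intro x
      have h1 := one_add_mul_le_pow (a := f x / t - 1) (by
        have : 0 ≤ f x / t := div_nonneg (hf0 x) ht0.le
        linarith) m
      have h2 : (1 + (f x / t - 1)) ^ m = f x ^ m / t ^ m := by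
        rw [← div_pow]
        congr 1
        ring
      rw [h2] at h1
      have h3 : 0 < t ^ m := by positivity
      rw [le_div_iff₀ h3] at h1
      refine le_trans (le_of_eq ?_) h1
      have h4 : t ^ m = t ^ (m - 1) * t := by
        rw [← pow_succ]
        congr 1
        omega
      rw [h4]
      field_simp
    have hint : ∫ x in S, (t ^ m + m * t ^ (m - 1) * (f x - t)) ≤ ∫ x in S, f x ^ m := by
      apply setIntegral_mono _ hfmi hpt
      have : IntegrableOn (fun _ : Phase n => t) S := integrableOn_const hS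
      exact (integrableOn_const hS).add ((hfi.sub this).const_mul _)
    have hcalc : ∫ x in S, (t ^ m + m * t ^ (m - 1) * (f x - t)) = t ^ m * v := by
      have i1 : IntegrableOn (fun _ : Phase n => t) S := integrableOn_const hS
      have i2 : IntegrableOn (fun _ : Phase n => t ^ m) S := integrableOn_const hS
      have i3 : IntegrableOn (fun x => m * t ^ (m - 1) * (f x - t)) S :=
        (hfi.sub i1).const_mul _
      rw [integral_add i2 i3, integral_const_mul, integral_sub hfi i1, hIt]
      simp only [setIntegral_const, smul_eq_mul]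
      rw [← hvdef]
      ring
    rw [hcalc] at hint
    rw [hIt]
    have h5 : (t * v) ^ m = v ^ (m - 1) * (t ^ m * v) := by
      have h6 : v ^ m = v ^ (m - 1) * v := by
        rw [← pow_succ]
        congr 1
        omega
      rw [mul_pow, h6]
      ring
    rw [h5]
    exact mul_le_mul_of_nonneg_left hint (by positivity)

/-- The union of a list of balls. -/
def unionBalls (bs : List (Phase n × ℝ)) : Set (Phase n) := ⋃ b ∈ bs, Metric.closedBall b.1 b.2

lemma mem_unionBalls {bs : List (Phase n × ℝ)} {x : Phase n} :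
    x ∈ unionBalls bs ↔ ∃ b ∈ bs, ‖x - b.1‖ ≤ b.2 := by
  simp [unionBalls, dist_eq_norm]

lemma unionBalls_cons (b : Phase n × ℝ) (bs : List (Phase n × ℝ)) :
    unionBalls (b :: bs) = Metric.closedBall b.1 b.2 ∪ unionBalls bs := by
  ext x
  rw [mem_unionBalls, mem_union, mem_unionBalls, mem_closedBall_iff_norm]
  simp

lemma isCompact_unionBalls (bs : List (Phase n × ℝ)) : IsCompact (unionBalls bs) := by
  induction bs with
  | nil => simp [unionBalls]
  | cons b bs ih =>
    rw [unionBalls_cons]
    exact (isCompact_closedBall _ _).union ih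

lemma volume_unionBalls_le {bs : List (Phase n × ℝ)} {r : ℝ} (hbs : ∀ b ∈ bs, b.2 ≤ r)
    (hr : 0 ≤ r) : volume.real (unionBalls bs) ≤ bs.length * (r ^ (2 * n) * ballVol n) := by
  have hv : 0 < ballVol n := ballVol_pos n
  induction bs with
  | nil => simp [unionBalls]
  | cons b bs ih =>
    rw [unionBalls_cons, List.length_cons]
    have h1 := ih fun b' hb' => hbs b' (List.mem_cons_of_mem b hb')
    have h2 : volume.real (Metric.closedBall b.1 b.2) ≤ r ^ (2 * n) * ballVol n := by
      have h3 : volume.real (Metric.closedBall b.1 r) = r ^ (2 * n) * ballVol n := by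
        rw [Measure.real, volume_closedBall_phase _ hr, ENNReal.toReal_ofReal (by positivity)]
      rw [← h3]
      exact measureReal_mono (Metric.closedBall_subset_closedBall (hbs b List.mem_cons_self))
        measure_closedBall_lt_top.ne
    have h4 := measureReal_union_le (μ := volume) (Metric.closedBall b.1 b.2) (unionBalls bs)
    push_cast
    linarith

/-- Two balls of comparable size and position. -/
def Related (δ : ℝ) (a b : Phase n × ℝ) : Prop :=
  δ * a.2 ≤ b.2 ∧ δ * b.2 ≤ a.2 ∧ ‖a.1 - b.1‖ ≤ a.2 + b.2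

lemma Related.symm {δ : ℝ} {a b : Phase n × ℝ} (h : Related δ a b) : Related δ b a :=
  ⟨h.2.1, h.1, by rw [norm_sub_rev, add_comm]; exact h.2.2⟩

/-- Unrelated balls with definite mass have definite energy. -/
lemma energy_unrelated (hn : n ≠ 0) {f : Phase n → ℝ} (hfc : Continuous f) (hf0 : ∀ x, 0 ≤ f x)
    {a E δ : ℝ} {N : ℕ} (ha : 0 < a) (hδ0 : 0 < δ) (hδ1 : δ ≤ 1)
    (hfE : ∀ S : Set (Phase n), IsCompact S → ∫ x in S, f x ^ (2 * n) ≤ E)
    (hδ : (N * (δ ^ (2 * n) * ballVol n)) ^ (2 * n - 1) * E ≤ (a / 2) ^ (2 * n))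
    {bs : List (Phase n × ℝ)} (hlen : bs.length ≤ N + 1) (hpos : ∀ b ∈ bs, 0 < b.2)
    (hmass : ∀ b ∈ bs, a * b.2 ^ (2 * n - 1) ≤ ∫ y in Metric.closedBall b.1 b.2, f y)
    (hsort : bs.Pairwise (fun a b => b.2 ≤ a.2)) (hun : bs.Pairwise (fun a b => ¬Related δ a b)) :
    bs.length * ((a / 2) ^ (2 * n) / ballVol n ^ (2 * n - 1)) ≤
      ∫ x in unionBalls bs, f x ^ (2 * n) := by
  have hv : 0 < ballVol n := ballVol_pos n
  set m := 2 * n with hm
  have hm1 : 1 ≤ m := by omega
  have hfmc : Continuous (fun x => f x ^ m) := hfc.pow m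
  have hii : ∀ S : Set (Phase n), IsCompact S → IntegrableOn f S := fun S hS =>
    hfc.continuousOn.integrableOn_compact hS
  have hiim : ∀ S : Set (Phase n), IsCompact S → IntegrableOn (fun x => f x ^ m) S := fun S hS =>
    hfmc.continuousOn.integrableOn_compact hS
  induction bs with
  | nil => simp [unionBalls]
  | cons b bs ih =>
    rw [List.length_cons] at hlen
    have hb := hpos b List.mem_cons_self
    have ihbs := ih (by omega) (fun b' hb' => hpos b' (List.mem_cons_of_mem b hb'))
      (List.pairwise_cons.1 hsort).2 (List.pairwise_cons.1 hun).2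
      (fun b' hb' => hmass b' (List.mem_cons_of_mem b hb'))
    set B := Metric.closedBall b.1 b.2 with hB
    set U := unionBalls bs with hU
    have hBc : IsCompact B := isCompact_closedBall _ _
    have hUc : IsCompact U := isCompact_unionBalls bs
    have hBm : MeasurableSet B := measurableSet_closedBall
    have hUm : MeasurableSet U := hUc.isClosed.measurableSet
    -- the small balls
    classical
    set bs' := bs.filter (fun b' => decide (b'.2 ≤ δ * b.2)) with hbs'
    have hbs'len : (bs'.length : ℝ) ≤ N := by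
      have : bs'.length ≤ bs.length := List.length_filter_le _ _
      exact_mod_cast this.trans (by omega)
    have hsub : B ∩ U ⊆ unionBalls bs' := by
      intro x hx
      obtain ⟨hx1, hx2⟩ := hx
      rw [hB, mem_closedBall_iff_norm] at hx1
      rw [hU, mem_unionBalls] at hx2
      obtain ⟨b', hb', hxb'⟩ := hx2
      rw [mem_unionBalls]
      refine ⟨b', ?_, hxb'⟩
      rw [hbs', List.mem_filter]
      refine ⟨hb', ?_⟩
      rw [decide_eq_true_iff]
      by_contra hcon
      push Not at hcon
      have hb'pos := hpos b' (List.mem_cons_of_mem b hb')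
      apply (List.pairwise_cons.1 hun).1 b' hb'
      refine ⟨hcon.le, ?_, ?_⟩
      · have := (List.pairwise_cons.1 hsort).1 b' hb'
        nlinarith
      · have e1 : b.1 - b'.1 = -(x - b.1) + (x - b'.1) := by abel
        rw [e1]
        refine (norm_add_le _ _).trans ?_
        rw [norm_neg]
        linarith
    have hVc : IsCompact (unionBalls bs') := isCompact_unionBalls bs'
    have hVvol : volume.real (unionBalls bs') ≤ N * ((δ * b.2) ^ m * ballVol n) := by
      refine (volume_unionBalls_le (r := δ * b.2) ?_ (by positivity)).trans ?_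
      · intro b' hb'
        rw [hbs', List.mem_filter, decide_eq_true_iff] at hb'
        exact hb'.2
      · exact mul_le_mul_of_nonneg_right hbs'len (by positivity)
    have hJ : ∫ x in B ∩ U, f x ≤ a / 2 * b.2 ^ (m - 1) := by
      have h1 : ∫ x in B ∩ U, f x ≤ ∫ x in unionBalls bs', f x :=
        setIntegral_mono_set (hii _ hVc) (Eventually.of_forall fun x => hf0 x)
          (LE.le.eventuallyLE hsub)
      refine h1.trans ?_
      rw [← pow_le_pow_iff_left₀ (integral_nonneg fun x => hf0 x) (by positivity)
        (show m ≠ 0 by omega)]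
      refine (setIntegral_pow_le hf0 hm1 hVc.measure_lt_top.ne (hii _ hVc) (hiim _ hVc)).trans ?_
      have h2 : volume.real (unionBalls bs') ^ (m - 1) ≤
          (N * ((δ * b.2) ^ m * ballVol n)) ^ (m - 1) :=
        pow_le_pow_left₀ measureReal_nonneg hVvol _
      have h3 := hfE _ hVc
      have h4 : (N * ((δ * b.2) ^ m * ballVol n)) ^ (m - 1) * E =
          ((N * (δ ^ m * ballVol n)) ^ (m - 1) * E) * (b.2 ^ (m - 1)) ^ m := by
        have e1 : (N : ℝ) * ((δ * b.2) ^ m * ballVol n) = (N * (δ ^ m * ballVol n)) * b.2 ^ m := by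
          rw [mul_pow]; ring
        rw [e1, mul_pow, ← pow_mul, ← pow_mul, mul_comm m (m - 1)]
        ring
      have h5 : (a / 2 * b.2 ^ (m - 1)) ^ m = (a / 2) ^ m * (b.2 ^ (m - 1)) ^ m := mul_pow _ _ _
      have h6 : 0 ≤ ∫ x in unionBalls bs', f x ^ m := integral_nonneg fun x => pow_nonneg (hf0 x) m
      calc volume.real (unionBalls bs') ^ (m - 1) * ∫ x in unionBalls bs', f x ^ m
          ≤ (N * ((δ * b.2) ^ m * ballVol n)) ^ (m - 1) * E :=
            mul_le_mul h2 h3 h6 (by positivity)
        _ = ((N * (δ ^ m * ballVol n)) ^ (m - 1) * E) * (b.2 ^ (m - 1)) ^ m := h4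
        _ ≤ (a / 2) ^ m * (b.2 ^ (m - 1)) ^ m := mul_le_mul_of_nonneg_right hδ (by positivity)
        _ = _ := h5.symm
    have hdiff : a / 2 * b.2 ^ (m - 1) ≤ ∫ x in B \ U, f x := by
      have h1 : (∫ x in B ∩ U, f x) + ∫ x in B \ U, f x = ∫ x in B, f x :=
        integral_inter_add_sdiff hUm (hii _ hBc)
      have h2 := hmass b List.mem_cons_self
      rw [← hB] at h2
      linarith
    have hBUfin : volume (B \ U) ≠ ⊤ := (lt_of_le_of_lt (measure_mono sdiff_subset)
      hBc.measure_lt_top).ne
    have hen : (a / 2) ^ m / ballVol n ^ (m - 1) ≤ ∫ x in B \ U, f x ^ m := by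
      have h1 := setIntegral_pow_le hf0 hm1 hBUfin ((hii _ hBc).mono_set sdiff_subset)
        ((hiim _ hBc).mono_set sdiff_subset)
      have h2 : (a / 2 * b.2 ^ (m - 1)) ^ m ≤ (∫ x in B \ U, f x) ^ m :=
        pow_le_pow_left₀ (by positivity) hdiff m
      have h3 : volume.real (B \ U) ≤ b.2 ^ m * ballVol n := by
        have h4 : volume.real B = b.2 ^ m * ballVol n := by
          rw [hB, Measure.real, volume_closedBall_phase _ hb.le,
            ENNReal.toReal_ofReal (by positivity)]
        rw [← h4]
        exact measureReal_mono sdiff_subset hBc.measure_lt_top.ne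
      have h5 : volume.real (B \ U) ^ (m - 1) ≤ (b.2 ^ m * ballVol n) ^ (m - 1) :=
        pow_le_pow_left₀ measureReal_nonneg h3 _
      have h6 : 0 ≤ ∫ x in B \ U, f x ^ m := integral_nonneg fun x => pow_nonneg (hf0 x) m
      have h7 : (a / 2) ^ m * (b.2 ^ (m - 1)) ^ m ≤
          (ballVol n ^ (m - 1) * ∫ x in B \ U, f x ^ m) * (b.2 ^ (m - 1)) ^ m := by
        calc (a / 2) ^ m * (b.2 ^ (m - 1)) ^ m = (a / 2 * b.2 ^ (m - 1)) ^ m := (mul_pow _ _ _).symm
          _ ≤ volume.real (B \ U) ^ (m - 1) * ∫ x in B \ U, f x ^ m := h2.trans h1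
          _ ≤ (b.2 ^ m * ballVol n) ^ (m - 1) * ∫ x in B \ U, f x ^ m :=
              mul_le_mul_of_nonneg_right h5 h6
          _ = _ := by
              rw [mul_pow, ← pow_mul, ← pow_mul, mul_comm m (m - 1)]
              ring
      have h8 := le_of_mul_le_mul_right h7 (by positivity)
      rw [div_le_iff₀ (by positivity)]
      linarith
    have hunion : ∫ x in unionBalls (b :: bs), f x ^ m =
        (∫ x in B \ U, f x ^ m) + ∫ x in U, f x ^ m := by
      rw [unionBalls_cons, ← hB, ← hU, ← sdiff_union_self]
      exact setIntegral_union disjoint_sdiff_self_left hUm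
        ((hiim _ hBc).mono_set sdiff_subset) (hiim _ hUc)
    rw [hunion, List.length_cons]
    push_cast
    linarith

end Pool.Agent.Helper17
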