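import Mathlib
import Pool.Agent.Helper17.SympBase
import Pool.Agent.Helper17.LocalDiffeo
import Pool.Agent.Helper17.AdmPath
import Pool.Agent.Helper17.AdmComp
import Pool.Agent.Helper17.FlatFamilies
import Pool.Agent.Helper17.FlatAverage
import Pool.Agent.Helper17.VarScale

set_option maxSynthPendingDepth 3

open scoped ContDiff Topology
open Set Function Filter TopologicalSpace MeasureTheory

namespace Pool.Agent.Helper17

variable {n : ℕ}

lemma NearL.perturb {A B : Phase n →L[ℝ] Phase n} {θ a p : ℝ} (hA : NearL θ A) (ha : ‖A‖ ≤ a)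
    (hp : ‖B - A‖ ≤ p) : NearL (θ + 2 * a * p + p ^ 2) B := by
  intro v w
  have ha0 : 0 ≤ a := (norm_nonneg _).trans ha
  have hp0 : 0 ≤ p := (norm_nonneg _).trans hp
  set P := B - A with hP
  have hB : ∀ u, B u = A u + P u := fun u => by simp [hP]
  have hAu : ∀ u, ‖A u‖ ≤ a * ‖u‖ := fun u =>
    (A.le_opNorm u).trans (mul_le_mul_of_nonneg_right ha (norm_nonneg _))
  have hPu : ∀ u, ‖P u‖ ≤ p * ‖u‖ := fun u =>
    (P.le_opNorm u).trans (mul_le_mul_of_nonneg_right hp (norm_nonneg _))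
  rw [hB, hB, omegaStd_add_left, omegaStd_add_right, omegaStd_add_right]
  have h1 := hA v w
  have h2 : |omegaStd (A v) (P w)| ≤ (a * ‖v‖) * (p * ‖w‖) :=
    (abs_omegaStd_le _ _).trans (mul_le_mul (hAu v) (hPu w) (norm_nonneg _) (by positivity))
  have h3 : |omegaStd (P v) (A w)| ≤ (p * ‖v‖) * (a * ‖w‖) :=
    (abs_omegaStd_le _ _).trans (mul_le_mul (hPu v) (hAu w) (norm_nonneg _) (by positivity))
  have h4 : |omegaStd (P v) (P w)| ≤ (p * ‖v‖) * (p * ‖w‖) :=
    (abs_omegaStd_le _ _).trans (mul_le_mul (hPu v) (hPu w) (norm_nonneg _) (by positivity))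
  rw [abs_le] at h1 h2 h3 h4 ⊢
  constructor <;> nlinarith [h1.1, h1.2, h2.1, h2.2, h3.1, h3.2, h4.1, h4.2]

/-- The mollification at a variable scale at which the map is flat is nearly symplectic. -/
lemma nearL_vmol {φ : SympCt n} {L ε e : ℝ} (hL1 : 1 ≤ L) (hε0 : 0 ≤ ε) (hε1 : ε ≤ 1 / 2)
    (he0 : 0 ≤ e)
    (hL : ∀ x, ‖fderiv ℝ (φ : Equiv.Perm (Phase n)) x‖ ≤ L) {ρ : Phase n → ℝ}
    (hρ : ContDiff ℝ ∞ ρ) (hρ0 : ∀ x, 0 ≤ ρ x) {x : Phase n} (hρe : ‖fderiv ℝ ρ x‖ ≤ e)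
    (hgood : 0 < ρ x → Good (φ : Equiv.Perm (Phase n)) ε x (ρ x)) :
    NearL ((c1Eta (Phase n) * ε) ^ 2 + 3 * L * (c1Eta (Phase n) * ε) + 2 * L * (L * e) +
      (L * e) ^ 2) (fderiv ℝ (vmol (φ : Equiv.Perm (Phase n)) ρ) x) := by
  have hc0 : 0 ≤ c1Eta (Phase n) := c1Eta_nonneg _
  have h1 := norm_fderiv_vmol_sub_le (SympCt.contDiff φ) hρ hL x
  have h1' : ‖fderiv ℝ (vmol (φ : Equiv.Perm (Phase n)) ρ) x -
      kAvg (φ : Equiv.Perm (Phase n)) x (ρ x)‖ ≤ L * e :=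
    h1.trans (mul_le_mul_of_nonneg_left hρe (by linarith))
  apply NearL.perturb (A := kAvg (φ : Equiv.Perm (Phase n)) x (ρ x)) _ (norm_kAvg_le hL x _) h1'
  rcases (hρ0 x).eq_or_lt with h0 | h0
  · -- zero scale
    rw [← h0]
    have h2 : kAvg (φ : Equiv.Perm (Phase n)) x 0 = fderiv ℝ (φ : Equiv.Perm (Phase n)) x := by
      rw [kAvg_eq]
      simp
    rw [h2]
    intro v w
    rw [φ.2.2.2.1 x v w, sub_self, abs_zero]
    positivity
  · obtain ⟨c, M, hM⟩ := hgood h0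
    have hMn1 : ‖M‖ ≤ L + 2 * ε :=
      norm_le_of_flat h0 (by linarith) hε0 (fun y z => lipschitz_of_fderiv φ hL y z) hM
    have hMn : ‖M‖ ≤ 2 * L := by linarith
    have hsymp : ∀ (y v w : Phase n),
        |omegaStd (fderiv ℝ (φ : Equiv.Perm (Phase n)) y v)
          (fderiv ℝ (φ : Equiv.Perm (Phase n)) y w) - omegaStd v w| ≤ 0 * ‖v‖ * ‖w‖ := by
      intro y v w
      rw [φ.2.2.2.1 y v w, sub_self, abs_zero, zero_mul, zero_mul]
    have h2 := (kAvg_close (SympCt.contDiff φ) h0 hL hsymp hMn hM).2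
    rw [zero_add] at h2
    exact h2

/-- Flatness of the mollification at a variable scale. -/
lemma good_vmol {φ : SympCt n} {L ε e : ℝ} (hL1 : 1 ≤ L) (hε0 : 0 ≤ ε) (hε1 : ε ≤ 1 / 2)
    (he0 : 0 ≤ e) (he1 : e ≤ 1 / 2)
    (hL : ∀ x, ‖fderiv ℝ (φ : Equiv.Perm (Phase n)) x‖ ≤ L) {ρ : Phase n → ℝ}
    (hρ : ContDiff ℝ ∞ ρ) (hρ0 : ∀ x, 0 ≤ ρ x) (hρe : ∀ x, ‖fderiv ℝ ρ x‖ ≤ e)
    (hg1 : ∀ x, 0 < ρ x → Good (φ : Equiv.Perm (Phase n)) ε x (ρ x))
    (hg4 : ∀ x, 0 < ρ x → Good (φ : Equiv.Perm (Phase n)) ε x (4 * ρ x))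
    {x : Phase n} {s : ℝ} (hs : 0 < s)
    (hgs : ρ x ≤ s → Good (φ : Equiv.Perm (Phase n)) ε x s) :
    Good (vmol (φ : Equiv.Perm (Phase n)) ρ) (8 * (c1Eta (Phase n) + 1) * ε + L * e) x s := by
  have hc0 : 0 ≤ c1Eta (Phase n) := c1Eta_nonneg _
  have hρL : ∀ y z, |ρ y - ρ z| ≤ e * ‖y - z‖ := fun y z =>
    convex_univ.norm_image_sub_le_of_norm_fderiv_le (𝕜 := ℝ)
      (fun w _ => hρ.differentiable (by simp) w) (fun w _ => hρe w) (mem_univ z) (mem_univ y)
  rcases le_or_gt (ρ x) s with h | h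
  · obtain ⟨c, M, hM⟩ := hgs h
    refine ⟨c, M, fun y hy => ?_⟩
    have h1 : ρ y ≤ 3 / 2 * s := by
      have h2 := (abs_le.1 (hρL y x)).2
      have h3 : e * ‖y - x‖ ≤ 1 / 2 * s := mul_le_mul he1 hy (norm_nonneg _) (by norm_num)
      linarith
    have h2 : ‖vmol (φ : Equiv.Perm (Phase n)) ρ y - (φ : Equiv.Perm (Phase n)) y‖ ≤
        2 * ε * ρ y := by
      rcases (hρ0 y).eq_or_lt with h0 | h0
      · rw [vmol_zero h0.symm, sub_self, norm_zero]
        exact mul_nonneg (by positivity) (hρ0 y)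
      · obtain ⟨c', M', hM'⟩ := hg1 y h0
        have e1 : ‖vmol (φ : Equiv.Perm (Phase n)) ρ y - (c' + M' y)‖ ≤ ε * ρ y := by
          apply norm_vmol_sub_le (SympCt.contDiff φ).continuous
          intro z hz
          apply hM'
          rw [add_sub_cancel_left, norm_smul, Real.norm_of_nonneg (hρ0 y)]
          exact mul_le_of_le_one_right (hρ0 y) hz
        have e2 := hM' y (by rw [sub_self, norm_zero]; exact hρ0 y)
        have e3 : vmol (φ : Equiv.Perm (Phase n)) ρ y - (φ : Equiv.Perm (Phase n)) y =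
            (vmol (φ : Equiv.Perm (Phase n)) ρ y - (c' + M' y)) -
              ((φ : Equiv.Perm (Phase n)) y - (c' + M' y)) := by abel
        rw [e3]
        refine (norm_sub_le _ _).trans ?_
        linarith
    have h3 := hM y hy
    have h4 : vmol (φ : Equiv.Perm (Phase n)) ρ y - (c + M y) =
        (vmol (φ : Equiv.Perm (Phase n)) ρ y - (φ : Equiv.Perm (Phase n)) y) +
          ((φ : Equiv.Perm (Phase n)) y - (c + M y)) := by abel
    rw [h4]
    refine (norm_add_le _ _).trans ?_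
    have h5 : 2 * ε * ρ y ≤ 2 * ε * (3 / 2 * s) := mul_le_mul_of_nonneg_left h1 (by positivity)
    have h6 : 0 ≤ c1Eta (Phase n) * ε * s := by positivity
    have h7 : 0 ≤ L * e * s := by positivity
    nlinarith [mul_nonneg hε0 hs.le]
  · have hρx : 0 < ρ x := hs.trans h
    obtain ⟨c, M, hM⟩ := hg4 x hρx
    have hMn1 : ‖M‖ ≤ L + 2 * ε :=
      norm_le_of_flat (by positivity) (by linarith) hε0
        (fun y z => lipschitz_of_fderiv φ hL y z) hM
    have hMn : ‖M‖ ≤ 2 * L := by linarith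
    have hsymp : ∀ (y v w : Phase n),
        |omegaStd (fderiv ℝ (φ : Equiv.Perm (Phase n)) y v)
          (fderiv ℝ (φ : Equiv.Perm (Phase n)) y w) - omegaStd v w| ≤ 0 * ‖v‖ * ‖w‖ := by
      intro y v w
      rw [φ.2.2.2.1 y v w, sub_self, abs_zero, zero_mul, zero_mul]
    have hD : ∀ y, ‖y - x‖ ≤ s → ‖fderiv ℝ (vmol (φ : Equiv.Perm (Phase n)) ρ) y - M‖ ≤
        8 * (c1Eta (Phase n) + 1) * ε + L * e := by
      intro y hy
      have h2 := abs_le.1 (hρL y x)
      have h3 : e * ‖y - x‖ ≤ 1 / 2 * ρ x :=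
        mul_le_mul he1 (hy.trans h.le) (norm_nonneg _) (by norm_num)
      have h4 : 1 / 2 * ρ x ≤ ρ y := by linarith [h2.1]
      have h5 : ρ y ≤ 3 / 2 * ρ x := by linarith [h2.2]
      have h6 : 0 < ρ y := by linarith
      have h7 : ∀ z, ‖z - y‖ ≤ ρ y → ‖(φ : Equiv.Perm (Phase n)) z - (c + M z)‖ ≤
          (8 * ε) * ρ y := by
        intro z hz
        have e1 : ‖z - x‖ ≤ 4 * ρ x := by
          have : z - x = (z - y) + (y - x) := by abel
          rw [this]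
          refine (norm_add_le _ _).trans ?_
          linarith
        refine (hM z e1).trans ?_
        nlinarith
      have h8 := (kAvg_close (SympCt.contDiff φ) h6 hL hsymp hMn h7).1
      have h9 := norm_fderiv_vmol_sub_le (SympCt.contDiff φ) hρ hL y
      have h10 : L * ‖fderiv ℝ ρ y‖ ≤ L * e := mul_le_mul_of_nonneg_left (hρe y) (by linarith)
      have h11 : fderiv ℝ (vmol (φ : Equiv.Perm (Phase n)) ρ) y - M =
          (fderiv ℝ (vmol (φ : Equiv.Perm (Phase n)) ρ) y -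
            kAvg (φ : Equiv.Perm (Phase n)) y (ρ y)) +
          (kAvg (φ : Equiv.Perm (Phase n)) y (ρ y) - M) := by abel
      rw [h11]
      refine (norm_add_le _ _).trans ?_
      nlinarith
    refine ⟨vmol (φ : Equiv.Perm (Phase n)) ρ x - M x, M, fun y hy => ?_⟩
    have hv : ContDiff ℝ ∞ (vmol (φ : Equiv.Perm (Phase n)) ρ) := contDiff_vmol (SympCt.contDiff φ) hρ
    have h1 : ‖(vmol (φ : Equiv.Perm (Phase n)) ρ y - M y) -
        (vmol (φ : Equiv.Perm (Phase n)) ρ x - M x)‖ ≤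
        (8 * (c1Eta (Phase n) + 1) * ε + L * e) * ‖y - x‖ := by
      apply (convex_closedBall x s).norm_image_sub_le_of_norm_hasFDerivWithin_le
        (f := fun y => vmol (φ : Equiv.Perm (Phase n)) ρ y - M y)
        (f' := fun y => fderiv ℝ (vmol (φ : Equiv.Perm (Phase n)) ρ) y - M)
      · intro w _
        exact ((hv.differentiable (by simp) w).hasFDerivAt.sub M.hasFDerivAt).hasFDerivWithinAt
      · intro w hw
        exact hD w (by rwa [← dist_eq_norm])
      · exact Metric.mem_closedBall_self hs.le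
      · rwa [mem_closedBall_iff_norm]
    have h2 : vmol (φ : Equiv.Perm (Phase n)) ρ y - (vmol (φ : Equiv.Perm (Phase n)) ρ x - M x + M y) =
        (vmol (φ : Equiv.Perm (Phase n)) ρ y - M y) -
        (vmol (φ : Equiv.Perm (Phase n)) ρ x - M x) := by abel
    rw [h2]
    exact h1.trans (mul_le_mul_of_nonneg_left hy (by positivity))

end Pool.Agent.Helper17
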