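import Mathlib
import Pool.Agent.Helper17.SympBase
import Pool.Agent.Helper17.LocalDiffeo
import Pool.Agent.Helper17.AdmPath
import Pool.Agent.Helper17.AdmComp
import Pool.Agent.Helper17.FlatFamilies
import Pool.Agent.Helper17.VarScale
import Pool.Agent.Helper17.VarFlat

set_option maxSynthPendingDepth 3

open scoped ContDiff Topology
open Set Function Filter TopologicalSpace MeasureTheory

namespace Pool.Agent.Helper17

variable {n : ℕ}

lemma Admissible.injective' {A : Phase n →L[ℝ] Phase n} (hA : Admissible A) : Injective A := by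
  rw [injective_iff_map_eq_zero]
  intro v hv
  apply hA 1 (right_mem_Icc.2 zero_le_one)
  intro w
  rw [hv, omegaStd_zero_left]
  simp

/-- The inverse of an admissible map. -/
lemma Adm.exists_inverse {Ψ : Phase n → Phase n} (h : Adm Ψ) : ∃ Φ : Phase n → Phase n,
    ContDiff ℝ ∞ Φ ∧ (∀ x, Φ (Ψ x) = x) ∧ (∀ y, Ψ (Φ y) = y) := by
  obtain ⟨K, hK, hΨK⟩ := h.supp
  have hinj : ∀ x, Injective (fderiv ℝ Ψ x) := fun x => (h.adm x).injective'
  have hbij := bijective_of_injective_fderiv h.smooth hinj hK hΨK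
  set e := Equiv.ofBijective Ψ hbij with he
  exact ⟨e.symm, contDiff_symm_of_injective_fderiv e h.smooth hinj, fun x => e.symm_apply_apply x,
    fun y => e.apply_symm_apply y⟩

lemma NearL.norm_ge {A : Phase n →L[ℝ] Phase n} {θ L : ℝ} (hA : NearL θ A) (hθ : θ ≤ 1 / 2)
    (hL1 : 1 ≤ L) (hL : ‖A‖ ≤ 2 * L) (v : Phase n) : ‖v‖ ≤ 4 * L * ‖A v‖ := by
  have h1 := hA.lower v
  have h2 := (le_abs_self _).trans (abs_omegaStd_le (A v) (A (Jl n v)))
  have h3 : ‖A (Jl n v)‖ ≤ 2 * L * ‖v‖ := by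
    have := A.le_opNorm (Jl n v)
    rw [norm_Jl] at this
    exact this.trans (mul_le_mul_of_nonneg_right hL (norm_nonneg _))
  rcases (norm_nonneg v).eq_or_lt with h0 | h0
  · rw [← h0]
    positivity
  · have h4 : (1 - θ) * ‖v‖ ^ 2 ≤ ‖A v‖ * (2 * L * ‖v‖) :=
      h1.trans (h2.trans (mul_le_mul_of_nonneg_left h3 (norm_nonneg _)))
    have h5 : 1 / 2 * ‖v‖ ^ 2 ≤ (1 - θ) * ‖v‖ ^ 2 :=
      mul_le_mul_of_nonneg_right (by linarith) (sq_nonneg _)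
    have h6 : ‖v‖ * ‖v‖ ≤ (4 * L * ‖A v‖) * ‖v‖ := by nlinarith
    exact le_of_mul_le_mul_right h6 h0

lemma fderiv_inverse {Ψ Φ : Phase n → Phase n} (hΨ : ContDiff ℝ ∞ Ψ) (hΦ : ContDiff ℝ ∞ Φ)
    (h2 : ∀ y, Ψ (Φ y) = y) (y v : Phase n) :
    fderiv ℝ Ψ (Φ y) (fderiv ℝ Φ y v) = v := by
  have h : fderiv ℝ (fun y => Ψ (Φ y)) y = (fderiv ℝ Ψ (Φ y)).comp (fderiv ℝ Φ y) :=
    fderiv_comp y (hΨ.differentiable (by simp) _) (hΦ.differentiable (by simp) _)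
  have h3 : (fun y => Ψ (Φ y)) = id := by ext1 y; exact h2 y
  rw [h3, fderiv_id] at h
  have := congrArg (fun L => L v) h
  simpa using this.symm

lemma quot_smooth {A B Φ : Phase n → Phase n} (hA : ContDiff ℝ ∞ A) (hB : ContDiff ℝ ∞ B)
    (hΦ : ContDiff ℝ ∞ Φ) (h2 : ∀ y, B (Φ y) = y) {L θ : ℝ} (hL1 : 1 ≤ L) (hθ0 : 0 ≤ θ)
    (hθ : θ ≤ 1 / 2)
    (hLA : ∀ x, ‖fderiv ℝ A x‖ ≤ 2 * L) (hLB : ∀ x, ‖fderiv ℝ B x‖ ≤ 2 * L)
    (hnA : ∀ x, NearL θ (fderiv ℝ A x)) (hnB : ∀ x, NearL θ (fderiv ℝ B x)) (y : Phase n) :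
    ‖fderiv ℝ Φ y‖ ≤ 4 * L ∧ ‖fderiv ℝ (fun y => A (Φ y)) y‖ ≤ 8 * L ^ 2 ∧
      NearL (32 * L ^ 2 * θ) (fderiv ℝ (fun y => A (Φ y)) y) := by
  have hd : fderiv ℝ (fun y => A (Φ y)) y = (fderiv ℝ A (Φ y)).comp (fderiv ℝ Φ y) :=
    fderiv_comp y (hA.differentiable (by simp) _) (hΦ.differentiable (by simp) _)
  have hR : ∀ v, ‖fderiv ℝ Φ y v‖ ≤ 4 * L * ‖v‖ := by
    intro v
    have := (hnB (Φ y)).norm_ge hθ hL1 (hLB _) (fderiv ℝ Φ y v)
    rwa [fderiv_inverse hB hΦ h2] at this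
  have hRn : ‖fderiv ℝ Φ y‖ ≤ 4 * L := ContinuousLinearMap.opNorm_le_bound _ (by positivity) hR
  refine ⟨hRn, ?_, ?_⟩
  · rw [hd]
    refine (ContinuousLinearMap.opNorm_comp_le _ _).trans ?_
    calc ‖fderiv ℝ A (Φ y)‖ * ‖fderiv ℝ Φ y‖ ≤ (2 * L) * (4 * L) :=
          mul_le_mul (hLA _) hRn (norm_nonneg _) (by positivity)
      _ = 8 * L ^ 2 := by ring
  · intro v w
    rw [hd]
    simp only [ContinuousLinearMap.comp_apply]
    have h3 := hnA (Φ y) (fderiv ℝ Φ y v) (fderiv ℝ Φ y w)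
    have h4 := hnB (Φ y) (fderiv ℝ Φ y v) (fderiv ℝ Φ y w)
    rw [fderiv_inverse hB hΦ h2, fderiv_inverse hB hΦ h2] at h4
    have h5 : θ * ‖fderiv ℝ Φ y v‖ * ‖fderiv ℝ Φ y w‖ ≤ 16 * L ^ 2 * θ * ‖v‖ * ‖w‖ := by
      calc θ * ‖fderiv ℝ Φ y v‖ * ‖fderiv ℝ Φ y w‖
          ≤ θ * (4 * L * ‖v‖) * (4 * L * ‖w‖) :=
            mul_le_mul (mul_le_mul_of_nonneg_left (hR v) hθ0) (hR w) (norm_nonneg _)
              (by positivity)
        _ = 16 * L ^ 2 * θ * ‖v‖ * ‖w‖ := by ring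
    rw [abs_le] at h3 h4 ⊢
    constructor <;> nlinarith [h3.1, h3.2, h4.1, h4.2]

/-- The quotient of two flat maps is flat. -/
lemma quot_good {A B Φ : Phase n → Phase n} (hA : ContDiff ℝ ∞ A)
    (hΦ : ContDiff ℝ ∞ Φ) (h1 : ∀ x, Φ (B x) = x) (h2 : ∀ y, B (Φ y) = y) {L ε s : ℝ}
    (hL1 : 1 ≤ L) (hε0 : 0 ≤ ε) (hε1 : 16 * L * ε ≤ 1) (hs : 0 < s)
    (hLA : ∀ x, ‖fderiv ℝ A x‖ ≤ 2 * L) (hLΦ : ∀ y, ‖fderiv ℝ Φ y‖ ≤ 4 * L) (y : Phase n)
    (hgA : Good A ε (Φ y) (4 * L * s)) (hgB : Good B ε (Φ y) (4 * L * s)) :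
    Good (fun y => A (Φ y)) (132 * L ^ 3 * ε) y s := by
  have hlip : ∀ {f : Phase n → Phase n} {C : ℝ}, ContDiff ℝ ∞ f → (∀ x, ‖fderiv ℝ f x‖ ≤ C) →
      ∀ y z, ‖f y - f z‖ ≤ C * ‖y - z‖ := fun hf hC y z =>
    convex_univ.norm_image_sub_le_of_norm_fderiv_le (𝕜 := ℝ)
      (fun w _ => hf.differentiable (by simp) w) (fun w _ => hC w) (mem_univ z) (mem_univ y)
  obtain ⟨ca, Al, hAl⟩ := hgA
  obtain ⟨cb, Bl, hBl⟩ := hgB
  set x := Φ y with hx
  set s' := 4 * L * s with hs'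
  have hs'0 : 0 < s' := by positivity
  have hAn : ‖Al‖ ≤ 2 * L + 2 * ε :=
    norm_le_of_flat hs'0 (by positivity) hε0 (hlip hA hLA) hAl
  have hε2 : ε ≤ 1 / 16 := by nlinarith
  have hAn' : ‖Al‖ ≤ 4 * L := by linarith
  -- the lower bound for `Bl`
  have hlow1 : ∀ v : Phase n, ‖v‖ = s' → s' ≤ 8 * L * ‖Bl v‖ := by
    intro v hv
    have e1 := hBl (x + v) (by rw [add_sub_cancel_left, hv])
    have e2 := hBl x (by rw [sub_self, norm_zero]; exact hs'0.le)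
    have e3 := hlip hΦ hLΦ (B (x + v)) (B x)
    rw [h1, h1, add_sub_cancel_left, hv] at e3
    have e4 : B (x + v) - B x = Bl v + ((B (x + v) - (cb + Bl (x + v))) - (B x - (cb + Bl x))) := by
      rw [map_add]; abel
    have e5 : ‖B (x + v) - B x‖ ≤ ‖Bl v‖ + 2 * (ε * s') := by
      rw [e4]
      refine (norm_add_le _ _).trans ?_
      have := norm_sub_le (B (x + v) - (cb + Bl (x + v))) (B x - (cb + Bl x))
      linarith
    have e6 : s' ≤ 4 * L * (‖Bl v‖ + 2 * (ε * s')) :=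
      e3.trans (mul_le_mul_of_nonneg_left e5 (by positivity))
    have e7 : 8 * L * (ε * s') ≤ 1 / 2 * s' := by nlinarith
    nlinarith
  have hlow : ∀ v : Phase n, ‖v‖ ≤ 8 * L * ‖Bl v‖ := by
    intro v
    rcases (norm_nonneg v).eq_or_lt with h0 | h0
    · rw [← h0]
      positivity
    · have e1 := hlow1 ((s' / ‖v‖) • v) (by
        rw [norm_smul, Real.norm_of_nonneg (by positivity)]; field_simp)
      rw [map_smul, norm_smul, Real.norm_of_nonneg (by positivity)] at e1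
      have e2 : s' * ‖v‖ ≤ s' * (8 * L * ‖Bl v‖) := by
        calc s' * ‖v‖ ≤ (8 * L * (s' / ‖v‖ * ‖Bl v‖)) * ‖v‖ :=
              mul_le_mul_of_nonneg_right e1 h0.le
          _ = s' * (8 * L * ‖Bl v‖) := by field_simp
      exact le_of_mul_le_mul_left e2 hs'0
  have hinj : Injective Bl := by
    rw [injective_iff_map_eq_zero]
    intro v hv
    have := hlow v
    rw [hv, norm_zero, mul_zero] at this
    exact norm_eq_zero.1 (le_antisymm this (norm_nonneg _))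
  set N : Phase n →L[ℝ] Phase n := ((cleOfInjective Bl hinj).symm : Phase n →L[ℝ] Phase n) with hN
  have hBN : ∀ w, Bl (N w) = w := fun w => by
    have := (cleOfInjective Bl hinj).apply_symm_apply w
    exact this
  have hNB : ∀ w, N (Bl w) = w := fun w => by
    have := (cleOfInjective Bl hinj).symm_apply_apply w
    exact this
  have hNn : ∀ w, ‖N w‖ ≤ 8 * L * ‖w‖ := fun w => by
    have := hlow (N w)
    rwa [hBN] at this
  refine ⟨ca + Al (N (-cb)), Al.comp N, fun y' hy' => ?_⟩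
  set x' := Φ y' with hx'
  have hxx : ‖x' - x‖ ≤ s' := (hlip hΦ hLΦ y' y).trans (by
    rw [hs']; exact mul_le_mul_of_nonneg_left hy' (by positivity))
  have e1 := hAl x' hxx
  have e2 := hBl x' hxx
  rw [hx', h2, ← hx'] at e2
  have e3 : ‖x' - N (y' - cb)‖ ≤ 8 * L * (ε * s') := by
    have e4 : x' - N (y' - cb) = N (-(y' - (cb + Bl x'))) := by
      have : -(y' - (cb + Bl x')) = Bl x' - (y' - cb) := by abel
      rw [this, map_sub N (Bl x'), hNB]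
    rw [e4]
    refine (hNn _).trans ?_
    rw [norm_neg]
    exact mul_le_mul_of_nonneg_left e2 (by positivity)
  have e5 : A x' - (ca + Al (N (-cb)) + (Al.comp N) y') =
      (A x' - (ca + Al x')) + Al (x' - N (y' - cb)) := by
    simp only [ContinuousLinearMap.comp_apply, map_sub, map_neg]
    abel
  change ‖A x' - (ca + Al (N (-cb)) + (Al.comp N) y')‖ ≤ _
  rw [e5]
  refine (norm_add_le _ _).trans ?_
  have e6 : ‖Al (x' - N (y' - cb))‖ ≤ 4 * L * (8 * L * (ε * s')) :=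
    (Al.le_opNorm _).trans (mul_le_mul hAn' e3 (norm_nonneg _) (by positivity))
  have e7 : ε * s' + 4 * L * (8 * L * (ε * s')) = 4 * L * (1 + 32 * L ^ 2) * (ε * s) := by
    rw [hs']; ring
  have e8 : 4 * L * (1 + 32 * L ^ 2) ≤ 132 * L ^ 3 := by nlinarith [mul_self_nonneg L, sq_nonneg (L - 1)]
  calc _ ≤ 4 * L * (1 + 32 * L ^ 2) * (ε * s) := by linarith
    _ ≤ 132 * L ^ 3 * (ε * s) := mul_le_mul_of_nonneg_right e8 (by positivity)
    _ = 132 * L ^ 3 * ε * s := by ring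

end Pool.Agent.Helper17
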