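import Mathlib
import Pool.Agent.Helper17.SympBase

set_option maxSynthPendingDepth 3

open scoped ContDiff Topology
open Set Function Filter TopologicalSpace MeasureTheory

namespace Pool.Agent.Helper17

variable {n : ℕ}

/-- A standard bump function. -/
noncomputable def bmp (n : ℕ) : ContDiffBump (0 : Phase n) := ⟨1, 2, one_pos, by norm_num⟩

lemma bmp_one {y : Phase n} (h : ‖y‖ ≤ 1) : bmp n y = 1 :=
  (bmp n).one_of_mem_closedBall (by simpa [bmp] using h)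

lemma bmp_zero {y : Phase n} (h : 2 ≤ ‖y‖) : bmp n y = 0 :=
  (bmp n).zero_of_le_dist (by simpa [bmp] using h)

lemma contDiff_bmp (n : ℕ) : ContDiff ℝ ∞ (bmp n) := (bmp n).contDiff

lemma exists_bmp_bound (n : ℕ) : ∃ C : ℝ, 0 < C ∧ ∀ y, ‖fderiv ℝ (bmp n) y‖ ≤ C := by
  have h1 : HasCompactSupport (fderiv ℝ (bmp n)) := (bmp n).hasCompactSupport.fderiv (𝕜 := ℝ)
  have h2 : Continuous (fderiv ℝ (bmp n)) :=
    (contDiff_bmp n).continuous_fderiv (by simp)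
  obtain ⟨C, hC⟩ := h2.bounded_above_of_compact_support h1
  exact ⟨max C 1, lt_of_lt_of_le one_pos (le_max_right _ _), fun y => (hC y).trans (le_max_left _ _)⟩

/-- A bump of height `l` and width about `l / η`. -/
noncomputable def hump (η : ℝ) (p : Phase n) (l : ℝ) (x : Phase n) : ℝ :=
  l * bmp n ((η / l) • (x - p))

section

variable {η l : ℝ} {p : Phase n}

lemma hump_nonneg (hl : 0 ≤ l) (x : Phase n) : 0 ≤ hump η p l x :=
  mul_nonneg hl (bmp n).nonneg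

lemma hump_le (hl : 0 ≤ l) (x : Phase n) : hump η p l x ≤ l :=
  mul_le_of_le_one_right hl (bmp n).le_one

lemma norm_arg (hη : 0 ≤ η) (hl : 0 < l) (x : Phase n) :
    ‖(η / l) • (x - p)‖ = η * ‖x - p‖ / l := by
  rw [norm_smul, Real.norm_of_nonneg (by positivity)]
  ring

lemma hump_eq (hη : 0 ≤ η) (hl : 0 < l) {x : Phase n} (h : η * ‖x - p‖ ≤ l) :
    hump η p l x = l := by
  rw [hump, bmp_one, mul_one]
  rw [norm_arg hη hl, div_le_one hl]
  exact h

lemma hump_zero (hη : 0 ≤ η) (hl : 0 < l) {x : Phase n} (h : 2 * l ≤ η * ‖x - p‖) :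
    hump η p l x = 0 := by
  rw [hump, bmp_zero, mul_zero]
  rw [norm_arg hη hl, le_div_iff₀ hl]
  exact h

lemma contDiff_hump : ContDiff ℝ ∞ (hump η p l) :=
  contDiff_const.mul ((bmp n).contDiff.comp ((contDiff_id.sub contDiff_const).const_smul _))

lemma norm_fderiv_hump_le (hη : 0 ≤ η) (hl : 0 < l) {C : ℝ} (hC : ∀ y, ‖fderiv ℝ (bmp n) y‖ ≤ C)
    (x : Phase n) : ‖fderiv ℝ (hump η p l) x‖ ≤ η * C := by
  have h0 : HasFDerivAt (fun x : Phase n => x - p) (ContinuousLinearMap.id ℝ (Phase n)) x :=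
    (hasFDerivAt_id x).sub_const p
  have h1 : HasFDerivAt (fun x : Phase n => (η / l) • (x - p))
      ((η / l) • ContinuousLinearMap.id ℝ (Phase n)) x := h0.const_smul (η / l)
  have h2 : HasFDerivAt (fun x : Phase n => bmp n ((η / l) • (x - p))) _ x :=
    (((contDiff_bmp n).differentiable (by simp) _).hasFDerivAt).comp x h1
  have h3 := (h2.const_mul l).fderiv
  have h4 : fderiv ℝ (hump η p l) x = l • (fderiv ℝ (bmp n) ((η / l) • (x - p))).comp
      ((η / l) • ContinuousLinearMap.id ℝ (Phase n)) := h3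
  rw [h4]
  apply ContinuousLinearMap.opNorm_le_bound _
    (mul_nonneg hη ((norm_nonneg _).trans (hC 0)))
  intro v
  simp only [smul_apply, ContinuousLinearMap.comp_apply, ContinuousLinearMap.id_apply, map_smul,
    smul_smul]
  rw [mul_div_cancel₀ _ hl.ne', norm_smul, Real.norm_of_nonneg hη, mul_assoc]
  exact mul_le_mul_of_nonneg_left (((fderiv ℝ (bmp n) _).le_opNorm v).trans
    (mul_le_mul_of_nonneg_right (hC _) (norm_nonneg _))) hη

end

/-- The window lemma: if the hump of height `K r` reaches into the box around `(p', r')`, then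
the hump of height `K' r` jumps over it as soon as `K'` is much larger than `K`. -/
lemma hump_window {η : ℝ} (hη0 : 0 < η) (hη1 : η ≤ 1) {p p' : Phase n} {r r' K K' Λ : ℝ}
    (hr : 0 < r) (hr' : 0 < r') (hK : 0 < K) (hΛ : 1 ≤ Λ) (hKK : (4 * Λ ^ 2 + 2) * K < K')
    (h : ∃ y, ‖y - p'‖ ≤ Λ * r' ∧ r' < 2 * Λ * hump η p (K * r) y) :
    ∀ x, ‖x - p'‖ ≤ Λ * r' → Λ * r' < hump η p (K' * r) x := by
  obtain ⟨y, hy1, hy2⟩ := h
  have hKr : 0 < K * r := by positivity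
  have hK' : 0 < K' := lt_trans (by positivity) hKK
  have h1 : r' < 2 * Λ * (K * r) :=
    hy2.trans_le (mul_le_mul_of_nonneg_left (hump_le hKr.le y) (by positivity))
  have h2 : η * ‖y - p‖ < 2 * (K * r) := by
    by_contra hneg
    push Not at hneg
    rw [hump_zero hη0.le hKr hneg, mul_zero] at hy2
    linarith
  intro x hx
  have h3 : ‖x - p‖ ≤ 2 * (Λ * r') + ‖y - p‖ := by
    have e1 : x - p = (x - p') - (y - p') + (y - p) := by abel
    rw [e1]
    refine (norm_add_le _ _).trans ?_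
    have := norm_sub_le (x - p') (y - p')
    linarith
  have h4 : Λ * r' ≤ 2 * Λ ^ 2 * (K * r) := by
    calc Λ * r' ≤ Λ * (2 * Λ * (K * r)) := mul_le_mul_of_nonneg_left h1.le (by linarith)
      _ = _ := by ring
  have h5 : η * ‖x - p‖ ≤ K' * r := by
    calc η * ‖x - p‖ ≤ η * (2 * (Λ * r') + ‖y - p‖) := mul_le_mul_of_nonneg_left h3 hη0.le
      _ = η * (2 * (Λ * r')) + η * ‖y - p‖ := by ring
      _ ≤ 1 * (2 * (Λ * r')) + 2 * (K * r) :=
          add_le_add (mul_le_mul_of_nonneg_right hη1 (by positivity)) h2.le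
      _ ≤ (4 * Λ ^ 2 + 2) * K * r := by nlinarith
      _ ≤ K' * r := mul_le_mul_of_nonneg_right hKK.le hr.le
  rw [hump_eq hη0.le (by positivity) h5]
  calc Λ * r' ≤ 2 * Λ ^ 2 * (K * r) := h4
    _ < (4 * Λ ^ 2 + 2) * K * r := by nlinarith [mul_pos (pow_pos (by linarith : 0 < Λ) 2) hKr]
    _ ≤ K' * r := mul_le_mul_of_nonneg_right hKK.le hr.le

/-- The invariant of the induction over the list of bad boxes. -/
structure Inv (Bad : Phase n → ℝ → Prop) (Λ₀ Λ c e : ℝ) (bs : List (Phase n × ℝ))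
    (ρ : Phase n → ℝ) : Prop where
  smooth : ContDiff ℝ ∞ ρ
  nonneg : ∀ x, 0 ≤ ρ x
  bdd : ∃ B, ∀ x, ρ x ≤ B
  grad : ∀ x, ‖fderiv ℝ ρ x‖ + bs.length * c ≤ e
  clear : ∀ b ∈ bs, (∀ x, ‖x - b.1‖ ≤ 2 ^ bs.length * Λ * b.2 → 2 ^ bs.length * Λ * ρ x < b.2) ∨
    (∀ x, ‖x - b.1‖ ≤ 2 ^ bs.length * Λ * b.2 → 2 ^ bs.length * Λ * b.2 < ρ x)
  below : ∀ x s, 0 < s → Bad x s → 8 * s < ρ x ∨
    ∃ b ∈ bs, ‖x - b.1‖ ≤ Λ₀ * b.2 ∧ b.2 ≤ Λ₀ * s ∧ s ≤ Λ₀ * b.2

/-- The step of the induction. -/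
lemma Inv.step {Bad : Phase n → ℝ → Prop} {Λ₀ Λ c e η Cb W K₀ : ℝ} {N : ℕ}
    (hΛ₀ : 1 ≤ Λ₀) (hΛ : 1 ≤ Λ) (hη0 : 0 < η) (hη1 : η ≤ 1)
    (hCb : ∀ y, ‖fderiv ℝ (bmp n) y‖ ≤ Cb) (hc : η * Cb ≤ c)
    (hK₀ : 8 * Λ₀ < K₀) (hW1 : 1 ≤ W) (hW : 4 * (2 ^ N * Λ) ^ 2 + 2 < W)
    {b : Phase n × ℝ} {bs : List (Phase n × ℝ)} (hlen : bs.length ≤ N) (hb : 0 < b.2)
    (hbs : ∀ b' ∈ bs, 0 < b'.2) {ρ : Phase n → ℝ} (h : Inv Bad Λ₀ Λ c e (b :: bs) ρ) :
    ∃ K, K₀ ≤ K ∧ K ≤ K₀ * W ^ N ∧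
      Inv Bad Λ₀ Λ c e bs (fun x => ρ x + hump η b.1 (K * b.2) x) := by
  have hK₀0 : 0 < K₀ := by linarith
  set Λ' : ℝ := 2 ^ bs.length * Λ with hΛ'
  have hΛ'1 : 1 ≤ Λ' := by
    have : (1 : ℝ) ≤ 2 ^ bs.length := one_le_pow₀ (by norm_num)
    nlinarith
  have hΛ'N : Λ' ≤ 2 ^ N * Λ := by
    apply mul_le_mul_of_nonneg_right _ (by linarith)
    exact pow_le_pow_right₀ (by norm_num) hlen
  have hWΛ : 4 * Λ' ^ 2 + 2 < W := by
    have : Λ' ^ 2 ≤ (2 ^ N * Λ) ^ 2 := pow_le_pow_left₀ (by linarith) hΛ'N 2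
    linarith
  have hlen' : (2 : ℝ) ^ (b :: bs).length * Λ = 2 * Λ' := by
    rw [List.length_cons, pow_succ, hΛ']; ring
  -- a good height
  obtain ⟨q, hq, hgood⟩ : ∃ q : ℕ, q ≤ bs.length ∧ ∀ b' ∈ bs,
      (∀ y, ‖y - b'.1‖ ≤ Λ' * b'.2 → 2 * Λ' * hump η b.1 (K₀ * W ^ q * b.2) y ≤ b'.2) ∨
      (∀ y, ‖y - b'.1‖ ≤ Λ' * b'.2 → Λ' * b'.2 < hump η b.1 (K₀ * W ^ q * b.2) y) := by
    by_contra hcon
    push Not at hcon
    have hcon' : ∀ q : Fin (bs.length + 1), ∃ i : Fin bs.length,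
        (∃ y, ‖y - (bs.get i).1‖ ≤ Λ' * (bs.get i).2 ∧
          (bs.get i).2 < 2 * Λ' * hump η b.1 (K₀ * W ^ (q : ℕ) * b.2) y) ∧
        (∃ y, ‖y - (bs.get i).1‖ ≤ Λ' * (bs.get i).2 ∧
          hump η b.1 (K₀ * W ^ (q : ℕ) * b.2) y ≤ Λ' * (bs.get i).2) := by
      intro q
      obtain ⟨b', hb', h1, h2⟩ := hcon q (Nat.lt_succ_iff.1 q.2)
      obtain ⟨i, rfl⟩ := List.get_of_mem hb'
      exact ⟨i, h1, h2⟩
    choose idx hidx using hcon'
    obtain ⟨q₁, q₂, hne, heq⟩ := Fintype.exists_ne_map_eq_of_card_lt idx (by simp)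
    wlog hlt : q₁ < q₂ generalizing q₁ q₂
    · exact this q₂ q₁ hne.symm heq.symm (lt_of_le_of_ne (not_lt.1 hlt) hne.symm)
    obtain ⟨h1, -⟩ := hidx q₁
    obtain ⟨-, y, hy1, hy2⟩ := hidx q₂
    rw [← heq] at hy1 hy2
    have hKK : (4 * Λ' ^ 2 + 2) * (K₀ * W ^ (q₁ : ℕ)) < K₀ * W ^ (q₂ : ℕ) := by
      have e1 : W ^ ((q₁ : ℕ) + 1) ≤ W ^ (q₂ : ℕ) := pow_le_pow_right₀ hW1 hlt
      have e2 : 0 < W ^ (q₁ : ℕ) := pow_pos (by linarith) _
      calc (4 * Λ' ^ 2 + 2) * (K₀ * W ^ (q₁ : ℕ)) < W * (K₀ * W ^ (q₁ : ℕ)) :=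
            mul_lt_mul_of_pos_right hWΛ (by positivity)
        _ = K₀ * W ^ ((q₁ : ℕ) + 1) := by ring
        _ ≤ K₀ * W ^ (q₂ : ℕ) := mul_le_mul_of_nonneg_left e1 hK₀0.le
    have h2 := hump_window hη0 hη1 hb (hbs _ (List.get_mem bs (idx q₁)))
      (mul_pos hK₀0 (pow_pos (by linarith) _)) hΛ'1 hKK h1 y hy1
    linarith
  have hWq0 : 0 < W ^ q := pow_pos (by linarith) _
  have hWq1 : 1 ≤ W ^ q := one_le_pow₀ hW1
  set K := K₀ * W ^ q with hK
  have hKK₀ : K₀ ≤ K := by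
    rw [hK]
    nlinarith
  have hKpos : 0 < K := by positivity
  have hKb : 0 < K * b.2 := by positivity
  refine ⟨K, hKK₀, ?_, ?_, ?_, ?_, ?_, ?_, ?_⟩
  · rw [hK]
    exact mul_le_mul_of_nonneg_left (pow_le_pow_right₀ hW1 (hq.trans hlen)) hK₀0.le
  · exact h.smooth.add contDiff_hump
  · intro x
    exact add_nonneg (h.nonneg x) (hump_nonneg hKb.le x)
  · obtain ⟨B, hB⟩ := h.bdd
    exact ⟨B + K * b.2, fun x => add_le_add (hB x) (hump_le hKb.le x)⟩
  · intro x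
    have e1 : fderiv ℝ (fun x => ρ x + hump η b.1 (K * b.2) x) x =
        fderiv ℝ ρ x + fderiv ℝ (hump η b.1 (K * b.2)) x :=
      fderiv_add (h.smooth.differentiable (by simp) x)
        (contDiff_hump.differentiable (by simp) x)
    rw [e1]
    have e2 := norm_add_le (fderiv ℝ ρ x) (fderiv ℝ (hump η b.1 (K * b.2)) x)
    have e3 := norm_fderiv_hump_le (p := b.1) hη0.le hKb hCb x
    have e4 := h.grad x
    rw [List.length_cons] at e4
    push_cast at e4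
    linarith
  · intro b' hb'
    rw [← hΛ']
    have hclear := h.clear b' (List.mem_cons_of_mem b hb')
    rw [hlen'] at hclear
    have hb'0 := hbs b' hb'
    have hmono : ∀ x, ‖x - b'.1‖ ≤ Λ' * b'.2 → ‖x - b'.1‖ ≤ 2 * Λ' * b'.2 := fun x hx =>
      hx.trans (by nlinarith [mul_pos (by linarith : 0 < Λ') hb'0])
    rcases hclear with hc1 | hc1
    · rcases hgood b' hb' with h1 | h1
      · left
        intro x hx
        have e1 := hc1 x (hmono x hx)
        have e2 := h1 x hx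
        have e3 : 2 * (Λ' * (ρ x + hump η b.1 (K * b.2) x)) < 2 * b'.2 := by
          have : 2 * (Λ' * (ρ x + hump η b.1 (K * b.2) x)) =
            2 * Λ' * ρ x + 2 * Λ' * hump η b.1 (K * b.2) x := by ring
          rw [this]
          linarith
        linarith
      · right
        intro x hx
        have e1 := h1 x hx
        have e2 := h.nonneg x
        linarith
    · right
      intro x hx
      have e1 := hc1 x (hmono x hx)
      have e2 := hump_nonneg (η := η) (p := b.1) hKb.le x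
      nlinarith [mul_pos (by linarith : 0 < Λ') hb'0]
  · intro x s hs hbad
    rcases h.below x s hs hbad with h1 | ⟨b', hb', h1, h2, h3⟩
    · left
      have := hump_nonneg (η := η) (p := b.1) hKb.le x
      linarith
    · rcases List.mem_cons.1 hb' with h4 | h4
      · left
        subst h4
        have e1 : η * ‖x - b'.1‖ ≤ K * b'.2 := by
          calc η * ‖x - b'.1‖ ≤ 1 * (Λ₀ * b'.2) :=
                mul_le_mul hη1 h1 (norm_nonneg _) zero_le_one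
            _ ≤ K * b'.2 := by
                rw [one_mul]
                exact mul_le_mul_of_nonneg_right (by linarith) hb.le
        rw [hump_eq hη0.le hKb e1]
        have e2 := h.nonneg x
        have e3 : 8 * s ≤ 8 * (Λ₀ * b'.2) := mul_le_mul_of_nonneg_left h3 (by norm_num)
        have e4 : 8 * (Λ₀ * b'.2) < K * b'.2 := by
          have : 8 * Λ₀ * b'.2 < K * b'.2 := mul_lt_mul_of_pos_right (by linarith) hb
          linarith
        linarith
      · right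
        exact ⟨b', h4, h1, h2, h3⟩

end Pool.Agent.Helper17
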