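import Mathlib
import Pool.Agent.Helper17.SympBase
import Pool.Agent.Helper17.AdmPath
import Pool.Agent.Helper17.AdmComp
import Pool.Agent.Helper17.FlatFamilies
import Pool.Agent.Helper17.VarScale
import Pool.Agent.Helper17.VarFlat

set_option maxSynthPendingDepth 3

open scoped ContDiff Topology
open Set Function Filter TopologicalSpace MeasureTheory

namespace Pool.Agent.Helper17

variable {n : ℕ}

/-- Averaged derivatives of close maps are close. -/
lemma norm_kAvg_sub_le {f g : Phase n → Phase n} (hf : ContDiff ℝ ∞ f) (hg : ContDiff ℝ ∞ g)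
    {x : Phase n} {r δ : ℝ} (hr : 0 < r) (h : ∀ y, ‖f y - g y‖ ≤ δ) :
    ‖kAvg f x r - kAvg g x r‖ ≤ c1Eta (Phase n) * (δ / r) := by
  have hr0 : r ≠ 0 := hr.ne'
  have hδ0 : 0 ≤ δ := (norm_nonneg _).trans (h 0)
  have hc₁0 : 0 ≤ c1Eta (Phase n) := c1Eta_nonneg _
  have hη := contDiff_eta (Phase n)
  have hlin : ContDiff ℝ ∞ (fun z : Phase n => x + r • z) :=
    contDiff_const.add (contDiff_const_smul r)
  set e : Phase n → Phase n := fun z => r⁻¹ • (f (x + r • z) - g (x + r • z)) with he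
  have hes : ContDiff ℝ ∞ e := ((hf.comp hlin).sub (hg.comp hlin)).const_smul r⁻¹
  have hlind : ∀ z, HasFDerivAt (fun z : Phase n => x + r • z)
      (r • ContinuousLinearMap.id ℝ (Phase n)) z := fun z =>
    ((hasFDerivAt_id z).const_smul r).const_add x
  have hefd : ∀ z, fderiv ℝ e z = fderiv ℝ f (x + r • z) - fderiv ℝ g (x + r • z) := by
    intro z
    have h1 : HasFDerivAt (fun z : Phase n => f (x + r • z)) _ z :=
      ((hf.differentiable (by simp) (x + r • z)).hasFDerivAt).comp z (hlind z)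
    have h2 : HasFDerivAt (fun z : Phase n => g (x + r • z)) _ z :=
      ((hg.differentiable (by simp) (x + r • z)).hasFDerivAt).comp z (hlind z)
    have h3 : HasFDerivAt e _ z := (h1.sub h2).const_smul r⁻¹
    refine HasFDerivAt.fderiv (h3.congr_fderiv ?_)
    ext1 v
    simp [smul_sub, smul_smul, hr0]
  have heb : ∀ z, ‖z‖ ≤ 1 → ‖e z‖ ≤ δ / r := by
    intro z _
    simp only [he]
    rw [norm_smul, Real.norm_of_nonneg (inv_pos.2 hr).le, inv_mul_eq_div]
    exact div_le_div_of_nonneg_right (h _) hr.le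
  have hAM : ∀ v, (kAvg f x r - kAvg g x r) v =
      -∫ z, (fderiv ℝ (eta (Phase n)) z v) • e z := by
    intro v
    have h1 := integral_smul_fderiv_eq_neg_fderiv_smul_of_integrable (μ := volume)
      (f := eta (Phase n)) (g := e) (v := v)
      (integrable_fderiv_eta_smul hes.continuous v)
      (integrable_eta_smul ((hes.continuous_fderiv (by simp)).clm_apply continuous_const))
      (integrable_eta_smul hes.continuous)
      (fun z _ => hη.differentiable (by simp) z) (fun z _ => hes.differentiable (by simp) z)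
    rw [← h1]
    have h2 : ∀ z, eta (Phase n) z • (fderiv ℝ e z v) =
        (eta (Phase n) z • fderiv ℝ f (x + r • z)) v -
          (eta (Phase n) z • fderiv ℝ g (x + r • z)) v := by
      intro z
      rw [hefd, sub_apply, smul_apply, smul_apply, smul_sub]
    simp only [h2]
    have i1 : Integrable (fun z => eta (Phase n) z • fderiv ℝ f (x + r • z)) :=
      integrable_eta_smul ((hf.continuous_fderiv (by simp)).comp hlin.continuous)
    have i2 : Integrable (fun z => eta (Phase n) z • fderiv ℝ g (x + r • z)) :=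
      integrable_eta_smul ((hg.continuous_fderiv (by simp)).comp hlin.continuous)
    rw [integral_sub (i1.apply_continuousLinearMap v) (i2.apply_continuousLinearMap v),
      ← ContinuousLinearMap.integral_apply i1, ← ContinuousLinearMap.integral_apply i2]
    rfl
  apply ContinuousLinearMap.opNorm_le_bound _ (by positivity)
  intro v
  rw [hAM, norm_neg]
  exact norm_integral_fderiv_eta_smul_le heb v

/-- The class of nearly symplectic maps of bounded geometry. -/
structure InClass (C L ε θ s₀ : ℝ) (γ : Phase n → Phase n) : Prop where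
  smooth : ContDiff ℝ ∞ γ
  supp : ∀ x, C < ‖x‖ → γ x = x
  lip : ∀ x, ‖fderiv ℝ γ x‖ ≤ L
  near : ∀ x, NearL θ (fderiv ℝ γ x)
  flat : ∀ x s, 0 < s → s ≤ s₀ → Good γ ε x s

lemma fderiv_vmol_const {φ : Phase n → Phase n} (hφ : ContDiff ℝ ∞ φ) {L : ℝ}
    (hL : ∀ y, ‖fderiv ℝ φ y‖ ≤ L) (r : ℝ) (x : Phase n) :
    fderiv ℝ (vmol φ (fun _ => r)) x = kAvg φ x r := by
  have h := norm_fderiv_vmol_sub_le hφ (ρ := fun _ => r) contDiff_const hL x
  have h0 : fderiv ℝ (fun _ : Phase n => r) x = 0 := (hasFDerivAt_const r x).fderiv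
  rw [h0, norm_zero, mul_zero] at h
  exact sub_eq_zero.1 (norm_eq_zero.1 (le_antisymm h (norm_nonneg _)))

section

variable {C L ε θ s₀ : ℝ}

lemma InClass.adm {γ : Phase n → Phase n} (h : InClass C L ε θ s₀ γ) (hθ : θ < 1) : Adm γ :=
  ⟨h.smooth, ⟨Metric.closedBall 0 C, isCompact_closedBall _ _, fun x hx =>
    h.supp x (by simpa using hx)⟩, fun x => (h.near x).admissible hθ⟩

lemma InClass.nearL_kAvg {γ : Phase n → Phase n} (h : InClass C L ε θ s₀ γ) (hL1 : 1 ≤ L)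
    (hε0 : 0 ≤ ε) (hε1 : ε ≤ 1 / 2) {r : ℝ} (hr : 0 < r) (hr1 : r ≤ s₀) (x : Phase n) :
    NearL (θ + (c1Eta (Phase n) * ε) ^ 2 + 3 * L * (c1Eta (Phase n) * ε)) (kAvg γ x r) := by
  obtain ⟨c, M, hM⟩ := h.flat x r hr hr1
  have hlip : ∀ y z, ‖γ y - γ z‖ ≤ L * ‖y - z‖ := fun y z =>
    convex_univ.norm_image_sub_le_of_norm_fderiv_le (𝕜 := ℝ)
      (fun w _ => h.smooth.differentiable (by simp) w) (fun w _ => h.lip w) (mem_univ z)
      (mem_univ y)
  have hMn1 : ‖M‖ ≤ L + 2 * ε := norm_le_of_flat hr (by linarith) hε0 hlip hM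
  have hMn : ‖M‖ ≤ 2 * L := by linarith
  exact (kAvg_close h.smooth hr h.lip (fun y v w => h.near y v w) hMn hM).2

/-- Mollifying at a constant scale does not change the class. -/
lemma InClass.admPath_vmol {γ : Phase n → Phase n} (h : InClass C L ε θ s₀ γ) (hL1 : 1 ≤ L)
    (hε0 : 0 ≤ ε) (hε1 : ε ≤ 1 / 2) (hs₀ : 0 < s₀) (hθ1 : θ < 1)
    (hθ : θ + (c1Eta (Phase n) * ε) ^ 2 + 3 * L * (c1Eta (Phase n) * ε) < 1) :
    AdmPath γ (vmol γ (fun _ => s₀)) := by
  refine ⟨fun t => vmol γ (fun _ => (t : ℝ) * s₀),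
    CF_vmol h.smooth (CF.param (continuous_subtype_val.mul continuous_const)),
    ⟨Metric.closedBall 0 (C + s₀), isCompact_closedBall _ _, ?_⟩, ?_, ?_, ?_⟩
  · intro t x hx
    apply vmol_eq_of_gt h.supp (B := s₀) _ (by simpa using hx)
    rw [abs_of_nonneg (mul_nonneg t.2.1 hs₀.le)]
    exact mul_le_of_le_one_left hs₀.le t.2.2
  · intro t x
    rw [fderiv_vmol_const h.smooth h.lip]
    rcases t.2.1.eq_or_lt with h0 | h0
    · rw [← h0, zero_mul]
      have h2 : kAvg γ x 0 = fderiv ℝ γ x := by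
        rw [kAvg_eq]
        simp
      rw [h2]
      exact (h.near x).admissible hθ1
    · exact (h.nearL_kAvg hL1 hε0 hε1 (mul_pos h0 hs₀) (mul_le_of_le_one_left hs₀.le t.2.2)
        x).admissible hθ
  · ext1 x
    exact vmol_zero (by simp)
  · simp

/-- Two members of the class which are close in the uniform norm are joined. -/
lemma InClass.admPath_of_close {γ γ' : Phase n → Phase n} (h : InClass C L ε θ s₀ γ)
    (h' : InClass C L ε θ s₀ γ') (hL1 : 1 ≤ L)
    (hε0 : 0 ≤ ε) (hε1 : ε ≤ 1 / 2) (hs₀ : 0 < s₀) (hθ1 : θ < 1) {τ : ℝ}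
    (hτ : ∀ x, ‖γ x - γ' x‖ ≤ τ)
    (hθ : θ + (c1Eta (Phase n) * ε) ^ 2 + 3 * L * (c1Eta (Phase n) * ε) +
      2 * L * (c1Eta (Phase n) * (τ / s₀)) + (c1Eta (Phase n) * (τ / s₀)) ^ 2 < 1) :
    AdmPath γ γ' := by
  have hc₁0 : 0 ≤ c1Eta (Phase n) := c1Eta_nonneg _
  have hτ0 : 0 ≤ τ := (norm_nonneg _).trans (hτ 0)
  set p := c1Eta (Phase n) * (τ / s₀) with hp
  have hp0 : 0 ≤ p := by positivity
  have hθ' : θ + (c1Eta (Phase n) * ε) ^ 2 + 3 * L * (c1Eta (Phase n) * ε) < 1 := by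
    have : 0 ≤ 2 * L * p + p ^ 2 := by positivity
    linarith
  have e1 := h.admPath_vmol hL1 hε0 hε1 hs₀ hθ1 hθ'
  have e2 := h'.admPath_vmol hL1 hε0 hε1 hs₀ hθ1 hθ'
  refine (e1.trans ?_).trans e2.symm
  have hsup : ∀ {g : Phase n → Phase n}, InClass C L ε θ s₀ g →
      ∀ x ∉ Metric.closedBall (0 : Phase n) (C + s₀), vmol g (fun _ => s₀) x = x := fun hg x hx =>
    vmol_eq_of_gt hg.supp (B := s₀) (abs_of_pos hs₀).le (by simpa using hx)
  apply admPath_segment (contDiff_vmol h.smooth contDiff_const)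
    (contDiff_vmol h'.smooth contDiff_const) (isCompact_closedBall 0 (C + s₀)) (hsup h) (hsup h')
  intro x t ht
  rw [fderiv_vmol_const h.smooth h.lip, fderiv_vmol_const h'.smooth h'.lip]
  have h1 := norm_kAvg_sub_le h'.smooth h.smooth (x := x) hs₀ (fun y => by
    rw [norm_sub_rev]; exact hτ y)
  have h2 : ‖(kAvg γ x s₀ + t • (kAvg γ' x s₀ - kAvg γ x s₀)) - kAvg γ x s₀‖ ≤ p := by
    rw [add_sub_cancel_left, norm_smul, Real.norm_of_nonneg ht.1]
    exact (mul_le_of_le_one_left (norm_nonneg _) ht.2).trans h1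
  exact ((h.nearL_kAvg hL1 hε0 hε1 hs₀ le_rfl x).perturb (norm_kAvg_le h.lip x s₀)
    h2).admissible hθ

/-- A bounded class of maps contains only finitely many classes. -/
theorem finite_classes (n : ℕ) {C L ε θ s₀ : ℝ} (hL1 : 1 ≤ L) (hε0 : 0 ≤ ε) (hε1 : ε ≤ 1 / 2)
    (hs₀ : 0 < s₀) (hθ1 : θ < 1)
    (hθ : θ + (c1Eta (Phase n) * ε) ^ 2 + 3 * L * (c1Eta (Phase n) * ε) < 1) :
    ∃ F : Set (SympCt n), F.Finite ∧ ∀ γ : Phase n → Phase n, InClass C L ε θ s₀ γ →
      ∃ g ∈ F, AdmPath γ (g : Equiv.Perm (Phase n)) := by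
  have hc₁0 : 0 ≤ c1Eta (Phase n) := c1Eta_nonneg _
  -- the closeness required
  obtain ⟨τ, hτ0, hτ⟩ : ∃ τ : ℝ, 0 < τ ∧
      θ + (c1Eta (Phase n) * ε) ^ 2 + 3 * L * (c1Eta (Phase n) * ε) +
      2 * L * (c1Eta (Phase n) * (τ / s₀)) + (c1Eta (Phase n) * (τ / s₀)) ^ 2 < 1 := by
    have hc : Continuous (fun τ : ℝ => θ + (c1Eta (Phase n) * ε) ^ 2 +
      3 * L * (c1Eta (Phase n) * ε) +
      2 * L * (c1Eta (Phase n) * (τ / s₀)) + (c1Eta (Phase n) * (τ / s₀)) ^ 2) := by fun_prop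
    have h0 : θ + (c1Eta (Phase n) * ε) ^ 2 +
      3 * L * (c1Eta (Phase n) * ε) +
      2 * L * (c1Eta (Phase n) * ((0 : ℝ) / s₀)) + (c1Eta (Phase n) * ((0 : ℝ) / s₀)) ^ 2 < 1 := by
      simpa using hθ
    have h1 := (hc.tendsto 0).eventually (gt_mem_nhds h0)
    obtain ⟨δ, hδ, h2⟩ := Metric.eventually_nhds_iff.1 h1
    refine ⟨δ / 2, by positivity, h2 ?_⟩
    rw [Real.dist_eq, sub_zero, abs_of_pos (by positivity)]
    linarith
  set C' : ℝ := |C| + 1 + L * (2 * |C| + 1) with hC'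
  obtain ⟨t₁, ht₁s, ht₁f, ht₁⟩ := finite_cover_balls_of_compact
    (isCompact_closedBall (0 : Phase n) C) (e := τ / (4 * L)) (by positivity)
  obtain ⟨t₂, -, ht₂f, ht₂⟩ := finite_cover_balls_of_compact
    (isCompact_closedBall (0 : Phase n) C') (e := τ / 4) (by positivity)
  have : Finite t₁ := ht₁f.to_subtype
  have : Finite t₂ := ht₂f.to_subtype
  have hlip : ∀ {γ : Phase n → Phase n}, InClass C L ε θ s₀ γ → ∀ y z,
      ‖γ y - γ z‖ ≤ L * ‖y - z‖ := fun {γ} h y z =>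
    convex_univ.norm_image_sub_le_of_norm_fderiv_le (𝕜 := ℝ)
      (fun w _ => h.smooth.differentiable (by simp) w) (fun w _ => h.lip w) (mem_univ z)
      (mem_univ y)
  have hbd : ∀ {γ : Phase n → Phase n}, InClass C L ε θ s₀ γ → ∀ y, ‖y‖ ≤ C → ‖γ y‖ ≤ C' := by
    intro γ h y hy
    rcases subsingleton_or_nontrivial (Phase n) with hs | hs
    · have : γ y = 0 := Subsingleton.elim _ _
      rw [this, norm_zero]
      positivity
    · obtain ⟨z₀, hz₀⟩ := exists_norm_eq (Phase n) (c := |C| + 1) (by positivity)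
      have e1 := hlip h y z₀
      have e2 : γ z₀ = z₀ := h.supp z₀ (by rw [hz₀]; linarith [le_abs_self C])
      rw [e2] at e1
      have e3 := norm_sub_le y z₀
      have e4 : ‖y - z₀‖ ≤ 2 * |C| + 1 := by
        have := le_abs_self C
        linarith
      have e5 : L * ‖y - z₀‖ ≤ L * (2 * |C| + 1) := mul_le_mul_of_nonneg_left e4 (by linarith)
      have e6 : ‖γ y‖ ≤ ‖γ y - z₀‖ + ‖z₀‖ := by
        have := norm_add_le (γ y - z₀) z₀
        rwa [sub_add_cancel] at this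
      rw [hC']
      linarith
  have hcode : ∀ {γ : Phase n → Phase n}, InClass C L ε θ s₀ γ →
      ∃ c : t₁ → t₂, ∀ y : t₁, ‖γ y - c y‖ < τ / 4 := by
    intro γ h
    have h1 : ∀ y : t₁, ∃ w : t₂, ‖γ y - w‖ < τ / 4 := by
      intro y
      have e1 : ‖(y : Phase n)‖ ≤ C := by simpa using ht₁s y.2
      have e2 := ht₂ (show γ y ∈ Metric.closedBall (0 : Phase n) C' by simpa using hbd h y e1)
      simp only [mem_iUnion, Metric.mem_ball] at e2
      obtain ⟨w, hw, hyw⟩ := e2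
      exact ⟨⟨w, hw⟩, by rwa [← dist_eq_norm]⟩
    choose c hc using h1
    exact ⟨c, hc⟩
  classical
  set G : (t₁ → t₂) → SympCt n := fun c =>
    if h : ∃ γ : Phase n → Phase n, InClass C L ε θ s₀ γ ∧ ∀ y : t₁, ‖γ y - c y‖ < τ / 4 then
      (h.choose_spec.1.adm hθ1).exists_symp.choose else 1 with hG
  refine ⟨range G, finite_range G, fun γ hγ => ?_⟩
  obtain ⟨c, hc⟩ := hcode hγ
  refine ⟨G c, mem_range_self c, ?_⟩
  have hex : ∃ γ : Phase n → Phase n, InClass C L ε θ s₀ γ ∧ ∀ y : t₁, ‖γ y - c y‖ < τ / 4 :=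
    ⟨γ, hγ, hc⟩
  have hGc : G c = (hex.choose_spec.1.adm hθ1).exists_symp.choose := by
    simp only [hG]
    rw [dif_pos hex]
  rw [hGc]
  have hpath := (hex.choose_spec.1.adm hθ1).exists_symp.choose_spec
  refine AdmPath.trans ?_ hpath
  obtain ⟨h1, h2⟩ := hex.choose_spec
  set γ' := hex.choose with hγ'
  apply hγ.admPath_of_close h1 hL1 hε0 hε1 hs₀ hθ1 (τ := τ) _ hτ
  intro x
  by_cases hx : ‖x‖ ≤ C
  · have h3 := ht₁ (show x ∈ Metric.closedBall (0 : Phase n) C by simpa using hx)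
    simp only [mem_iUnion, Metric.mem_ball] at h3
    obtain ⟨y, hy, hxy⟩ := h3
    rw [dist_eq_norm] at hxy
    have e1 := hlip hγ x y
    have e2 := hlip h1 y x
    have e3 := hc ⟨y, hy⟩
    have e4 := h2 ⟨y, hy⟩
    simp only at e3 e4
    have e5 : L * ‖x - y‖ ≤ τ / 4 := by
      have := mul_le_mul_of_nonneg_left hxy.le (by linarith : 0 ≤ L)
      refine this.trans (le_of_eq ?_)
      field_simp
    rw [norm_sub_rev y x] at e2
    have e6 : γ x - γ' x = (γ x - γ y) + (γ y - (c ⟨y, hy⟩ : Phase n)) -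
        (γ' y - (c ⟨y, hy⟩ : Phase n)) + (γ' y - γ' x) := by abel
    rw [e6]
    have n1 := norm_add_le ((γ x - γ y) + (γ y - (c ⟨y, hy⟩ : Phase n)) -
        (γ' y - (c ⟨y, hy⟩ : Phase n))) (γ' y - γ' x)
    have n2 := norm_sub_le ((γ x - γ y) + (γ y - (c ⟨y, hy⟩ : Phase n)))
        (γ' y - (c ⟨y, hy⟩ : Phase n))
    have n3 := norm_add_le (γ x - γ y) (γ y - (c ⟨y, hy⟩ : Phase n))
    linarith
  · push Not at hx
    rw [hγ.supp x hx, h1.supp x hx, sub_self, norm_zero]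
    exact hτ0.le

end

end Pool.Agent.Helper17
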