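import Mathlib
import Pool.Agent.Helper17.SympBase
import Pool.Agent.Helper17.AdmPath
import Pool.Agent.Helper17.AdmComp
import Pool.Agent.Helper17.FlatFamilies
import Pool.Agent.Helper17.VarScale
import Pool.Agent.Helper17.VarFlat
import Pool.Agent.Helper17.Quot
import Pool.Agent.Helper17.NormalClass
import Pool.Agent.Helper17.ScaleFun

set_option maxSynthPendingDepth 3

open scoped ContDiff Topology Pointwise
open Set Function Filter TopologicalSpace MeasureTheory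

namespace Pool.Agent.Helper17

variable {n : ℕ}

lemma admissible_near_one' {A : Phase n →L[ℝ] Phase n}
    (h : ‖A - ContinuousLinearMap.id ℝ (Phase n)‖ ≤ 1 / 3) {t : ℝ} (ht : t ∈ Icc (0 : ℝ) 1) :
    Admissible (A + t • (ContinuousLinearMap.id ℝ (Phase n) - A)) := by
  apply admissible_of_near_one
  have h1 : A + t • (ContinuousLinearMap.id ℝ (Phase n) - A) - ContinuousLinearMap.id ℝ (Phase n) =
      (1 - t) • (A - ContinuousLinearMap.id ℝ (Phase n)) := by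
    module
  rw [h1, norm_smul, Real.norm_of_nonneg (by linarith [ht.2])]
  calc (1 - t) * ‖A - ContinuousLinearMap.id ℝ (Phase n)‖ ≤ 1 * (1 / 3) :=
        mul_le_mul (by linarith [ht.1]) h (norm_nonneg _) zero_le_one
    _ = 1 / 3 := one_mul _

lemma exists_support_radius (φ : SympCt n) : ∃ R : ℝ, 0 ≤ R ∧
    ∀ x, R < ‖x‖ → (φ : Equiv.Perm (Phase n)) x = x := by
  obtain ⟨K, hK, hφK⟩ := φ.2.2.2.2
  obtain ⟨R, hR⟩ := hK.isBounded.subset_closedBall (0 : Phase n)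
  refine ⟨max R 0, le_max_right _ _, fun x hx => hφK x fun h => ?_⟩
  have h1 := hR h
  rw [mem_closedBall_zero_iff] at h1
  have := le_max_left R 0
  linarith

/-- At large scales the mollification is close to the identity. -/
lemma exists_large_scale (hn : n ≠ 0) {φ : SympCt n} {L : ℝ} (hL1 : 1 ≤ L)
    (hL : ∀ x, ‖fderiv ℝ (φ : Equiv.Perm (Phase n)) x‖ ≤ L) :
    ∃ R : ℝ, 0 < R ∧ ∀ ρ : Phase n → ℝ, ContDiff ℝ ∞ ρ → ∀ x, R ≤ ρ x → ‖fderiv ℝ ρ x‖ ≤ 1 →
      ‖fderiv ℝ (vmol (φ : Equiv.Perm (Phase n)) ρ) x - ContinuousLinearMap.id ℝ (Phase n)‖ ≤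
        1 / 3 := by
  obtain ⟨N, hN0, hN⟩ := exists_support_radius φ
  set C : ℝ := L + 1 with hC
  have hC0 : 0 < C := by linarith
  have hC' : ∀ y, ‖fderiv ℝ (φ : Equiv.Perm (Phase n)) y - ContinuousLinearMap.id ℝ (Phase n)‖ ≤ C :=
    fun y => (norm_sub_le _ _).trans (add_le_add (hL y) ContinuousLinearMap.norm_id_le)
  have hfar : ∀ y, N < ‖y‖ → fderiv ℝ (φ : Equiv.Perm (Phase n)) y =
      ContinuousLinearMap.id ℝ (Phase n) := by
    intro y hy
    have h1 : (φ : Equiv.Perm (Phase n)) =ᶠ[𝓝 y] fun z => z := by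
      filter_upwards [(isOpen_lt continuous_const continuous_norm).mem_nhds hy] with z hz
      exact hN z hz
    rw [h1.fderiv_eq]
    exact fderiv_fun_id
  obtain ⟨δ, hδ, hδ'⟩ := exists_small_balls (etaMeasure n) (etaMeasure_singleton hn)
    etaMeasure_compl (ε := 1 / (6 * C)) (by positivity)
  obtain ⟨R, hR⟩ : ∃ R : ℝ, R = (N + 1) / δ := ⟨_, rfl⟩
  have hR0 : 0 < R := by rw [hR]; positivity
  refine ⟨R, hR0, fun ρ hρ x hx hρx => ?_⟩
  have hρ0 : 0 < ρ x := hR0.trans_le hx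
  set y₀ : Phase n := -((ρ x)⁻¹ • x) with hy₀
  have hzero : ∀ z ∉ Metric.ball y₀ δ, fderiv ℝ (φ : Equiv.Perm (Phase n)) (x + ρ x • z) -
      ContinuousLinearMap.id ℝ (Phase n) = 0 := by
    intro z hz
    rw [hfar, sub_self]
    have h1 : δ ≤ ‖z - y₀‖ := by
      rw [← dist_eq_norm]
      simpa using hz
    have h2 : x + ρ x • z = ρ x • (z - y₀) := by
      rw [hy₀, sub_neg_eq_add, smul_add, smul_smul, mul_inv_cancel₀ hρ0.ne', one_smul, add_comm]
    rw [h2, norm_smul, Real.norm_of_nonneg hρ0.le]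
    have h3 : R * δ ≤ ρ x * ‖z - y₀‖ := mul_le_mul hx h1 hδ.le hρ0.le
    have h4 : R * δ = N + 1 := by rw [hR]; field_simp
    linarith
  have hc1 : Continuous (fun z => fderiv ℝ (φ : Equiv.Perm (Phase n)) (x + ρ x • z)) :=
    ((SympCt.contDiff φ).continuous_fderiv (by simp)).comp
      (continuous_const.add (continuous_const_smul _))
  have hc2 : Continuous (fun z : Phase n => (fderiv ℝ ρ x).smulRight z) :=
    (ContinuousLinearMap.smulRightL ℝ (Phase n) (Phase n) (fderiv ℝ ρ x)).continuous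
  have hc2' : Continuous (fun z : Phase n =>
      ContinuousLinearMap.id ℝ (Phase n) + (fderiv ℝ ρ x).smulRight z) := continuous_const.add hc2
  have hint1 : ∫ z, (ContinuousLinearMap.id ℝ (Phase n) + (fderiv ℝ ρ x).smulRight z)
      ∂(etaMeasure n) = ContinuousLinearMap.id ℝ (Phase n) := by
    rw [integral_add (integrable_const _) (integrable_etaMeasure hc2)]
    have h1 : ∀ z : Phase n, (fderiv ℝ ρ x).smulRight z =
        ContinuousLinearMap.smulRightL ℝ (Phase n) (Phase n) (fderiv ℝ ρ x) z := fun z => rfl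
    simp only [h1]
    have h2 := ContinuousLinearMap.integral_comp_comm
      (ContinuousLinearMap.smulRightL ℝ (Phase n) (Phase n) (fderiv ℝ ρ x))
      (integrable_etaMeasure (n := n) (g := fun z => z) continuous_id)
    rw [integral_etaMeasure_id, map_zero] at h2
    rw [h2]
    simp
  have hD : fderiv ℝ (vmol (φ : Equiv.Perm (Phase n)) ρ) x - ContinuousLinearMap.id ℝ (Phase n) =
      ∫ z, (fderiv ℝ (φ : Equiv.Perm (Phase n)) (x + ρ x • z) -
        ContinuousLinearMap.id ℝ (Phase n)).comp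
        (ContinuousLinearMap.id ℝ (Phase n) + (fderiv ℝ ρ x).smulRight z) ∂(etaMeasure n) := by
    rw [(hasFDerivAt_vmol (SympCt.contDiff φ) hρ x).fderiv]
    nth_rewrite 2 [← hint1]
    rw [← integral_sub (integrable_etaMeasure (hc1.clm_comp hc2')) (integrable_etaMeasure hc2')]
    congr 1
  rw [hD, ← setIntegral_eq_integral_of_forall_compl_eq_zero (s := Metric.ball y₀ δ)
    (fun z hz => by rw [hzero z hz, ContinuousLinearMap.zero_comp])]
  have hrest : ∫ z in Metric.ball y₀ δ, (fderiv ℝ (φ : Equiv.Perm (Phase n)) (x + ρ x • z) -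
        ContinuousLinearMap.id ℝ (Phase n)).comp
        (ContinuousLinearMap.id ℝ (Phase n) + (fderiv ℝ ρ x).smulRight z) ∂(etaMeasure n) =
      ∫ z in Metric.ball y₀ δ ∩ Metric.closedBall 0 1,
        (fderiv ℝ (φ : Equiv.Perm (Phase n)) (x + ρ x • z) -
        ContinuousLinearMap.id ℝ (Phase n)).comp
        (ContinuousLinearMap.id ℝ (Phase n) + (fderiv ℝ ρ x).smulRight z) ∂(etaMeasure n) := by
    nth_rewrite 1 [← restrict_etaMeasure]
    rw [Measure.restrict_restrict measurableSet_ball]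
  rw [hrest]
  refine (norm_setIntegral_le_of_norm_le_const (C := 2 * C) (measure_lt_top _ _) ?_).trans ?_
  · intro z hz
    refine (ContinuousLinearMap.opNorm_comp_le _ _).trans ?_
    have h1 : ‖ContinuousLinearMap.id ℝ (Phase n) + (fderiv ℝ ρ x).smulRight z‖ ≤ 2 := by
      refine (norm_add_le _ _).trans ?_
      have h2 : ‖(fderiv ℝ ρ x).smulRight z‖ ≤ 1 := by
        rw [ContinuousLinearMap.norm_smulRight_apply]
        exact mul_le_one₀ hρx (norm_nonneg _) (by simpa using hz.2)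
      have h3 : ‖ContinuousLinearMap.id ℝ (Phase n)‖ ≤ 1 := ContinuousLinearMap.norm_id_le
      linarith
    calc _ ≤ C * 2 := mul_le_mul (hC' _) h1 (norm_nonneg _) hC0.le
      _ = 2 * C := mul_comm _ _
  · have h1 : (etaMeasure n).real (Metric.ball y₀ δ ∩ Metric.closedBall 0 1) ≤ 1 / (6 * C) :=
      (measureReal_mono inter_subset_left).trans (hδ' y₀)
    calc 2 * C * (etaMeasure n).real (Metric.ball y₀ δ ∩ Metric.closedBall 0 1) ≤
          2 * C * (1 / (6 * C)) := mul_le_mul_of_nonneg_left h1 (by positivity)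
      _ = 1 / 3 := by field_simp; norm_num

/-- The bound for the change of the symplectic form under mollification. -/
noncomputable def th1 (n : ℕ) (L ε e : ℝ) : ℝ :=
  (c1Eta (Phase n) * ε) ^ 2 + 3 * L * (c1Eta (Phase n) * ε) + 2 * L * (L * e) + (L * e) ^ 2

lemma th1_nonneg {L ε e : ℝ} (hL : 0 ≤ L) (hε : 0 ≤ ε) (he : 0 ≤ e) : 0 ≤ th1 n L ε e := by
  have := c1Eta_nonneg (Phase n)
  unfold th1
  positivity

/-- Once no bad points are left above the scale, the mollification is isotopic to the identity. -/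
lemma admPath_vmol_one (hn : n ≠ 0) {φ : SympCt n} {L ε e : ℝ} (hL1 : 1 ≤ L) (hε0 : 0 ≤ ε)
    (hε1 : ε ≤ 1 / 2) (he0 : 0 ≤ e) (he1 : e ≤ 1)
    (hL : ∀ x, ‖fderiv ℝ (φ : Equiv.Perm (Phase n)) x‖ ≤ L) {ρ : Phase n → ℝ}
    (hρ : ContDiff ℝ ∞ ρ) (hρ0 : ∀ x, 0 ≤ ρ x) (hρB : ∃ B, ∀ x, ρ x ≤ B)
    (hρe : ∀ x, ‖fderiv ℝ ρ x‖ ≤ e)
    (hgood : ∀ x s, 0 < s → ρ x ≤ s → Good (φ : Equiv.Perm (Phase n)) ε x s)
    (hθ : th1 n L ε e < 1) :
    AdmPath (vmol (φ : Equiv.Perm (Phase n)) ρ) ((1 : SympCt n) : Equiv.Perm (Phase n)) := by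
  obtain ⟨R, hR, hRclose⟩ := exists_large_scale hn hL1 hL
  obtain ⟨N, hN0, hN⟩ := exists_support_radius φ
  obtain ⟨B, hB⟩ := hρB
  have hρt : ∀ t : ℝ, ContDiff ℝ ∞ (fun x => ρ x + t * R) := fun t => hρ.add contDiff_const
  have hρtd : ∀ (t : ℝ) x, fderiv ℝ (fun x => ρ x + t * R) x = fderiv ℝ ρ x := fun t x => by
    rw [fderiv_add_const]
  have hsupp : ∀ t ∈ Icc (0 : ℝ) 1, ∀ x ∉ Metric.closedBall (0 : Phase n) (N + (B + R)),
      vmol (φ : Equiv.Perm (Phase n)) (fun x => ρ x + t * R) x = x := by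
    intro t ht x hx
    apply vmol_eq_of_gt hN (B := B + R) _ (by simpa using hx)
    rw [abs_of_nonneg (add_nonneg (hρ0 x) (mul_nonneg ht.1 hR.le))]
    exact add_le_add (hB x) (mul_le_of_le_one_left hR.le ht.2)
  have p1 : AdmPath (vmol (φ : Equiv.Perm (Phase n)) ρ)
      (vmol (φ : Equiv.Perm (Phase n)) (fun x => ρ x + 1 * R)) := by
    refine ⟨fun t => vmol (φ : Equiv.Perm (Phase n)) (fun x => ρ x + (t : ℝ) * R),
      CF_vmol (SympCt.contDiff φ) ((CF.const hρ).add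
        (CF.param (continuous_subtype_val.mul continuous_const))),
      ⟨Metric.closedBall 0 (N + (B + R)), isCompact_closedBall _ _, fun t => hsupp t t.2⟩,
      ?_, ?_, ?_⟩
    · intro t x
      refine (nearL_vmol hL1 hε0 hε1 he0 hL (hρt t)
        (fun x => add_nonneg (hρ0 x) (mul_nonneg t.2.1 hR.le)) (x := x) ?_ ?_).admissible hθ
      · rw [hρtd]
        exact hρe x
      · intro h0
        exact hgood x _ h0 (le_add_of_nonneg_right (mul_nonneg t.2.1 hR.le))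
    · simp
    · rfl
  have p2 : AdmPath (vmol (φ : Equiv.Perm (Phase n)) (fun x => ρ x + 1 * R))
      ((1 : SympCt n) : Equiv.Perm (Phase n)) := by
    have e1 : (((1 : SympCt n) : Equiv.Perm (Phase n)) : Phase n → Phase n) = fun x => x := rfl
    rw [e1]
    apply admPath_segment (contDiff_vmol (SympCt.contDiff φ) (hρt 1)) contDiff_id
      (isCompact_closedBall 0 (N + (B + R))) (hsupp 1 (right_mem_Icc.2 zero_le_one))
      (fun x _ => rfl)
    intro x t ht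
    rw [fderiv_id]
    apply admissible_near_one' _ ht
    apply hRclose _ (hρt 1)
    · rw [one_mul]
      exact le_add_of_nonneg_left (hρ0 x)
    · rw [hρtd]
      exact (hρe x).trans he1
  exact p1.trans p2

section Inv

variable {Bad : Phase n → ℝ → Prop} {Λ₀ Λ c e : ℝ} {bs : List (Phase n × ℝ)} {ρ : Phase n → ℝ}

lemma Inv.not_bad (h : Inv Bad Λ₀ Λ c e bs ρ) (hΛ₀ : 1 ≤ Λ₀) (hΛ : 8 * Λ₀ ≤ Λ)
    (hbs : ∀ b ∈ bs, 0 < b.2) {x : Phase n} {s : ℝ} (hs : 0 < s) (h1 : ρ x ≤ 8 * s)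
    (h2 : s ≤ 8 * ρ x) : ¬Bad x s := by
  intro hbad
  rcases h.below x s hs hbad with h3 | ⟨b, hb, h3, h4, h5⟩
  · linarith
  · have hb0 := hbs b hb
    set Λ' : ℝ := 2 ^ bs.length * Λ with hΛ'
    have hΛ'1 : Λ ≤ Λ' := by
      have : (1 : ℝ) ≤ 2 ^ bs.length := one_le_pow₀ (by norm_num)
      rw [hΛ']
      nlinarith
    have h6 : ‖x - b.1‖ ≤ Λ' * b.2 := h3.trans (mul_le_mul_of_nonneg_right (by linarith) hb0.le)
    rcases h.clear b hb with h7 | h7
    · have h8 := h7 x h6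
      have h9 : Λ₀ * s ≤ Λ' * ρ x := by
        calc Λ₀ * s ≤ Λ₀ * (8 * ρ x) := mul_le_mul_of_nonneg_left h2 (by linarith)
          _ = 8 * Λ₀ * ρ x := by ring
          _ ≤ Λ' * ρ x := mul_le_mul_of_nonneg_right (by linarith) (h.nonneg x)
      linarith
    · have h8 := h7 x h6
      have h9 : 8 * s ≤ Λ' * b.2 := by
        calc 8 * s ≤ 8 * (Λ₀ * b.2) := mul_le_mul_of_nonneg_left h5 (by norm_num)
          _ = 8 * Λ₀ * b.2 := by ring
          _ ≤ Λ' * b.2 := mul_le_mul_of_nonneg_right (by linarith) hb0.le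
      linarith

lemma Inv.not_bad_small (h : Inv Bad Λ₀ Λ c e bs ρ) {r₁ : ℝ} (hbs : ∀ b ∈ bs, r₁ ≤ b.2)
    {x : Phase n} {s : ℝ} (hs : 0 < s) (h1 : ρ x ≤ 8 * s) (h2 : Λ₀ * s < r₁) : ¬Bad x s := by
  intro hbad
  rcases h.below x s hs hbad with h3 | ⟨b, hb, h3, h4, h5⟩
  · linarith
  · have := hbs b hb
    linarith

end Inv

/-- The constants. -/
lemma exists_kappa (n : ℕ) (L : ℝ) : ∃ κ : ℝ, 0 < κ ∧ κ ≤ 1 / 2 ∧
    th1 n L κ κ ≤ 1 / 2 ∧ 16 * L * (8 * (c1Eta (Phase n) + 1) * κ + L * κ) ≤ 1 ∧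
    132 * L ^ 3 * (8 * (c1Eta (Phase n) + 1) * κ + L * κ) ≤ 1 / 2 ∧
    32 * L ^ 2 * th1 n L κ κ < 1 ∧
    32 * L ^ 2 * th1 n L κ κ +
      (c1Eta (Phase n) * (132 * L ^ 3 * (8 * (c1Eta (Phase n) + 1) * κ + L * κ))) ^ 2 +
      3 * (8 * L ^ 2) *
        (c1Eta (Phase n) * (132 * L ^ 3 * (8 * (c1Eta (Phase n) + 1) * κ + L * κ))) < 1 := by
  have key : ∀ {f : ℝ → ℝ} {a : ℝ}, Continuous f → f 0 = 0 → 0 < a → ∀ᶠ κ in 𝓝 (0 : ℝ), f κ < a := by
    intro f a hf h0 ha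
    have h1 := (hf.tendsto 0).eventually (gt_mem_nhds (show f 0 < a by rw [h0]; exact ha))
    exact h1
  have e1 := key (f := fun κ => κ) (a := 1 / 2) continuous_id rfl (by norm_num)
  have e2 := key (f := fun κ => th1 n L κ κ) (a := 1 / 2) (by unfold th1; fun_prop)
    (by simp [th1]) (by norm_num)
  have e3 := key (f := fun κ => 16 * L * (8 * (c1Eta (Phase n) + 1) * κ + L * κ)) (a := 1)
    (by fun_prop) (by simp) (by norm_num)
  have e4 := key (f := fun κ => 132 * L ^ 3 * (8 * (c1Eta (Phase n) + 1) * κ + L * κ))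
    (a := 1 / 2) (by fun_prop) (by simp) (by norm_num)
  have e5 := key (f := fun κ => 32 * L ^ 2 * th1 n L κ κ) (a := 1) (by unfold th1; fun_prop)
    (by simp [th1]) (by norm_num)
  have e6 := key (f := fun κ => 32 * L ^ 2 * th1 n L κ κ +
      (c1Eta (Phase n) * (132 * L ^ 3 * (8 * (c1Eta (Phase n) + 1) * κ + L * κ))) ^ 2 +
      3 * (8 * L ^ 2) *
        (c1Eta (Phase n) * (132 * L ^ 3 * (8 * (c1Eta (Phase n) + 1) * κ + L * κ)))) (a := 1)
    (by unfold th1; fun_prop) (by simp [th1]) (by norm_num)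
  obtain ⟨δ, hδ, h⟩ := Metric.eventually_nhds_iff.1
    (e1.and (e2.and (e3.and (e4.and (e5.and e6)))))
  have hd : dist (δ / 2) 0 < δ := by
    rw [Real.dist_eq, sub_zero, abs_of_pos (by positivity)]
    linarith
  obtain ⟨a1, a2, a3, a4, a5, a6⟩ := h hd
  exact ⟨δ / 2, by positivity, a1.le, a2.le, a3.le, a4.le, a5, a6⟩

/-- The linear error of the mollification. -/
noncomputable def ep1 (n : ℕ) (L κ : ℝ) : ℝ := 8 * (c1Eta (Phase n) + 1) * κ + L * κ

lemma packing_step {φ : SympCt n} {L κ : ℝ} (hL1 : 1 ≤ L) (hκ0 : 0 < κ) (hκ1 : κ ≤ 1 / 2)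
    (ht1 : th1 n L κ κ ≤ 1 / 2) (ht2 : 16 * L * ep1 n L κ ≤ 1)
    (ht3 : 32 * L ^ 2 * th1 n L κ κ < 1)
    (hL : ∀ x, ‖fderiv ℝ (φ : Equiv.Perm (Phase n)) x‖ ≤ L)
    {Λ₀ Λ c η Cb W K₀ : ℝ} {N : ℕ}
    (hΛ₀ : 1 ≤ Λ₀) (hΛ : 8 * Λ₀ ≤ Λ) (hc0 : 0 ≤ c) (hη0 : 0 < η) (hη1 : η ≤ 1)
    (hCb : ∀ y, ‖fderiv ℝ (bmp n) y‖ ≤ Cb) (hc : η * Cb ≤ c)
    (hK₀ : 8 * Λ₀ < K₀) (hW1 : 1 ≤ W) (hW : 4 * (2 ^ N * Λ) ^ 2 + 2 < W)
    {F : Set (SympCt n)} (hF : ∀ γ : Phase n → Phase n,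
      InClass (4 * L * (K₀ * W ^ N) / η) (8 * L ^ 2) (132 * L ^ 3 * ep1 n L κ)
        (32 * L ^ 2 * th1 n L κ κ) (1 / (8 * L * Λ₀)) γ →
      ∃ g ∈ F, AdmPath γ (g : Equiv.Perm (Phase n)))
    {b : Phase n × ℝ} {bs : List (Phase n × ℝ)} (hlen : bs.length ≤ N) (hb : 0 < b.2)
    (hbs : ∀ b' ∈ bs, b.2 ≤ b'.2) {ρ : Phase n → ℝ}
    (h : Inv (fun x s => ¬Good (φ : Equiv.Perm (Phase n)) κ x s) Λ₀ Λ c κ (b :: bs) ρ) :
    ∃ ρ' : Phase n → ℝ, Inv (fun x s => ¬Good (φ : Equiv.Perm (Phase n)) κ x s) Λ₀ Λ c κ bs ρ' ∧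
      ∃ g ∈ F, ∀ g' : SympCt n,
        AdmPath (vmol (φ : Equiv.Perm (Phase n)) ρ') (g' : Equiv.Perm (Phase n)) →
        AdmPath (vmol (φ : Equiv.Perm (Phase n)) ρ) ((g * g' : SympCt n) : Equiv.Perm (Phase n)) := by
  have hL0 : 0 < L := by linarith
  have hbs0 : ∀ b' ∈ bs, 0 < b'.2 := fun b' hb' => hb.trans_le (hbs b' hb')
  have hbs0' : ∀ b' ∈ b :: bs, 0 < b'.2 := by
    intro b' hb'
    rcases List.mem_cons.1 hb' with h1 | h1
    · rw [h1]; exact hb
    · exact hbs0 b' h1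
  have hbsb : ∀ b' ∈ b :: bs, b.2 ≤ b'.2 := by
    intro b' hb'
    rcases List.mem_cons.1 hb' with h1 | h1
    · rw [h1]
    · exact hbs b' h1
  obtain ⟨K, hK1, hK2, hInv⟩ := h.step hΛ₀ (by linarith) hη0 hη1 hCb hc hK₀ hW1 hW hlen hb hbs0
  have hKpos : 0 < K := by linarith
  set ρ' : Phase n → ℝ := fun x => ρ x + hump η b.1 (K * b.2) x with hρ'
  refine ⟨ρ', hInv, ?_⟩
  set ε' := ep1 n L κ with hε'
  have hc10 := c1Eta_nonneg (Phase n)
  have hε'0 : 0 ≤ ε' := by rw [hε', ep1]; positivity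
  set θ := th1 n L κ κ with hθ
  have hθ0 : 0 ≤ θ := th1_nonneg hL0.le hκ0.le hκ0.le
  -- gradients
  have hgr : ∀ x, ‖fderiv ℝ ρ x‖ ≤ κ := fun x => by
    have h1 := h.grad x
    have h2 : 0 ≤ ((b :: bs).length : ℝ) * c := by positivity
    linarith
  have hgr' : ∀ x, ‖fderiv ℝ ρ' x‖ ≤ κ := fun x => by
    have h1 := hInv.grad x
    have h2 : 0 ≤ (bs.length : ℝ) * c := by positivity
    linarith
  -- good points
  have g1 : ∀ x, 0 < ρ x → Good (φ : Equiv.Perm (Phase n)) κ x (ρ x) := fun x hx =>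
    not_not.1 (h.not_bad hΛ₀ hΛ hbs0' hx (by linarith) (by linarith))
  have g4 : ∀ x, 0 < ρ x → Good (φ : Equiv.Perm (Phase n)) κ x (4 * ρ x) := fun x hx =>
    not_not.1 (h.not_bad hΛ₀ hΛ hbs0' (by linarith) (by linarith) (by linarith))
  have g1' : ∀ x, 0 < ρ' x → Good (φ : Equiv.Perm (Phase n)) κ x (ρ' x) := fun x hx =>
    not_not.1 (hInv.not_bad hΛ₀ hΛ hbs0 hx (by linarith) (by linarith))
  have g4' : ∀ x, 0 < ρ' x → Good (φ : Equiv.Perm (Phase n)) κ x (4 * ρ' x) := fun x hx =>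
    not_not.1 (hInv.not_bad hΛ₀ hΛ hbs0 (by linarith) (by linarith) (by linarith))
  have gs : ∀ x s, 0 < s → 2 * Λ₀ * s ≤ b.2 → ρ x ≤ s →
      Good (φ : Equiv.Perm (Phase n)) κ x s := fun x s hs h1 h2 =>
    not_not.1 (h.not_bad_small hbsb hs (by linarith) (by nlinarith))
  have hρρ' : ∀ x, ρ x ≤ ρ' x := fun x => by
    rw [hρ']
    exact le_add_of_nonneg_right (hump_nonneg (by positivity) x)
  set A : Phase n → Phase n := vmol (φ : Equiv.Perm (Phase n)) ρ with hA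
  set B : Phase n → Phase n := vmol (φ : Equiv.Perm (Phase n)) ρ' with hB
  have hφs := SympCt.contDiff φ
  have hAs : ContDiff ℝ ∞ A := contDiff_vmol hφs h.smooth
  have hBs : ContDiff ℝ ∞ B := contDiff_vmol hφs hInv.smooth
  have hAn : ∀ x, NearL θ (fderiv ℝ A x) := fun x =>
    nearL_vmol hL1 hκ0.le hκ1 hκ0.le hL h.smooth h.nonneg (hgr x) (g1 x)
  have hBn : ∀ x, NearL θ (fderiv ℝ B x) := fun x =>
    nearL_vmol hL1 hκ0.le hκ1 hκ0.le hL hInv.smooth hInv.nonneg (hgr' x) (g1' x)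
  have hAL : ∀ x, ‖fderiv ℝ A x‖ ≤ 2 * L := fun x =>
    (norm_fderiv_vmol_le hφs h.smooth hL (hgr x)).trans (by nlinarith)
  have hBL : ∀ x, ‖fderiv ℝ B x‖ ≤ 2 * L := fun x =>
    (norm_fderiv_vmol_le hφs hInv.smooth hL (hgr' x)).trans (by nlinarith)
  have hAg : ∀ x s, 0 < s → 2 * Λ₀ * s ≤ b.2 → Good A ε' x s := fun x s hs h1 =>
    good_vmol hL1 hκ0.le hκ1 hκ0.le hκ1 hL h.smooth h.nonneg hgr g1 g4 hs (gs x s hs h1)
  have hBg : ∀ x s, 0 < s → 2 * Λ₀ * s ≤ b.2 → Good B ε' x s := fun x s hs h1 =>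
    good_vmol hL1 hκ0.le hκ1 hκ0.le hκ1 hL hInv.smooth hInv.nonneg hgr' g1' g4' hs
      (fun h2 => gs x s hs h1 ((hρρ' x).trans h2))
  obtain ⟨N₁, hN₁0, hN₁⟩ := exists_support_radius φ
  have hsup : ∀ {σ : Phase n → ℝ}, (∀ x, 0 ≤ σ x) → (∃ B, ∀ x, σ x ≤ B) →
      ∃ K : Set (Phase n), IsCompact K ∧ ∀ x ∉ K, vmol (φ : Equiv.Perm (Phase n)) σ x = x := by
    intro σ h0 ⟨B₁, hB₁⟩
    refine ⟨Metric.closedBall 0 (N₁ + B₁), isCompact_closedBall _ _, fun x hx => ?_⟩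
    apply vmol_eq_of_gt hN₁ (B := B₁) _ (by simpa using hx)
    rw [abs_of_nonneg (h0 x)]
    exact hB₁ x
  have hθ1 : θ < 1 := by linarith
  have hBadm : Adm B := ⟨hBs, hsup hInv.nonneg hInv.bdd, fun x => (hBn x).admissible hθ1⟩
  obtain ⟨Φ, hΦs, hΦ1, hΦ2⟩ := hBadm.exists_inverse
  set γ : Phase n → Phase n := fun y => A (Φ y) with hγ
  have hγs : ContDiff ℝ ∞ γ := hAs.comp hΦs
  have hq := fun y => quot_smooth hAs hBs hΦs hΦ2 hL1 hθ0 ht1 hAL hBL hAn hBn y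
  have hγg : ∀ y s, 0 < s → 8 * L * Λ₀ * s ≤ b.2 → Good γ (132 * L ^ 3 * ε') y s := by
    intro y s hs h1
    exact quot_good hAs hΦs hΦ1 hΦ2 hL1 hε'0 ht2 hs hAL (fun y => (hq y).1) y
      (hAg _ _ (by positivity) (by linarith)) (hBg _ _ (by positivity) (by linarith))
  set P : Phase n := B b.1 with hP
  set Cc : ℝ := 4 * L * (K₀ * W ^ N) / η with hCc
  have hBlip : ∀ y z, ‖B y - B z‖ ≤ 2 * L * ‖y - z‖ := fun y z =>
    convex_univ.norm_image_sub_le_of_norm_fderiv_le (𝕜 := ℝ)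
      (fun w _ => hBs.differentiable (by simp) w) (fun w _ => hBL w) (mem_univ z) (mem_univ y)
  have hγsupp : ∀ w, Cc * b.2 < ‖w - P‖ → γ w = w := by
    intro w hw
    have h1 : 2 * (K * b.2) ≤ η * ‖Φ w - b.1‖ := by
      have h2 := hBlip (Φ w) b.1
      rw [hΦ2] at h2
      have h3 : Cc * b.2 < 2 * L * ‖Φ w - b.1‖ := hw.trans_le h2
      rw [hCc] at h3
      have h4 : 4 * L * (K₀ * W ^ N) * b.2 < η * (2 * L * ‖Φ w - b.1‖) := by
        have := mul_lt_mul_of_pos_left h3 hη0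
        refine lt_of_eq_of_lt ?_ this
        field_simp
      have h5 : 4 * L * K * b.2 ≤ 4 * L * (K₀ * W ^ N) * b.2 := by
        apply mul_le_mul_of_nonneg_right _ hb.le
        exact mul_le_mul_of_nonneg_left hK2 (by positivity)
      have h6 : 2 * L * (2 * (K * b.2)) ≤ 2 * L * (η * ‖Φ w - b.1‖) := by
        have e1 : 2 * L * (2 * (K * b.2)) = 4 * L * K * b.2 := by ring
        have e2 : 2 * L * (η * ‖Φ w - b.1‖) = η * (2 * L * ‖Φ w - b.1‖) := by ring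
        rw [e1, e2]
        linarith
      exact le_of_mul_le_mul_left h6 (by positivity)
    have h2 : ρ' (Φ w) = ρ (Φ w) := by
      rw [hρ']
      simp only
      rw [hump_zero hη0.le (by positivity) h1, add_zero]
    have h3 : A (Φ w) = B (Φ w) := by
      rw [hA, hB, vmol_eq, vmol_eq, h2]
    rw [hγ]
    simp only
    rw [h3, hΦ2]
  have hγadm : Adm γ := ⟨hγs, ⟨Metric.closedBall P (Cc * b.2), isCompact_closedBall _ _,
    fun w hw => hγsupp w (by rw [← dist_eq_norm]; simpa using hw)⟩,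
    fun y => ((hq y).2.2).admissible ht3⟩
  -- the rescaled map
  set γ' : Phase n → Phase n := fun y => b.2⁻¹ • (γ (P + b.2 • y) - P) with hγ'
  have hbne : b.2 ≠ 0 := hb.ne'
  have hγ'd : ∀ y, fderiv ℝ γ' y = fderiv ℝ γ (P + b.2 • y) := by
    intro y
    have h0 : HasFDerivAt (fun y : Phase n => b.2 • y)
        (b.2 • ContinuousLinearMap.id ℝ (Phase n)) y := (hasFDerivAt_id y).const_smul b.2
    have h1 : HasFDerivAt (fun y : Phase n => P + b.2 • y)
        (b.2 • ContinuousLinearMap.id ℝ (Phase n)) y := h0.const_add P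
    have h2 := (hγs.differentiable (by simp) (P + b.2 • y)).hasFDerivAt.comp y h1
    have h3 := (h2.sub_const P).const_smul b.2⁻¹
    refine HasFDerivAt.fderiv (h3.congr_fderiv ?_)
    ext1 v
    simp only [smul_apply, ContinuousLinearMap.comp_apply,
      ContinuousLinearMap.id_apply, map_smul, smul_smul]
    rw [inv_mul_cancel₀ hbne, one_smul]
  have hclass : InClass Cc (8 * L ^ 2) (132 * L ^ 3 * ε') (32 * L ^ 2 * θ) (1 / (8 * L * Λ₀)) γ' := by
    refine ⟨?_, ?_, ?_, ?_, ?_⟩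
    · exact ((hγs.comp (contDiff_const.add (contDiff_const_smul b.2))).sub
        contDiff_const).const_smul _
    · intro y hy
      have h1 : γ (P + b.2 • y) = P + b.2 • y := by
        apply hγsupp
        rw [add_sub_cancel_left, norm_smul, Real.norm_of_nonneg hb.le, mul_comm]
        exact mul_lt_mul_of_pos_left hy hb
      rw [hγ']
      simp only
      rw [h1, add_sub_cancel_left, smul_smul, inv_mul_cancel₀ hbne, one_smul]
    · intro y
      rw [hγ'd]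
      exact (hq _).2.1
    · intro y
      rw [hγ'd]
      exact (hq _).2.2
    · intro y s hs hs1
      have h1 : 8 * L * Λ₀ * (b.2 * s) ≤ b.2 := by
        rw [le_div_iff₀ (by positivity)] at hs1
        nlinarith
      obtain ⟨c₀, M, hM⟩ := hγg (P + b.2 • y) (b.2 * s) (by positivity) h1
      refine ⟨b.2⁻¹ • (c₀ + M P - P), M, fun z hz => ?_⟩
      have h2 := hM (P + b.2 • z) (by
        rw [add_sub_add_left_eq_sub, ← smul_sub, norm_smul, Real.norm_of_nonneg hb.le]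
        exact mul_le_mul_of_nonneg_left hz hb.le)
      have h3 : γ' z - (b.2⁻¹ • (c₀ + M P - P) + M z) =
          b.2⁻¹ • (γ (P + b.2 • z) - (c₀ + M (P + b.2 • z))) := by
        rw [hγ', map_add, map_smul]
        simp only [smul_sub, smul_add, smul_smul, inv_mul_cancel₀ hbne, one_smul]
        abel
      rw [h3, norm_smul, norm_inv, Real.norm_of_nonneg hb.le, inv_mul_le_iff₀ hb]
      refine h2.trans (le_of_eq ?_)
      ring
  obtain ⟨g, hgF, hg⟩ := hF γ' hclass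
  refine ⟨g, hgF, fun g' hg' => ?_⟩
  have hpγ : AdmPath γ (g : Equiv.Perm (Phase n)) := (admPath_rescale hγadm P hb).trans hg
  have hcomp := admPath_comp hγadm hBadm hθ0 hθ1 hBn (by
    intro x
    have h1 : (fun x => γ (B x)) = A := by
      ext1 x
      rw [hγ]
      simp only
      rw [hΦ1]
    rw [h1]
    exact hAn x) hpγ hg'
  have h1 : (fun x => γ (B x)) = A := by
    ext1 x
    rw [hγ]
    simp only
    rw [hΦ1]
  rwa [h1] at hcomp

end Pool.Agent.Helper17
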