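import Mathlib
import Pool.Agent.Helper17.SympBase
import Pool.Agent.Helper17.AdmPath
import Pool.Agent.Helper17.AdmComp
import Pool.Agent.Helper17.VarScale
import Pool.Agent.Helper17.NormalClass
import Pool.Agent.Helper17.ScaleFun
import Pool.Agent.Helper17.Packing

set_option maxSynthPendingDepth 3

open scoped ContDiff Topology Pointwise
open Set Function Filter TopologicalSpace MeasureTheory

namespace Pool.Agent.Helper17

variable {n : ℕ}

/-- Products of `j` elements of `F`. -/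
def prodSet (F : Set (SympCt n)) : ℕ → Set (SympCt n)
  | 0 => {1}
  | j + 1 => F * prodSet F j

lemma prodSet_finite {F : Set (SympCt n)} (hF : F.Finite) (j : ℕ) : (prodSet F j).Finite := by
  induction j with
  | zero => exact finite_singleton 1
  | succ j ih => exact hF.mul ih

/-- Finiteness for maps whose bad points are contained in boundedly many boxes. -/
theorem packing_finite (hn : n ≠ 0) {L : ℝ} (hL1 : 1 ≤ L) : ∃ κ : ℝ, 0 < κ ∧ κ ≤ 1 / 2 ∧
    ∀ (N : ℕ) (Λ₀ : ℝ), 1 ≤ Λ₀ → ∃ F : Set (SympCt n), F.Finite ∧ ∀ φ : SympCt n,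
      (∀ x, ‖fderiv ℝ (φ : Equiv.Perm (Phase n)) x‖ ≤ L) →
      ∀ bs : List (Phase n × ℝ), bs.length ≤ N → (∀ b ∈ bs, 0 < b.2) →
      (∀ x s, 0 < s → ¬Good (φ : Equiv.Perm (Phase n)) κ x s →
        ∃ b ∈ bs, ‖x - b.1‖ ≤ Λ₀ * b.2 ∧ b.2 ≤ Λ₀ * s ∧ s ≤ Λ₀ * b.2) →
      ∃ g ∈ F, Joined φ g := by
  obtain ⟨κ, hκ0, hκ1, ht1, ht2, ht4, ht3, ht5⟩ := exists_kappa n L
  refine ⟨κ, hκ0, hκ1, fun N Λ₀ hΛ₀ => ?_⟩
  obtain ⟨Cb, hCb0, hCb⟩ := exists_bmp_bound n
  have hL0 : 0 < L := by linarith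
  have hc10 := c1Eta_nonneg (Phase n)
  obtain ⟨η, hη⟩ : ∃ η : ℝ, η = min 1 (κ / ((N + 1) * Cb)) := ⟨_, rfl⟩
  have hη0 : 0 < η := by
    rw [hη]
    exact lt_min one_pos (by positivity)
  have hη1 : η ≤ 1 := by
    rw [hη]
    exact min_le_left _ _
  have hηc : N * (η * Cb) ≤ κ := by
    have h1 : η ≤ κ / ((N + 1) * Cb) := by
      rw [hη]
      exact min_le_right _ _
    rw [le_div_iff₀ (by positivity)] at h1
    have h2 : 0 ≤ η * Cb := by positivity
    nlinarith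
  obtain ⟨W, hW⟩ : ∃ W : ℝ, W = 4 * (2 ^ N * (8 * Λ₀)) ^ 2 + 3 := ⟨_, rfl⟩
  have hW1 : 1 ≤ W := by
    rw [hW]
    have : 0 ≤ 4 * ((2 : ℝ) ^ N * (8 * Λ₀)) ^ 2 := by positivity
    linarith
  have hε'0 : 0 ≤ ep1 n L κ := by
    unfold ep1
    positivity
  obtain ⟨F₁, hF₁, hF₁'⟩ := finite_classes n (C := 4 * L * ((8 * Λ₀ + 1) * W ^ N) / η)
    (L := 8 * L ^ 2) (ε := 132 * L ^ 3 * ep1 n L κ) (θ := 32 * L ^ 2 * th1 n L κ κ)
    (s₀ := 1 / (8 * L * Λ₀)) (by nlinarith) (by positivity) ht4 (by positivity) ht3 ht5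
  refine ⟨⋃ j ∈ Finset.range (N + 1), prodSet F₁ j,
    (Finset.range (N + 1)).finite_toSet.biUnion fun j _ => prodSet_finite hF₁ j, ?_⟩
  intro φ hL bs hbsN hbs0 hbad
  have key : ∀ bs : List (Phase n × ℝ), bs.length ≤ N → bs.Pairwise (fun a b => a.2 ≤ b.2) →
      (∀ b ∈ bs, 0 < b.2) → ∀ ρ : Phase n → ℝ,
      Inv (fun x s => ¬Good (φ : Equiv.Perm (Phase n)) κ x s) Λ₀ (8 * Λ₀) (η * Cb) κ bs ρ →
      ∃ g ∈ prodSet F₁ bs.length,
        AdmPath (vmol (φ : Equiv.Perm (Phase n)) ρ) (g : Equiv.Perm (Phase n)) := by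
    intro bs
    induction bs with
    | nil =>
      intro _ _ _ ρ hInv
      refine ⟨1, rfl, ?_⟩
      apply admPath_vmol_one hn hL1 hκ0.le hκ1 hκ0.le (by linarith) hL hInv.smooth hInv.nonneg
        hInv.bdd _ _ (lt_of_le_of_lt ht1 (by norm_num))
      · intro x
        have := hInv.grad x
        simpa using this
      · intro x s hs hxs
        by_contra hb
        rcases hInv.below x s hs hb with h1 | ⟨b, hb, -⟩
        · linarith
        · simp at hb
    | cons b bs ih =>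
      intro hlen hsort hpos ρ hInv
      rw [List.length_cons] at hlen
      have hb : 0 < b.2 := hpos b List.mem_cons_self
      obtain ⟨ρ', hInv', g, hg, hstep⟩ := packing_step hL1 hκ0 hκ1 ht1 ht2 ht3 hL hΛ₀ le_rfl
        (by positivity) hη0 hη1 hCb le_rfl (K₀ := 8 * Λ₀ + 1) (by linarith) hW1
        (N := N) (by rw [hW]; linarith) hF₁' (by omega) hb (List.pairwise_cons.1 hsort).1 hInv
      obtain ⟨g', hg', hpath⟩ := ih (by omega) (List.pairwise_cons.1 hsort).2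
        (fun b' hb' => hpos b' (List.mem_cons_of_mem b hb')) ρ' hInv'
      exact ⟨g * g', Set.mul_mem_mul hg hg', hstep g' hpath⟩
  -- sort the boxes
  classical
  set bs' := bs.mergeSort (fun a b => decide (a.2 ≤ b.2)) with hbs'
  have hperm : bs'.Perm bs := List.mergeSort_perm _ _
  have hsort : bs'.Pairwise (fun a b => a.2 ≤ b.2) := by
    have h1 := List.pairwise_mergeSort (le := fun a b : Phase n × ℝ => decide (a.2 ≤ b.2))
      (fun a b c => by simpa using fun h1 h2 => le_trans h1 h2)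
      (fun a b => by simpa using le_total a.2 b.2) bs
    simpa using h1
  have hInv : Inv (fun x s => ¬Good (φ : Equiv.Perm (Phase n)) κ x s) Λ₀ (8 * Λ₀) (η * Cb) κ bs'
      (fun _ => 0) := by
    refine ⟨contDiff_const, fun _ => le_rfl, ⟨0, fun _ => le_rfl⟩, ?_, ?_, ?_⟩
    · intro x
      have h1 : fderiv ℝ (fun _ : Phase n => (0 : ℝ)) x = 0 := (hasFDerivAt_const (0 : ℝ) x).fderiv
      rw [h1, norm_zero, zero_add, hperm.length_eq]
      refine le_trans ?_ hηc
      exact mul_le_mul_of_nonneg_right (by exact_mod_cast hbsN) (by positivity)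
    · intro b hb
      left
      intro x _
      rw [mul_zero]
      exact hbs0 b (hperm.mem_iff.1 hb)
    · intro x s hs hb
      right
      obtain ⟨b, hb1, hb2⟩ := hbad x s hs hb
      exact ⟨b, hperm.mem_iff.2 hb1, hb2⟩
  obtain ⟨g, hg, hpath⟩ := key bs' (by rw [hperm.length_eq]; exact hbsN) hsort
    (fun b hb => hbs0 b (hperm.mem_iff.1 hb)) _ hInv
  have hzero : vmol (φ : Equiv.Perm (Phase n)) (fun _ => 0) = (φ : Equiv.Perm (Phase n)) := by
    ext1 x
    exact vmol_zero rfl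
  rw [hzero] at hpath
  refine ⟨g, ?_, joined_of_admPath hpath⟩
  simp only [mem_iUnion]
  refine ⟨bs'.length, ?_, hg⟩
  rw [Finset.mem_range, hperm.length_eq]
  omega

end Pool.Agent.Helper17
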