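import Mathlib
import Pool.Agent.Helper17.SympBase
import Pool.Agent.Helper17.BadEnergy
import Pool.Agent.Helper17.Counting
import Pool.Agent.Helper17.PackingFinite

set_option maxSynthPendingDepth 3

open scoped ContDiff Topology ENNReal
open Set Function Filter MeasureTheory

namespace Pool.Agent.Helper17

variable {n : ℕ}

lemma continuous_secondDeriv (φ : SympCt n) :
    Continuous (fderiv ℝ (fderiv ℝ (φ : Equiv.Perm (Phase n)))) :=
  ((SympCt.contDiff φ).fderiv_right (m := ∞) (by simp)).continuous_fderiv (by simp)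

lemma integrable_energy (φ : SympCt n) {m : ℕ} (hm : m ≠ 0) :
    Integrable (fun x => ‖fderiv ℝ (fderiv ℝ (φ : Equiv.Perm (Phase n))) x‖ ^ m) := by
  apply Continuous.integrable_of_hasCompactSupport
  · exact (continuous_secondDeriv φ).norm.pow m
  · obtain ⟨R, hR0, hR⟩ := exists_support_radius φ
    apply HasCompactSupport.intro (isCompact_closedBall (0 : Phase n) R)
    intro x hx
    have hx' : R < ‖x‖ := by simpa using hx
    have h1 : ∀ y, R < ‖y‖ → fderiv ℝ (φ : Equiv.Perm (Phase n)) y =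
        ContinuousLinearMap.id ℝ (Phase n) := by
      intro y hy
      have h2 : (φ : Equiv.Perm (Phase n)) =ᶠ[𝓝 y] fun z => z := by
        filter_upwards [(isOpen_lt continuous_const continuous_norm).mem_nhds hy] with z hz
        exact hR z hz
      rw [h2.fderiv_eq]
      exact fderiv_fun_id
    have h3 : fderiv ℝ (φ : Equiv.Perm (Phase n)) =ᶠ[𝓝 x]
        fun _ => ContinuousLinearMap.id ℝ (Phase n) := by
      filter_upwards [(isOpen_lt continuous_const continuous_norm).mem_nhds hx'] with z hz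
      exact h1 z hz
    rw [h3.fderiv_eq, (hasFDerivAt_const _ x).fderiv, norm_zero, zero_pow hm]

/-- Maps with bounded derivative and bounded critical energy have bad points in boundedly many
boxes only. -/
theorem energy_packing (hn : n ≠ 0) {L κ : ℝ} (E : ℝ) (hL1 : 1 ≤ L) (hκ0 : 0 < κ) (hκ1 : κ ≤ 1) :
    ∃ (N : ℕ) (Λ₀ : ℝ), 1 ≤ Λ₀ ∧ ∀ φ : SympCt n,
      (∀ x, ‖fderiv ℝ (φ : Equiv.Perm (Phase n)) x‖ ≤ L) →
      ∫ x, ‖fderiv ℝ (fderiv ℝ (φ : Equiv.Perm (Phase n))) x‖ ^ (2 * n) ≤ E →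
      ∃ bs : List (Phase n × ℝ), bs.length ≤ N ∧ (∀ b ∈ bs, 0 < b.2) ∧
        ∀ x s, 0 < s → ¬Good (φ : Equiv.Perm (Phase n)) κ x s →
          ∃ b ∈ bs, ‖x - b.1‖ ≤ Λ₀ * b.2 ∧ b.2 ≤ Λ₀ * s ∧ s ≤ Λ₀ * b.2 := by
  obtain ⟨a, ha0, ha⟩ := exists_bad_energy hn hL1 hκ0 hκ1
  have hv : 0 < ballVol n := ballVol_pos n
  set e₀ : ℝ := (a / 2) ^ (2 * n) / ballVol n ^ (2 * n - 1) with he₀
  have he₀0 : 0 < e₀ := by positivity
  obtain ⟨N, hN⟩ := exists_nat_gt (max E 0 / e₀)
  have hN' : max E 0 < ((N + 1 : ℕ) : ℝ) * e₀ := by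
    rw [div_lt_iff₀ he₀0] at hN
    push_cast
    nlinarith
  obtain ⟨δ, hδ0, hδ1, hδ⟩ : ∃ δ : ℝ, 0 < δ ∧ δ ≤ 1 ∧
      (N * (δ ^ (2 * n) * ballVol n)) ^ (2 * n - 1) * max E 0 ≤ (a / 2) ^ (2 * n) := by
    have hc : Continuous (fun δ : ℝ => (N * (δ ^ (2 * n) * ballVol n)) ^ (2 * n - 1) * max E 0) := by
      fun_prop
    have h0 : (N * ((0 : ℝ) ^ (2 * n) * ballVol n)) ^ (2 * n - 1) * max E 0 < (a / 2) ^ (2 * n) := by
      rw [zero_pow (by omega), zero_mul, mul_zero, zero_pow (by omega), zero_mul]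
      positivity
    have h1 := (hc.tendsto 0).eventually (gt_mem_nhds h0)
    obtain ⟨d, hd, h2⟩ := Metric.eventually_nhds_iff.1 h1
    refine ⟨min (d / 2) 1, by positivity, min_le_right _ _, (h2 ?_).le⟩
    rw [Real.dist_eq, sub_zero, abs_of_pos (by positivity)]
    have := min_le_left (d / 2) 1
    linarith
  refine ⟨N, 1 + δ⁻¹, by have := inv_pos.2 hδ0; linarith, fun φ hL hE => ?_⟩
  set f : Phase n → ℝ := fun x => ‖fderiv ℝ (fderiv ℝ (φ : Equiv.Perm (Phase n))) x‖ with hf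
  have hfc : Continuous f := (continuous_secondDeriv φ).norm
  have hf0 : ∀ x, 0 ≤ f x := fun x => norm_nonneg _
  have hfE : ∀ S : Set (Phase n), IsCompact S → ∫ x in S, f x ^ (2 * n) ≤ max E 0 := by
    intro S _
    refine le_trans ?_ (hE.trans (le_max_left _ _))
    exact setIntegral_le_integral (integrable_energy φ (by omega))
      (Eventually.of_forall fun x => pow_nonneg (hf0 x) _)
  -- families of pairwise unrelated bad balls
  set P : ℕ → Prop := fun k => ∃ bs : List (Phase n × ℝ), bs.length = k ∧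
    (∀ b ∈ bs, 0 < b.2 ∧ ¬Good (φ : Equiv.Perm (Phase n)) κ b.1 b.2) ∧
    bs.Pairwise (fun a b => ¬Related δ a b) with hP
  have hP0 : P 0 := ⟨[], rfl, by simp, List.Pairwise.nil⟩
  have hPN : ¬P (N + 1) := by
    rintro ⟨bs, hlen, hbad, hun⟩
    set bs' := bs.mergeSort (fun a b => decide (b.2 ≤ a.2)) with hbs'
    have hperm : bs'.Perm bs := List.mergeSort_perm _ _
    have hsort : bs'.Pairwise (fun a b => b.2 ≤ a.2) := by
      have h1 := List.pairwise_mergeSort (le := fun a b : Phase n × ℝ => decide (b.2 ≤ a.2))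
        (fun a b c => by simpa using fun h1 h2 => le_trans h2 h1)
        (fun a b => by simpa using le_total b.2 a.2) bs
      simpa using h1
    have hun' : bs'.Pairwise (fun a b => ¬Related δ a b) :=
      (hperm.pairwise_iff (fun {a b} h h' => h h'.symm)).2 hun
    have hbad' : ∀ b ∈ bs', 0 < b.2 ∧ ¬Good (φ : Equiv.Perm (Phase n)) κ b.1 b.2 := fun b hb =>
      hbad b (hperm.mem_iff.1 hb)
    have hlen' : bs'.length = N + 1 := by rw [hperm.length_eq, hlen]
    have h1 := energy_unrelated hn hfc hf0 ha0 hδ0 hδ1 hfE hδ (bs := bs') (by rw [hlen'])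
      (fun b hb => (hbad' b hb).1)
      (fun b hb => ha _ (SympCt.contDiff φ) hL b.1 b.2 (hbad' b hb).1 (hbad' b hb).2) hsort hun'
    rw [hlen', ← he₀] at h1
    have h2 := hfE _ (isCompact_unionBalls bs')
    linarith
  obtain ⟨k, hk, hPk, hPk1⟩ : ∃ k ≤ N, P k ∧ ¬P (k + 1) := by
    by_contra hcon
    push Not at hcon
    apply hPN
    have h1 : ∀ k, k ≤ N + 1 → P k := by
      intro k
      induction k with
      | zero => intro _; exact hP0
      | succ k ih => intro hk; exact hcon k (by omega) (ih (by omega))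
    exact h1 (N + 1) le_rfl
  obtain ⟨bs, hlen, hbad, hun⟩ := hPk
  refine ⟨bs, by omega, fun b hb => (hbad b hb).1, fun x s hs hxs => ?_⟩
  have h1 : ∃ b ∈ bs, Related δ (x, s) b := by
    by_contra hcon
    push Not at hcon
    apply hPk1
    refine ⟨(x, s) :: bs, by rw [List.length_cons, hlen], ?_, ?_⟩
    · intro b hb
      rcases List.mem_cons.1 hb with h2 | h2
      · rw [h2]
        exact ⟨hs, hxs⟩
      · exact hbad b h2
    · exact List.pairwise_cons.2 ⟨hcon, hun⟩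
  obtain ⟨b, hb, h2, h3, h4⟩ := h1
  have hb0 := (hbad b hb).1
  simp only at h2 h3 h4
  have h5 : s ≤ δ⁻¹ * b.2 := by
    rw [inv_mul_eq_div, le_div_iff₀ hδ0]
    linarith
  have h6 : b.2 ≤ δ⁻¹ * s := by
    rw [inv_mul_eq_div, le_div_iff₀ hδ0]
    linarith
  refine ⟨b, hb, ?_, ?_, ?_⟩
  · linarith
  · linarith
  · linarith

/-- The finiteness theorem. -/
theorem finiteness (hn : n ≠ 0) (L E : ℝ) : ∃ F : Set (SympCt n), F.Finite ∧ ∀ φ : SympCt n,
    (∀ x, ‖fderiv ℝ (φ : Equiv.Perm (Phase n)) x‖ ≤ L) →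
    ∫ x, ‖fderiv ℝ (fderiv ℝ (φ : Equiv.Perm (Phase n))) x‖ ^ (2 * n) ≤ E →
    ∃ g ∈ F, Joined φ g := by
  obtain ⟨κ, hκ0, hκ1, h1⟩ := packing_finite hn (le_max_right L 1)
  obtain ⟨N, Λ₀, hΛ₀, h2⟩ := energy_packing hn E (le_max_right L 1) hκ0
    (hκ1.trans (by norm_num))
  obtain ⟨F, hF, h3⟩ := h1 N Λ₀ hΛ₀
  refine ⟨F, hF, fun φ hL hE => ?_⟩
  have hL' : ∀ x, ‖fderiv ℝ (φ : Equiv.Perm (Phase n)) x‖ ≤ max L 1 := fun x =>
    (hL x).trans (le_max_left _ _)
  obtain ⟨bs, hlen, hpos, hcov⟩ := h2 φ hL' hE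
  exact h3 φ hL' bs hlen hpos hcov

end Pool.Agent.Helper17
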