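import Mathlib
import Pool.Agent.Helper17.SympBase
import Pool.Agent.Helper17.Near

set_option maxSynthPendingDepth 3

open scoped ContDiff Topology ENNReal
open Set Function Filter MeasureTheory

namespace Pool.Agent.Helper17

variable {n : ℕ}

/-- The norm of the `i`-th derivative of `w` at `x`. -/
noncomputable def derivNorm {n : ℕ} (i : ℕ) (w : Phase n → Phase n) (x : Phase n) : ℝ :=
  ‖iteratedFDeriv ℝ i w x‖

/-- The sum of the uniform norm of `w` and of its `W^{2,p}` norm. -/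
noncomputable def sobNorm {n : ℕ} (p : ℝ≥0∞) (w : Phase n → Phase n) : ℝ≥0∞ :=
  (⨆ x, ‖w x‖ₑ) + eLpNorm (derivNorm 0 w) p volume + eLpNorm (derivNorm 1 w) p volume +
    eLpNorm (derivNorm 2 w) p volume

lemma sobNorm_eq {n : ℕ} (p : ℝ≥0∞) (w : Phase n → Phase n) : sobNorm p w =
    (⨆ x, ‖w x‖ₑ) + eLpNorm w p volume + eLpNorm (fderiv ℝ w) p volume +
      eLpNorm (fderiv ℝ (fderiv ℝ w)) p volume := by
  have h0 : derivNorm 0 w = fun x => ‖w x‖ := by
    funext x
    exact norm_iteratedFDeriv_zero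
  have h1 : derivNorm 1 w = fun x => ‖fderiv ℝ w x‖ := by
    funext x
    exact norm_iteratedFDeriv_one (𝕜 := ℝ) (f := w) (x := x)
  have h2 : derivNorm 2 w = fun x => ‖fderiv ℝ (fderiv ℝ w) x‖ := by
    funext x
    unfold derivNorm
    rw [← norm_iteratedFDeriv_fderiv, norm_iteratedFDeriv_one]
  unfold sobNorm
  rw [h0, h1, h2, eLpNorm_norm, eLpNorm_norm, eLpNorm_norm]

/-- The symplectomorphism group as a set, to be given the topology of `C^0 ∩ W^{2,p}`. -/
def SobolevSymp (n : ℕ) (_ : ℝ≥0∞) : Type := SympCt n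

/-- The identity map. -/
def toSobolev {n : ℕ} (p : ℝ≥0∞) (φ : SympCt n) : SobolevSymp n p := φ

/-- The identity map. -/
def ofSobolev {n : ℕ} {p : ℝ≥0∞} (φ : SobolevSymp n p) : SympCt n := φ

/-- The distance `sobNorm p (φ - ψ)`. -/
noncomputable def sobDist {n : ℕ} (p : ℝ≥0∞) (φ ψ : SympCt n) : ℝ≥0∞ :=
  sobNorm p (fun x => (φ : Equiv.Perm (Phase n)) x - (ψ : Equiv.Perm (Phase n)) x)

lemma sobNorm_zero (p : ℝ≥0∞) : sobNorm p (fun _ : Phase n => (0 : Phase n)) = 0 := by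
  have h1 : fderiv ℝ (fun _ : Phase n => (0 : Phase n)) = fun _ => 0 := by
    funext x
    exact (hasFDerivAt_const (0 : Phase n) x).fderiv
  have h2 : fderiv ℝ (fun _ : Phase n => (0 : Phase n →L[ℝ] Phase n)) = fun _ => 0 := by
    funext x
    exact (hasFDerivAt_const (0 : Phase n →L[ℝ] Phase n) x).fderiv
  rw [sobNorm_eq, h1, h2]
  simp

lemma sobNorm_neg (p : ℝ≥0∞) (w : Phase n → Phase n) : sobNorm p (fun x => -w x) = sobNorm p w := by
  have h1 : fderiv ℝ (fun x => -w x) = fun x => -fderiv ℝ w x := by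
    funext x
    exact fderiv_fun_neg
  have h2 : fderiv ℝ (fun x => -fderiv ℝ w x) = fun x => -fderiv ℝ (fderiv ℝ w) x := by
    funext x
    exact fderiv_fun_neg
  rw [sobNorm_eq, sobNorm_eq, h1, h2]
  simp only [enorm_neg]
  congr 1
  · congr 1
    · congr 1
      exact eLpNorm_neg w p volume
    · exact eLpNorm_neg (fderiv ℝ w) p volume
  · exact eLpNorm_neg (fderiv ℝ (fderiv ℝ w)) p volume

lemma sobNorm_add_le {p : ℝ≥0∞} (hp : 1 ≤ p) {w w' : Phase n → Phase n} (hw : ContDiff ℝ ∞ w)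
    (hw' : ContDiff ℝ ∞ w') : sobNorm p (fun x => w x + w' x) ≤ sobNorm p w + sobNorm p w' := by
  have hw1 : ContDiff ℝ ∞ (fderiv ℝ w) := hw.fderiv_right (by simp)
  have hw1' : ContDiff ℝ ∞ (fderiv ℝ w') := hw'.fderiv_right (by simp)
  have hw2 : ContDiff ℝ ∞ (fderiv ℝ (fderiv ℝ w)) := hw1.fderiv_right (by simp)
  have hw2' : ContDiff ℝ ∞ (fderiv ℝ (fderiv ℝ w')) := hw1'.fderiv_right (by simp)
  have h1 : fderiv ℝ (fun x => w x + w' x) = fun x => fderiv ℝ w x + fderiv ℝ w' x := by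
    funext x
    exact fderiv_fun_add (hw.differentiable (by simp) x) (hw'.differentiable (by simp) x)
  have h2 : fderiv ℝ (fun x => fderiv ℝ w x + fderiv ℝ w' x) =
      fun x => fderiv ℝ (fderiv ℝ w) x + fderiv ℝ (fderiv ℝ w') x := by
    funext x
    exact fderiv_fun_add (hw1.differentiable (by simp) x) (hw1'.differentiable (by simp) x)
  have e0 : (⨆ x, ‖w x + w' x‖ₑ) ≤ (⨆ x, ‖w x‖ₑ) + ⨆ x, ‖w' x‖ₑ := by
    apply iSup_le
    intro x
    refine (enorm_add_le _ _).trans (add_le_add (le_iSup (fun x => ‖w x‖ₑ) x)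
      (le_iSup (fun x => ‖w' x‖ₑ) x))
  have e1 : eLpNorm (fun x => w x + w' x) p volume ≤ eLpNorm w p volume + eLpNorm w' p volume :=
    eLpNorm_add_le hw.continuous.aestronglyMeasurable hw'.continuous.aestronglyMeasurable hp
  have e2 : eLpNorm (fun x => fderiv ℝ w x + fderiv ℝ w' x) p volume ≤
      eLpNorm (fderiv ℝ w) p volume + eLpNorm (fderiv ℝ w') p volume :=
    eLpNorm_add_le hw1.continuous.aestronglyMeasurable hw1'.continuous.aestronglyMeasurable hp
  have e3 : eLpNorm (fun x => fderiv ℝ (fderiv ℝ w) x + fderiv ℝ (fderiv ℝ w') x) p volume ≤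
      eLpNorm (fderiv ℝ (fderiv ℝ w)) p volume + eLpNorm (fderiv ℝ (fderiv ℝ w')) p volume :=
    eLpNorm_add_le hw2.continuous.aestronglyMeasurable hw2'.continuous.aestronglyMeasurable hp
  rw [sobNorm_eq, sobNorm_eq, sobNorm_eq, h1, h2]
  calc _ ≤ ((⨆ x, ‖w x‖ₑ) + ⨆ x, ‖w' x‖ₑ) + (eLpNorm w p volume + eLpNorm w' p volume) +
        (eLpNorm (fderiv ℝ w) p volume + eLpNorm (fderiv ℝ w') p volume) +
        (eLpNorm (fderiv ℝ (fderiv ℝ w)) p volume + eLpNorm (fderiv ℝ (fderiv ℝ w')) p volume) := by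
        gcongr
    _ = _ := by ring

lemma enorm_le_sobNorm (p : ℝ≥0∞) (w : Phase n → Phase n) (x : Phase n) :
    ‖w x‖ₑ ≤ sobNorm p w := by
  rw [sobNorm_eq]
  refine (le_iSup (fun x => ‖w x‖ₑ) x).trans ?_
  rw [add_assoc, add_assoc]
  exact le_self_add

lemma eLpNorm_fderiv2_le_sobNorm (p : ℝ≥0∞) (w : Phase n → Phase n) :
    eLpNorm (fderiv ℝ (fderiv ℝ w)) p volume ≤ sobNorm p w := by
  rw [sobNorm_eq]
  exact le_add_self

lemma contDiff_diff (φ ψ : SympCt n) :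
    ContDiff ℝ ∞ (fun x => (φ : Equiv.Perm (Phase n)) x - (ψ : Equiv.Perm (Phase n)) x) :=
  (SympCt.contDiff φ).sub (SympCt.contDiff ψ)

lemma hasCompactSupport_diff (φ ψ : SympCt n) :
    HasCompactSupport (fun x => (φ : Equiv.Perm (Phase n)) x - (ψ : Equiv.Perm (Phase n)) x) := by
  obtain ⟨K, hK, hφK⟩ := φ.2.2.2.2
  obtain ⟨L, hL, hψL⟩ := ψ.2.2.2.2
  apply HasCompactSupport.intro (hK.union hL)
  intro x hx
  rw [mem_union, not_or] at hx
  rw [hφK x hx.1, hψL x hx.2, sub_self]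

lemma sobNorm_lt_top {p : ℝ≥0∞} {w : Phase n → Phase n} (hw : ContDiff ℝ ∞ w)
    (hc : HasCompactSupport w) : sobNorm p w < ⊤ := by
  have hw1 : ContDiff ℝ ∞ (fderiv ℝ w) := hw.fderiv_right (by simp)
  have hw2 : ContDiff ℝ ∞ (fderiv ℝ (fderiv ℝ w)) := hw1.fderiv_right (by simp)
  have hc1 : HasCompactSupport (fderiv ℝ w) := hc.fderiv (𝕜 := ℝ)
  have hc2 : HasCompactSupport (fderiv ℝ (fderiv ℝ w)) := hc1.fderiv (𝕜 := ℝ)
  obtain ⟨C, hC⟩ := hc.exists_bound_of_continuous hw.continuous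
  have h0 : (⨆ x, ‖w x‖ₑ) < ⊤ := by
    refine lt_of_le_of_lt (iSup_le fun x => ?_) (ENNReal.ofReal_lt_top (r := C))
    rw [← ofReal_norm]
    exact ENNReal.ofReal_le_ofReal (hC x)
  have h1 := (hw.continuous.memLp_of_hasCompactSupport (p := p) (μ := volume) hc).eLpNorm_lt_top
  have h2 := (hw1.continuous.memLp_of_hasCompactSupport (p := p) (μ := volume) hc1).eLpNorm_lt_top
  have h3 := (hw2.continuous.memLp_of_hasCompactSupport (p := p) (μ := volume) hc2).eLpNorm_lt_top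
  rw [sobNorm_eq]
  exact ENNReal.add_lt_top.2 ⟨ENNReal.add_lt_top.2 ⟨ENNReal.add_lt_top.2 ⟨h0, h1⟩, h2⟩, h3⟩

lemma sobDist_lt_top (p : ℝ≥0∞) (φ ψ : SympCt n) : sobDist p φ ψ < ⊤ :=
  sobNorm_lt_top (contDiff_diff φ ψ) (hasCompactSupport_diff φ ψ)

lemma sobDist_self (p : ℝ≥0∞) (φ : SympCt n) : sobDist p φ φ = 0 := by
  unfold sobDist
  simp only [sub_self]
  exact sobNorm_zero p

lemma sobDist_comm (p : ℝ≥0∞) (φ ψ : SympCt n) : sobDist p φ ψ = sobDist p ψ φ := by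
  unfold sobDist
  rw [← sobNorm_neg]
  simp only [neg_sub]

lemma sobDist_triangle {p : ℝ≥0∞} (hp : 1 ≤ p) (φ ψ χ : SympCt n) :
    sobDist p φ χ ≤ sobDist p φ ψ + sobDist p ψ χ := by
  unfold sobDist
  refine le_trans (le_of_eq ?_) (sobNorm_add_le hp (contDiff_diff φ ψ) (contDiff_diff ψ χ))
  congr 1
  funext x
  abel

/-- `Symp_ct(ℝ^{2n})` with the distance of `C^0 ∩ W^{2,p}`. -/
noncomputable instance (p : ℝ≥0∞) [hp : Fact (1 ≤ p)] : PseudoEMetricSpace (SobolevSymp n p) where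
  edist φ ψ := sobDist p (ofSobolev φ) (ofSobolev ψ)
  edist_self φ := sobDist_self p (ofSobolev φ)
  edist_comm φ ψ := sobDist_comm p (ofSobolev φ) (ofSobolev ψ)
  edist_triangle φ ψ χ := sobDist_triangle hp.out (ofSobolev φ) (ofSobolev ψ) (ofSobolev χ)

/-- Change of variables in `L^p` norms. -/
lemma eLpNorm_comp_affine {F : Type*} [NormedAddCommGroup F] {f : Phase n → F}
    (hf : Continuous f) (p : ℝ≥0∞) (x : Phase n) {r : ℝ} (hr : 0 < r) :
    eLpNorm (fun z => f (x + r • z)) p volume =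
      ENNReal.ofReal (r ^ (-((2 * n : ℕ) : ℝ) * (1 / p).toReal)) * eLpNorm f p volume := by
  have hfr : Module.finrank ℝ (Phase n) = 2 * n := by
    rw [finrank_euclideanSpace]
    simp [two_mul]
  have h1 : Measure.map (fun z : Phase n => x + r • z) volume =
      ENNReal.ofReal ((r ^ (2 * n))⁻¹) • volume := by
    have e1 : (fun z : Phase n => x + r • z) = (fun z => x + z) ∘ (fun z => r • z) := rfl
    rw [e1, ← Measure.map_map (measurable_const_add x) (measurable_const_smul r),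
      Measure.map_addHaar_smul _ hr.ne', hfr, Measure.map_smul, map_add_left_eq_self,
      abs_of_nonneg (by positivity)]
  have h2 : eLpNorm f p (Measure.map (fun z : Phase n => x + r • z) volume) =
      eLpNorm (f ∘ fun z => x + r • z) p volume :=
    eLpNorm_map_measure hf.aestronglyMeasurable
      ((measurable_const_smul r).const_add x).aemeasurable
  have h3 : ENNReal.ofReal ((r ^ (2 * n))⁻¹) ≠ 0 := by
    rw [Ne, ENNReal.ofReal_eq_zero, not_le]
    positivity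
  change eLpNorm (f ∘ fun z => x + r • z) p volume = _
  rw [← h2, h1, eLpNorm_smul_measure_of_ne_zero h3, smul_eq_mul]
  congr 1
  rw [ENNReal.ofReal_rpow_of_pos (by positivity)]
  congr 1
  rw [← Real.rpow_natCast r (2 * n), ← Real.rpow_neg hr.le, ← Real.rpow_mul hr.le]

end Pool.Agent.Helper17
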