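import Mathlib
import Pool.Agent.Helper17.SympBase
import Pool.Agent.Helper17.Near
import Pool.Agent.Helper17.Potential
import Pool.Agent.Helper17.Moser
import Pool.Agent.Helper17.Averaging
import Pool.Agent.Helper17.Variance
import Pool.Agent.Helper17.FlatFamilies
import Pool.Agent.Helper17.SobolevPoincare
import Pool.Agent.Helper17.SobolevBase

set_option maxSynthPendingDepth 3

open scoped ContDiff Topology ENNReal
open Set Function Filter MeasureTheory TopologicalSpace

namespace Pool.Agent.Helper17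

variable {n : ℕ}

lemma exists_lintegral_eta_le (n : ℕ) : ∃ M : ℝ≥0∞, M ≠ ⊤ ∧ ∀ f : Phase n → ℝ≥0∞, Measurable f →
    ∫⁻ z, f z ∂(etaMeasure n) ≤ M * ∫⁻ z in Metric.closedBall (0 : Phase n) 1, f z := by
  obtain ⟨C, hC⟩ := (hasCompactSupport_eta (Phase n)).exists_bound_of_continuous
    (contDiff_eta (Phase n)).continuous
  refine ⟨ENNReal.ofReal C, ENNReal.ofReal_ne_top, fun f hf => ?_⟩
  rw [etaMeasure, lintegral_withDensity_eq_lintegral_mul _ measurable_etaDensity hf,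
    ← lintegral_const_mul' _ _ ENNReal.ofReal_ne_top, ← lintegral_indicator measurableSet_closedBall]
  apply lintegral_mono
  intro z
  by_cases hz : z ∈ Metric.closedBall (0 : Phase n) 1
  · rw [indicator_of_mem hz]
    simp only [Pi.mul_apply]
    refine mul_le_mul' (ENNReal.ofReal_le_ofReal ?_) le_rfl
    exact (le_abs_self _).trans (hC z)
  · rw [indicator_of_notMem hz]
    have : eta (Phase n) z = 0 := eta_eq_zero _ (by simpa using hz)
    simp [this]

/-- The critical exponent. -/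
lemma exponent_le_one {q : ℝ≥0∞} (hn : n ≠ 0) (hq : (2 * n : ℝ≥0∞) ≤ q) :
    ((2 * n : ℕ) : ℝ) * (1 / q).toReal ≤ 1 := by
  have h2 : (2 * n : ℝ≥0∞) = ((2 * n : ℕ) : ℝ≥0∞) := by push_cast; rfl
  rw [h2] at hq
  rcases eq_or_ne q ⊤ with h | h
  · rw [h]
    simp
  · have h3 := (ENNReal.toReal_le_toReal (ENNReal.natCast_ne_top _) h).2 hq
    rw [ENNReal.toReal_natCast] at h3
    have h4 : (0 : ℝ) < ((2 * n : ℕ) : ℝ) := by
      have : 0 < 2 * n := by omega
      exact_mod_cast this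
    rw [ENNReal.toReal_div, ENNReal.toReal_one, mul_one_div]
    rw [div_le_one (by linarith)]
    exact h3

/-- The scale invariant Poincare inequality for the derivative of a smooth map. -/
lemma osc_le (hn : n ≠ 0) {q : ℝ≥0∞} (hq : (2 * n : ℝ≥0∞) ≤ q) : ∃ C : ℝ≥0∞, C ≠ ⊤ ∧
    ∀ w : Phase n → Phase n, ContDiff ℝ ∞ w → ∀ (x : Phase n) (r : ℝ), 0 < r → r ≤ 1 →
      ∃ B : Phase n →L[ℝ] Phase n,
        ∫⁻ z, ‖fderiv ℝ w (x + r • z) - B‖ₑ ^ 2 ∂(etaMeasure n) ≤
          C * (eLpNorm (fderiv ℝ (fderiv ℝ w)) q volume) ^ 2 := by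
  obtain ⟨M, hM, hMf⟩ := exists_lintegral_eta_le n
  set Bl := Metric.closedBall (0 : Phase n) 1 with hBl
  have hBt : volume Bl ≠ ⊤ := measure_closedBall_lt_top.ne
  set V : ℝ≥0∞ := volume Bl ^ (1 / (2 : ℝ≥0∞).toReal - 1 / q.toReal) with hV
  have hq2 : (2 : ℝ≥0∞) ≤ q := by
    refine le_trans ?_ hq
    have : (1 : ℝ≥0∞) ≤ n := by exact_mod_cast Nat.one_le_iff_ne_zero.2 hn
    calc (2 : ℝ≥0∞) = 2 * 1 := (mul_one _).symm
      _ ≤ 2 * n := by gcongr
  have hVt : V ≠ ⊤ := by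
    apply ENNReal.rpow_ne_top_of_nonneg _ hBt
    rcases eq_or_ne q ⊤ with h | h
    · rw [h]; simp
    · have h3 := (ENNReal.toReal_le_toReal (by norm_num) h).2 hq2
      have h4 : (0 : ℝ) < (2 : ℝ≥0∞).toReal := by norm_num
      have := one_div_le_one_div_of_le h4 h3
      linarith
  refine ⟨M * (4 * (2 ^ (Module.finrank ℝ (Phase n)) * V ^ 2)), ?_, ?_⟩
  · refine ENNReal.mul_ne_top hM (ENNReal.mul_ne_top (by norm_num) (ENNReal.mul_ne_top ?_ ?_))
    · exact ENNReal.pow_ne_top (by norm_num)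
    · exact ENNReal.pow_ne_top hVt
  intro w hw x r hr hr1
  have hw1 : ContDiff ℝ ∞ (fderiv ℝ w) := hw.fderiv_right (by simp)
  have hw2 : ContDiff ℝ ∞ (fderiv ℝ (fderiv ℝ w)) := hw1.fderiv_right (by simp)
  have haff : ContDiff ℝ ∞ (fun z : Phase n => x + r • z) :=
    contDiff_const.add (contDiff_const_smul r)
  set g : Phase n → Phase n →L[ℝ] Phase n := fun z => fderiv ℝ w (x + r • z) with hg
  have hgs : ContDiff ℝ ∞ g := hw1.comp haff
  have hgd : fderiv ℝ g = fun z => r • fderiv ℝ (fderiv ℝ w) (x + r • z) := by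
    funext z
    have h1 : HasFDerivAt (fun z : Phase n => x + r • z) (r • ContinuousLinearMap.id ℝ (Phase n)) z := by
      have h0 : HasFDerivAt (fun z : Phase n => r • z) (r • ContinuousLinearMap.id ℝ (Phase n)) z :=
        (hasFDerivAt_id z).const_smul r
      exact h0.const_add x
    have h2 : HasFDerivAt g _ z := (hw1.differentiable (by simp) (x + r • z)).hasFDerivAt.comp z h1
    rw [h2.fderiv]
    ext v
    simp
  have hgdc : Continuous (fderiv ℝ g) := hgs.continuous_fderiv (by simp)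
  obtain ⟨z₀, -, hz₀⟩ := poincare_sq (g := g) (hgs.of_le (by exact_mod_cast le_top))
  refine ⟨g z₀, ?_⟩
  have hmeas : Measurable (fun z => ‖g z - g z₀‖ₑ ^ 2) :=
    ((ENNReal.continuous_pow 2).comp (hgs.continuous.sub continuous_const).enorm).measurable
  refine (hMf _ hmeas).trans ?_
  rw [mul_assoc]
  refine mul_le_mul' le_rfl (hz₀.trans ?_)
  rw [mul_assoc]
  refine mul_le_mul' le_rfl ?_
  rw [mul_assoc]
  refine mul_le_mul' le_rfl ?_
  rw [← mul_pow, mul_comm V]
  -- `L^2` norm on the ball against the `L^q` norm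
  have h3 := eLpNorm_nnreal_pow_eq_lintegral (f := fderiv ℝ g) (μ := volume.restrict Bl)
    (p := 2) (by norm_num)
  norm_num at h3
  rw [← h3]
  refine pow_le_pow_left₀ (by positivity) ?_ 2
  have h4 := eLpNorm_le_eLpNorm_mul_rpow_measure_univ (μ := volume.restrict Bl) hq2
    (hgdc.aestronglyMeasurable (μ := volume.restrict Bl))
  rw [Measure.restrict_apply MeasurableSet.univ, univ_inter] at h4
  refine h4.trans (mul_le_mul' ?_ le_rfl)
  refine (eLpNorm_mono_measure _ Measure.restrict_le_self).trans ?_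
  rw [hgd]
  have h5 : eLpNorm (fun z => r • fderiv ℝ (fderiv ℝ w) (x + r • z)) q volume =
      ‖r‖ₑ * eLpNorm (fun z => fderiv ℝ (fderiv ℝ w) (x + r • z)) q volume :=
    eLpNorm_const_smul r (fun z => fderiv ℝ (fderiv ℝ w) (x + r • z)) q volume
  rw [h5, eLpNorm_comp_affine hw2.continuous q x hr, ← mul_assoc, Real.enorm_of_nonneg hr.le]
  refine (mul_le_mul' ?_ le_rfl).trans (one_mul _).le
  rw [← ENNReal.ofReal_mul hr.le, ENNReal.ofReal_le_one]
  have h6 := exponent_le_one hn hq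
  calc r * r ^ (-((2 * n : ℕ) : ℝ) * (1 / q).toReal) =
        r ^ (1 : ℝ) * r ^ (-((2 * n : ℕ) : ℝ) * (1 / q).toReal) := by rw [Real.rpow_one]
    _ = r ^ (1 + -((2 * n : ℕ) : ℝ) * (1 / q).toReal) := (Real.rpow_add hr _ _).symm
    _ ≤ 1 := Real.rpow_le_one hr.le hr1 (by linarith)

/-- The mean minimises the mean square distance. -/
lemma integral_sub_mean_sq_le (μ : Measure (Phase n)) [IsProbabilityMeasure μ] {R₀ : ℝ}
    (hμ : μ (Metric.closedBall 0 R₀)ᶜ = 0) {g : Phase n → Phase n} (hg : Continuous g)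
    (c : Phase n) : ∫ z, ‖g z - ∫ y, g y ∂μ‖ ^ 2 ∂μ ≤ ∫ z, ‖g z - c‖ ^ 2 ∂μ := by
  set a := ∫ y, g y ∂μ with ha
  have hgi : Integrable g μ := integrable_of_continuous_supp μ hμ hg
  have h1 : ∀ z, ‖g z - c‖ ^ 2 = ‖g z - a‖ ^ 2 + (2 * inner ℝ (a - c) (g z - a) + ‖a - c‖ ^ 2) := by
    intro z
    have e : g z - c = (g z - a) + (a - c) := by abel
    rw [e, norm_add_sq_real, real_inner_comm]
    ring
  have h2 : ∫ z, inner ℝ (a - c) (g z - a) ∂μ = 0 := by
    have h3 : ∫ z, inner ℝ (a - c) (g z - a) ∂μ = inner ℝ (a - c) (∫ z, (g z - a) ∂μ) :=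
      integral_inner (hgi.sub (integrable_const a)) (a - c)
    rw [h3, integral_sub hgi (integrable_const a), ← ha]
    simp
  have i1 : Integrable (fun z => ‖g z - a‖ ^ 2) μ :=
    integrable_of_continuous_supp μ hμ ((hg.sub continuous_const).norm.pow 2)
  have i2 : Integrable (fun z => 2 * inner ℝ (a - c) (g z - a)) μ :=
    integrable_of_continuous_supp μ hμ
      (continuous_const.mul (continuous_const.inner (hg.sub continuous_const)))
  simp only [h1]
  have i3 : Integrable (fun z => 2 * inner ℝ (a - c) (g z - a) + ‖a - c‖ ^ 2) μ :=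
    i2.add (integrable_const _)
  rw [integral_add i1 i3, integral_add i2 (integrable_const _), integral_const_mul, h2]
  simp

/-- Small Sobolev distance to a map with small oscillation gives admissible averages. -/
lemma exists_radius_admissible (hn : n ≠ 0) {q : ℝ≥0∞} (hq : (2 * n : ℝ≥0∞) ≤ q) :
    ∃ δ : ℝ≥0∞, 0 < δ ∧ ∀ (φ₀ φ : SympCt n) (x : Phase n) (r : ℝ), 0 < r → r ≤ 1 →
      (∀ z ∈ Metric.closedBall (0 : Phase n) 1,
        ‖fderiv ℝ (φ₀ : Equiv.Perm (Phase n)) (x + r • z) -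
          fderiv ℝ (φ₀ : Equiv.Perm (Phase n)) x‖ ≤ 1 / 4) →
      sobDist q φ φ₀ ≤ δ →
      Admissible (avgDeriv (etaMeasure n) (φ : Equiv.Perm (Phase n)) x r) := by
  obtain ⟨C, hC, hCf⟩ := osc_le hn hq
  set c := C.toReal with hc
  have hc0 : 0 ≤ c := ENNReal.toReal_nonneg
  set δ : ℝ := 1 / (16 * (c + 1)) with hδ
  have hδ0 : 0 < δ := by positivity
  have hδ1 : δ ≤ 1 := by
    rw [hδ, div_le_one (by positivity)]
    linarith
  have hcδ : c * δ ^ 2 ≤ 1 / 16 := by
    have h1 : c * δ ^ 2 ≤ (c + 1) * δ := by nlinarith [mul_nonneg hc0 hδ0.le]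
    have h2 : (c + 1) * δ = 1 / 16 := by
      rw [hδ]; field_simp
    linarith
  refine ⟨ENNReal.ofReal δ, ENNReal.ofReal_pos.2 hδ0, ?_⟩
  intro φ₀ φ x r hr hr1 hosc hdist
  set μ := etaMeasure n with hμ
  have hμc : μ (Metric.closedBall 0 1)ᶜ = 0 := etaMeasure_compl
  set w : Phase n → Phase n := fun y =>
    (φ : Equiv.Perm (Phase n)) y - (φ₀ : Equiv.Perm (Phase n)) y with hw
  have hws : ContDiff ℝ ∞ w := contDiff_diff φ φ₀
  have hw1 : ContDiff ℝ ∞ (fderiv ℝ w) := hws.fderiv_right (by simp)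
  obtain ⟨B, hB⟩ := hCf w hws x r hr hr1
  have hwd : ∀ y, fderiv ℝ (φ : Equiv.Perm (Phase n)) y =
      fderiv ℝ (φ₀ : Equiv.Perm (Phase n)) y + fderiv ℝ w y := by
    intro y
    have h1 : fderiv ℝ w y = fderiv ℝ (φ : Equiv.Perm (Phase n)) y -
        fderiv ℝ (φ₀ : Equiv.Perm (Phase n)) y :=
      fderiv_fun_sub (SympCt.differentiable φ y) (SympCt.differentiable φ₀ y)
    rw [h1]; abel
  set b : Phase n → ℝ := fun z => ‖fderiv ℝ w (x + r • z) - B‖ with hb
  have hbc : Continuous b :=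
    ((hw1.continuous.comp (continuous_const.add (continuous_const_smul r))).sub
      continuous_const).norm
  have hbi : Integrable (fun z => b z ^ 2) μ :=
    integrable_of_continuous_supp μ hμc (hbc.pow 2)
  have hb2 : ∫ z, b z ^ 2 ∂μ ≤ 1 / 16 := by
    rw [integral_eq_lintegral_of_nonneg_ae (Eventually.of_forall fun z => sq_nonneg _)
      (hbc.pow 2).aestronglyMeasurable]
    apply ENNReal.toReal_le_of_le_ofReal (by norm_num)
    have h1 : ∀ z, ENNReal.ofReal (b z ^ 2) = ‖fderiv ℝ w (x + r • z) - B‖ₑ ^ 2 := by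
      intro z
      rw [ENNReal.ofReal_pow (norm_nonneg _), ofReal_norm]
    simp only [h1]
    refine hB.trans ?_
    have h2 : eLpNorm (fderiv ℝ (fderiv ℝ w)) q volume ≤ ENNReal.ofReal δ :=
      (eLpNorm_fderiv2_le_sobNorm q w).trans hdist
    calc C * (eLpNorm (fderiv ℝ (fderiv ℝ w)) q volume) ^ 2 ≤ C * (ENNReal.ofReal δ) ^ 2 := by
          gcongr
      _ = ENNReal.ofReal (c * δ ^ 2) := by
          rw [ENNReal.ofReal_mul hc0, ENNReal.ofReal_pow hδ0.le, hc, ENNReal.ofReal_toReal hC]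
      _ ≤ ENNReal.ofReal (1 / 16) := ENNReal.ofReal_le_ofReal hcδ
  apply admissible_of_variance μ hμc
  intro v hv
  have hv0 : 0 < ‖v‖ ^ 2 := by
    have := norm_pos_iff.2 hv
    positivity
  have hDc : Continuous (fun z => fderiv ℝ (φ : Equiv.Perm (Phase n)) (x + r • z)) :=
    ((SympCt.contDiff φ).continuous_fderiv (by simp)).comp
      (continuous_const.add (continuous_const_smul r))
  have hDvc : Continuous (fun z => fderiv ℝ (φ : Equiv.Perm (Phase n)) (x + r • z) v) :=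
    hDc.clm_apply continuous_const
  have hAv : avgDeriv μ (φ : Equiv.Perm (Phase n)) x r v =
      ∫ z, fderiv ℝ (φ : Equiv.Perm (Phase n)) (x + r • z) v ∂μ :=
    ContinuousLinearMap.integral_apply (integrable_of_continuous_supp μ hμc hDc) v
  rw [hAv]
  set C₀ : Phase n →L[ℝ] Phase n := fderiv ℝ (φ₀ : Equiv.Perm (Phase n)) x + B with hC₀
  refine lt_of_le_of_lt (integral_sub_mean_sq_le μ hμc hDvc (C₀ v)) ?_
  have hle : ∫ z, ‖fderiv ℝ (φ : Equiv.Perm (Phase n)) (x + r • z) v - C₀ v‖ ^ 2 ∂μ ≤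
      ∫ z, (1 / 8 + 2 * b z ^ 2) * ‖v‖ ^ 2 ∂μ := by
    apply integral_mono_ae
    · exact integrable_of_continuous_supp μ hμc ((hDvc.sub continuous_const).norm.pow 2)
    · exact ((integrable_const _).add (hbi.const_mul 2)).mul_const _
    · have hae : ∀ᵐ z ∂μ, z ∈ Metric.closedBall (0 : Phase n) 1 := by
        rw [ae_iff]
        exact hμc
      filter_upwards [hae] with z hz
      have h1 := hosc z hz
      have h2 : fderiv ℝ (φ : Equiv.Perm (Phase n)) (x + r • z) v - C₀ v =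
          ((fderiv ℝ (φ₀ : Equiv.Perm (Phase n)) (x + r • z) -
            fderiv ℝ (φ₀ : Equiv.Perm (Phase n)) x) + (fderiv ℝ w (x + r • z) - B)) v := by
        rw [hwd, hC₀]
        simp only [add_apply, sub_apply]
        abel
      have h3 : ‖fderiv ℝ (φ : Equiv.Perm (Phase n)) (x + r • z) v - C₀ v‖ ≤ (1 / 4 + b z) * ‖v‖ := by
        rw [h2]
        refine (ContinuousLinearMap.le_opNorm _ _).trans ?_
        gcongr
        exact (norm_add_le _ _).trans (add_le_add h1 le_rfl)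
      have hb0 : 0 ≤ b z := norm_nonneg _
      calc ‖fderiv ℝ (φ : Equiv.Perm (Phase n)) (x + r • z) v - C₀ v‖ ^ 2 ≤
            ((1 / 4 + b z) * ‖v‖) ^ 2 := pow_le_pow_left₀ (norm_nonneg _) h3 2
        _ = (1 / 4 + b z) ^ 2 * ‖v‖ ^ 2 := mul_pow _ _ _
        _ ≤ (1 / 8 + 2 * b z ^ 2) * ‖v‖ ^ 2 := by
            apply mul_le_mul_of_nonneg_right _ hv0.le
            nlinarith [sq_nonneg (1 / 4 - b z)]
  refine lt_of_le_of_lt hle ?_
  rw [integral_mul_const, integral_add (integrable_const _) (hbi.const_mul 2), integral_const_mul]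
  simp only [integral_const, probReal_univ, one_smul]
  nlinarith

end Pool.Agent.Helper17
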