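import Mathlib
import Pool.Agent.Helper17.SympBase
import Pool.Agent.Helper17.LocalDiffeo
import Pool.Agent.Helper17.Isotopy
import Pool.Agent.Helper17.Near
import Pool.Agent.Helper17.Potential
import Pool.Agent.Helper17.CFamily
import Pool.Agent.Helper17.CFInt
import Pool.Agent.Helper17.Moser
import Pool.Agent.Helper17.SympFamily
import Pool.Agent.Helper17.MoserFamily

set_option maxSynthPendingDepth 3

open scoped ContDiff Topology
open Set Function Filter TopologicalSpace

namespace Pool.Agent.Helper17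

/-- Being a smooth family can be checked on the members of a finite closed cover of the parameter
space (three members). -/
lemma CF_of_closed_cover {P : Type} [TopologicalSpace P] {E : Type} [NormedAddCommGroup E]
    [NormedSpace ℝ E] {E' : Type} [NormedAddCommGroup E'] [NormedSpace ℝ E']
    {F : P → E → E'} {A B C : Set P} (hA : IsClosed A) (hB : IsClosed B) (hC : IsClosed C)
    (hABC : A ∪ B ∪ C = univ)
    (hFA : CF (fun (p : A) x => F p.1 x)) (hFB : CF (fun (p : B) x => F p.1 x))
    (hFC : CF (fun (p : C) x => F p.1 x)) : CF F := by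
  have hsm : ∀ p, ContDiff ℝ ∞ (F p) := by
    intro p
    have hp : p ∈ A ∪ B ∪ C := hABC ▸ mem_univ p
    rcases hp with (hp | hp) | hp
    · exact hFA.contDiff ⟨p, hp⟩
    · exact hFB.contDiff ⟨p, hp⟩
    · exact hFC.contDiff ⟨p, hp⟩
  have key : ∀ (S : Set P), CF (fun (p : S) x => F p.1 x) → ∀ i,
      ContinuousOn (fun q : P × E => iteratedFDeriv ℝ i (F q.1) q.2) (S ×ˢ (univ : Set E)) := by
    intro S hS i
    have h1 := hS.continuous_iteratedFDeriv i
    rw [continuousOn_iff_continuous_domRestrict]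
    have h2 : Continuous (fun q : ↥(S ×ˢ (univ : Set E)) => ((⟨q.1.1, q.2.1⟩ : S), q.1.2)) :=
      (Continuous.subtype_mk (continuous_fst.comp continuous_subtype_val) _).prodMk
        (continuous_snd.comp continuous_subtype_val)
    exact h1.comp h2
  intro k
  apply CFk.of_iteratedFDeriv hsm
  intro i
  have h1 := (((key A hFA i).union_of_isClosed (key B hFB i) (hA.prod isClosed_univ)
    (hB.prod isClosed_univ)).union_of_isClosed (key C hFC i)
    ((hA.prod isClosed_univ).union (hB.prod isClosed_univ)) (hC.prod isClosed_univ))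
  rw [← union_prod, ← union_prod, hABC, univ_prod_univ] at h1
  exact continuousOn_univ.1 h1

variable {n : ℕ}

/-- Two compact families of symplectic maps which can be deformed into each other through smooth
maps with admissible derivatives are homotopic in the symplectomorphism group. -/
theorem homotopic_of_deformation {T : Type} [TopologicalSpace T] [CompactSpace T]
    (f g : C(T, SympCt n)) (Ψ : T × Icc (0 : ℝ) 1 → Phase n → Phase n) (hΨ : CF Ψ)
    {K : Set (Phase n)} (hK : IsCompact K) (hΨK : ∀ p, ∀ x ∉ K, Ψ p x = x)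
    (hadm : ∀ p x, Admissible (fderiv ℝ (Ψ p) x))
    (h0 : ∀ t x, Ψ (t, ⟨0, left_mem_Icc.2 zero_le_one⟩) x = (f t : Equiv.Perm (Phase n)) x)
    (h1 : ∀ t x, Ψ (t, ⟨1, right_mem_Icc.2 zero_le_one⟩) x = (g t : Equiv.Perm (Phase n)) x) :
    f.Homotopic g := by
  set z : Icc (0 : ℝ) 1 := ⟨0, left_mem_Icc.2 zero_le_one⟩ with hz
  set o : Icc (0 : ℝ) 1 := ⟨1, right_mem_Icc.2 zero_le_one⟩ with ho
  obtain ⟨ρ, hρ, hcons, hρK, hρ0, -⟩ := moser_family hΨ hK hΨK hadm
  have hHCF : CF (fun (q : (T × Icc (0 : ℝ) 1) × Icc (0 : ℝ) 1) x => Ψ q.1 (ρ q x)) :=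
    (hΨ.base continuous_fst).comp hρ
  have hHK : ∀ (q : (T × Icc (0 : ℝ) 1) × Icc (0 : ℝ) 1), ∀ x ∉ K, Ψ q.1 (ρ q x) = x := by
    intro q x hx
    rw [hρK x hx, hΨK q.1 x hx]
  have hs1 : ∀ (p : T × Icc (0 : ℝ) 1) (x u v : Phase n),
      omegaStd (fderiv ℝ (fun x => Ψ p (ρ (p, o) x)) x u)
        (fderiv ℝ (fun x => Ψ p (ρ (p, o) x)) x v) = omegaStd u v := by
    intro p x u v
    rw [fderiv_comp_family hΨ hρ p o x]
    have := hcons p o x u v
    simp only [ho, sub_self, zero_mul, one_mul, zero_add] at this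
    exact this
  -- the symplectic ends
  have hs0 : ∀ (p : T × Icc (0 : ℝ) 1), (∀ x u v : Phase n,
      omegaStd (fderiv ℝ (Ψ p) x u) (fderiv ℝ (Ψ p) x v) = omegaStd u v) →
      ∀ (s : Icc (0 : ℝ) 1) (x u v : Phase n),
      omegaStd (fderiv ℝ (fun x => Ψ p (ρ (p, s) x)) x u)
        (fderiv ℝ (fun x => Ψ p (ρ (p, s) x)) x v) = omegaStd u v := by
    intro p hp s x u v
    rw [fderiv_comp_family hΨ hρ p s x]
    have h2 := hcons p s x u v
    rw [hp] at h2
    simp only [ContinuousLinearMap.comp_apply]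
    rw [hp]
    linear_combination h2
  have hsz : ∀ (t : T) (x u v : Phase n),
      omegaStd (fderiv ℝ (Ψ (t, z)) x u) (fderiv ℝ (Ψ (t, z)) x v) = omegaStd u v := by
    intro t x u v
    have e1 : Ψ (t, z) = (f t : Equiv.Perm (Phase n)) := funext fun y => h0 t y
    rw [e1]
    exact (f t).2.2.2.1 x u v
  have hso : ∀ (t : T) (x u v : Phase n),
      omegaStd (fderiv ℝ (Ψ (t, o)) x u) (fderiv ℝ (Ψ (t, o)) x v) = omegaStd u v := by
    intro t x u v
    have e1 : Ψ (t, o) = (g t : Equiv.Perm (Phase n)) := funext fun y => h1 t y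
    rw [e1]
    exact (g t).2.2.2.1 x u v
  -- the family of symplectic maps and its homotopies with the ends
  set G : T × Icc (0 : ℝ) 1 → SympCt n := fun p => mkSymp (fun x => Ψ p (ρ (p, o) x))
    (hHCF.contDiff (p, o)) ⟨K, hK, hHK (p, o)⟩ (hs1 p) with hG
  have hGc : Continuous G := by
    have hb : Continuous (fun p : T × Icc (0 : ℝ) 1 =>
        ((p, o) : (T × Icc (0 : ℝ) 1) × Icc (0 : ℝ) 1)) := continuous_id.prodMk continuous_const
    exact continuous_of_CF (hHCF.base hb) ⟨K, hK⟩ (fun t x hx => hHK _ x hx) (fun t x => rfl)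
  have hend : ∀ (w : Icc (0 : ℝ) 1) (k : C(T, SympCt n))
      (hk : ∀ t x, Ψ (t, w) x = (k t : Equiv.Perm (Phase n)) x)
      (hsw : ∀ (t : T) (x u v : Phase n),
        omegaStd (fderiv ℝ (Ψ (t, w)) x u) (fderiv ℝ (Ψ (t, w)) x v) = omegaStd u v),
      k.Homotopic ⟨fun t => G (t, w), hGc.comp (continuous_id.prodMk continuous_const)⟩ := by
    intro w k hk hsw
    have hb : Continuous (fun q : unitInterval × T =>
        (((q.2, w), q.1) : (T × Icc (0 : ℝ) 1) × Icc (0 : ℝ) 1)) :=
      (continuous_snd.prodMk continuous_const).prodMk continuous_fst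
    refine ⟨{
      toFun := fun q => mkSymp (fun x => Ψ (q.2, w) (ρ ((q.2, w), q.1) x))
        (hHCF.contDiff ((q.2, w), q.1)) ⟨K, hK, hHK ((q.2, w), q.1)⟩ (hs0 (q.2, w) (hsw q.2) q.1)
      continuous_toFun := continuous_of_CF (hHCF.base hb) ⟨K, hK⟩
        (fun t x hx => hHK _ x hx) (fun t x => rfl)
      map_zero_left := fun t => by
        apply SympCt.ext'
        intro x
        change Ψ (t, w) (ρ ((t, w), (0 : unitInterval)) x) = _
        have : (0 : unitInterval) = z := rfl
        rw [this, hρ0, hk]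
      map_one_left := fun t => by
        apply SympCt.ext'
        intro x
        rfl }⟩
  have hmid : (⟨fun t => G (t, z), hGc.comp (continuous_id.prodMk continuous_const)⟩ :
      C(T, SympCt n)).Homotopic
      ⟨fun t => G (t, o), hGc.comp (continuous_id.prodMk continuous_const)⟩ := ⟨{
    toFun := fun q => G (q.2, q.1)
    continuous_toFun := hGc.comp (continuous_snd.prodMk continuous_fst)
    map_zero_left := fun t => rfl
    map_one_left := fun t => rfl }⟩
  exact ((hend z f h0 hsz).trans hmid).trans (hend o g h1 hso).symm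

end Pool.Agent.Helper17
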