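import Mathlib
import Pool.Agent.Helper17.SympBase
import Pool.Agent.Helper17.Averaging
import Pool.Agent.Helper17.Variance

open scoped ContDiff Distributions Topology
open Set Function TopologicalSpace MeasureTheory

namespace Pool.Agent.Results.MP_ec5dc5_gt.OscillationGap

open Pool.Agent.Helper17

/-- The average `∫ Dφ(x + r z) dμ(z)` of the derivative of `φ` around the place `x` at the
scale `r`. -/
noncomputable def meanDeriv {n : ℕ} (μ : Measure (Phase n)) (φ : SympCt n) (x : Phase n) (r : ℝ) :
    Phase n →L[ℝ] Phase n :=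
  ∫ z, fderiv ℝ (φ : Equiv.Perm (Phase n)) (x + r • z) ∂μ

/-- The mean oscillation of the derivative of `φ` in the direction `v`, around the place `x` at
the scale `r`: the variance `∫ ‖Dφ(x + r z) v - A v‖² dμ(z)`, where `A` is the average of the
derivative. -/
noncomputable def meanOscillation {n : ℕ} (μ : Measure (Phase n)) (φ : SympCt n) (x : Phase n)
    (r : ℝ) (v : Phase n) : ℝ :=
  ∫ z, ‖fderiv ℝ (φ : Equiv.Perm (Phase n)) (x + r • z) v - meanDeriv μ φ x r v‖ ^ 2 ∂μ

/-- Let `μ` be a probability measure on `ℝ^{2n}` without atoms, carried by a ball. Every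
continuous map `f : T → Symp_ct(ℝ^{2n})` on a compact space `T` such that the derivative of each
`f t` has mean oscillation less than one (in every unit direction, at all places and all scales)
is homotopic to the constant map to the identity. -/
theorem result (n : ℕ) (μ : Measure (Phase n)) [IsProbabilityMeasure μ]
    (hμ : ∀ x, μ {x} = 0) (R₀ : ℝ) (hR₀ : μ (Metric.closedBall 0 R₀)ᶜ = 0)
    (T : Type) [TopologicalSpace T] [CompactSpace T] (f : C(T, SympCt n))
    (hf : ∀ (t : T) (x : Phase n) (r : ℝ), 0 < r → ∀ v : Phase n, ‖v‖ = 1 →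
      meanOscillation μ (f t) x r v < 1) :
    f.Homotopic (ContinuousMap.const T 1) := by
  apply nullhomotopic_of_averages μ hμ hR₀ f
  intro t x r hr
  apply admissible_of_variance μ hR₀ (f t) x r
  intro v hv
  have hv0 : 0 < ‖v‖ := norm_pos_iff.2 hv
  have h1 := hf t x r hr (‖v‖⁻¹ • v) (by
    rw [norm_smul, norm_inv, norm_norm, inv_mul_cancel₀ hv0.ne'])
  unfold meanOscillation at h1
  have h2 : ∀ z, ‖fderiv ℝ (f t : Equiv.Perm (Phase n)) (x + r • z) (‖v‖⁻¹ • v) -
      meanDeriv μ (f t) x r (‖v‖⁻¹ • v)‖ ^ 2 =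
      (‖v‖⁻¹) ^ 2 * ‖fderiv ℝ (f t : Equiv.Perm (Phase n)) (x + r • z) v -
        avgDeriv μ (f t : Equiv.Perm (Phase n)) x r v‖ ^ 2 := by
    intro z
    rw [map_smul, map_smul, ← smul_sub, norm_smul, mul_pow, norm_inv, norm_norm]
    rfl
  simp only [h2] at h1
  rw [integral_const_mul, inv_pow, inv_mul_lt_iff₀ (by positivity), mul_one] at h1
  exact h1

end Pool.Agent.Results.MP_ec5dc5_gt.OscillationGap
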