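import Mathlib
import Pool.Agent.Helper17.SympBase
import Pool.Agent.Helper17.Near
import Pool.Agent.Helper17.DirectLimit
import Pool.Agent.Helper17.SobolevBase

set_option maxSynthPendingDepth 3

open scoped ContDiff Distributions Topology ENNReal
open Set Function Filter MeasureTheory TopologicalSpace

namespace Pool.Agent.Helper17

variable {n : ℕ}

lemma eLpNorm_le_of_supp {F : Type*} [NormedAddCommGroup F] {f : Phase n → F} (p : ℝ≥0∞)
    {K : Set (Phase n)} (hK : ∀ x ∉ K, f x = 0) {C : ℝ} (hC : ∀ x, ‖f x‖ ≤ C) :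
    eLpNorm f p volume ≤ volume K ^ p.toReal⁻¹ * ENNReal.ofReal C := by
  have h1 : support f ⊆ K := fun x hx => by
    by_contra h
    exact hx (hK x h)
  rw [← eLpNorm_restrict_eq_of_support_subset h1]
  refine (eLpNorm_le_of_ae_bound (Eventually.of_forall hC)).trans (le_of_eq ?_)
  rw [Measure.restrict_apply MeasurableSet.univ, univ_inter]

lemma fderiv_zero_off {F : Type*} [NormedAddCommGroup F] [NormedSpace ℝ F] {f : Phase n → F}
    {K : Set (Phase n)} (hKc : IsClosed K) (hK : ∀ x ∉ K, f x = 0) :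
    ∀ x ∉ K, fderiv ℝ f x = 0 := by
  intro x hx
  have h1 : f =ᶠ[𝓝 x] fun _ => 0 := by
    filter_upwards [hKc.isOpen_compl.mem_nhds hx] with y hy
    exact hK y hy
  rw [h1.fderiv_eq, (hasFDerivAt_const (0 : F) x).fderiv]

lemma sobNorm_le_of_supp {w : Phase n → Phase n} (p : ℝ≥0∞)
    {K : Set (Phase n)} (hKc : IsClosed K) (hK : ∀ x ∉ K, w x = 0) {C₀ C₁ C₂ : ℝ}
    (h0 : ∀ x, ‖w x‖ ≤ C₀) (h1 : ∀ x, ‖fderiv ℝ w x‖ ≤ C₁)
    (h2 : ∀ x, ‖fderiv ℝ (fderiv ℝ w) x‖ ≤ C₂) :
    sobNorm p w ≤ ENNReal.ofReal C₀ + volume K ^ p.toReal⁻¹ * ENNReal.ofReal C₀ +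
      volume K ^ p.toReal⁻¹ * ENNReal.ofReal C₁ + volume K ^ p.toReal⁻¹ * ENNReal.ofReal C₂ := by
  have hK1 := fderiv_zero_off hKc hK
  have hK2 := fderiv_zero_off hKc hK1
  rw [sobNorm_eq]
  gcongr
  · apply iSup_le
    intro x
    rw [← ofReal_norm]
    exact ENNReal.ofReal_le_ofReal (h0 x)
  · exact eLpNorm_le_of_supp p hK h0
  · exact eLpNorm_le_of_supp p hK1 h1
  · exact eLpNorm_le_of_supp p hK2 h2

/-- The identity map from the group to the group with the Sobolev topology is continuous on the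
members of the direct system. -/
lemma continuous_supp_sob (p : ℝ≥0∞) [Fact (1 ≤ p)] (K : Compacts (Phase n)) :
    Continuous (fun φ : SympSupp n K => toSobolev p (SympSupp.incl K φ)) := by
  rw [continuous_iff_continuousAt]
  intro φ₀
  rw [ContinuousAt, tendsto_iff_edist_tendsto_0]
  set S : (i : ℕ) → SympSupp n K → ℝ := fun i φ =>
    ‖ContDiffMapSupportedIn.structureMapCLM ℝ ⊤ i (SympSupp.disp K φ) -
      ContDiffMapSupportedIn.structureMapCLM ℝ ⊤ i (SympSupp.disp K φ₀)‖ with hS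
  have hSt : ∀ i, Tendsto (S i) (𝓝 φ₀) (𝓝 0) := by
    intro i
    have h1 : Continuous (fun φ : SympSupp n K =>
        ContDiffMapSupportedIn.structureMapCLM ℝ ⊤ i (SympSupp.disp K φ)) :=
      (ContDiffMapSupportedIn.structureMapCLM ℝ ⊤ i).continuous.comp
        (SympSupp.isInducing_disp K).continuous
    have h2 := ((h1.sub continuous_const).norm).tendsto (f := S i) φ₀
    simpa [hS] using h2
  have hw : ∀ φ : SympSupp n K, ContDiff ℝ ∞ (SympSupp.disp K φ : Phase n → Phase n) := fun φ =>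
    SympSupp.contDiff_disp φ
  have hbound : ∀ (φ : SympSupp n K) (i : ℕ) (x : Phase n),
      ‖iteratedFDeriv ℝ i (fun y => (φ.1 : Equiv.Perm (Phase n)) y -
        (φ₀.1 : Equiv.Perm (Phase n)) y) x‖ ≤ S i φ := by
    intro φ i x
    have h1 : (fun y => (φ.1 : Equiv.Perm (Phase n)) y - (φ₀.1 : Equiv.Perm (Phase n)) y) =
        (SympSupp.disp K φ : Phase n → Phase n) - (SympSupp.disp K φ₀ : Phase n → Phase n) := by
      funext y
      change _ = ((φ.1 : Equiv.Perm (Phase n)) y - y) - ((φ₀.1 : Equiv.Perm (Phase n)) y - y)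
      abel
    rw [h1, iteratedFDeriv_sub_apply ((hw φ).contDiffAt.of_le (by exact_mod_cast le_top))
      ((hw φ₀).contDiffAt.of_le (by exact_mod_cast le_top))]
    have h2 : ∀ ψ : SympSupp n K, iteratedFDeriv ℝ i (SympSupp.disp K ψ : Phase n → Phase n) x =
        (ContDiffMapSupportedIn.structureMapCLM ℝ ⊤ i (SympSupp.disp K ψ)) x := by
      intro ψ
      rw [ContDiffMapSupportedIn.structureMapCLM_top_apply]
    rw [h2, h2]
    exact BoundedContinuousFunction.norm_coe_le_norm
      (ContDiffMapSupportedIn.structureMapCLM ℝ ⊤ i (SympSupp.disp K φ) -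
        ContDiffMapSupportedIn.structureMapCLM ℝ ⊤ i (SympSupp.disp K φ₀)) x
  set V : ℝ≥0∞ := volume (K : Set (Phase n)) ^ p.toReal⁻¹ with hV
  have hVt : V ≠ ⊤ := ENNReal.rpow_ne_top_of_nonneg (by positivity) K.isCompact.measure_lt_top.ne
  have hle : ∀ φ : SympSupp n K, edist (toSobolev p (SympSupp.incl K φ))
      (toSobolev p (SympSupp.incl K φ₀)) ≤
      ENNReal.ofReal (S 0 φ) + V * ENNReal.ofReal (S 0 φ) + V * ENNReal.ofReal (S 1 φ) +
        V * ENNReal.ofReal (S 2 φ) := by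
    intro φ
    apply sobNorm_le_of_supp p K.isCompact.isClosed
    · intro x hx
      change (φ.1 : Equiv.Perm (Phase n)) x - (φ₀.1 : Equiv.Perm (Phase n)) x = 0
      rw [φ.2 x hx, φ₀.2 x hx, sub_self]
    · intro x
      have := hbound φ 0 x
      rwa [norm_iteratedFDeriv_zero] at this
    · intro x
      have := hbound φ 1 x
      rwa [norm_iteratedFDeriv_one] at this
    · intro x
      have := hbound φ 2 x
      rwa [← norm_iteratedFDeriv_fderiv, norm_iteratedFDeriv_one] at this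
  have hT : Tendsto (fun φ : SympSupp n K => ENNReal.ofReal (S 0 φ) + V * ENNReal.ofReal (S 0 φ) +
      V * ENNReal.ofReal (S 1 φ) + V * ENNReal.ofReal (S 2 φ)) (𝓝 φ₀) (𝓝 0) := by
    have h1 : ∀ i, Tendsto (fun φ : SympSupp n K => ENNReal.ofReal (S i φ)) (𝓝 φ₀) (𝓝 0) := by
      intro i
      have := ENNReal.tendsto_ofReal (hSt i)
      rwa [ENNReal.ofReal_zero] at this
    have h2 : ∀ i, Tendsto (fun φ : SympSupp n K => V * ENNReal.ofReal (S i φ)) (𝓝 φ₀) (𝓝 0) := by
      intro i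
      have := ENNReal.Tendsto.const_mul (h1 i) (Or.inr hVt)
      rwa [mul_zero] at this
    have h3 := (((h1 0).add (h2 0)).add (h2 1)).add (h2 2)
    simpa using h3
  exact tendsto_of_tendsto_of_tendsto_of_le_of_le tendsto_const_nhds hT (fun _ => zero_le) hle

/-- The identity map from the group to the group with the Sobolev topology. -/
lemma continuous_toSob (p : ℝ≥0∞) [Fact (1 ≤ p)] :
    Continuous (toSobolev p : SympCt n → SobolevSymp n p) := by
  rw [continuous_iSup_dom]
  intro K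
  rw [continuous_coinduced_dom]
  exact continuous_supp_sob p K

end Pool.Agent.Helper17
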