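import Mathlib
import Pool.Agent.Helper17.SympBase
import Pool.Agent.Helper17.Near
import Pool.Agent.Helper17.DirectLimit
import Pool.Agent.Helper17.CFamily
import Pool.Agent.Helper17.SympFamily
import Pool.Agent.Helper17.Scale
import Pool.Agent.Helper17.SobolevBase
import Pool.Agent.Helper17.SobolevCont

set_option maxSynthPendingDepth 3

open scoped ContDiff Distributions Topology ENNReal
open Set Function Filter MeasureTheory TopologicalSpace

namespace Pool.Agent.Helper17

variable {n : ℕ}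

/-- The effect of a dilation on the Sobolev norm. -/
lemma sobNorm_dil_le {p : ℝ≥0∞} {w : Phase n → Phase n} (hw : ContDiff ℝ ∞ w) {s δ : ℝ}
    (hs0 : 0 < s) (hs1 : s ≤ 1) (hδ1 : δ ≤ 1) (hδ : δ + 1 ≤ ((2 * n : ℕ) : ℝ) * (1 / p).toReal) :
    sobNorm p (fun x => s • w (s⁻¹ • x)) ≤ ENNReal.ofReal (s ^ δ) * sobNorm p w := by
  have hs0' : 0 < s⁻¹ := inv_pos.2 hs0
  set m : ℝ := ((2 * n : ℕ) : ℝ) * (1 / p).toReal with hm
  have hw1 : ContDiff ℝ ∞ (fderiv ℝ w) := hw.fderiv_right (by simp)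
  have hw2 : ContDiff ℝ ∞ (fderiv ℝ (fderiv ℝ w)) := hw1.fderiv_right (by simp)
  have hd1 : fderiv ℝ (fun x => s • w (s⁻¹ • x)) = fun x => fderiv ℝ w (s⁻¹ • x) := by
    funext x
    exact fderiv_dil s hs0.ne' (hw.differentiable (by simp)) x
  have hd2 : fderiv ℝ (fun x => fderiv ℝ w (s⁻¹ • x)) =
      fun x => s⁻¹ • fderiv ℝ (fderiv ℝ w) (s⁻¹ • x) := by
    funext x
    have h1 : HasFDerivAt (fun x : Phase n => s⁻¹ • x) (s⁻¹ • ContinuousLinearMap.id ℝ (Phase n)) x :=
      (hasFDerivAt_id x).const_smul s⁻¹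
    have h2 : HasFDerivAt (fun x : Phase n => fderiv ℝ w (s⁻¹ • x)) _ x :=
      (hw1.differentiable (by simp) (s⁻¹ • x)).hasFDerivAt.comp x h1
    rw [h2.fderiv]
    ext v
    simp
  have hsc : ∀ {F : Type} [NormedAddCommGroup F] (f : Phase n → F), Continuous f →
      eLpNorm (fun x => f (s⁻¹ • x)) p volume = ENNReal.ofReal (s ^ m) * eLpNorm f p volume := by
    intro F _ f hf
    have h1 := eLpNorm_comp_affine hf p 0 hs0'
    simp only [zero_add] at h1
    rw [h1]
    congr 2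
    rw [neg_mul, ← hm, Real.rpow_neg (inv_nonneg.2 hs0.le), Real.inv_rpow hs0.le, inv_inv]
  have hpow : ∀ a : ℝ, δ ≤ a → ENNReal.ofReal (s ^ a) ≤ ENNReal.ofReal (s ^ δ) := fun a ha =>
    ENNReal.ofReal_le_ofReal (Real.rpow_le_rpow_of_exponent_ge hs0 hs1 ha)
  have hs : ‖s‖ₑ = ENNReal.ofReal (s ^ (1 : ℝ)) := by
    rw [Real.rpow_one, Real.enorm_of_nonneg hs0.le]
  have e0 : (⨆ x, ‖s • w (s⁻¹ • x)‖ₑ) ≤ ENNReal.ofReal (s ^ δ) * ⨆ x, ‖w x‖ₑ := by
    apply iSup_le
    intro x
    rw [enorm_smul, hs]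
    exact mul_le_mul' (hpow 1 hδ1) (le_iSup (fun x => ‖w x‖ₑ) (s⁻¹ • x))
  have e1 : eLpNorm (fun x => s • w (s⁻¹ • x)) p volume ≤
      ENNReal.ofReal (s ^ δ) * eLpNorm w p volume := by
    have h1 : eLpNorm (fun x => s • w (s⁻¹ • x)) p volume =
        ‖s‖ₑ * eLpNorm (fun x => w (s⁻¹ • x)) p volume :=
      eLpNorm_const_smul s (fun x => w (s⁻¹ • x)) p volume
    rw [h1, hsc w hw.continuous, ← mul_assoc, hs, ← ENNReal.ofReal_mul (by positivity),
      ← Real.rpow_add hs0]
    refine mul_le_mul' (hpow _ ?_) le_rfl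
    linarith
  have e2 : eLpNorm (fun x => fderiv ℝ w (s⁻¹ • x)) p volume ≤
      ENNReal.ofReal (s ^ δ) * eLpNorm (fderiv ℝ w) p volume := by
    rw [hsc _ hw1.continuous]
    refine mul_le_mul' (hpow _ ?_) le_rfl
    linarith
  have e3 : eLpNorm (fun x => s⁻¹ • fderiv ℝ (fderiv ℝ w) (s⁻¹ • x)) p volume ≤
      ENNReal.ofReal (s ^ δ) * eLpNorm (fderiv ℝ (fderiv ℝ w)) p volume := by
    have h1 : eLpNorm (fun x => s⁻¹ • fderiv ℝ (fderiv ℝ w) (s⁻¹ • x)) p volume =
        ‖s⁻¹‖ₑ * eLpNorm (fun x => fderiv ℝ (fderiv ℝ w) (s⁻¹ • x)) p volume :=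
      eLpNorm_const_smul s⁻¹ (fun x => fderiv ℝ (fderiv ℝ w) (s⁻¹ • x)) p volume
    have h2 : ‖s⁻¹‖ₑ = ENNReal.ofReal (s ^ (-1 : ℝ)) := by
      rw [Real.rpow_neg_one, Real.enorm_of_nonneg hs0'.le]
    rw [h1, hsc _ hw2.continuous, ← mul_assoc, h2, ← ENNReal.ofReal_mul (by positivity),
      ← Real.rpow_add hs0]
    refine mul_le_mul' (hpow _ ?_) le_rfl
    linarith
  rw [sobNorm_eq, sobNorm_eq, hd1, hd2]
  calc _ ≤ ENNReal.ofReal (s ^ δ) * (⨆ x, ‖w x‖ₑ) + ENNReal.ofReal (s ^ δ) * eLpNorm w p volume +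
        ENNReal.ofReal (s ^ δ) * eLpNorm (fderiv ℝ w) p volume +
        ENNReal.ofReal (s ^ δ) * eLpNorm (fderiv ℝ (fderiv ℝ w)) p volume := by gcongr
    _ = _ := by ring

/-- Conjugation by the dilation by `s`, extended by the identity for `s = 0`. -/
noncomputable def shrink (s : ℝ) (φ : SympCt n) : SympCt n :=
  if hs : s ≠ 0 then dilate s hs φ else 1

lemma shrink_apply {s : ℝ} (hs : s ≠ 0) (φ : SympCt n) (x : Phase n) :
    (shrink s φ : Equiv.Perm (Phase n)) x = s • (φ : Equiv.Perm (Phase n)) (s⁻¹ • x) := by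
  rw [shrink, dif_pos hs]
  rfl

lemma shrink_one (φ : SympCt n) : shrink 1 φ = φ := by
  apply SympCt.ext'
  intro x
  rw [shrink_apply one_ne_zero]
  simp

lemma shrink_zero (φ : SympCt n) : shrink 0 φ = 1 := by
  rw [shrink, dif_neg (by simp)]

lemma shrink_of_one (s : ℝ) : shrink s (1 : SympCt n) = 1 := by
  rcases eq_or_ne s 0 with h | h
  · rw [h, shrink_zero]
  · apply SympCt.ext'
    intro x
    rw [shrink_apply h]
    simp [smul_smul, h]

lemma sobDist_shrink_le {p : ℝ≥0∞} {δ : ℝ} (hδ1 : δ ≤ 1)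
    (hδ : δ + 1 ≤ ((2 * n : ℕ) : ℝ) * (1 / p).toReal) {s : ℝ} (hs0 : 0 ≤ s) (hs1 : s ≤ 1)
    (φ ψ : SympCt n) :
    sobDist p (shrink s φ) (shrink s ψ) ≤ ENNReal.ofReal (s ^ δ) * sobDist p φ ψ := by
  rcases hs0.eq_or_lt with h | h
  · rw [← h, shrink_zero, shrink_zero, sobDist_self]
    exact zero_le
  · have h1 := sobNorm_dil_le (p := p) (contDiff_diff φ ψ) h hs1 hδ1 hδ
    unfold sobDist
    refine le_trans (le_of_eq ?_) h1
    congr 1
    funext x
    rw [shrink_apply h.ne', shrink_apply h.ne', smul_sub]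

/-- The path of dilations is continuous away from zero. -/
lemma continuous_shrink_pos (φ : SympCt n) :
    Continuous (fun s : {s : unitInterval // (0 : ℝ) < s} => shrink (s : ℝ) φ) := by
  obtain ⟨K, hK, hφK⟩ := φ.2.2.2.2
  obtain ⟨R, hR⟩ := hK.isBounded.subset_closedBall (0 : Phase n)
  have hpos : ∀ s : {s : unitInterval // (0 : ℝ) < s}, ((s : unitInterval) : ℝ) ≠ 0 := fun s =>
    s.2.ne'
  have hc : Continuous (fun s : {s : unitInterval // (0 : ℝ) < s} => ((s : unitInterval) : ℝ)) :=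
    continuous_subtype_val.comp continuous_subtype_val
  have hci : Continuous (fun s : {s : unitInterval // (0 : ℝ) < s} => ((s : unitInterval) : ℝ)⁻¹) :=
    hc.inv₀ hpos
  have hCF : CF (fun (s : {s : unitInterval // (0 : ℝ) < s}) (x : Phase n) =>
      ((s : unitInterval) : ℝ) • (φ : Equiv.Perm (Phase n)) (((s : unitInterval) : ℝ)⁻¹ • x)) := by
    apply CF.smul (CF.param hc)
    apply CF.comp_smooth (g := (φ : Equiv.Perm (Phase n)))
      (fun _ _ => (SympCt.contDiff φ).contDiffAt)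
    exact CF.smul (CF.param hci) (CF.const contDiff_id)
  apply continuous_of_CF hCF ⟨Metric.closedBall 0 |R|, isCompact_closedBall _ _⟩
  · intro s x hx
    have hx' : |R| < ‖x‖ := by
      have : x ∉ Metric.closedBall (0 : Phase n) |R| := hx
      simpa using this
    have hs := s.2
    have hs1 : ((s : unitInterval) : ℝ) ≤ 1 := (s : unitInterval).2.2
    have h1 : (((s : unitInterval) : ℝ)⁻¹ • x) ∉ K := by
      intro h
      have h2 := hR h
      rw [mem_closedBall_zero_iff, norm_smul, norm_inv, Real.norm_of_nonneg hs.le] at h2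
      have h3 : ‖x‖ ≤ ((s : unitInterval) : ℝ)⁻¹ * ‖x‖ := by
        have h4 : 1 ≤ ((s : unitInterval) : ℝ)⁻¹ := (one_le_inv₀ hs).2 hs1
        have h5 := norm_nonneg x
        nlinarith
      have := le_abs_self R
      linarith
    rw [hφK _ h1, smul_smul, mul_inv_cancel₀ hs.ne', one_smul]
  · intro s x
    exact shrink_apply (hpos s) φ x

/-- Below the critical exponent the group with the Sobolev topology is contractible. -/
theorem contractible_sobolev (p : ℝ≥0∞) [hp : Fact (1 ≤ p)] (hpn : p < 2 * n) :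
    ContractibleSpace (SobolevSymp n p) := by
  -- the gain
  obtain ⟨δ, hδ0, hδ1, hδ⟩ : ∃ δ : ℝ, 0 < δ ∧ δ ≤ 1 ∧
      δ + 1 ≤ ((2 * n : ℕ) : ℝ) * (1 / p).toReal := by
    have hpt : p ≠ ⊤ := ne_top_of_lt hpn
    have hp0 : p ≠ 0 := fun h => by
      have := hp.out
      rw [h] at this
      simp at this
    have hpr : 0 < p.toReal := ENNReal.toReal_pos hp0 hpt
    have h1 : p.toReal < ((2 * n : ℕ) : ℝ) := by
      have h2 : (2 * n : ℝ≥0∞) = ((2 * n : ℕ) : ℝ≥0∞) := by push_cast; rfl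
      rw [h2] at hpn
      have h3 := (ENNReal.toReal_lt_toReal hpt (ENNReal.natCast_ne_top _)).2 hpn
      rwa [ENNReal.toReal_natCast] at h3
    have h2 : 1 < ((2 * n : ℕ) : ℝ) * (1 / p).toReal := by
      rw [ENNReal.toReal_div, ENNReal.toReal_one, mul_one_div, lt_div_iff₀ hpr, one_mul]
      exact h1
    refine ⟨min 1 (((2 * n : ℕ) : ℝ) * (1 / p).toReal - 1), lt_min one_pos (by linarith),
      min_le_left _ _, ?_⟩
    have := min_le_right 1 (((2 * n : ℕ) : ℝ) * (1 / p).toReal - 1)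
    linarith
  -- continuity of the path of dilations of a fixed map
  have hpath : ∀ φ : SympCt n, Continuous (fun s : unitInterval => toSobolev p (shrink (s : ℝ) φ)) := by
    intro φ
    rw [continuous_iff_continuousAt]
    intro s₀
    rcases (s₀.2.1 : (0 : ℝ) ≤ s₀).eq_or_lt with h | h
    · -- at zero
      rw [ContinuousAt, tendsto_iff_edist_tendsto_0]
      have h0 : ((s₀ : unitInterval) : ℝ) = 0 := h.symm
      have hb : ∀ s : unitInterval, edist (toSobolev p (shrink (s : ℝ) φ))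
          (toSobolev p (shrink (s₀ : ℝ) φ)) ≤ ENNReal.ofReal ((s : ℝ) ^ δ) * sobDist p φ 1 := by
        intro s
        have h1 := sobDist_shrink_le hδ1 hδ s.2.1 s.2.2 φ 1
        rw [shrink_of_one] at h1
        rw [h0, shrink_zero]
        exact h1
      have ht : Tendsto (fun s : unitInterval => ENNReal.ofReal ((s : ℝ) ^ δ) * sobDist p φ 1)
          (𝓝 s₀) (𝓝 0) := by
        have h1 : Tendsto (fun s : unitInterval => (s : ℝ) ^ δ) (𝓝 s₀) (𝓝 0) := by
          have h2 : Continuous (fun s : unitInterval => (s : ℝ) ^ δ) :=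
            continuous_subtype_val.rpow_const fun _ => Or.inr hδ0.le
          have h3 := h2.tendsto s₀
          rwa [h0, Real.zero_rpow hδ0.ne'] at h3
        have h4 := ENNReal.tendsto_ofReal h1
        rw [ENNReal.ofReal_zero] at h4
        have h5 := ENNReal.Tendsto.mul_const h4 (Or.inr (sobDist_lt_top p φ 1).ne)
        rwa [zero_mul] at h5
      exact tendsto_of_tendsto_of_tendsto_of_le_of_le tendsto_const_nhds ht (fun _ => zero_le) hb
    · -- at positive parameters
      have h1 : Continuous (fun s : {s : unitInterval // (0 : ℝ) < s} =>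
          toSobolev p (shrink ((s : unitInterval) : ℝ) φ)) :=
        (continuous_toSob p).comp (continuous_shrink_pos φ)
      have hopen : IsOpen {s : unitInterval | (0 : ℝ) < s} :=
        isOpen_lt continuous_const continuous_subtype_val
      have h2 : ContinuousOn (fun s : unitInterval => toSobolev p (shrink (s : ℝ) φ))
          {s : unitInterval | (0 : ℝ) < s} := continuousOn_iff_continuous_domRestrict.2 h1
      exact h2.continuousAt (hopen.mem_nhds h)
  -- the contraction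
  have hH : Continuous (fun q : unitInterval × SobolevSymp n p =>
      toSobolev p (shrink (q.1 : ℝ) (ofSobolev q.2))) := by
    rw [continuous_iff_continuousAt]
    rintro ⟨s₀, φ₀⟩
    rw [ContinuousAt, tendsto_iff_edist_tendsto_0]
    have hb : ∀ q : unitInterval × SobolevSymp n p,
        edist (toSobolev p (shrink (q.1 : ℝ) (ofSobolev q.2)))
          (toSobolev p (shrink (s₀ : ℝ) (ofSobolev φ₀))) ≤
        edist q.2 φ₀ + edist (toSobolev p (shrink (q.1 : ℝ) (ofSobolev φ₀)))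
          (toSobolev p (shrink (s₀ : ℝ) (ofSobolev φ₀))) := by
      intro q
      refine (edist_triangle _ (toSobolev p (shrink (q.1 : ℝ) (ofSobolev φ₀))) _).trans ?_
      gcongr
      have h1 := sobDist_shrink_le hδ1 hδ q.1.2.1 q.1.2.2 (ofSobolev q.2) (ofSobolev φ₀)
      refine h1.trans ?_
      have h2 : ENNReal.ofReal (((q.1 : unitInterval) : ℝ) ^ δ) ≤ 1 := by
        rw [ENNReal.ofReal_le_one]
        exact Real.rpow_le_one q.1.2.1 q.1.2.2 hδ0.le
      calc _ ≤ 1 * sobDist p (ofSobolev q.2) (ofSobolev φ₀) := by gcongr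
        _ = _ := one_mul _
    have ht : Tendsto (fun q : unitInterval × SobolevSymp n p => edist q.2 φ₀ +
        edist (toSobolev p (shrink (q.1 : ℝ) (ofSobolev φ₀)))
          (toSobolev p (shrink (s₀ : ℝ) (ofSobolev φ₀)))) (𝓝 (s₀, φ₀)) (𝓝 0) := by
      have h1 : Tendsto (fun q : unitInterval × SobolevSymp n p => edist q.2 φ₀)
          (𝓝 (s₀, φ₀)) (𝓝 0) :=
        tendsto_iff_edist_tendsto_0.1 (continuous_snd.tendsto (s₀, φ₀))
      have h2 : Tendsto (fun q : unitInterval × SobolevSymp n p =>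
          edist (toSobolev p (shrink (q.1 : ℝ) (ofSobolev φ₀)))
          (toSobolev p (shrink (s₀ : ℝ) (ofSobolev φ₀)))) (𝓝 (s₀, φ₀)) (𝓝 0) :=
        tendsto_iff_edist_tendsto_0.1
          (((hpath (ofSobolev φ₀)).comp continuous_fst).tendsto (s₀, φ₀))
      simpa using h1.add h2
    exact tendsto_of_tendsto_of_tendsto_of_le_of_le tendsto_const_nhds ht (fun _ => zero_le) hb
  rw [contractible_iff_id_nullhomotopic]
  refine ⟨toSobolev p 1, ?_⟩
  refine ContinuousMap.Homotopic.symm ⟨{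
    toFun := fun q => toSobolev p (shrink (q.1 : ℝ) (ofSobolev q.2))
    continuous_toFun := hH
    map_zero_left := fun φ => by
      change toSobolev p (shrink ((0 : unitInterval) : ℝ) (ofSobolev φ)) = toSobolev p 1
      rw [Set.Icc.coe_zero, shrink_zero]
    map_one_left := fun φ => by
      change toSobolev p (shrink ((1 : unitInterval) : ℝ) (ofSobolev φ)) = φ
      rw [Set.Icc.coe_one, shrink_one]
      rfl }⟩

end Pool.Agent.Helper17
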