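import Mathlib
import Pool.Agent.Helper17.SympBase
import Pool.Agent.Helper17.Near
import Pool.Agent.Helper17.Potential
import Pool.Agent.Helper17.Moser
import Pool.Agent.Helper17.Averaging
import Pool.Agent.Helper17.Variance
import Pool.Agent.Helper17.FlatFamilies
import Pool.Agent.Helper17.SobolevPoincare
import Pool.Agent.Helper17.SobolevBase
import Pool.Agent.Helper17.SobolevVar

set_option maxSynthPendingDepth 3

open scoped ContDiff Topology ENNReal
open Set Function Filter MeasureTheory TopologicalSpace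

namespace Pool.Agent.Helper17

variable {n : ℕ}

lemma contDiff_disp (φ : SympCt n) :
    ContDiff ℝ ∞ (fun x => (φ : Equiv.Perm (Phase n)) x - x) :=
  (SympCt.contDiff φ).sub contDiff_id

lemma fderiv_disp (φ : SympCt n) (x : Phase n) :
    fderiv ℝ (fun x => (φ : Equiv.Perm (Phase n)) x - x) x =
      fderiv ℝ (φ : Equiv.Perm (Phase n)) x - ContinuousLinearMap.id ℝ (Phase n) :=
  ((SympCt.differentiable φ x).hasFDerivAt.sub (hasFDerivAt_id x)).fderiv

lemma hasCompactSupport_disp (φ : SympCt n) :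
    HasCompactSupport (fun x => (φ : Equiv.Perm (Phase n)) x - x) := by
  obtain ⟨K, hK, hφK⟩ := φ.2.2.2.2
  apply HasCompactSupport.intro hK
  intro x hx
  rw [hφK x hx, sub_self]

lemma exists_radius_disp (φ : SympCt n) : ∃ R : ℝ, 0 ≤ R ∧ ∀ x, R < ‖x‖ →
    (φ : Equiv.Perm (Phase n)) x - x = 0 := by
  obtain ⟨K, hK, hφK⟩ := φ.2.2.2.2
  obtain ⟨R, hR⟩ := hK.isBounded.subset_closedBall (0 : Phase n)
  refine ⟨|R|, abs_nonneg _, fun x hx => ?_⟩
  have : x ∉ K := fun h => by
    have := hR h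
    rw [mem_closedBall_zero_iff] at this
    have := le_abs_self R
    linarith
  rw [hφK x this, sub_self]

lemma exists_modulus (φ : SympCt n) {ε : ℝ} (hε : 0 < ε) : ∃ ρ : ℝ, 0 < ρ ∧ ∀ y z : Phase n,
    ‖y - z‖ ≤ ρ → ‖fderiv ℝ (φ : Equiv.Perm (Phase n)) y -
      fderiv ℝ (φ : Equiv.Perm (Phase n)) z‖ ≤ ε := by
  have h1 : HasCompactSupport (fderiv ℝ (fderiv ℝ (fun x => (φ : Equiv.Perm (Phase n)) x - x))) :=
    ((hasCompactSupport_disp φ).fderiv (𝕜 := ℝ)).fderiv (𝕜 := ℝ)
  have hs : ContDiff ℝ ∞ (fderiv ℝ (fun x => (φ : Equiv.Perm (Phase n)) x - x)) :=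
    (contDiff_disp φ).fderiv_right (by simp)
  have h2 : Continuous (fderiv ℝ (fderiv ℝ (fun x => (φ : Equiv.Perm (Phase n)) x - x))) :=
    hs.continuous_fderiv (by simp)
  obtain ⟨C, hC⟩ := h1.exists_bound_of_continuous h2
  have hC' : ∀ x, ‖fderiv ℝ (fderiv ℝ (fun x => (φ : Equiv.Perm (Phase n)) x - x)) x‖ ≤ |C| + 1 :=
    fun x => (hC x).trans (by have := le_abs_self C; linarith)
  refine ⟨ε / (|C| + 1), by positivity, fun y z hyz => ?_⟩
  have h3 : ‖fderiv ℝ (fun x => (φ : Equiv.Perm (Phase n)) x - x) y -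
      fderiv ℝ (fun x => (φ : Equiv.Perm (Phase n)) x - x) z‖ ≤ (|C| + 1) * ‖y - z‖ :=
    convex_univ.norm_image_sub_le_of_norm_fderiv_le (𝕜 := ℝ)
      (fun x _ => hs.differentiable (by simp) x) (fun x _ => hC' x) (mem_univ z) (mem_univ y)
  rw [fderiv_disp, fderiv_disp, sub_sub_sub_cancel_right] at h3
  refine h3.trans ?_
  calc (|C| + 1) * ‖y - z‖ ≤ (|C| + 1) * (ε / (|C| + 1)) := by gcongr
    _ = ε := by field_simp

/-- A common scale below which all averages are admissible. -/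
lemma exists_common_scale (hn : n ≠ 0) {q : ℝ≥0∞} [hq1 : Fact (1 ≤ q)]
    (hq : (2 * n : ℝ≥0∞) ≤ q) {P : Type} [TopologicalSpace P] [CompactSpace P] {h : P → SympCt n}
    (hh : Continuous (fun p => toSobolev q (h p))) :
    ∃ r₀ : ℝ, 0 < r₀ ∧ r₀ ≤ 1 ∧ ∀ p x r, 0 < r → r ≤ r₀ →
      Admissible (avgDeriv (etaMeasure n) (h p : Equiv.Perm (Phase n)) x r) := by
  obtain ⟨δ, hδ, hδ'⟩ := exists_radius_admissible hn hq
  have key : ∃ r₀ : ℝ, 0 < r₀ ∧ r₀ ≤ 1 ∧ ∀ p ∈ (univ : Set P), ∀ x r, 0 < r → r ≤ r₀ →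
      Admissible (avgDeriv (etaMeasure n) (h p : Equiv.Perm (Phase n)) x r) := by
    apply isCompact_univ.induction_on (p := fun S : Set P => ∃ r₀ : ℝ, 0 < r₀ ∧ r₀ ≤ 1 ∧ ∀ p ∈ S,
      ∀ x r, 0 < r → r ≤ r₀ →
      Admissible (avgDeriv (etaMeasure n) (h p : Equiv.Perm (Phase n)) x r))
    · exact ⟨1, one_pos, le_rfl, fun p hp => absurd hp (notMem_empty p)⟩
    · rintro S T hST ⟨r, h1, h2, h3⟩
      exact ⟨r, h1, h2, fun p hp => h3 p (hST hp)⟩
    · rintro S T ⟨r, h1, h2, h3⟩ ⟨r', h1', h2', h3'⟩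
      refine ⟨min r r', lt_min h1 h1', (min_le_left _ _).trans h2, ?_⟩
      rintro p (hp | hp) x s hs hs'
      · exact h3 p hp x s hs (hs'.trans (min_le_left _ _))
      · exact h3' p hp x s hs (hs'.trans (min_le_right _ _))
    · intro p₀ _
      obtain ⟨ρ, hρ, hρ'⟩ := exists_modulus (h p₀) (ε := 1 / 4) (by norm_num)
      refine ⟨{p | edist (toSobolev q (h p)) (toSobolev q (h p₀)) < δ}, ?_, min ρ 1,
        lt_min hρ one_pos, min_le_right _ _, ?_⟩
      · apply mem_nhdsWithin_of_mem_nhds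
        have h1 := tendsto_iff_edist_tendsto_0.1 (hh.tendsto p₀)
        exact h1 (gt_mem_nhds hδ)
      · intro p hp x r hr hr'
        apply hδ' (h p₀) (h p) x r hr (hr'.trans (min_le_right _ _))
        · intro z hz
          apply hρ'
          rw [add_sub_cancel_left, norm_smul, Real.norm_of_nonneg hr.le]
          have hz' : ‖z‖ ≤ 1 := by simpa using hz
          have := hr'.trans (min_le_left _ _)
          have h0 := norm_nonneg z
          nlinarith
        · exact le_of_lt hp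
  obtain ⟨r₀, h1, h2, h3⟩ := key
  exact ⟨r₀, h1, h2, fun p x r hr hr' => h3 p (mem_univ p) x r hr hr'⟩

/-- At a fixed scale the averages of the values and of the derivatives are controlled by the
Sobolev norm. -/
lemma exists_avg_bound (q : ℝ≥0∞) (hq1 : 1 ≤ q) {r : ℝ} (hr : 0 < r) : ∃ C : ℝ≥0∞, C ≠ ⊤ ∧
    ∀ w : Phase n → Phase n, ContDiff ℝ ∞ w → ∀ x : Phase n,
      ‖∫ z, w (x + r • z) ∂(etaMeasure n)‖ₑ ≤ C * sobNorm q w ∧
      ‖∫ z, fderiv ℝ w (x + r • z) ∂(etaMeasure n)‖ₑ ≤ C * sobNorm q w := by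
  obtain ⟨M, hM, hMf⟩ := exists_lintegral_eta_le n
  set Bl := Metric.closedBall (0 : Phase n) 1 with hBl
  have hBt : volume Bl ≠ ⊤ := measure_closedBall_lt_top.ne
  set V : ℝ≥0∞ := volume Bl ^ (1 / (1 : ℝ≥0∞).toReal - 1 / q.toReal) with hV
  have hVt : V ≠ ⊤ := by
    apply ENNReal.rpow_ne_top_of_nonneg _ hBt
    rcases eq_or_ne q ⊤ with h | h
    · rw [h]; simp
    · have h3 := (ENNReal.toReal_le_toReal (by norm_num) h).2 hq1
      have h4 : (0 : ℝ) < (1 : ℝ≥0∞).toReal := by norm_num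
      have := one_div_le_one_div_of_le h4 h3
      linarith
  set S : ℝ≥0∞ := ENNReal.ofReal (r ^ (-((2 * n : ℕ) : ℝ) * (1 / q).toReal)) with hS
  refine ⟨1 + M * (S * V), ?_, fun w hw x => ⟨?_, ?_⟩⟩
  · exact ENNReal.add_ne_top.2 ⟨ENNReal.one_ne_top,
      ENNReal.mul_ne_top hM (ENNReal.mul_ne_top ENNReal.ofReal_ne_top hVt)⟩
  · refine (enorm_integral_le_lintegral_enorm _).trans ?_
    calc ∫⁻ z, ‖w (x + r • z)‖ₑ ∂(etaMeasure n) ≤ ∫⁻ _, sobNorm q w ∂(etaMeasure n) :=
          lintegral_mono fun z => enorm_le_sobNorm q w _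
      _ = 1 * sobNorm q w := by simp
      _ ≤ _ := mul_le_mul' le_self_add le_rfl
  · have hw1 : ContDiff ℝ ∞ (fderiv ℝ w) := hw.fderiv_right (by simp)
    have hgc : Continuous (fun z : Phase n => fderiv ℝ w (x + r • z)) :=
      hw1.continuous.comp (continuous_const.add (continuous_const_smul r))
    refine (enorm_integral_le_lintegral_enorm _).trans ((hMf _ hgc.enorm.measurable).trans ?_)
    have h1 : ∫⁻ z in Bl, ‖fderiv ℝ w (x + r • z)‖ₑ =
        eLpNorm (fun z => fderiv ℝ w (x + r • z)) 1 (volume.restrict Bl) :=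
      eLpNorm_one_eq_lintegral_enorm.symm
    rw [h1]
    have h4 := eLpNorm_le_eLpNorm_mul_rpow_measure_univ (μ := volume.restrict Bl) hq1
      (hgc.aestronglyMeasurable (μ := volume.restrict Bl))
    rw [Measure.restrict_apply MeasurableSet.univ, univ_inter] at h4
    have h5 : eLpNorm (fun z => fderiv ℝ w (x + r • z)) q (volume.restrict Bl) ≤
        S * sobNorm q w := by
      refine (eLpNorm_mono_measure _ Measure.restrict_le_self).trans ?_
      rw [eLpNorm_comp_affine hw1.continuous q x hr]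
      refine mul_le_mul' le_rfl ?_
      rw [sobNorm_eq]
      refine le_trans ?_ le_self_add
      exact le_add_self
    calc M * eLpNorm (fun z => fderiv ℝ w (x + r • z)) 1 (volume.restrict Bl) ≤
          M * ((S * sobNorm q w) * V) := by
          gcongr
          exact h4.trans (mul_le_mul' h5 le_rfl)
      _ = M * (S * V) * sobNorm q w := by ring
      _ ≤ _ := mul_le_mul' le_add_self le_rfl

/-- Uniform decay of the averages of a compact family. -/
lemma exists_tail {q : ℝ≥0∞} [hq1 : Fact (1 ≤ q)] {P : Type} [TopologicalSpace P]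
    [CompactSpace P] {h : P → SympCt n} (hh : Continuous (fun p => toSobolev q (h p)))
    {r : ℝ} (hr : 0 < r) (hr1 : r ≤ 1) {ε : ℝ} (hε : 0 < ε) : ∃ N : ℝ, ∀ p x, N ≤ ‖x‖ →
      ‖∫ z, ((h p : Equiv.Perm (Phase n)) (x + r • z) - (x + r • z)) ∂(etaMeasure n)‖ ≤ ε ∧
      ‖∫ z, fderiv ℝ (fun y => (h p : Equiv.Perm (Phase n)) y - y) (x + r • z) ∂(etaMeasure n)‖ ≤
        ε := by
  obtain ⟨C, hC, hC'⟩ := exists_avg_bound (n := n) q hq1.out hr
  obtain ⟨δ, hδ, hCδ⟩ : ∃ δ : ℝ≥0∞, 0 < δ ∧ C * δ ≤ ENNReal.ofReal ε := by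
    refine ⟨ENNReal.ofReal (ε / (C.toReal + 1)), ENNReal.ofReal_pos.2 (by
      have : 0 ≤ C.toReal := ENNReal.toReal_nonneg
      positivity), ?_⟩
    have h0 : 0 ≤ C.toReal := ENNReal.toReal_nonneg
    rw [← ENNReal.ofReal_toReal hC, ENNReal.toReal_ofReal h0, ← ENNReal.ofReal_mul h0]
    apply ENNReal.ofReal_le_ofReal
    rw [← mul_div_assoc, div_le_iff₀ (by positivity)]
    nlinarith
  have key : ∃ N : ℝ, ∀ p ∈ (univ : Set P), ∀ x, N ≤ ‖x‖ →
      ‖∫ z, ((h p : Equiv.Perm (Phase n)) (x + r • z) - (x + r • z)) ∂(etaMeasure n)‖ ≤ ε ∧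
      ‖∫ z, fderiv ℝ (fun y => (h p : Equiv.Perm (Phase n)) y - y) (x + r • z) ∂(etaMeasure n)‖ ≤
        ε := by
    apply isCompact_univ.induction_on (p := fun S : Set P => ∃ N : ℝ, ∀ p ∈ S, ∀ x, N ≤ ‖x‖ →
      ‖∫ z, ((h p : Equiv.Perm (Phase n)) (x + r • z) - (x + r • z)) ∂(etaMeasure n)‖ ≤ ε ∧
      ‖∫ z, fderiv ℝ (fun y => (h p : Equiv.Perm (Phase n)) y - y) (x + r • z) ∂(etaMeasure n)‖ ≤
        ε)
    · exact ⟨0, fun p hp => absurd hp (notMem_empty p)⟩
    · rintro S T hST ⟨N, h1⟩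
      exact ⟨N, fun p hp => h1 p (hST hp)⟩
    · rintro S T ⟨N, h1⟩ ⟨N', h1'⟩
      refine ⟨max N N', ?_⟩
      rintro p (hp | hp) x hx
      · exact h1 p hp x ((le_max_left _ _).trans hx)
      · exact h1' p hp x ((le_max_right _ _).trans hx)
    · intro p₀ _
      obtain ⟨R, hR0, hR⟩ := exists_radius_disp (h p₀)
      refine ⟨{p | edist (toSobolev q (h p)) (toSobolev q (h p₀)) < δ}, ?_, R + 2, ?_⟩
      · apply mem_nhdsWithin_of_mem_nhds
        have h1 := tendsto_iff_edist_tendsto_0.1 (hh.tendsto p₀)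
        exact h1 (gt_mem_nhds hδ)
      · intro p hp x hx
        set w : Phase n → Phase n := fun y =>
          (h p : Equiv.Perm (Phase n)) y - (h p₀ : Equiv.Perm (Phase n)) y with hw
        have hws : ContDiff ℝ ∞ w := contDiff_diff (h p) (h p₀)
        have hpd : sobNorm q w ≤ δ := le_of_lt hp
        have hae : ∀ᵐ z ∂(etaMeasure n), z ∈ Metric.closedBall (0 : Phase n) 1 := by
          rw [ae_iff]
          exact etaMeasure_compl
        have hfar : ∀ z ∈ Metric.closedBall (0 : Phase n) 1, R < ‖x + r • z‖ := by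
          intro z hz
          have hz' : ‖z‖ ≤ 1 := by simpa using hz
          have h1 : ‖r • z‖ ≤ 1 := by
            rw [norm_smul, Real.norm_of_nonneg hr.le]
            have := norm_nonneg z
            nlinarith
          have h2 : ‖x‖ ≤ ‖x + r • z‖ + ‖r • z‖ := by
            have := norm_sub_le (x + r • z) (r • z)
            rwa [add_sub_cancel_right] at this
          linarith
        have hopen : IsOpen {y : Phase n | R < ‖y‖} := isOpen_lt continuous_const continuous_norm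
        have heq : ∀ y : Phase n, R < ‖y‖ → (h p : Equiv.Perm (Phase n)) y - y = w y := by
          intro y hy
          have := hR y hy
          rw [hw]
          simp only
          rw [sub_eq_zero.1 this]
        have e1 : ∫ z, ((h p : Equiv.Perm (Phase n)) (x + r • z) - (x + r • z)) ∂(etaMeasure n) =
            ∫ z, w (x + r • z) ∂(etaMeasure n) := by
          apply integral_congr_ae
          filter_upwards [hae] with z hz
          exact heq _ (hfar z hz)
        have e2 : ∫ z, fderiv ℝ (fun y => (h p : Equiv.Perm (Phase n)) y - y) (x + r • z)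
            ∂(etaMeasure n) = ∫ z, fderiv ℝ w (x + r • z) ∂(etaMeasure n) := by
          apply integral_congr_ae
          filter_upwards [hae] with z hz
          apply Filter.EventuallyEq.fderiv_eq
          filter_upwards [hopen.mem_nhds (hfar z hz)] with y hy
          exact heq y hy
        have hfin : ∀ {F : Type} [NormedAddCommGroup F] (a : F), ‖a‖ₑ ≤ C * sobNorm q w →
            ‖a‖ ≤ ε := by
          intro F _ a ha
          have h1 : ‖a‖ₑ ≤ ENNReal.ofReal ε := ha.trans ((mul_le_mul' le_rfl hpd).trans hCδ)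
          rw [← ofReal_norm] at h1
          exact (ENNReal.ofReal_le_ofReal_iff hε.le).1 h1
        rw [e1, e2]
        exact ⟨hfin _ (hC' w hws x).1, hfin _ (hC' w hws x).2⟩
  obtain ⟨N, hN⟩ := key
  exact ⟨N, fun p x hx => hN p (mem_univ p) x hx⟩

end Pool.Agent.Helper17
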