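import Mathlib
import Pool.Agent.Helper17.SympBase
import Pool.Agent.Helper17.Near
import Pool.Agent.Helper17.DirectLimit
import Pool.Agent.Helper17.Potential
import Pool.Agent.Helper17.CFamily
import Pool.Agent.Helper17.CFInt
import Pool.Agent.Helper17.Moser
import Pool.Agent.Helper17.SympFamily
import Pool.Agent.Helper17.Averaging
import Pool.Agent.Helper17.FlatFamilies
import Pool.Agent.Helper17.ScaleFun
import Pool.Agent.Helper17.Deform
import Pool.Agent.Helper17.SobolevBase
import Pool.Agent.Helper17.SobolevCont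
import Pool.Agent.Helper17.SobolevTail

set_option maxSynthPendingDepth 3

open scoped ContDiff Topology ENNReal
open Set Function Filter MeasureTheory TopologicalSpace

namespace Pool.Agent.Helper17

variable {n : ℕ}

/-- The average of the displacement of `φ` at the place `x` and the scale `r`. -/
noncomputable def avgDisp (φ : SympCt n) (r : ℝ) (x : Phase n) : Phase n :=
  ∫ z, ((φ : Equiv.Perm (Phase n)) (x + r • z) - (x + r • z)) ∂(etaMeasure n)

lemma restrict_eta : (etaMeasure n).restrict (Metric.closedBall (0 : Phase n) 1) = etaMeasure n := by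
  rw [Measure.restrict_eq_self_of_ae_mem]
  rw [ae_iff]
  exact etaMeasure_compl

lemma avgDisp_eq (φ : SympCt n) (r : ℝ) (x : Phase n) : avgDisp φ r x =
    ∫ z in Metric.closedBall (0 : Phase n) 1,
      ((φ : Equiv.Perm (Phase n)) (x + r • z) - (x + r • z)) ∂(etaMeasure n) := by
  rw [restrict_eta]
  rfl

lemma avgDisp_zero (φ : SympCt n) (x : Phase n) :
    avgDisp φ 0 x = (φ : Equiv.Perm (Phase n)) x - x := by
  unfold avgDisp
  simp

lemma hasFDerivAt_avgDisp (φ : SympCt n) (r : ℝ) (x : Phase n) :
    HasFDerivAt (avgDisp φ r)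
      (∫ z, fderiv ℝ (fun y => (φ : Equiv.Perm (Phase n)) y - y) (x + r • z) ∂(etaMeasure n)) x := by
  have hu := contDiff_disp φ
  set u : Phase n → Phase n := fun y => (φ : Equiv.Perm (Phase n)) y - y with hu'
  set F : Unit × Phase n → Phase n → Phase n := fun q x => u (x + r • q.2) with hF
  have hFd : ∀ q x, fderiv ℝ (F q) x = fderiv ℝ u (x + r • q.2) := by
    intro q x
    simp only [hF]
    rw [fderiv_comp_add_right]
  have hc : Continuous (fun p : (Unit × Phase n) × Phase n => p.2 + r • p.1.2) :=
    continuous_snd.add ((continuous_snd.comp continuous_fst).const_smul r)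
  have h1 := hasFDerivAt_setIntegral (isCompact_closedBall (0 : Phase n) 1) (etaMeasure n) (F := F)
    (hu.continuous.comp hc)
    (fun q => (hu.differentiable (by simp)).comp
      ((differentiable_id).add (differentiable_const _)))
    (by
      simp only [hFd]
      exact (hu.continuous_fderiv (by simp)).comp hc) () x
  simp only [hFd] at h1
  rw [restrict_eta] at h1
  exact h1

lemma one_add_avgDisp (φ : SympCt n) (r : ℝ) (x : Phase n) :
    ContinuousLinearMap.id ℝ (Phase n) +
      ∫ z, fderiv ℝ (fun y => (φ : Equiv.Perm (Phase n)) y - y) (x + r • z) ∂(etaMeasure n) =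
    avgDeriv (etaMeasure n) (φ : Equiv.Perm (Phase n)) x r := by
  have h1 : Continuous (fun z => fderiv ℝ (φ : Equiv.Perm (Phase n)) (x + r • z)) :=
    ((SympCt.contDiff φ).continuous_fderiv (by simp)).comp
      (continuous_const.add (continuous_const_smul r))
  simp only [fderiv_disp]
  rw [integral_sub (integrable_of_continuous_supp _ etaMeasure_compl h1) (integrable_const _),
    avgDeriv]
  simp

/-- The smooth families at the ends of the deformation. -/
lemma CF_avgDisp {A T : Type} [TopologicalSpace A] [TopologicalSpace T] [CompactSpace T]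
    {f : T → SympCt n} (hf : Continuous f) {τ : A → T} (hτ : Continuous τ) {s : A → ℝ}
    (hs : Continuous s) : CF (fun (a : A) x => avgDisp (f (τ a)) (s a) x) := by
  obtain ⟨hfCF, -⟩ := CF_of_continuous hf
  have huCF : CF (fun (t : T) (x : Phase n) => (f t : Equiv.Perm (Phase n)) x - x) :=
    hfCF.sub (CF.const contDiff_id)
  have h1 : CF (fun (q : A × Phase n) (x : Phase n) => x + s q.1 • q.2) :=
    (CF.const contDiff_id).add (CF.param ((hs.comp continuous_fst).smul continuous_snd))
  have h2 : CF (fun (q : A × Phase n) (x : Phase n) =>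
      (f (τ q.1) : Equiv.Perm (Phase n)) (x + s q.1 • q.2) - (x + s q.1 • q.2)) :=
    (huCF.base (hτ.comp continuous_fst)).comp h1
  have h3 := h2.setIntegral (isCompact_closedBall (0 : Phase n) 1) (etaMeasure n)
  convert h3 using 3 with a x
  rw [avgDisp_eq]

/-- The average as an integral against a smooth kernel. -/
lemma avgDisp_kernel (φ : SympCt n) {r : ℝ} (hr : 0 < r) {x : Phase n} {S : ℝ}
    (hS : ‖x‖ + r ≤ S) : avgDisp φ r x =
    ∫ y in Metric.closedBall (0 : Phase n) S, ((r ^ (2 * n))⁻¹ * eta (Phase n) (r⁻¹ • (y - x))) •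
      ((φ : Equiv.Perm (Phase n)) y - y) := by
  have hfr : Module.finrank ℝ (Phase n) = 2 * n := by
    rw [finrank_euclideanSpace]
    simp [two_mul]
  set G : Phase n → Phase n := fun y => eta (Phase n) (r⁻¹ • (y - x)) •
    ((φ : Equiv.Perm (Phase n)) y - y) with hG
  have h1 : avgDisp φ r x = ∫ z, (fun z => G (x + z)) (r • z) := by
    unfold avgDisp
    rw [integral_etaMeasure]
    congr 1
    funext z
    simp only [hG]
    rw [add_sub_cancel_left, smul_smul, inv_mul_cancel₀ hr.ne', one_smul]
  rw [h1, Measure.integral_comp_smul volume (fun z => G (x + z)) r, hfr,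
    integral_add_left_eq_self (fun y => G y) x, abs_of_nonneg (by positivity), ← integral_smul]
  have h2 : ∀ y ∉ Metric.closedBall (0 : Phase n) S, (r ^ (2 * n))⁻¹ • G y = 0 := by
    intro y hy
    have hy' : S < ‖y‖ := by simpa using hy
    have h3 : 1 < ‖r⁻¹ • (y - x)‖ := by
      rw [norm_smul, norm_inv, Real.norm_of_nonneg hr.le, lt_inv_mul_iff₀ hr, mul_one]
      have := norm_sub_norm_le y x
      linarith
    have h4 : eta (Phase n) (r⁻¹ • (y - x)) = 0 := eta_eq_zero _ h3
    simp only [hG, h4, zero_smul, smul_zero]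
  rw [← setIntegral_eq_integral_of_forall_compl_eq_zero h2]
  congr 1
  funext y
  simp only [hG]
  rw [smul_smul]

/-- A continuous family in the Sobolev topology gives a continuous family of displacements. -/
lemma continuous_disp_of_sobolev {q : ℝ≥0∞} [Fact (1 ≤ q)] {P : Type} [TopologicalSpace P]
    {h : P → SympCt n} (hh : Continuous (fun p => toSobolev q (h p))) :
    Continuous (fun a : P × Phase n => (h a.1 : Equiv.Perm (Phase n)) a.2 - a.2) := by
  rw [continuous_iff_continuousAt]
  rintro ⟨p₀, y₀⟩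
  rw [ContinuousAt, tendsto_iff_edist_tendsto_0]
  have hb : ∀ a : P × Phase n, edist ((h a.1 : Equiv.Perm (Phase n)) a.2 - a.2)
      ((h p₀ : Equiv.Perm (Phase n)) y₀ - y₀) ≤
      edist (toSobolev q (h a.1)) (toSobolev q (h p₀)) +
        edist ((h p₀ : Equiv.Perm (Phase n)) a.2 - a.2)
          ((h p₀ : Equiv.Perm (Phase n)) y₀ - y₀) := by
    intro a
    refine (edist_triangle _ ((h p₀ : Equiv.Perm (Phase n)) a.2 - a.2) _).trans ?_
    gcongr
    rw [edist_eq_enorm_sub, sub_sub_sub_cancel_right]
    exact enorm_le_sobNorm q (fun y => (h a.1 : Equiv.Perm (Phase n)) y -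
      (h p₀ : Equiv.Perm (Phase n)) y) a.2
  have ht : Tendsto (fun a : P × Phase n => edist (toSobolev q (h a.1)) (toSobolev q (h p₀)) +
        edist ((h p₀ : Equiv.Perm (Phase n)) a.2 - a.2)
          ((h p₀ : Equiv.Perm (Phase n)) y₀ - y₀)) (𝓝 (p₀, y₀)) (𝓝 0) := by
    have h1 : Tendsto (fun a : P × Phase n => edist (toSobolev q (h a.1)) (toSobolev q (h p₀)))
        (𝓝 (p₀, y₀)) (𝓝 0) :=
      tendsto_iff_edist_tendsto_0.1 ((hh.comp continuous_fst).tendsto (p₀, y₀))
    have h2 : Tendsto (fun a : P × Phase n => edist ((h p₀ : Equiv.Perm (Phase n)) a.2 - a.2)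
          ((h p₀ : Equiv.Perm (Phase n)) y₀ - y₀)) (𝓝 (p₀, y₀)) (𝓝 0) :=
      tendsto_iff_edist_tendsto_0.1
        (((contDiff_disp (h p₀)).continuous.comp continuous_snd).tendsto (p₀, y₀))
    simpa using h1.add h2
  exact tendsto_of_tendsto_of_tendsto_of_le_of_le tendsto_const_nhds ht (fun _ => zero_le) hb

/-- The smooth family in the middle of the deformation. -/
lemma CF_kernel {q : ℝ≥0∞} [Fact (1 ≤ q)] {P : Type} [TopologicalSpace P]
    {h : P → SympCt n} (hh : Continuous (fun p => toSobolev q (h p))) (r S : ℝ) :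
    CF (fun (p : P) (x : Phase n) => ∫ y in Metric.closedBall (0 : Phase n) S,
      ((r ^ (2 * n))⁻¹ * eta (Phase n) (r⁻¹ • (y - x))) •
        ((h p : Equiv.Perm (Phase n)) y - y)) := by
  have h1 : CF (fun (a : P × Phase n) (x : Phase n) => a.2 - x) :=
    (CF.param continuous_snd).sub (CF.const contDiff_id)
  have h2 : CF (fun (a : P × Phase n) (x : Phase n) =>
      (r ^ (2 * n))⁻¹ * eta (Phase n) (r⁻¹ • (a.2 - x))) :=
    CF.comp_smooth (g := fun v : Phase n => (r ^ (2 * n))⁻¹ * eta (Phase n) (r⁻¹ • v))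
      (fun _ _ => (contDiff_const.mul ((contDiff_eta (Phase n)).comp
        (contDiff_const_smul r⁻¹))).contDiffAt) h1
  have h3 : CF (fun (a : P × Phase n) (x : Phase n) =>
      ((r ^ (2 * n))⁻¹ * eta (Phase n) (r⁻¹ • (a.2 - x))) •
        ((h a.1 : Equiv.Perm (Phase n)) a.2 - a.2)) :=
    CF.smul h2 (CF.param (continuous_disp_of_sobolev hh))
  have : IsFiniteMeasure (volume.restrict (Metric.closedBall (0 : Phase n) S)) :=
    ⟨by rw [Measure.restrict_apply MeasurableSet.univ, univ_inter]; exact measure_closedBall_lt_top⟩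
  have h4 := h3.setIntegral (isCompact_closedBall (0 : Phase n) S)
    (volume.restrict (Metric.closedBall (0 : Phase n) S))
  rw [Measure.restrict_restrict measurableSet_closedBall, inter_self] at h4
  exact h4

end Pool.Agent.Helper17
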