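import Mathlib
import Pool.Agent.Helper17.SympBase
import Pool.Agent.Helper17.Near
import Pool.Agent.Helper17.DirectLimit
import Pool.Agent.Helper17.Potential
import Pool.Agent.Helper17.CFamily
import Pool.Agent.Helper17.CFInt
import Pool.Agent.Helper17.Moser
import Pool.Agent.Helper17.SympFamily
import Pool.Agent.Helper17.Averaging
import Pool.Agent.Helper17.FlatFamilies
import Pool.Agent.Helper17.ScaleFun
import Pool.Agent.Helper17.Deform
import Pool.Agent.Helper17.SobolevBase
import Pool.Agent.Helper17.SobolevCont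
import Pool.Agent.Helper17.SobolevTail
import Pool.Agent.Helper17.SobolevHomotopy

set_option maxSynthPendingDepth 3

open scoped ContDiff Topology ENNReal
open Set Function Filter MeasureTheory TopologicalSpace

namespace Pool.Agent.Helper17

variable {n : ℕ}

/-- The identity map from the group to the group with the Sobolev topology, as a continuous
map. -/
def toSobolevC (n : ℕ) (p : ℝ≥0∞) [Fact (1 ≤ p)] : C(SympCt n, SobolevSymp n p) :=
  ⟨toSobolev p, continuous_toSob p⟩

/-- The cut-off function at the radius `R`. -/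
noncomputable def cutR (n : ℕ) (R : ℝ) (x : Phase n) : ℝ := bmp n (R⁻¹ • x)

lemma contDiff_cutR (R : ℝ) : ContDiff ℝ ∞ (cutR n R) :=
  (contDiff_bmp n).comp (contDiff_const_smul R⁻¹)

lemma cutR_one {R : ℝ} (hR : 0 < R) {x : Phase n} (hx : ‖x‖ ≤ R) : cutR n R x = 1 := by
  apply bmp_one
  rw [norm_smul, norm_inv, Real.norm_of_nonneg hR.le, inv_mul_le_iff₀ hR, mul_one]
  exact hx

lemma cutR_zero {R : ℝ} (hR : 0 < R) {x : Phase n} (hx : 2 * R ≤ ‖x‖) : cutR n R x = 0 := by
  apply bmp_zero
  rw [norm_smul, norm_inv, Real.norm_of_nonneg hR.le, le_inv_mul_iff₀ hR]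
  linarith

lemma abs_cutR_le (R : ℝ) (x : Phase n) : |cutR n R x| ≤ 1 := by
  unfold cutR
  rw [abs_of_nonneg (bmp n).nonneg]
  exact (bmp n).le_one

lemma norm_fderiv_cutR_le {C : ℝ} (hC : ∀ y, ‖fderiv ℝ (bmp n) y‖ ≤ C) {R : ℝ}
    (hR : 1 ≤ R) (x : Phase n) : ‖fderiv ℝ (cutR n R) x‖ ≤ C := by
  have hR0 : 0 < R := by linarith
  have h1 : HasFDerivAt (fun x : Phase n => R⁻¹ • x) (R⁻¹ • ContinuousLinearMap.id ℝ (Phase n)) x :=
    (hasFDerivAt_id x).const_smul R⁻¹
  have h2 : HasFDerivAt (cutR n R) _ x :=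
    ((contDiff_bmp n).differentiable (by simp) (R⁻¹ • x)).hasFDerivAt.comp x h1
  rw [h2.fderiv, ContinuousLinearMap.comp_smul, ContinuousLinearMap.comp_id, norm_smul, norm_inv,
    Real.norm_of_nonneg hR0.le]
  have h3 : R⁻¹ ≤ 1 := inv_le_one_of_one_le₀ hR
  calc R⁻¹ * ‖fderiv ℝ (bmp n) (R⁻¹ • x)‖ ≤ 1 * C := by
        gcongr
        exact hC _
    _ = C := one_mul C

/-- At and above the critical exponent, families of symplectomorphisms which are homotopic in
the Sobolev topology are homotopic. -/
theorem homotopic_of_sobolev (hn : n ≠ 0) (q : ℝ≥0∞) [hq1 : Fact (1 ≤ q)]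
    (hq : (2 * n : ℝ≥0∞) ≤ q) {T : Type} [TopologicalSpace T] [CompactSpace T]
    (f g : C(T, SympCt n))
    (hfg : ((toSobolevC n q).comp f).Homotopic ((toSobolevC n q).comp g)) : f.Homotopic g := by
  obtain ⟨H⟩ := hfg
  -- the extended homotopy
  set c : Icc (0 : ℝ) 1 → unitInterval := fun τ =>
    projIcc (0 : ℝ) 1 zero_le_one (3 * (τ : ℝ) - 1) with hc
  have hcc : Continuous c := continuous_projIcc.comp
    ((continuous_const.mul continuous_subtype_val).sub continuous_const)
  set h : T × Icc (0 : ℝ) 1 → SympCt n := fun p => ofSobolev (H (c p.2, p.1)) with hh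
  have hhc : Continuous (fun p => toSobolev q (h p)) := by
    have h1 : Continuous (fun p : T × Icc (0 : ℝ) 1 => H (c p.2, p.1)) :=
      H.continuous.comp ((hcc.comp continuous_snd).prodMk continuous_fst)
    exact h1
  have hhf : ∀ p : T × Icc (0 : ℝ) 1, (p.2 : ℝ) ≤ 1 / 3 → h p = f p.1 := by
    intro p hp
    have h1 : c p.2 = 0 := projIcc_of_le_left zero_le_one (by linarith)
    simp only [hh, h1]
    exact H.map_zero_left p.1
  have hhg : ∀ p : T × Icc (0 : ℝ) 1, 2 / 3 ≤ (p.2 : ℝ) → h p = g p.1 := by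
    intro p hp
    have h1 : c p.2 = 1 := projIcc_of_right_le zero_le_one (by linarith)
    simp only [hh, h1]
    exact H.map_one_left p.1
  -- the constants
  obtain ⟨r, hr0, hr1, hr⟩ := exists_common_scale hn hq hhc
  obtain ⟨Cχ, hCχ0, hCχ⟩ := exists_bmp_bound n
  obtain ⟨N, hN⟩ := exists_tail hhc hr0 hr1 (ε := 1 / (3 * (Cχ + 1))) (by positivity)
  obtain ⟨Nf, hNf⟩ : ∃ N : ℝ, ∀ t x, N < ‖x‖ → (f t : Equiv.Perm (Phase n)) x - x = 0 := by
    obtain ⟨-, K, hK⟩ := CF_of_continuous f.continuous
    obtain ⟨N, hN⟩ := K.isCompact.isBounded.subset_closedBall (0 : Phase n)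
    refine ⟨N, fun t x hx => ?_⟩
    have : x ∉ K := fun h => by
      have := hN h
      rw [mem_closedBall_zero_iff] at this
      linarith
    rw [hK t x this, sub_self]
  obtain ⟨Ng, hNg⟩ : ∃ N : ℝ, ∀ t x, N < ‖x‖ → (g t : Equiv.Perm (Phase n)) x - x = 0 := by
    obtain ⟨-, K, hK⟩ := CF_of_continuous g.continuous
    obtain ⟨N, hN⟩ := K.isCompact.isBounded.subset_closedBall (0 : Phase n)
    refine ⟨N, fun t x hx => ?_⟩
    have : x ∉ K := fun h => by
      have := hN h
      rw [mem_closedBall_zero_iff] at this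
      linarith
    rw [hK t x this, sub_self]
  obtain ⟨R, hR⟩ : ∃ R : ℝ, R = |N| + |Nf| + |Ng| + 3 := ⟨_, rfl⟩
  have hR3 : 3 ≤ R := by
    rw [hR]
    have := abs_nonneg N
    have := abs_nonneg Nf
    have := abs_nonneg Ng
    linarith
  have hR0 : 0 < R := by linarith
  have hRN : N ≤ R := by
    rw [hR]
    have := le_abs_self N
    have := abs_nonneg Nf
    have := abs_nonneg Ng
    linarith
  have hRf : Nf + 2 < R := by
    rw [hR]
    have := abs_nonneg N
    have := le_abs_self Nf
    have := abs_nonneg Ng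
    linarith
  have hRg : Ng + 2 < R := by
    rw [hR]
    have := abs_nonneg N
    have := abs_nonneg Nf
    have := le_abs_self Ng
    linarith
  -- the scale
  set rad : Icc (0 : ℝ) 1 → ℝ := fun τ => r * min 1 (min (3 * (τ : ℝ)) (3 - 3 * (τ : ℝ))) with hrad
  have hradc : Continuous rad := by
    apply continuous_const.mul
    exact continuous_const.min ((continuous_const.mul continuous_subtype_val).min
      (continuous_const.sub (continuous_const.mul continuous_subtype_val)))
  have hrad0 : ∀ τ, 0 ≤ rad τ := fun τ => mul_nonneg hr0.le (le_min zero_le_one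
    (le_min (mul_nonneg (by norm_num) τ.2.1) (by have := τ.2.2; linarith)))
  have hradr : ∀ τ, rad τ ≤ r := fun τ => mul_le_of_le_one_right hr0.le (min_le_left _ _)
  have hradmid : ∀ τ : Icc (0 : ℝ) 1, 1 / 3 ≤ (τ : ℝ) → (τ : ℝ) ≤ 2 / 3 → rad τ = r := by
    intro τ h1 h2
    simp only [hrad]
    rw [min_eq_left (le_min (by linarith) (by linarith)), mul_one]
  -- the deformation
  set Ψ : T × Icc (0 : ℝ) 1 → Phase n → Phase n := fun p x =>
    x + cutR n R x • avgDisp (h p) (rad p.2) x with hΨ
  -- displacement averages vanish far away at the ends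
  have hend : ∀ (k : SympCt n) (Nk : ℝ), (∀ x, Nk < ‖x‖ → (k : Equiv.Perm (Phase n)) x - x = 0) →
      ∀ (s : ℝ), 0 ≤ s → s ≤ 1 → ∀ x : Phase n, Nk + 1 < ‖x‖ → avgDisp k s x = 0 := by
    intro k Nk hk s hs0 hs1 x hx
    rw [avgDisp_eq]
    apply setIntegral_eq_zero_of_forall_eq_zero
    intro z hz
    apply hk
    have hz' : ‖z‖ ≤ 1 := by simpa using hz
    have h1 : ‖s • z‖ ≤ 1 := by
      rw [norm_smul, Real.norm_of_nonneg hs0]
      have := norm_nonneg z
      nlinarith
    have h2 : ‖x‖ ≤ ‖x + s • z‖ + ‖s • z‖ := by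
      have := norm_sub_le (x + s • z) (s • z)
      rwa [add_sub_cancel_right] at this
    linarith
  have hcutCF : ∀ {A : Type} [TopologicalSpace A], CF (fun (_ : A) (x : Phase n) => cutR n R x) :=
    fun {A} _ => CF.const (contDiff_cutR R)
  have hidCF : ∀ {A : Type} [TopologicalSpace A], CF (fun (_ : A) (x : Phase n) => x) :=
    fun {A} _ => CF.const contDiff_id
  have hΨCF : CF Ψ := by
    apply CF_of_closed_cover (A := {p | (p.2 : ℝ) ≤ 1 / 3})
      (B := {p | 1 / 3 ≤ (p.2 : ℝ) ∧ (p.2 : ℝ) ≤ 2 / 3}) (C := {p | 2 / 3 ≤ (p.2 : ℝ)})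
    · exact isClosed_le (continuous_subtype_val.comp continuous_snd) continuous_const
    · exact (isClosed_le continuous_const (continuous_subtype_val.comp continuous_snd)).inter
        (isClosed_le (continuous_subtype_val.comp continuous_snd) continuous_const)
    · exact isClosed_le continuous_const (continuous_subtype_val.comp continuous_snd)
    · rw [eq_univ_iff_forall]
      intro p
      simp only [mem_union, mem_ofPred_eq]
      rcases le_total (p.2 : ℝ) (1 / 3) with h1 | h1
      · exact Or.inl (Or.inl h1)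
      · rcases le_total (p.2 : ℝ) (2 / 3) with h2 | h2
        · exact Or.inl (Or.inr ⟨h1, h2⟩)
        · exact Or.inr h2
    · have h1 := CF_avgDisp (A := {p : T × Icc (0 : ℝ) 1 | (p.2 : ℝ) ≤ 1 / 3}) f.continuous
        (τ := fun a => a.1.1) (continuous_fst.comp continuous_subtype_val)
        (s := fun a => rad a.1.2) (hradc.comp (continuous_snd.comp continuous_subtype_val))
      have h2 := hidCF.add (hcutCF.smul h1)
      convert h2 using 3 with a x
      simp only [hΨ]
      rw [hhf a.1 a.2]
    · have h1 := (CF_kernel hhc r (2 * R + 1)).base (T' := {p : T × Icc (0 : ℝ) 1 |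
        1 / 3 ≤ (p.2 : ℝ) ∧ (p.2 : ℝ) ≤ 2 / 3}) continuous_subtype_val
      have h2 := hidCF.add (hcutCF.smul h1)
      convert h2 using 3 with a x
      simp only [hΨ]
      rw [hradmid a.1.2 a.2.1 a.2.2]
      rcases le_total (2 * R) ‖x‖ with h3 | h3
      · rw [cutR_zero hR0 h3, zero_smul, zero_smul]
      · rw [avgDisp_kernel (h a.1) hr0 (x := x) (S := 2 * R + 1) (by linarith)]
    · have h1 := CF_avgDisp (A := {p : T × Icc (0 : ℝ) 1 | 2 / 3 ≤ (p.2 : ℝ)}) g.continuous
        (τ := fun a => a.1.1) (continuous_fst.comp continuous_subtype_val)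
        (s := fun a => rad a.1.2) (hradc.comp (continuous_snd.comp continuous_subtype_val))
      have h2 := hidCF.add (hcutCF.smul h1)
      convert h2 using 3 with a x
      simp only [hΨ]
      rw [hhg a.1 a.2]
  apply homotopic_of_deformation f g Ψ hΨCF (isCompact_closedBall (0 : Phase n) (2 * R))
  · -- support
    intro p x hx
    have hx' : 2 * R < ‖x‖ := by simpa using hx
    simp only [hΨ]
    rw [cutR_zero hR0 hx'.le, zero_smul, add_zero]
  · -- admissibility
    intro p x
    rcases lt_or_ge ‖x‖ R with hx | hx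
    · have h1 : Ψ p =ᶠ[𝓝 x] fun y => y + avgDisp (h p) (rad p.2) y := by
        filter_upwards [(isOpen_lt continuous_norm continuous_const).mem_nhds hx] with y hy
        simp only [hΨ]
        rw [cutR_one hR0 (le_of_lt hy), one_smul]
      have h2 : HasFDerivAt (fun y => y + avgDisp (h p) (rad p.2) y)
          (avgDeriv (etaMeasure n) (h p : Equiv.Perm (Phase n)) x (rad p.2)) x := by
        rw [← one_add_avgDisp]
        exact (hasFDerivAt_id x).add (hasFDerivAt_avgDisp (h p) (rad p.2) x)
      rw [h1.fderiv_eq, h2.fderiv]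
      rcases (hrad0 p.2).eq_or_lt with h0 | h0
      · rw [← h0]
        have : avgDeriv (etaMeasure n) (h p : Equiv.Perm (Phase n)) x 0 =
            fderiv ℝ (h p : Equiv.Perm (Phase n)) x := by
          simp [avgDeriv]
        rw [this]
        exact admissible_of_symplectic fun a b => (h p).2.2.2.1 x a b
      · exact hr p x (rad p.2) h0 (hradr p.2)
    · by_cases hmid : 1 / 3 ≤ (p.2 : ℝ) ∧ (p.2 : ℝ) ≤ 2 / 3
      · have hrr := hradmid p.2 hmid.1 hmid.2
        have h1 := hN p x (hRN.trans hx)
        set D := ∫ z, fderiv ℝ (fun y => (h p : Equiv.Perm (Phase n)) y - y) (x + r • z)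
          ∂(etaMeasure n) with hD
        have h2 : HasFDerivAt (avgDisp (h p) r) D x := hasFDerivAt_avgDisp (h p) r x
        have h3 : HasFDerivAt (Ψ p) (ContinuousLinearMap.id ℝ (Phase n) +
            (cutR n R x • D + (fderiv ℝ (cutR n R) x).smulRight (avgDisp (h p) r x))) x := by
          have h4 := (((contDiff_cutR (n := n) R).differentiable (by simp) x).hasFDerivAt).smul h2
          have h5 := (hasFDerivAt_id x).add h4
          have h6 : Ψ p = id + cutR n R • avgDisp (h p) r := by
            funext y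
            simp only [hΨ, hrr]
            rfl
          rw [h6]
          exact h5
        rw [h3.fderiv]
        apply admissible_of_near_one
        rw [add_sub_cancel_left]
        have hu : ‖avgDisp (h p) r x‖ ≤ 1 / (3 * (Cχ + 1)) := h1.1
        have hd : ‖D‖ ≤ 1 / (3 * (Cχ + 1)) := h1.2
        calc ‖cutR n R x • D + (fderiv ℝ (cutR n R) x).smulRight (avgDisp (h p) r x)‖ ≤
              ‖cutR n R x • D‖ + ‖(fderiv ℝ (cutR n R) x).smulRight (avgDisp (h p) r x)‖ :=
              norm_add_le _ _
          _ ≤ 1 * (1 / (3 * (Cχ + 1))) + Cχ * (1 / (3 * (Cχ + 1))) := by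
              rw [norm_smul, ContinuousLinearMap.norm_smulRight_apply]
              gcongr
              · exact abs_cutR_le R x
              · exact norm_fderiv_cutR_le hCχ (by linarith) x
          _ = 1 / 3 := by
              field_simp
              ring
      · have hzero : ∀ y : Phase n, R - 1 < ‖y‖ → avgDisp (h p) (rad p.2) y = 0 := by
          intro y hy
          rcases not_and_or.1 hmid with h1 | h1
          · rw [hhf p (by push Not at h1; exact h1.le)]
            exact hend (f p.1) Nf (hNf p.1) _ (hrad0 _) ((hradr _).trans hr1) y (by linarith)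
          · rw [hhg p (by push Not at h1; exact h1.le)]
            exact hend (g p.1) Ng (hNg p.1) _ (hrad0 _) ((hradr _).trans hr1) y (by linarith)
        have h1 : Ψ p =ᶠ[𝓝 x] fun y => y := by
          have hx' : R - 1 < ‖x‖ := by linarith
          filter_upwards [(isOpen_lt continuous_const continuous_norm).mem_nhds hx'] with y hy
          simp only [hΨ]
          rw [hzero y hy, smul_zero, add_zero]
        rw [h1.fderiv_eq, fderiv_fun_id]
        apply admissible_of_near_one
        simp
  · -- start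
    intro t x
    have h1 : rad ⟨0, left_mem_Icc.2 zero_le_one⟩ = 0 := by simp [hrad]
    simp only [hΨ, h1]
    rw [hhf (t, ⟨0, left_mem_Icc.2 zero_le_one⟩) (by norm_num), avgDisp_zero]
    rcases le_total ‖x‖ R with hx | hx
    · rw [cutR_one hR0 hx, one_smul]
      abel
    · have h2 := hNf t x (by linarith)
      rw [h2, smul_zero, add_zero]
      exact (sub_eq_zero.1 h2).symm
  · -- end
    intro t x
    have h1 : rad ⟨1, right_mem_Icc.2 zero_le_one⟩ = 0 := by simp [hrad]
    simp only [hΨ, h1]
    rw [hhg (t, ⟨1, right_mem_Icc.2 zero_le_one⟩) (by norm_num), avgDisp_zero]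
    rcases le_total ‖x‖ R with hx | hx
    · rw [cutR_one hR0 hx, one_smul]
      abel
    · have h2 := hNg t x (by linarith)
      rw [h2, smul_zero, add_zero]
      exact (sub_eq_zero.1 h2).symm

end Pool.Agent.Helper17
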