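import Mathlib
import Pool.Agent.Helper17.SympBase
import Pool.Agent.Helper17.SobolevBase
import Pool.Agent.Helper17.SobolevContract
import Pool.Agent.Helper17.SobolevMain

open scoped ContDiff Topology ENNReal
open Set Function TopologicalSpace MeasureTheory

namespace Pool.Agent.Results.MP_ec5dc5_gt.SobolevThreshold

open Pool.Agent.Helper17

/-- Let `G = Symp_ct(ℝ^{2n})` with the direct limit topology, and let `G_p = SobolevSymp n p` be
the same set with the distance of `C^0 ∩ W^{2,p}`, `1 ≤ p ≤ ∞`. If `p < 2n` then `G_p` is
contractible; if `p ≥ 2n` then two continuous maps from a compact space to `G` are homotopic if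
and only if they are homotopic as maps to `G_p`. -/
theorem result (n : ℕ) (p : ℝ≥0∞) [Fact (1 ≤ p)] :
    (p < 2 * n → ContractibleSpace (SobolevSymp n p)) ∧
    (2 * n ≤ p → ∀ (T : Type) [TopologicalSpace T] [CompactSpace T] (f g : C(T, SympCt n)),
      f.Homotopic g ↔ ((toSobolevC n p).comp f).Homotopic ((toSobolevC n p).comp g)) := by
  refine ⟨fun h => contractible_sobolev p h, fun h T _ _ f g => ⟨fun hfg => ?_, fun hfg => ?_⟩⟩
  · exact ContinuousMap.Homotopic.comp (ContinuousMap.Homotopic.refl (toSobolevC n p)) hfg
  · rcases eq_or_ne n 0 with hn | hn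
    · subst hn
      have hsub : Subsingleton (SympCt 0) :=
        ⟨fun φ ψ => SympCt.ext' fun x => Subsingleton.elim _ _⟩
      have : f = g := ContinuousMap.ext fun t => Subsingleton.elim _ _
      rw [this]
    · exact homotopic_of_sobolev hn p h f g hfg

end Pool.Agent.Results.MP_ec5dc5_gt.SobolevThreshold
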